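import Pool.Agent.Lib.RX.Kit0

/-! Project rx29, block ARG: estimates for the compensator. -/

namespace Pool.Agent.Lib.RX

open Finset Real MeasureTheory Filter Topology Pool.Agent.Lib.RM67 Pool.Agent.Lib.RM67.T96

noncomputable section

namespace ARG

theorem half (m : ℕ) (t : ℝ) :
    bb m t ^ 2 / 2 = be m ^ 2 / 4 + be m ^ 2 / 4 * cos (2 * log m * t) := by
  rw [bb, mul_pow, cos_sq, mul_assoc 2]
  ring

theorem sumD (i : ℕ) (t : ℝ) : ∀ k, ∑ m ∈ Ico i (i + k), DD m t =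
    ∑ m ∈ Ioc (Y i) (Y (i + k)), be m ^ 2 / 4 * cos (2 * log m * t)
  | 0 => by simp
  | k + 1 => by
    rw [← add_assoc, sum_Ico_succ_top (Nat.le_add_right i k), sumD i t k, DD]
    exact sum_Ioc_consecutive _
      (Nat.pow_le_pow_right two_pos (Nat.pow_le_pow_right two_pos (Nat.le_add_right i k)))
      (Nat.pow_le_pow_right two_pos (Nat.pow_le_pow_right two_pos (Nat.le_succ _)))

theorem one (i k : ℕ) (t : ℝ) : k * log 2 - 35 - ∑ m ∈ Ico i (i + k), |DD m t| ≤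
    ∑ n ∈ Ico (Y i) (Y (i + k)), bb n t ^ 2 / 2 := by
  have hY : Y i ≤ Y (i + k) :=
    Nat.pow_le_pow_right two_pos (Nat.pow_le_pow_right two_pos (Nat.le_add_right i k))
  have hp : 0 < Y i := Nat.pow_pos two_pos
  have h1 : ∑ n ∈ Ioc (Y i) (Y (i + k)), bb n t ^ 2 / 2 ≤
      ∑ n ∈ insert (Y (i + k)) (Ico (Y i) (Y (i + k))), bb n t ^ 2 / 2 :=
    sum_le_sum_of_subset_of_nonneg (fun m hm => by
      rw [mem_Ioc] at hm
      rw [mem_insert, mem_Ico]
      omega) fun _ _ _ => by positivity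
  rw [sum_insert (by simp)] at h1
  have h2 : ∑ m ∈ Ioc (Y i) (Y (i + k)), (r m - 2 * ((m : ℝ) ^ 2)⁻¹ +
      be m ^ 2 / 4 * cos (2 * log m * t)) ≤ ∑ m ∈ Ioc (Y i) (Y (i + k)), bb m t ^ 2 / 2 := by
    refine sum_le_sum fun m _ => ?_
    have h3 := (be_sq_le m).2.2
    have h4 : r m ^ 2 ≤ ((m : ℝ) ^ 2)⁻¹ := by
      rw [← inv_pow, ← one_div]
      exact pow_le_pow_left₀ (r_nonneg m) (r_le_inv m) 2
    rw [half]
    linarith
  rw [sum_add_distrib, sum_sub_distrib, ← mul_sum, ← sumD] at h2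
  have h5 : log (((2 ^ (i + k) : ℕ) : ℝ) / (2 ^ i : ℕ)) - 32 ≤
      ∑ m ∈ Ioc (Y i) (Y (i + k)), r m :=
    sr_ge Nat.one_le_two_pow (Nat.pow_le_pow_right two_pos (Nat.le_add_right i k))
  have e : ((2 ^ (i + k) : ℕ) : ℝ) / (2 ^ i : ℕ) = 2 ^ k := by
    push_cast
    rw [pow_add]
    field_simp
  rw [e, log_pow] at h5
  have h6 := sum_Ioc_inv_sq_le_sub (α := ℝ) hp.ne' hY
  have h7 : (0 : ℝ) ≤ ((Y (i + k) : ℕ) : ℝ)⁻¹ := by positivity
  have h8 : ((Y i : ℕ) : ℝ)⁻¹ ≤ 1 := inv_le_one_of_one_le₀ (by exact_mod_cast hp)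
  have h9 : -∑ m ∈ Ico i (i + k), |DD m t| ≤ ∑ m ∈ Ico i (i + k), DD m t := by
    rw [← sum_neg_distrib]
    exact sum_le_sum fun _ _ => neg_abs_le _
  linarith [bb_sq_le (Y (i + k)) t]

theorem two (i : ℕ) (t : ℝ) : AA (Y i) t ≤ i * log 2 + 35 + Ph i t := by
  have h1 : AA (Y i) t ≤ ∑ m ∈ range 3 ∪ Ioc (2 ^ 1) (2 ^ 2 ^ i), bb m t ^ 2 / 2 :=
    sum_le_sum_of_subset_of_nonneg (fun m hm => by
      rw [mem_range, Y] at hm
      rw [mem_union, mem_range, mem_Ioc]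
      omega) fun _ _ _ => by positivity
  rw [sum_union (by
    rw [disjoint_left]
    intro m hm hm'
    rw [mem_range] at hm
    rw [mem_Ioc] at hm'
    omega)] at h1
  have h2 : ∑ m ∈ range 3, bb m t ^ 2 / 2 ≤ 2 := by
    simp only [sum_range_succ, sum_range_zero]
    linarith [bb_sq_le 0 t, bb_sq_le 1 t, bb_sq_le 2 t]
  have h3 : ∑ m ∈ Ioc (2 ^ 1) (2 ^ 2 ^ i), bb m t ^ 2 / 2 ≤
      ∑ m ∈ Ioc (2 ^ 1) (2 ^ 2 ^ i), (r m + be m ^ 2 / 4 * cos (2 * log m * t)) :=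
    sum_le_sum fun m _ => by
      rw [half]
      linarith [(be_sq_le m).2.1]
  rw [sum_add_distrib, ← sum_DD] at h3
  have h4 : ∑ m ∈ Ioc (2 ^ 1) (2 ^ 2 ^ i), r m ≤ ∑ m ∈ range (2 ^ (2 ^ i + 1)), r m :=
    sum_le_sum_of_subset_of_nonneg (fun m hm => by
      rw [mem_Ioc] at hm
      rw [mem_range, pow_succ]
      omega) fun m _ _ => r_nonneg m
  have h0 : 1 ≤ 2 ^ i := Nat.one_le_two_pow
  have h5 := sr_le (a := 2 ^ i + 1) (by omega)
  have h6 : log ((2 ^ i + 1 : ℕ) : ℝ) ≤ (i + 1 : ℕ) * log 2 := by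
    rw [← log_pow]
    refine log_le_log (by positivity) ?_
    have : 2 ^ i + 1 ≤ 2 ^ (i + 1) := by rw [pow_succ]; omega
    exact_mod_cast this
  have h7 : ∑ m ∈ range i, DD m t ≤ Ph i t := sum_le_sum fun _ _ => le_abs_self _
  rw [Nat.cast_add i 1, Nat.cast_one, add_mul, one_mul] at h6
  have h8 := h3.trans (add_le_add ((h4.trans h5).trans (add_le_add h6 le_rfl)) h7)
  have h9 := h1.trans (add_le_add h2 h8)
  linarith [log_two_lt_d9]

theorem log_le {x : ℝ} (hx : |x| ≤ 17 / 18) : log (1 + x) ≤ x - x ^ 2 / 2 + 18 * |x| ^ 3 := by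
  have h := (abs_le.1 (abs_log_sub_add_sum_range_le (x := -x) (by rw [abs_neg]; linarith) 2)).2
  have h2 : |x| ^ 3 / (1 - |x|) ≤ 18 * |x| ^ 3 := by
    rw [div_le_iff₀ (by linarith)]
    nlinarith [pow_nonneg (abs_nonneg x) 3]
  simp only [sum_range_succ, sum_range_zero, abs_neg, sub_neg_eq_add] at h
  norm_num at h
  linarith

theorem three (t : ℝ) : ∀ l, log (R l t) ≤
    WW l t + AA l.length t + 18 * ∑ m ∈ range l.length, |bb m t| ^ 3
  | [] => by simp [WW, AA, R]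
  | b :: l => by
    have h1 := three t l
    have h2 := log_le (abs_sb b l.length t)
    have h3 : (sg b * bb l.length t) ^ 2 = bb l.length t ^ 2 := by cases b <;> simp
    rw [h3, abs_mul, abs_sg, one_mul] at h2
    rw [R, log_mul (R_pos t l).ne' (by linarith [fac_ge b l.length t]), WW, List.length_cons, AA,
      sum_range_succ, sum_range_succ]
    unfold AA at h1
    linarith

theorem step {n : ℕ} (hn : 1 ≤ n) (t : ℝ) :
    |bb n t| ^ 3 ≤ 32 / √n - 32 / √(n + 1 : ℕ) := by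
  have h1 : (1 : ℝ) ≤ n := by exact_mod_cast hn
  have hx : √(n : ℝ) ^ 2 = n := sq_sqrt (by positivity)
  have hy : √((n + 1 : ℕ) : ℝ) ^ 2 = n + 1 := by rw [sq_sqrt (by positivity)]; push_cast; rfl
  have x0 : 0 < √(n : ℝ) := sqrt_pos.2 (by positivity)
  have y0 : 0 < √((n + 1 : ℕ) : ℝ) := sqrt_pos.2 (by positivity)
  have h2 : |bb n t| ≤ 2 / √(n : ℝ) := by
    refine (abs_bb n t).trans (abs_le_of_sq_le_sq' ?_ (by positivity)).2
    rw [div_pow, hx]
    have := r_le_inv n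
    have e : (2 : ℝ) ^ 2 / n = 4 * (1 / n) := by ring
    linarith [(be_sq_le n).2.1]
  refine (pow_le_pow_left₀ (abs_nonneg _) h2 3).trans ?_
  generalize √(n : ℝ) = x at *
  generalize √((n + 1 : ℕ) : ℝ) = y at *
  have h3 : y ≤ 2 * x := (abs_le_of_sq_le_sq' (by nlinarith) (by positivity)).2
  have h4 : y ≤ 4 * x ^ 2 * (y - x) := by
    refine le_of_mul_le_mul_right ?_ (show 0 < y + x by positivity)
    have e : 4 * x ^ 2 * (y - x) * (y + x) = 4 * x ^ 2 * (y ^ 2 - x ^ 2) := by ring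
    rw [e, hy, hx]
    nlinarith
  rw [div_pow, div_sub_div _ _ x0.ne' y0.ne', div_le_div_iff₀ (by positivity) (by positivity)]
  nlinarith [mul_le_mul_of_nonneg_left h4 x0.le]

theorem four {a : ℕ} (ha : 1 ≤ a) (b : ℕ) (t : ℝ) : ∑ n ∈ Ico a b, |bb n t| ^ 3 ≤ 32 / √a := by
  rcases le_total a b with h | h
  · have : ∑ n ∈ Ico a b, |bb n t| ^ 3 ≤ 32 / √a - 32 / √b := by
      induction b, h using Nat.le_induction with
      | base => simp
      | succ b h ih =>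
        rw [sum_Ico_succ_top h]
        linarith [step (ha.trans h) t]
    have h0 : (0 : ℝ) ≤ 32 / √b := by positivity
    linarith
  · rw [Ico_eq_empty_of_le h, sum_empty]
    positivity

theorem five (k : ℕ) (t : ℝ) : |DD k t| ≤ 8 := by
  refine (abs_sum_le_sum_abs _ _).trans (le_trans ?_ (sr_scale (a := 2 ^ k) Nat.one_le_two_pow))
  rw [← pow_succ]
  refine sum_le_sum fun m _ => ?_
  rw [abs_mul, abs_of_nonneg (by positivity)]
  have := mul_le_of_le_one_right (show 0 ≤ be m ^ 2 / 4 by positivity)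
    (abs_cos_le_one (2 * log m * t))
  linarith [(be_sq_le m).2.1]

end ARG

theorem st_ARG : St_ARG := by
  have hc := c3_spec
  refine ⟨35 + 18 * c3, by linarith [hc.1], fun i k t _ => ?_, fun i t => ?_, fun l t => ?_,
    fun a b t ha => (ARG.four ha b t).trans ?_, ARG.five⟩
  · linarith [ARG.one i k t, hc.1]
  · linarith [ARG.two i t, hc.1]
  · linarith [ARG.three t l, hc.2 l.length t]
  · exact div_le_div_of_nonneg_right (by linarith [hc.1]) (sqrt_nonneg _)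

end

end Pool.Agent.Lib.RX
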