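import Pool.Agent.Lib.RX.Kit0

/-! Project rx29, block BAL32: the ballot bound with exponent three halves. -/

namespace Pool.Agent.Lib.RX

open Finset Real MeasureTheory Filter Topology Pool.Agent.Lib.RM67 Pool.Agent.Lib.RM67.T96

noncomputable section

namespace BAL32

/-- The derivative of the heat kernel. -/
def U (τ ρ : ℝ) : ℝ := √(2 * π) * ρ / (τ * √τ) * exp (-(ρ ^ 2 / (2 * τ)))

theorem cos_bd (y : ℝ) : |cos y - (1 - y ^ 2 / 2)| ≤ |y| ^ 3 := by
  have h0 := abs_nonneg y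
  rcases le_total |y| 1 with h | h
  · refine (cos_bound h).trans ?_
    have : |y| ^ 4 ≤ |y| ^ 3 := pow_le_pow_of_le_one h0 h (by norm_num)
    linarith [pow_nonneg h0 3]
  · have h1 : |y| ^ 2 ≤ |y| ^ 3 := pow_le_pow_right₀ h (by norm_num)
    rw [sq_abs] at h1
    rw [abs_le]
    constructor
    · linarith [one_sub_sq_div_two_le_cos (x := y), pow_nonneg h0 3]
    · linarith [cos_le_one y, sq_nonneg y]

theorem sin_bd (y : ℝ) : |sin y - y| ≤ 2 * |y| ^ 3 := by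
  have h0 := abs_nonneg y
  rcases le_total |y| 1 with h | h
  · have h1 := abs_le.1 (sin_bound h)
    have h2 : |y| ^ 5 ≤ |y| ^ 3 := pow_le_pow_of_le_one h0 h (by norm_num)
    have h3 := abs_le.1 (abs_pow y 3).le
    rw [abs_le]
    constructor <;> linarith [h1.1, h1.2, h3.1, h3.2, pow_nonneg h0 3]
  · have h1 : |y| ^ 1 ≤ |y| ^ 3 := pow_le_pow_right₀ h (by norm_num)
    rw [pow_one] at h1
    linarith [abs_sub (sin y) y, abs_sin_le_one y]

theorem exp_bd {z w : ℝ} (h0 : 0 ≤ z) (hw : 0 ≤ w) (h : z ≤ w ^ 2) :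
    |exp (-z) - (1 - z)| ≤ w ^ 3 := by
  have h1 := add_one_le_exp (-z)
  rw [abs_of_nonneg (by linarith)]
  rcases le_total w 1 with k | k
  · have h2 : w ^ 2 ≤ 1 := pow_le_one₀ hw k
    have h3 := (abs_le.1 (Real.abs_exp_sub_one_sub_id_le (x := -z)
      (by rw [abs_neg, abs_of_nonneg h0]; linarith))).2
    have h4 : z ^ 2 ≤ (w ^ 2) ^ 2 := pow_le_pow_left₀ h0 h 2
    have h5 : w ^ 4 ≤ w ^ 3 := pow_le_pow_of_le_one hw k (by norm_num)
    nlinarith
  · have h2 : w ^ 2 ≤ w ^ 3 := pow_le_pow_right₀ k (by norm_num)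
    have h3 : exp (-z) ≤ 1 := exp_le_one_iff.2 (by linarith)
    linarith

theorem pt {x : ℝ} (hx : |x| ≤ 1) (m ρ : ℝ) :
    |((1 + x) * sin (m * (ρ - (x - x ^ 2))) + (1 - x) * sin (m * (ρ - (-x - x ^ 2)))) / 2 -
      sin (m * ρ) * exp (-((x ^ 2 - x ^ 4) * m ^ 2 / 2))| ≤ 25 * (|m| * |x|) ^ 3 := by
  have hx' := abs_le.1 hx
  have x2 : x ^ 2 ≤ |x| := by
    rw [← sq_abs]; nlinarith [abs_nonneg x]
  have x1 : x ^ 2 ≤ 1 := x2.trans hx
  set w := |m| * |x| with hw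
  have w0 : 0 ≤ w := by positivity
  have k : ∀ ξ : ℝ, |ξ| ≤ 2 * |x| → |m * ξ| ^ 3 ≤ 8 * w ^ 3 := fun ξ hξ => by
    calc _ ≤ (2 * w) ^ 3 := by
          refine pow_le_pow_left₀ (abs_nonneg _) ?_ 3
          rw [abs_mul, hw]
          nlinarith [abs_nonneg m]
      _ = _ := by ring
  have k1 := k (x - x ^ 2) (by
    have := abs_sub x (x ^ 2)
    rw [abs_of_nonneg (sq_nonneg x)] at this
    linarith)
  have k2 := k (-x - x ^ 2) (by
    have := abs_sub (-x) (x ^ 2)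
    rw [abs_of_nonneg (sq_nonneg x), abs_neg] at this
    linarith)
  have c1 := (cos_bd (m * (x - x ^ 2))).trans k1
  have c2 := (cos_bd (m * (-x - x ^ 2))).trans k2
  have s1 := (sin_bd (m * (x - x ^ 2))).trans (mul_le_mul_of_nonneg_left k1 zero_le_two)
  have s2 := (sin_bd (m * (-x - x ^ 2))).trans (mul_le_mul_of_nonneg_left k2 zero_le_two)
  have e := exp_bd (z := (x ^ 2 - x ^ 4) * m ^ 2 / 2) (w := w)
    (by have : 0 ≤ x ^ 2 - x ^ 4 := by nlinarith [sq_nonneg x]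
        positivity) w0
    (by rw [hw, mul_pow, sq_abs, sq_abs]
        nlinarith [mul_nonneg (sq_nonneg m) (sq_nonneg x), mul_nonneg (sq_nonneg m) (sq_nonneg (x ^ 2))])
  have av2 : ∀ p q B : ℝ, |p| ≤ B → |q| ≤ B → |((1 + x) * p + (1 - x) * q) / 2| ≤ B := by
    intro p q B hp hq
    have a := abs_le.1 hp
    have b := abs_le.1 hq
    have u : 0 ≤ 1 + x := by linarith [hx'.1]
    have v : 0 ≤ 1 - x := by linarith [hx'.2]
    rw [abs_le]
    constructor <;> nlinarith [mul_le_mul_of_nonneg_left a.1 u, mul_le_mul_of_nonneg_left a.2 u,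
      mul_le_mul_of_nonneg_left b.1 v, mul_le_mul_of_nonneg_left b.2 v]
  have A := av2 _ _ _ c1 c2
  have B := av2 _ _ _ s1 s2
  rw [mul_sub m ρ, mul_sub m ρ, sin_sub, sin_sub]
  generalize cos (m * (x - x ^ 2)) = C1 at *
  generalize cos (m * (-x - x ^ 2)) = C2 at *
  generalize sin (m * (x - x ^ 2)) = S1 at *
  generalize sin (m * (-x - x ^ 2)) = S2 at *
  generalize exp (-((x ^ 2 - x ^ 4) * m ^ 2 / 2)) = E at *
  have f : ((1 + x) * (sin (m * ρ) * C1 - cos (m * ρ) * S1) +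
      (1 - x) * (sin (m * ρ) * C2 - cos (m * ρ) * S2)) / 2 - sin (m * ρ) * E =
      sin (m * ρ) * (((1 + x) * (C1 - (1 - (m * (x - x ^ 2)) ^ 2 / 2)) +
        (1 - x) * (C2 - (1 - (m * (-x - x ^ 2)) ^ 2 / 2))) / 2 -
        (E - (1 - (x ^ 2 - x ^ 4) * m ^ 2 / 2))) -
      cos (m * ρ) * (((1 + x) * (S1 - m * (x - x ^ 2)) +
        (1 - x) * (S2 - m * (-x - x ^ 2))) / 2) := by ring
  rw [f]
  refine (abs_sub _ _).trans ?_
  rw [abs_mul, abs_mul]
  have g1 := mul_le_mul (abs_sin_le_one (m * ρ)) ((abs_sub _ _).trans (add_le_add A e))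
    (abs_nonneg _) zero_le_one
  have g2 := mul_le_mul (abs_cos_le_one (m * ρ)) B (abs_nonneg _) zero_le_one
  linarith

theorem int_s (hG : St_GAUSS) {τ : ℝ} (hτ : 0 < τ) (ρ : ℝ) :
    Integrable fun μ : ℝ => μ * sin (μ * ρ) * exp (-(τ * μ ^ 2 / 2)) := by
  refine (hG.1 1 τ hτ).mono' (by fun_prop) (Eventually.of_forall fun μ => ?_)
  rw [norm_eq_abs, abs_mul, abs_mul, abs_exp, pow_one]
  exact mul_le_mul_of_nonneg_right (mul_le_of_le_one_right (abs_nonneg _) (abs_sin_le_one _))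
    (exp_pos _).le

theorem step (hG : St_GAUSS) : ∃ C, 0 ≤ C ∧ ∀ τ ρ x : ℝ, 1 ≤ τ → |x| ≤ 1 →
    ((1 + x) * U τ (ρ - (x - x ^ 2)) + (1 - x) * U τ (ρ - (-x - x ^ 2))) / 2 ≤
      U (τ + (x ^ 2 - x ^ 4)) ρ + C * |x| ^ 3 := by
  refine ⟨25 * ∫ μ : ℝ, |μ| ^ 4 * exp (-(1 * μ ^ 2 / 2)),
    mul_nonneg (by norm_num) (integral_nonneg fun μ => by positivity), fun τ ρ x hτ hx => ?_⟩
  have t0 : 0 < τ := by linarith
  have v0 : 0 ≤ x ^ 2 - x ^ 4 := by
    have : x ^ 2 ≤ 1 := by rw [← sq_abs]; exact pow_le_one₀ (abs_nonneg x) hx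
    nlinarith [sq_nonneg x]
  have t1 : 0 < τ + (x ^ 2 - x ^ 4) := by linarith
  have i1 := (int_s hG t0 (ρ - (x - x ^ 2))).const_mul (1 + x)
  have i2 := (int_s hG t0 (ρ - (-x - x ^ 2))).const_mul (1 - x)
  have i3 := int_s hG t1 ρ
  have i4 := ((hG.1 4 1 one_pos).const_mul 25).mul_const (|x| ^ 3)
  unfold U
  rw [← hG.2 _ _ t0, ← hG.2 _ _ t0, ← hG.2 _ _ t1, ← integral_const_mul, ← integral_const_mul,
    ← integral_const_mul, ← integral_mul_const, ← integral_add i1 i2, ← integral_add i3 i4,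
    ← integral_div]
  refine integral_mono ((i1.add i2).div_const 2) (i3.add i4) fun μ => ?_
  have p := pt hx μ ρ
  have e : exp (-((τ + (x ^ 2 - x ^ 4)) * μ ^ 2 / 2)) =
      exp (-((x ^ 2 - x ^ 4) * μ ^ 2 / 2)) * exp (-(τ * μ ^ 2 / 2)) := by
    rw [← exp_add]; congr 1; ring
  have e1 : exp (-(τ * μ ^ 2 / 2)) ≤ exp (-(1 * μ ^ 2 / 2)) :=
    exp_le_exp.2 (by nlinarith [sq_nonneg μ])
  simp only
  rw [e]
  generalize hD : ((1 + x) * sin (μ * (ρ - (x - x ^ 2))) +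
    (1 - x) * sin (μ * (ρ - (-x - x ^ 2)))) / 2 -
      sin (μ * ρ) * exp (-((x ^ 2 - x ^ 4) * μ ^ 2 / 2)) = D at p
  have q : μ * D * exp (-(τ * μ ^ 2 / 2)) ≤
      |μ| * (25 * (|μ| * |x|) ^ 3) * exp (-(1 * μ ^ 2 / 2)) := by
    refine mul_le_mul ((le_abs_self _).trans ?_) e1 (exp_pos _).le (by positivity)
    rw [abs_mul]
    exact mul_le_mul_of_nonneg_left p (abs_nonneg _)
  rw [← hD] at q
  linarith

theorem U_nonneg {τ ρ : ℝ} (hτ : 0 ≤ τ) (h : 0 ≤ ρ) : 0 ≤ U τ ρ := by unfold U; positivity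

theorem U_le {τ ρ s : ℝ} (hs : 0 < s) (hτ : s ≤ τ) (h : 0 ≤ ρ) :
    U τ ρ ≤ √(2 * π) / (s * √s) * ρ := by
  have t0 : 0 < τ := hs.trans_le hτ
  have e : exp (-(ρ ^ 2 / (2 * τ))) ≤ 1 := exp_le_one_iff.2 (neg_nonpos.2 (by positivity))
  calc U τ ρ ≤ √(2 * π) * ρ / (s * √s) * 1 := by unfold U; gcongr
    _ = _ := by ring

theorem U_ge {h ρ : ℝ} (h1 : 3 ≤ ρ) (h2 : ρ ≤ h) : 1 ≤ h ^ 3 * U (h ^ 2) ρ := by
  have h0 : 0 < h := by linarith
  have a : 1 ≤ √(2 * π) := one_le_sqrt.2 (by linarith [pi_gt_three])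
  have b : ρ ^ 2 / (2 * h ^ 2) ≤ 1 / 2 := by
    rw [div_le_iff₀ (by positivity)]
    nlinarith
  have c := add_one_le_exp (-(ρ ^ 2 / (2 * h ^ 2)))
  have e : h ^ 3 * U (h ^ 2) ρ = √(2 * π) * (ρ * exp (-(ρ ^ 2 / (2 * h ^ 2)))) := by
    unfold U
    rw [sqrt_sq h0.le]
    field_simp
  rw [e]
  exact one_le_mul_of_one_le_of_one_le a (by nlinarith)

end BAL32

open BAL32

theorem st_BAL32 (hG : St_GAUSS) : St_BAL32 := by
  obtain ⟨C, C0, hC⟩ := step hG
  refine ⟨√(2 * π) + C, by positivity, fun n0 n1 P t a h s η hn ha hh hP hs hV hη => ?_⟩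
  have v0 : ∀ n, 0 ≤ ∑ m ∈ Ico n n1, (bb m t ^ 2 - bb m t ^ 4) := fun n =>
    sum_nonneg fun m _ => by nlinarith [bb_sq_le m t, sq_nonneg (bb m t)]
  have u0 : ∀ n, 0 ≤ ∑ m ∈ Ico n n1, |bb m t| ^ 3 := fun n => sum_nonneg fun m _ => by positivity
  have h2 : 1 ≤ h ^ 2 := one_le_pow₀ hh
  have ch : ∀ b l, l.length ≤ n1 → P l → 0 ≤ a + 3 - WW (b :: l) t := fun b l hl hp => by
    rw [WW]
    linarith [hP l hl hp, (abs_le.1 (abs_xi b l.length t)).2]
  set Q : List Bool → ℝ := fun l => R l t *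
    (U (h ^ 2 + ∑ m ∈ Ico l.length n1, (bb m t ^ 2 - bb m t ^ 4)) (a + 3 - WW l t) +
      C * ∑ m ∈ Ico l.length n1, |bb m t| ^ 3) with hQ
  obtain ⟨k, hk⟩ := Nat.exists_eq_add_of_le hn
  have s1 : av n1 (fun l => ind (Al P l) * Q l) ≤ av n0 fun l => ind (Al P l) * Q l := by
    rw [show av n1 = av (n0 + k) from by rw [hk]]
    refine av_sup n0 k _ fun l _ hl => kill fun hp => ⟨?_, fun b => ?_⟩
    · rw [← hk] at hl
      have := hC (h ^ 2 + ∑ m ∈ Ico (l.length + 1) n1, (bb m t ^ 2 - bb m t ^ 4))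
        (a + 3 - WW l t) (bb l.length t) (by linarith [v0 (l.length + 1)])
        (by linarith [abs_b l.length t])
      have p := mul_le_mul_of_nonneg_left this (R_pos t l).le
      simp only [hQ, R, WW, List.length_cons, sg_true, sg_false, one_mul, neg_mul,
        sum_eq_sum_Ico_succ_bot hl, ← sub_sub _ (WW l t)]
      rw [add_comm (bb l.length t ^ 2 - bb l.length t ^ 4), ← add_assoc]
      linarith
    · exact mul_nonneg (R_pos t _).le (add_nonneg
        (U_nonneg (by linarith [v0 (b :: l).length]) (ch b l (by omega) hp)) (mul_nonneg C0 (u0 _)))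
  have s2 : av n0 (fun l => ind (Al P l) * (R l t * (a + 3 - WW l t))) ≤ a + 3 := by
    refine (av_sup0 n0 _ fun l hl => kill (Q := fun l => R l t * (a + 3 - WW l t))
      fun hp => ⟨?_, fun b =>
      mul_nonneg (R_pos t _).le (ch b l (by omega) hp)⟩).trans ?_
    · simp only [R, WW, sg_true, sg_false]
      exact le_of_eq (by ring)
    · simp only [R, WW, one_mul, sub_zero]
      exact mul_le_of_le_one_left (by linarith) (ind_le _)
  have η0 : 0 ≤ η := (u0 n0).trans hη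
  have s3 : av n0 (fun l => ind (Al P l) * Q l) ≤ av n0 fun l =>
      √(2 * π) / (s * √s) * (ind (Al P l) * (R l t * (a + 3 - WW l t))) + C * η * R l t := by
    refine av_mono fun l hl => ?_
    have r0 := R_pos t l
    by_cases hp : Al P l
    · rw [ind_pos hp, one_mul, one_mul]
      have a1 := U_le (τ := h ^ 2 + ∑ m ∈ Ico n0 n1, (bb m t ^ 2 - bb m t ^ 4))
        (ρ := a + 3 - WW l t) hs (by linarith) (by linarith [hP l (by omega) hp.self])
      have a2 := mul_le_mul_of_nonneg_left hη C0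
      have a3 := mul_le_mul_of_nonneg_left (add_le_add a1 a2) r0.le
      simp only [hQ, hl]
      linarith
    · rw [ind_neg hp, zero_mul, zero_mul, mul_zero, zero_add]
      positivity
  rw [av_add, av_mul, av_mul] at s3
  have s4 : av n1 (fun l => ind (Al P l) * R l t * ind (a + 3 - WW l t ≤ h)) ≤
      av n1 fun l => h ^ 3 * (ind (Al P l) * Q l) := by
    refine av_mono fun l hl => ?_
    have r0 := R_pos t l
    by_cases hp : Al P l
    · have a0 : 3 ≤ a + 3 - WW l t := by linarith [hP l hl.le hp.self]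
      have e : Q l = R l t * U (h ^ 2) (a + 3 - WW l t) := by simp [hQ, hl]
      rw [ind_pos hp, one_mul, one_mul, e, mul_left_comm]
      refine mul_le_mul_of_nonneg_left ?_ r0.le
      by_cases hw : a + 3 - WW l t ≤ h
      · rw [ind_pos hw]
        exact U_ge a0 hw
      · rw [ind_neg hw]
        exact mul_nonneg (by positivity) (U_nonneg (by positivity) (by linarith))
    · simp [ind_neg hp]
  rw [av_mul] at s4
  have b1 := mul_le_mul_of_nonneg_left s2 (show 0 ≤ √(2 * π) / (s * √s) by positivity)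
  have b2 := mul_le_mul_of_nonneg_left (av_R n0 t) (mul_nonneg C0 η0)
  have b3 : 0 ≤ (a + 3) / (s * √s) := by positivity
  have b4 : √(2 * π) / (s * √s) * (a + 3) + C * η * 1 ≤
      (√(2 * π) + C) * ((a + 3) / (s * √s) + η) := by
    rw [show √(2 * π) / (s * √s) * (a + 3) = √(2 * π) * ((a + 3) / (s * √s)) by ring]
    nlinarith [mul_nonneg C0 b3, mul_nonneg (sqrt_nonneg (2 * π)) η0]
  calc _ ≤ h ^ 3 * ((√(2 * π) + C) * ((a + 3) / (s * √s) + η)) :=
        s4.trans (mul_le_mul_of_nonneg_left (by linarith) (by positivity))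
    _ = _ := by ring

end

end Pool.Agent.Lib.RX
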