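import Pool.Agent.Lib.RX.Kit0

/-! Project rx29, block BALH: the conditional ballot estimate. -/

namespace Pool.Agent.Lib.RX

open Finset Real MeasureTheory Filter Topology Pool.Agent.Lib.RM67 Pool.Agent.Lib.RM67.T96

noncomputable section

namespace BALH

/-- The ballot supermartingale, with the variance counted from time `n`. -/
def QC (n : ℕ) (lam K t : ℝ) (l : List Bool) : ℝ := R l t * (K - exp (lam * WW l t) /
  (1 + lam ^ 2 * (∑ m ∈ Ico n l.length, (bb m t ^ 2 - bb m t ^ 4)) / 4))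

theorem V_nonneg (n k : ℕ) (t : ℝ) : 0 ≤ ∑ m ∈ Ico n k, (bb m t ^ 2 - bb m t ^ 4) :=
  sum_nonneg fun m _ => by nlinarith [bb_sq_le m t, sq_nonneg (bb m t)]

theorem QC_step {lam : ℝ} (h0 : 0 ≤ lam) (h1 : lam ≤ 1 / 2) (n : ℕ) (K t : ℝ) (l : List Bool)
    (hn : n ≤ l.length) :
    (QC n lam K t (true :: l) + QC n lam K t (false :: l)) / 2 ≤ QC n lam K t l := by
  have k : ∀ b, |lam * (sg b * bb l.length t - bb l.length t ^ 2)| ≤ 1 := fun b => by
    rw [abs_mul, abs_of_nonneg h0]
    nlinarith [abs_xi b l.length t, abs_nonneg (sg b * bb l.length t - bb l.length t ^ 2)]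
  have e1 := mul_le_mul_of_nonneg_left (exp_ge (k true)) (by linarith [fac_ge true l.length t] :
    0 ≤ 1 + sg true * bb l.length t)
  have e2 := mul_le_mul_of_nonneg_left (exp_ge (k false)) (by linarith [fac_ge false l.length t] :
    0 ≤ 1 + sg false * bb l.length t)
  have v0 := V_nonneg n l.length t
  have b0 := bb_sq_le l.length t
  simp only [QC, R, WW, List.length_cons, sum_Ico_succ_top hn, mul_add lam, exp_add, sg_true,
    sg_false] at e1 e2 v0 ⊢
  have r0 := mul_pos (R_pos t l) (exp_pos (lam * WW l t))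
  clear k
  generalize bb l.length t = b at *
  generalize ∑ m ∈ Ico n l.length, (bb m t ^ 2 - bb m t ^ 4) = V at *
  generalize exp (lam * WW l t) = E at *
  generalize exp (lam * (1 * b - b ^ 2)) = e at *
  generalize exp (lam * (-1 * b - b ^ 2)) = f at *
  have v1 : 0 ≤ b ^ 2 - b ^ 4 := by nlinarith [sq_nonneg b]
  have m : 1 + lam ^ 2 * (b ^ 2 - b ^ 4) / 4 ≤ ((1 + 1 * b) * e + (1 + -1 * b) * f) / 2 := by
    linarith
  have m2 : 1 / (1 + lam ^ 2 * V / 4) ≤
      ((1 + 1 * b) * e + (1 + -1 * b) * f) / 2 / (1 + lam ^ 2 * (V + (b ^ 2 - b ^ 4)) / 4) := by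
    refine le_trans ?_ (div_le_div_of_nonneg_right m (by positivity))
    rw [div_le_div_iff₀ (by positivity) (by positivity)]
    linarith [mul_nonneg (mul_nonneg (sq_nonneg lam) v1) (mul_nonneg (sq_nonneg lam) v0)]
  have m3 := mul_le_mul_of_nonneg_left m2 r0.le
  calc _ = R l t * K - R l t * E * (((1 + 1 * b) * e + (1 + -1 * b) * f) / 2 /
        (1 + lam ^ 2 * (V + (b ^ 2 - b ^ 4)) / 4)) := by ring
    _ ≤ R l t * K - R l t * E * (1 / (1 + lam ^ 2 * V / 4)) := by linarith
    _ = _ := by ring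

end BALH

open BALH in
theorem st_BALH : St_BALH := by
  intro P t a h s l0 k hP hs hV hh
  have q4 : 4 ≤ √s := le_sqrt_of_sq_le (by linarith)
  have q0 : 0 < √s := by linarith
  obtain ⟨lam, hl⟩ : ∃ lam, lam = 2 / √s := ⟨_, rfl⟩
  have h0 : 0 ≤ lam := by rw [hl]; positivity
  have h1 : lam ≤ 1 / 2 := by rw [hl, div_le_iff₀ q0]; linarith
  have h2 : lam ^ 2 * s = 4 := by
    rw [hl, div_pow, sq_sqrt (by linarith), div_mul_cancel₀ _ (by linarith)]; norm_num
  set K := exp (lam * (a + 2)) with hK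
  have K0 : 0 < K := exp_pos _
  have s1 := av_sup0 k (fun e => ind (Al P (e ++ l0)) * QC l0.length lam K t (e ++ l0))
    fun e he => kill (l := e ++ l0) fun hp => ⟨QC_step h0 h1 _ K t _ (by simp), fun b => by
      refine mul_nonneg (R_pos t _).le (sub_nonneg.2 ((div_le_self (exp_pos _).le ?_).trans
        (exp_le_exp.2 (mul_le_mul_of_nonneg_left ?_ h0))))
      · have := V_nonneg l0.length (b :: (e ++ l0)).length t
        linarith [mul_nonneg (sq_nonneg lam) this]
      · rw [WW]
        linarith [hP (e ++ l0) (by simp; omega) hp, (abs_le.1 (abs_xi b (e ++ l0).length t)).2]⟩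
  have s2 : QC l0.length lam K t l0 ≤ R l0 t * (K * (lam * h)) := by
    have e : QC l0.length lam K t l0 = R l0 t * (K - exp (lam * WW l0 t)) := by simp [QC]
    rw [e]
    refine mul_le_mul_of_nonneg_left ?_ (R_pos t l0).le
    have h3 := add_one_le_exp (-(lam * (a + 2 - WW l0 t)))
    have h4 : K * exp (-(lam * (a + 2 - WW l0 t))) = exp (lam * WW l0 t) := by
      rw [hK, ← exp_add]; congr 1; ring
    have h5 := mul_le_mul_of_nonneg_left hh h0
    nlinarith [mul_le_mul_of_nonneg_left h3 K0.le, mul_le_mul_of_nonneg_left h5 K0.le]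
  have s3 : av k (fun e => K / 2 * (ind (Al P (e ++ l0)) * R (e ++ l0) t)) ≤
      av k fun e => ind (Al P (e ++ l0)) * QC l0.length lam K t (e ++ l0) := by
    refine av_mono fun e he => ?_
    by_cases ha : Al P (e ++ l0)
    · have el : (e ++ l0).length = l0.length + k := by simp; omega
      rw [ind_pos ha, one_mul, one_mul, QC, mul_comm, el]
      refine mul_le_mul_of_nonneg_left ?_ (R_pos t _).le
      have h3 : exp (lam * WW (e ++ l0) t) ≤ K :=
        exp_le_exp.2 (mul_le_mul_of_nonneg_left (by linarith [hP _ el.le ha.self]) h0)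
      have h4 : 2 ≤ 1 + lam ^ 2 *
          (∑ m ∈ Ico l0.length (l0.length + k), (bb m t ^ 2 - bb m t ^ 4)) / 4 := by
        linarith [mul_le_mul_of_nonneg_left hV (sq_nonneg lam)]
      have h5 : exp (lam * WW (e ++ l0) t) / (1 + lam ^ 2 *
          (∑ m ∈ Ico l0.length (l0.length + k), (bb m t ^ 2 - bb m t ^ 4)) / 4) ≤ K / 2 := by
        gcongr
      linarith
    · simp [ind_neg ha]
  rw [av_mul] at s3
  have s4 := mul_le_mul_of_nonneg_left s2 (ind_nonneg (Al P l0))
  refine le_of_mul_le_mul_left ((s3.trans (s1.trans s4)).trans_eq ?_) (half_pos K0)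
  rw [hl]
  ring

end

end Pool.Agent.Lib.RX
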