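import Pool.Agent.Lib.RX.Kit0

/-! Project rx29: the barrier holds almost surely. -/

namespace Pool.Agent.Lib.RX

open Finset Real MeasureTheory Filter Topology Pool.Agent.Lib.RM67 Pool.Agent.Lib.RM67.T96

namespace BAR

theorem al_all {S : Finset ℕ} {A Q : List Bool → Prop} {B : ℕ → List Bool → Prop} :
    ∀ {l : List Bool}, (∀ t, t.length ≤ l.length → A t → (∀ k ∈ S, B k t) → Q t) → Al A l →
      (∀ k ∈ S, Al (B k) l) → Al Q l
  | [], h, a, b => h [] le_rfl a b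
  | _ :: _, h, a, b => ⟨al_all (fun t ht => h t (by simp; omega)) a.1 fun k hk => (b k hk).1,
      h _ le_rfl a.2 fun k hk => (b k hk).2⟩

theorem pr_or (n : ℕ) (A B : List Bool → Prop) :
    pr n (fun l => A l ∨ B l) ≤ pr n A + pr n B := by
  unfold pr
  rw [← av_add]
  refine pr_le fun l _ => ⟨add_nonneg (ind_nonneg _) (ind_nonneg _), fun h => ?_⟩
  rcases h with h | h
  · rw [ind_pos h]; linarith [ind_nonneg (B l)]
  · rw [ind_pos h]; linarith [ind_nonneg (A l)]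

theorem sum_sq : ∀ H : ℕ, ∑ k ∈ range H, 1 / ((k : ℝ) + 1) ^ 2 ≤ 2 - 2 / ((H : ℝ) + 1)
  | 0 => by simp
  | H + 1 => by
    have h := sum_sq H
    have e : 1 / ((H : ℝ) + 1) ^ 2 ≤ 2 / ((H : ℝ) + 1) - 2 / ((H : ℝ) + 1 + 1) := by
      rw [div_sub_div _ _ (by positivity) (by positivity), div_le_div_iff₀ (by positivity)
        (by positivity)]
      have : (0 : ℝ) ≤ H := by positivity
      nlinarith [mul_nonneg this this, mul_nonneg (mul_nonneg this this) this]
    rw [sum_range_succ]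
    push_cast
    linarith

theorem pb_of {H y : ℕ} (hy : 1 ≤ y) {s : List Bool} (hs : s.length ≤ H) (h1 : NN s ≤ y)
    (h2 : ∀ k ∈ range H, XX (1 / (72 * (2 ^ k : ℕ))) s ≤ y * ((k : ℝ) + 1) ^ 2) :
    Pb ((7220 * y : ℕ) : ℝ) s := by
  intro k hk t
  have y1 : (1 : ℝ) ≤ y := by exact_mod_cast hy
  have k0 : (0 : ℝ) ≤ k := by positivity
  push_cast
  by_cases hH : k < H
  · refine (R_bound (a := 2 ^ k) Nat.one_le_two_pow hk (M := (k : ℝ) + 1) (by positivity) t).trans ?_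
    have e : exp (-((k : ℝ) + 1)) * ((k : ℝ) + 1) ^ 2 ≤ 2 := by
      have := pow_div_factorial_le_exp ((k : ℝ) + 1) (by positivity) 2
      rw [exp_neg, inv_mul_le_iff₀ (exp_pos _)]
      norm_num [Nat.factorial] at this
      linarith
    have h3 : (1 + 72 * ((k : ℝ) + 1)) * NN s + 144 * exp (-((k : ℝ) + 1)) *
        XX (1 / (72 * (2 ^ k : ℕ))) s ≤ 361 * (y * (k + 1)) := by
      calc _ ≤ (1 + 72 * ((k : ℝ) + 1)) * y + 144 * exp (-((k : ℝ) + 1)) * (y * ((k : ℝ) + 1) ^ 2) := by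
            gcongr; exact h2 k (mem_range.2 hH)
        _ = (1 + 72 * ((k : ℝ) + 1)) * y +
            144 * y * (exp (-((k : ℝ) + 1)) * ((k : ℝ) + 1) ^ 2) := by ring
        _ ≤ (1 + 72 * ((k : ℝ) + 1)) * y + 144 * y * 2 := by gcongr
        _ ≤ _ := by nlinarith
    calc _ ≤ 20 * (1 + t ^ 2) * ((2 ^ k : ℕ) : ℝ) * (361 * (y * (k + 1))) := by gcongr
      _ = _ := by push_cast; ring
  · have a : (2 : ℝ) ^ s.length ≤ 2 ^ k := pow_le_pow_right₀ one_le_two (by omega)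
    have b : (1 : ℝ) ≤ 7220 * y * (k + 1) := by nlinarith
    calc R s t ≤ 1 * 2 ^ k * 1 := by linarith [R_le t s]
      _ ≤ _ := by gcongr; linarith [sq_nonneg t]

end BAR

open BAR in
theorem st_BAR : St_BAR := by
  refine (ae_ex (P := fun y => Pb ((7220 * y : ℕ) : ℝ)) (C := 5) fun H y hy => ?_).mono
    fun z ⟨y, hy, h⟩ => ⟨7220 * y, by omega, h⟩
  have y0 : (0 : ℝ) < y := by exact_mod_cast hy
  refine (pr_mono (B := fun l => ¬ Al (fun t => 0 ≤ t.length → NN t ≤ y) l ∨ ∃ k ∈ range H,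
    ¬ Al (fun t => 0 ≤ t.length → XX (1 / (72 * (2 ^ k : ℕ))) t ≤ y * ((k : ℝ) + 1) ^ 2) l)
    fun l hl h => ?_).trans ((pr_or H _ _).trans ?_)
  · by_contra hn
    simp only [not_or, not_not, not_exists, not_and] at hn
    refine h (al_all (fun t ht a b => ?_) hn.1 hn.2)
    exact pb_of hy (hl ▸ ht) (a (Nat.zero_le _)) fun k hk => b k hk (Nat.zero_le _)
  · have a := pr_N H y0
    have b := (pr_union H (range H) _).trans
      (sum_le_sum fun k _ => pr_X H k (c := y * ((k : ℝ) + 1) ^ 2) (by positivity))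
    have c : ∑ k ∈ range H, (2 : ℝ) / (y * ((k : ℝ) + 1) ^ 2) =
        (2 : ℝ) / y * ∑ k ∈ range H, 1 / ((k : ℝ) + 1) ^ 2 := by
      rw [mul_sum]
      exact sum_congr rfl fun k _ => by field_simp
    have d : ∑ k ∈ range H, 1 / ((k : ℝ) + 1) ^ 2 ≤ 2 :=
      (sum_sq H).trans (sub_le_self _ (by positivity))
    have e := mul_le_mul_of_nonneg_left d (show (0 : ℝ) ≤ 2 / y by positivity)
    have f : (5 : ℝ) / y = 1 / y + 2 / y * 2 := by ring
    linarith

end Pool.Agent.Lib.RX
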