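import Pool.Agent.Lib.RX.Blue

/-! Project rx29: the smooth cut-off as an inverse Fourier integral. -/

namespace Pool.Agent.Lib.RX

open Finset Real MeasureTheory Filter Topology Pool.Agent.Lib.RM67 Pool.Agent.Lib.RM67.T96
open FourierTransform

namespace BASE

theorem kf_eq (T : ℝ) : Kf T = fun v => (1 - exp (-(T * max v 0))) ^ 2 := by
  funext v
  unfold Kf
  split_ifs with h
  · rw [max_eq_left h]
  · rw [max_eq_right (not_le.1 h).le]; simp

theorem kf_cont (T : ℝ) : Continuous (Kf T) := by
  rw [kf_eq]; fun_prop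

theorem kf_scale (T v : ℝ) : Kf (2 * π * T) (v / (2 * π)) = Kf T v := by
  unfold Kf
  have e : 2 * π * T * (v / (2 * π)) = T * v := by field_simp
  simp only [e, le_div_iff₀ two_pi_pos, zero_mul]

theorem lapK {T : ℝ} (hT : 0 < T) {s : ℂ} (hs : 0 < s.re) :
    Integrable (fun w : ℝ => Complex.exp (-s * w) * (Kf T w : ℝ)) ∧
    ∫ w : ℝ, Complex.exp (-s * w) * (Kf T w : ℝ) = 1 / s - 2 / (s + T) + 1 / (s + 2 * T) := by
  have e : (fun w : ℝ => Complex.exp (-s * w) * (Kf T w : ℝ)) = (Set.Ioi 0).indicator fun w : ℝ =>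
      Complex.exp (-s * w) - 2 * Complex.exp (-(s + T) * w) + Complex.exp (-(s + 2 * T) * w) := by
    funext w
    by_cases h : 0 < w
    · rw [Set.indicator_of_mem (Set.mem_Ioi.2 h), Kf, if_pos h.le]
      have a : Complex.exp (-(s + T) * w) = Complex.exp (-s * w) * Complex.exp (-(T * w)) := by
        rw [← Complex.exp_add]; congr 1; ring
      have b : Complex.exp (-(s + 2 * T) * w) =
          Complex.exp (-s * w) * (Complex.exp (-(T * w)) * Complex.exp (-(T * w))) := by
        rw [← Complex.exp_add, ← Complex.exp_add]; congr 1; ring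
      rw [a, b]
      push_cast
      ring
    · rw [Set.indicator_of_notMem (by simpa using h), kf_eq]
      simp [max_eq_right (not_lt.1 h)]
  have p1 : (-s).re < 0 := by simpa using hs
  have p2 : (-(s + T)).re < 0 := by simp; linarith
  have p3 : (-(s + 2 * T)).re < 0 := by simp; linarith
  have i1 := integrableOn_exp_mul_complex_Ioi p1 0
  have i2 := (integrableOn_exp_mul_complex_Ioi p2 0).const_mul 2
  have i3 := integrableOn_exp_mul_complex_Ioi p3 0
  rw [e]
  refine ⟨(integrable_indicator_iff measurableSet_Ioi).2 ((i1.sub i2).add i3), ?_⟩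
  have i4 : IntegrableOn (fun w : ℝ => Complex.exp (-s * w) - 2 * Complex.exp (-(s + T) * w))
      (Set.Ioi 0) := i1.sub i2
  rw [integral_indicator measurableSet_Ioi, integral_add i4 i3, integral_sub i1 i2,
    integral_const_mul, integral_exp_mul_complex_Ioi p1, integral_exp_mul_complex_Ioi p2,
    integral_exp_mul_complex_Ioi p3]
  simp only [Complex.ofReal_zero, mul_zero, Complex.exp_zero, neg_div_neg_eq]
  ring

theorem ap_int {T c : ℝ} (hT : 0 < T) (hc : 0 < c) :
    Integrable fun t => aa T c t * ph T c t := by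
  have n1 : ∀ t : ℝ, (T + c + t * Complex.I : ℂ) ≠ 0 := fun t h => by
    have := congrArg Complex.re h
    simp at this; linarith
  have n2 : ∀ t : ℝ, (2 * T + c + t * Complex.I : ℂ) ≠ 0 := fun t h => by
    have := congrArg Complex.re h
    simp at this; linarith
  have n3 : ∀ t : ℝ, (c + t * Complex.I : ℂ) ≠ 0 := fun t h => by
    have := congrArg Complex.re h
    simp at this; linarith
  refine ((ker_int hc).const_mul T).mono' (Continuous.aestronglyMeasurable ?_)
    (Eventually.of_forall fun t => ?_)
  · unfold aa ph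
    exact (continuous_const.div (by fun_prop) n1).mul
      (continuous_const.div (by fun_prop) fun t => mul_ne_zero (n2 t) (n3 t))
  · have s3 : ‖(c + t * Complex.I : ℂ)‖ ^ 2 = c ^ 2 + t ^ 2 := by
      rw [Complex.sq_norm, Complex.normSq_add_mul_I]
    have q3 : 0 < ‖(c + t * Complex.I : ℂ)‖ := norm_pos_iff.2 (n3 t)
    have s1 : ‖(c + t * Complex.I : ℂ)‖ ≤ ‖(T + c + t * Complex.I : ℂ)‖ := by
      refine le_of_sq_le_sq ?_ (norm_nonneg _)
      rw [s3, ← Complex.ofReal_add, Complex.sq_norm, Complex.normSq_add_mul_I]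
      nlinarith
    have s2 : 2 * T ≤ ‖(2 * T + c + t * Complex.I : ℂ)‖ := by
      refine le_trans ?_ (Complex.re_le_norm _)
      simp; linarith
    unfold aa ph RM67.ker
    rw [norm_mul, norm_div, norm_div, norm_mul, norm_mul, Complex.norm_real, norm_eq_abs,
      abs_of_pos hT, Complex.norm_two, ← s3]
    calc _ ≤ T / ‖(c + t * Complex.I : ℂ)‖ * (2 * T / (2 * T * ‖(c + t * Complex.I : ℂ)‖)) := by
          gcongr
      _ = _ := by field_simp

end BASE

open BASE in
theorem st_BASE : St_BASE := by
  intro T c v hT hc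
  set f : ℝ → ℂ := fun w => Complex.exp (-(2 * π * c : ℝ) * w) * (Kf (2 * π * T) w : ℝ) with hf
  have hT' : 0 < 2 * π * T := by positivity
  have h1 : 𝓕 f = fun t => ((2 * π : ℝ) : ℂ)⁻¹ * (aa T c t * ph T c t) := by
    funext t
    rw [fourier_real_eq_integral_exp_smul]
    have := (lapK hT' (s := 2 * π * (c + t * Complex.I)) (by simp; positivity)).2
    have n1 : (T + c + t * Complex.I : ℂ) ≠ 0 := fun h => by
      have := congrArg Complex.re h
      simp at this; linarith
    have n2 : (2 * T + c + t * Complex.I : ℂ) ≠ 0 := fun h => by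
      have := congrArg Complex.re h
      simp at this; linarith
    have n3 : (c + t * Complex.I : ℂ) ≠ 0 := fun h => by
      have := congrArg Complex.re h
      simp at this; linarith
    have e : (π : ℂ) ≠ 0 := by exact_mod_cast pi_ne_zero
    refine Eq.trans ?_ (this.trans ?_)
    · congr 1; funext w
      simp only [hf, smul_eq_mul, ← mul_assoc, ← Complex.exp_add]
      congr 2; push_cast; ring
    · unfold aa ph
      push_cast
      rw [show (2 * π * (c + t * Complex.I) + 2 * π * T : ℂ) = 2 * π * (T + c + t * Complex.I) by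
        ring, show (2 * π * (c + t * Complex.I) + 2 * (2 * π * T) : ℂ) =
          2 * π * (2 * T + c + t * Complex.I) by ring]
      field_simp
      ring
  have hk := kf_cont (2 * π * T)
  have h2 := Continuous.fourierInv_fourier_eq (f := f) (by fun_prop)
    (lapK hT' (s := (2 * π * c : ℝ)) (by simp; positivity)).1
    (by rw [h1]; exact (ap_int hT hc).const_mul _)
  have h3 := congrFun h2 (v / (2 * π))
  rw [h1, fourierInv_eq'] at h3
  have a : ∀ t : ℝ, 2 * π * inner ℝ t (v / (2 * π)) = t * v := fun t => by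
    simp only [conj_trivial, RCLike.inner_apply]
    field_simp
  simp only [a, smul_eq_mul, hf, kf_scale] at h3
  have b : II (fun t => aa T c t * ph T c t) v =
      Complex.exp (-(2 * π * c : ℝ) * (v / (2 * π) : ℝ)) * (Kf T v : ℝ) := by
    rw [← h3, II, ← integral_const_mul]
    congr 1; funext t
    unfold ee
    rw [Complex.ofReal_inv]
    ring
  rw [b, ← mul_assoc, Complex.ofReal_exp, ← Complex.exp_add]
  have e : (π : ℂ) ≠ 0 := by exact_mod_cast pi_ne_zero
  rw [show ((c * v : ℝ) : ℂ) + -(2 * π * c : ℝ) * (v / (2 * π) : ℝ) = 0 by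
    push_cast; field_simp; ring]
  simp

end Pool.Agent.Lib.RX
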