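import Pool.Agent.Lib.RX.Kit0

/-! Project rx29, row BTK: the Brun-Titchmarsh kernel bound. -/

namespace Pool.Agent.Lib.RX

open Finset Real MeasureTheory Filter Topology Pool.Agent.Lib.RM67 Pool.Agent.Lib.RM67.T96

namespace BTK

theorem pow4 {a : ℕ} (h : 16 ≤ a) : a ^ 4 ≤ 2 ^ a := by
  induction a, h using Nat.le_induction with
  | base => norm_num
  | succ a h ih =>
    have h1 : 16 * (a + 1) ≤ 17 * a := by omega
    have h2 : (16 * (a + 1)) ^ 4 ≤ (17 * a) ^ 4 := Nat.pow_le_pow_left h1 4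
    rw [mul_pow, mul_pow] at h2
    rw [pow_succ 2]
    omega

theorem geo (K : ℕ) : ∑ k ∈ range K, (2 / 3 : ℝ) ^ k ≤ 3 := by
  have : ∀ K : ℕ, ∑ k ∈ range K, (2 / 3 : ℝ) ^ k = 3 - 3 * (2 / 3) ^ K := by
    intro K
    induction K with
    | zero => simp
    | succ K ih => rw [sum_range_succ, ih, pow_succ]; ring
  rw [this]
  have : (0 : ℝ) ≤ (2 / 3) ^ K := by positivity
  linarith

theorem small {a : ℕ} {T : ℝ} (ha : 64 ≤ a) (hT : 2 ≤ T) (h4 : T ^ 4 ≤ 2 ^ a) :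
    a * T * 2 ^ (4 * (a / 8)) ≤ 2 ^ a := by
  have h1 : (a : ℝ) ^ 4 ≤ 2 ^ a := by exact_mod_cast pow4 (by omega : 16 ≤ a)
  have h2 : ((2 : ℝ) ^ (4 * (a / 8))) ^ 4 ≤ 2 ^ a * 2 ^ a := by
    rw [← pow_mul, ← pow_add]
    exact pow_le_pow_right₀ one_le_two (by omega)
  refine le_of_pow_le_pow_left₀ (n := 4) (by norm_num) (by positivity) ?_
  rw [mul_pow, mul_pow]
  calc (a : ℝ) ^ 4 * T ^ 4 * (2 ^ (4 * (a / 8))) ^ 4 ≤ 2 ^ a * 2 ^ a * (2 ^ a * 2 ^ a) := by
        gcongr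
    _ = _ := by ring

theorem fib {a : ℕ} {T y : ℝ} (S : Finset ℕ) (ha : 64 ≤ a) (hT : 2 ≤ T) (h4 : T ^ 4 ≤ 2 ^ a)
    (hS : ∀ n ∈ S, 2 ^ a ≤ n) (hy : ∀ n ∈ S, y ≤ log n ∧ log n ≤ y + 1 / T) :
    ∑ n ∈ S, r n ≤ 242 / (a * T) := by
  have hT0 : 0 < T := by linarith
  have ha0 : (64 : ℝ) ≤ a := by exact_mod_cast ha
  have e0 : ∑ n ∈ S, r n = ∑ n ∈ S.filter Nat.Prime, r n :=
    (sum_filter_of_ne fun n _ h => by_contra fun hn => h (r_not hn)).symm
  rw [e0]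
  set P := S.filter Nat.Prime with hP
  rcases P.eq_empty_or_nonempty with h | h
  · rw [h, sum_empty]; positivity
  set m := P.min' h with hm
  have hmS : m ∈ S := (mem_filter.1 (P.min'_mem h)).1
  have hm1 : 2 ^ a ≤ m := hS m hmS
  have hm2 : (2 : ℝ) ^ a ≤ m := by exact_mod_cast hm1
  have hm0 : 1 ≤ m := Nat.one_le_two_pow.trans hm1
  have hm3 : (0 : ℝ) < m := by exact_mod_cast hm0
  have hx : exp (1 / T) ≤ 1 + 2 / T := by
    have h1 : 1 / T ≤ 1 := (div_le_one hT0).2 (by linarith)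
    have h2 : 0 ≤ 1 / T := by positivity
    have h3 := (abs_le.1 (Real.abs_exp_sub_one_le (x := 1 / T) (by rwa [abs_of_nonneg h2]))).2
    rw [abs_of_nonneg h2] at h3
    have : 2 / T = 2 * (1 / T) := by ring
    linarith
  have hup : ∀ n ∈ P, (n : ℝ) ≤ m * (1 + 2 / T) := fun n hn => by
    have hn1 := (mem_filter.1 hn).1
    have hn0 : (0 : ℝ) < n := by exact_mod_cast (mem_filter.1 hn).2.pos
    have h1 : log n ≤ log m + 1 / T := by linarith [(hy n hn1).2, (hy m hmS).1]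
    have h2 := exp_le_exp.2 h1
    rw [exp_add, exp_log hn0, exp_log hm3] at h2
    exact h2.trans (mul_le_mul_of_nonneg_left hx hm3.le)
  have hc := primes_le (e := a / 8) (u := m - 1) (v := ⌊(m : ℝ) * (1 + 2 / T)⌋₊) (by omega) P
    fun n hn => ⟨(mem_filter.1 hn).2,
      (Nat.pow_le_pow_right two_pos (by omega)).trans (hS n (mem_filter.1 hn).1),
      by have := P.min'_le n hn; omega, Nat.le_floor (hup n hn)⟩
  have hv : (((⌊(m : ℝ) * (1 + 2 / T)⌋₊ - (m - 1)) / 2 + 1 : ℕ) : ℝ) ≤ m / T + 3 / 2 := by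
    have h1 : m ≤ ⌊(m : ℝ) * (1 + 2 / T)⌋₊ :=
      Nat.le_floor (le_mul_of_one_le_right hm3.le (le_add_of_nonneg_right (by positivity)))
    have h2 : (⌊(m : ℝ) * (1 + 2 / T)⌋₊ : ℝ) ≤ m * (1 + 2 / T) := Nat.floor_le (by positivity)
    have h3 : 2 * ((⌊(m : ℝ) * (1 + 2 / T)⌋₊ - (m - 1)) / 2 + 1) + m ≤
        ⌊(m : ℝ) * (1 + 2 / T)⌋₊ + 3 := by omega
    have h5 : 2 * (((⌊(m : ℝ) * (1 + 2 / T)⌋₊ - (m - 1)) / 2 + 1 : ℕ) : ℝ) + m ≤
        (⌊(m : ℝ) * (1 + 2 / T)⌋₊ : ℝ) + 3 := by exact_mod_cast h3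
    have h6 : (m : ℝ) * (1 + 2 / T) = m + 2 * (m / T) := by ring
    linarith
  have he : (a : ℝ) ≤ 16 * (a / 8 : ℕ) := by exact_mod_cast (by omega : a ≤ 16 * (a / 8))
  have he0 : (0 : ℝ) < (a / 8 : ℕ) := by exact_mod_cast (by omega : 0 < a / 8)
  have hTm : T ≤ m := by
    have : T ≤ T ^ 4 := le_self_pow₀ (by linarith) (by norm_num)
    linarith
  have h7 : (m : ℝ) / T + 3 / 2 ≤ 5 / 2 * (m / T) := by
    have : 1 ≤ (m : ℝ) / T := (one_le_div hT0).2 hTm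
    linarith
  have h8 : 6 * (((⌊(m : ℝ) * (1 + 2 / T)⌋₊ - (m - 1)) / 2 + 1 : ℕ) : ℝ) / (a / 8 : ℕ) ≤
      240 * (m / (a * T)) := by
    rw [div_le_iff₀ he0]
    have h9 : (m : ℝ) / T = a * (m / (a * T)) := by field_simp
    have h10 : 0 ≤ (m : ℝ) / (a * T) := by positivity
    have h11 := mul_le_mul_of_nonneg_right he h10
    linarith
  have h9 : (2 : ℝ) ^ (4 * (a / 8)) ≤ m / (a * T) := by
    rw [le_div_iff₀ (by positivity), mul_comm]
    exact (small ha hT h4).trans hm2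
  have h10 : ∑ n ∈ P, r n ≤ P.card • (1 / m : ℝ) := sum_le_card_nsmul _ _ _ fun n hn => by
    rw [r_prime (mem_filter.1 hn).2]
    exact one_div_le_one_div_of_le hm3 (by exact_mod_cast P.min'_le n hn)
  rw [nsmul_eq_mul] at h10
  refine h10.trans ?_
  rw [mul_one_div, div_le_iff₀ hm3]
  have h11 : 242 / (a * T) * m = 242 * (m / (a * T)) := by ring
  linarith

end BTK

theorem st_BTK : St_BTK := by
  refine ⟨1452, by norm_num, fun a T S ha hT h4 hS z => ?_⟩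
  have hT0 : 0 < T := by linarith
  have ha0 : (64 : ℝ) ≤ a := by exact_mod_cast ha
  set key : ℕ → ℕ := fun n => ⌊T * |log n - z|⌋₊ with hkey
  have hmap : ∀ n ∈ S, key n ∈ range (S.sup key + 1) := fun n hn =>
    mem_range.2 (Nat.lt_succ_of_le (le_sup hn))
  rw [← sum_fiberwise_of_maps_to hmap]
  have hq : exp (-(1 / 2)) ≤ (2 / 3 : ℝ) := by
    rw [exp_neg, inv_le_comm₀ (exp_pos _) (by norm_num)]
    linarith [add_one_le_exp (1 / 2 : ℝ)]
  have h1 : ∀ k ∈ range (S.sup key + 1), ∑ n ∈ S with key n = k,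
      r n * (T * exp (-(T / 2 * |log n - z|))) ≤ 484 / a * (2 / 3) ^ k := by
    intro k _
    have hk : ∀ n ∈ S.filter fun n => key n = k,
        k / T ≤ |log n - z| ∧ |log n - z| ≤ k / T + 1 / T := fun n hn => by
      have h2 := (Nat.floor_eq_iff (by positivity)).1 (mem_filter.1 hn).2
      rw [← add_div, div_le_iff₀ hT0, le_div_iff₀ hT0, mul_comm]
      exact ⟨h2.1, h2.2.le⟩
    have h2 : ∑ n ∈ S with key n = k, r n ≤ 242 / (a * T) + 242 / (a * T) := by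
      rw [← sum_filter_add_sum_filter_not _ fun n : ℕ => z ≤ log n]
      refine add_le_add (BTK.fib (y := z + k / T) _ ha hT h4
        (fun n hn => hS n (mem_filter.1 (mem_filter.1 hn).1).1) fun n hn => ?_)
        (BTK.fib (y := z - k / T - 1 / T) _ ha hT h4
        (fun n hn => hS n (mem_filter.1 (mem_filter.1 hn).1).1) fun n hn => ?_)
      · have h3 := hk n (mem_filter.1 hn).1
        rw [abs_of_nonneg (sub_nonneg.2 (mem_filter.1 hn).2)] at h3
        constructor <;> linarith [h3.1, h3.2]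
      · have h3 := hk n (mem_filter.1 hn).1
        rw [abs_of_neg (sub_neg.2 (not_le.1 (mem_filter.1 hn).2))] at h3
        constructor <;> linarith [h3.1, h3.2]
    have h3 : ∑ n ∈ S with key n = k, r n * (T * exp (-(T / 2 * |log n - z|))) ≤
        ∑ n ∈ S with key n = k, r n * (T * (2 / 3) ^ k) := sum_le_sum fun n hn => by
      refine mul_le_mul_of_nonneg_left (mul_le_mul_of_nonneg_left ?_ hT0.le) (r_nonneg n)
      refine le_trans ?_ (pow_le_pow_left₀ (exp_pos _).le hq k)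
      rw [← exp_nat_mul, exp_le_exp]
      have h5 := (div_le_iff₀ hT0).1 (hk n hn).1
      linarith
    refine h3.trans ?_
    rw [← sum_mul]
    refine (mul_le_mul_of_nonneg_right h2 (by positivity)).trans (le_of_eq ?_)
    field_simp
    norm_num
  refine (sum_le_sum h1).trans ?_
  rw [← mul_sum]
  refine (mul_le_mul_of_nonneg_left (BTK.geo _) (by positivity)).trans (le_of_eq ?_)
  ring

end Pool.Agent.Lib.RX
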