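import Pool.Agent.Lib.RX.Kit0

/-! Project rx29: sampling of the majorant. -/

namespace Pool.Agent.Lib.RX

open Finset Real MeasureTheory Filter Topology Pool.Agent.Lib.RM67 Pool.Agent.Lib.RM67.T96

noncomputable section

namespace BX

theorem w_eq {ρ : ℝ} (hρ : 0 < ρ) :
    (fun s : ℝ => 2 * ρ / (1 + ρ ^ 2 * s ^ 2)) = fun s => 2 / ρ * RM67.ker (1 / ρ) s := by
  funext s
  unfold RM67.ker
  field_simp

theorem w_int {ρ : ℝ} (hρ : 0 < ρ) : Integrable fun s : ℝ => 2 * ρ / (1 + ρ ^ 2 * s ^ 2) := by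
  rw [w_eq hρ]
  exact (ker_int (by positivity)).const_mul _

theorem w_val {ρ : ℝ} (hρ : 0 < ρ) : ∫ s : ℝ, 2 * ρ / (1 + ρ ^ 2 * s ^ 2) = 2 * π := by
  rw [w_eq hρ, integral_const_mul, int_ker (by positivity)]
  field_simp

theorem n_ee (y : ℝ) : ‖ee y‖ = 1 := Complex.norm_exp_ofReal_mul_I y

theorem m_ee : Measurable ee := by
  unfold ee
  fun_prop

theorem f_int {Φ : ℝ → ℂ} {D : ℝ} (hm : Measurable Φ) (hi : Integrable Φ) (hD : ∀ t, ‖Φ t‖ ≤ D)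
    (s : ℝ) : Integrable fun t => Φ (t + s) * (starRingEnd ℂ) (Φ t) := by
  refine (hi.norm.const_mul D).mono' ?_ (Eventually.of_forall fun t => ?_)
  · exact ((hm.comp (measurable_add_const s)).mul
      (Complex.continuous_conj.measurable.comp hm)).aestronglyMeasurable
  · rw [norm_mul, Complex.norm_conj]
    exact mul_le_mul_of_nonneg_right (hD _) (norm_nonneg _)

theorem g_int {ρ : ℝ} (hρ : 0 < ρ) {Φ : ℝ → ℂ} {D : ℝ} (hm : Measurable Φ) (hi : Integrable Φ)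
    (hD : ∀ t, ‖Φ t‖ ≤ D) (h : ℝ) : Integrable fun s : ℝ => 2 * ρ / (1 + ρ ^ 2 * s ^ 2) *
      ‖∫ t, Φ (t + s) * (starRingEnd ℂ) (Φ t) * ee (t * h)‖ ^ 2 := by
  have m : Measurable fun p : ℝ × ℝ =>
      Φ (p.2 + p.1) * (starRingEnd ℂ) (Φ p.2) * ee (p.2 * h) :=
    ((hm.comp (measurable_snd.add measurable_fst)).mul
      (Complex.continuous_conj.measurable.comp (hm.comp measurable_snd))).mul
      (m_ee.comp (measurable_snd.mul_const h))
  have k : StronglyMeasurable fun s : ℝ =>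
      ∫ t, Φ (t + s) * (starRingEnd ℂ) (Φ t) * ee (t * h) :=
    StronglyMeasurable.integral_prod_right' (ν := volume) m.stronglyMeasurable
  refine (w_int hρ).mul_bdd (c := (∫ t, D * ‖Φ t‖) ^ 2) (k.norm.pow 2).aestronglyMeasurable
    (Eventually.of_forall fun s => ?_)
  rw [norm_pow, norm_norm]
  refine pow_le_pow_left₀ (norm_nonneg _) ?_ 2
  refine norm_integral_le_of_norm_le (hi.norm.const_mul D) (Eventually.of_forall fun t => ?_)
  rw [norm_mul, norm_mul, n_ee, mul_one, Complex.norm_conj]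
  exact mul_le_mul_of_nonneg_right (hD _) (norm_nonneg _)

end BX

open BX in
theorem st_BX (h1 : St_SE) (h2 : St_EN) : St_BX := by
  obtain ⟨C, hC, h1⟩ := h1
  refine ⟨C * (((2 * π) ^ 3)⁻¹ * (2 * π)), by positivity,
    fun a T ρ ρ' D v S Φ ha hT hTa hρ hρ' hS hm hi hD h0 => ?_⟩
  have g := g_int hρ hm hi hD
  have g2 : ∀ n : ℕ, Integrable fun s : ℝ => r n * (2 * ρ / (1 + ρ ^ 2 * s ^ 2) *
        ‖∫ t, Φ (t + s) * (starRingEnd ℂ) (Φ t) * ee (t * (v + log n))‖ ^ 2 +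
        2 * ρ / (1 + ρ ^ 2 * s ^ 2) *
        ‖∫ t, Φ (t + s) * (starRingEnd ℂ) (Φ t) * ee (t * (v - log n))‖ ^ 2) := fun n =>
    ((g _).add (g _)).const_mul (r n)
  have k : ∀ s : ℝ, ∑ n ∈ S, r n *
      (‖∫ t, Φ (t + s) * (starRingEnd ℂ) (Φ t) * ee (t * (v + log n))‖ ^ 2 +
        ‖∫ t, Φ (t + s) * (starRingEnd ℂ) (Φ t) * ee (t * (v - log n))‖ ^ 2) ≤
      C * ρ' / a * En ρ' fun t => ‖Φ t‖ ^ 2 := fun s =>
    (h1 a T ρ' v S (fun t => Φ (t + s) * (starRingEnd ℂ) (Φ t)) ha hT hTa hρ' hS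
      (f_int hm hi hD s) fun t ht => by simp [h0 t ht]).trans
      (mul_le_mul_of_nonneg_left (h2.2 ρ' Φ D s hm hi hD) (by positivity))
  have e : ∑ n ∈ S, r n * (bx ρ Φ (v + log n) + bx ρ Φ (v - log n)) = ((2 * π) ^ 3)⁻¹ *
      ∫ s, ∑ n ∈ S, r n * (2 * ρ / (1 + ρ ^ 2 * s ^ 2) *
        ‖∫ t, Φ (t + s) * (starRingEnd ℂ) (Φ t) * ee (t * (v + log n))‖ ^ 2 +
        2 * ρ / (1 + ρ ^ 2 * s ^ 2) *
        ‖∫ t, Φ (t + s) * (starRingEnd ℂ) (Φ t) * ee (t * (v - log n))‖ ^ 2) := by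
    rw [integral_finsetSum S fun n _ => g2 n, mul_sum]
    refine sum_congr rfl fun n _ => ?_
    rw [integral_const_mul, integral_add (g _) (g _), bx, bx]
    ring
  have i : ∫ s, ∑ n ∈ S, r n * (2 * ρ / (1 + ρ ^ 2 * s ^ 2) *
        ‖∫ t, Φ (t + s) * (starRingEnd ℂ) (Φ t) * ee (t * (v + log n))‖ ^ 2 +
        2 * ρ / (1 + ρ ^ 2 * s ^ 2) *
        ‖∫ t, Φ (t + s) * (starRingEnd ℂ) (Φ t) * ee (t * (v - log n))‖ ^ 2) ≤
      ∫ s : ℝ, 2 * ρ / (1 + ρ ^ 2 * s ^ 2) * (C * ρ' / a * En ρ' fun t => ‖Φ t‖ ^ 2) := by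
    refine integral_mono (integrable_finsetSum S fun n _ => g2 n)
      ((w_int hρ).mul_const _) fun s => ?_
    have := mul_le_mul_of_nonneg_left (k s) (by positivity : 0 ≤ 2 * ρ / (1 + ρ ^ 2 * s ^ 2))
    refine le_of_eq_of_le ?_ this
    rw [mul_sum]
    exact sum_congr rfl fun n _ => by ring
  rw [integral_mul_const, w_val hρ] at i
  rw [e]
  refine (mul_le_mul_of_nonneg_left i (by positivity)).trans (le_of_eq ?_)
  ring

end

end Pool.Agent.Lib.RX
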