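import Pool.Agent.Lib.RX.Kit0

/-! Project rx29: the shifted product is rarely much larger than the unshifted one. -/

namespace Pool.Agent.Lib.RX

open Finset Real MeasureTheory Filter Topology Pool.Agent.Lib.RM67 Pool.Agent.Lib.RM67.T96

namespace CMP

theorem nsq (a y : ℝ) : ‖(1 : ℂ) + (a : ℝ) * ee y‖ ^ 2 = 1 + a ^ 2 + 2 * a * cos y := by
  rw [Complex.sq_norm, Complex.normSq_apply]
  simp only [ee, Complex.add_re, Complex.add_im, Complex.one_re, Complex.one_im,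
    Complex.re_ofReal_mul, Complex.im_ofReal_mul, Complex.exp_ofReal_mul_I_re,
    Complex.exp_ofReal_mul_I_im]
  nlinarith [sin_sq_add_cos_sq y]

theorem one {ρ a δ c : ℝ} {θ : ℕ} (h0 : 0 ≤ ρ) (h1 : ρ ^ 2 ≤ 1 / 2) (h2 : ρ ≤ a)
    (h3 : a - ρ ≤ 2 * δ * ρ) (h4 : 0 ≤ δ) (h5 : θ * δ ≤ 1 / 128) (h6 : 1 ≤ θ) (hc : |c| ≤ 1) :
    (1 + a ^ 2 + 2 * a * c) * ((1 + a ^ 2 + 2 * a * c) / (1 + ρ ^ 2 + 2 * ρ * c)) ^ θ ≤
      1 + a ^ 2 + 2 * a * c + θ * (a ^ 2 - ρ ^ 2 + 2 * (a - ρ) * c) + 380 * (θ * δ * ρ ^ 2) := by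
  obtain ⟨c1, c2⟩ := abs_le.1 hc
  have hθ : (1 : ℝ) ≤ θ := by exact_mod_cast h6
  have hδ : δ ≤ 1 / 128 := by nlinarith
  have hρ : ρ ≤ 71 / 100 := by nlinarith
  have ha : a ≤ 1 := by nlinarith
  have ha3 : a + ρ ≤ 3 * ρ := by nlinarith
  have hδρ : 0 ≤ δ * ρ := by positivity
  set A := 1 + a ^ 2 + 2 * a * c with hA
  set B := 1 + ρ ^ 2 + 2 * ρ * c with hB
  set D := a ^ 2 - ρ ^ 2 + 2 * (a - ρ) * c with hD
  have hB1 : 1 / 12 ≤ B := by nlinarith
  have hA0 : 0 ≤ A := by nlinarith [sq_nonneg (1 - a)]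
  have hA4 : A ≤ 4 := by nlinarith
  have hD1 : |D| ≤ 9 * (δ * ρ) := by
    have e1 : 0 ≤ (a - ρ) * (a + ρ) := mul_nonneg (by linarith) (by linarith)
    have e2 : (a - ρ) * (a + ρ) ≤ 2 * δ * ρ * (5 / 2) :=
      mul_le_mul h3 (by linarith) (by linarith) (by positivity)
    have e3 : (a - ρ) * c ≤ a - ρ := by nlinarith
    have e4 : -(a - ρ) ≤ (a - ρ) * c := by nlinarith
    rw [abs_le]
    constructor <;> nlinarith
  have hB0 : 0 < B := by linarith
  set u := D / B with hu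
  have hu1 : |u| ≤ 108 * (δ * ρ) := by
    rw [hu, abs_div, abs_of_pos hB0, div_le_iff₀ hB0]
    nlinarith
  have hDu : D = u * B := by rw [hu]; field_simp
  have hAB : A / B = u + 1 := by
    rw [hu, div_add_one hB0.ne']
    congr 1
    rw [hA, hB, hD]; ring
  set w := θ * δ with hw
  have hw0 : 0 ≤ w := by positivity
  have hy : |θ * u| ≤ 108 * (w * ρ) := by
    rw [abs_mul, abs_of_nonneg (by linarith : (0 : ℝ) ≤ θ)]
    refine (mul_le_mul_of_nonneg_left hu1 (by linarith)).trans (le_of_eq ?_)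
    rw [hw]; ring
  have hwρ : w * ρ ≤ 1 / 128 := by nlinarith
  have hy1 : |θ * u| ≤ 1 := by linarith
  have e1 : (A / B) ^ θ ≤ 1 + θ * u + (θ * u) ^ 2 := by
    have := (abs_le.1 (abs_exp_sub_one_sub_id_le hy1)).2
    have k : (A / B) ^ θ ≤ exp (θ * u) := by
      rw [exp_nat_mul]
      exact pow_le_pow_left₀ (by positivity) (hAB ▸ add_one_le_exp u) θ
    linarith
  have e2 : θ * u * D ≤ 8 * (w * ρ ^ 2) := by
    have k1 : θ * u * D ≤ 108 * (w * ρ) * (9 * (δ * ρ)) :=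
      (le_abs_self _).trans (by
        rw [abs_mul]; exact mul_le_mul hy hD1 (abs_nonneg _) (by positivity))
    have k2 : 0 ≤ w * ρ ^ 2 := by positivity
    nlinarith
  have e3 : (θ * u) ^ 2 ≤ 92 * (w * ρ ^ 2) := by
    have k1 : (θ * u) ^ 2 ≤ (108 * (w * ρ)) ^ 2 := by
      rw [← sq_abs]; exact pow_le_pow_left₀ (abs_nonneg _) hy 2
    have k2 : 0 ≤ w * ρ ^ 2 := by positivity
    nlinarith
  have e4 : A * (θ * u) = θ * D + θ * u * D := by
    have : A = B + D := by rw [hA, hB, hD]; ring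
    rw [this]
    nth_rewrite 2 [hDu]
    ring
  have e5 := mul_le_mul_of_nonneg_left e1 hA0
  have e6 := mul_le_mul hA4 e3 (sq_nonneg _) (by norm_num)
  have k2 : 0 ≤ w * ρ ^ 2 := by positivity
  nlinarith

/-- The tilted square of the shifted product. -/
noncomputable def G (σ t : ℝ) (θ : ℕ) (l : List Bool) : ℝ :=
  ‖Ec σ l t‖ ^ 2 * (‖Ec σ l t‖ ^ 2 / (Pr l.length * R l t)) ^ θ

theorem Pr_pos (n : ℕ) : 0 < Pr n := prod_pos fun m _ => by linarith [r_nonneg m]

theorem G_nonneg (σ t : ℝ) (θ : ℕ) (l : List Bool) : 0 ≤ G σ t θ l := by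
  have := Pr_pos l.length
  have := R_pos t l
  unfold G
  positivity

theorem G_cons (σ t : ℝ) (θ : ℕ) (b : Bool) (l : List Bool) : G σ t θ (b :: l) = G σ t θ l *
    ((1 + xx σ l.length ^ 2 + 2 * xx σ l.length * (sg b * cos (log l.length * t))) *
      ((1 + xx σ l.length ^ 2 + 2 * xx σ l.length * (sg b * cos (log l.length * t))) /
        (1 + √(r l.length) ^ 2 + 2 * √(r l.length) * (sg b * cos (log l.length * t)))) ^ θ) := by
  have hr := r_nonneg l.length
  have e1 : ‖Ec σ (b :: l) t‖ ^ 2 = ‖Ec σ l t‖ ^ 2 *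
      (1 + xx σ l.length ^ 2 + 2 * xx σ l.length * (sg b * cos (log l.length * t))) := by
    rw [Ec, norm_mul, mul_pow, nsq, cos_neg, mul_comm t, mul_pow, ← sq_abs (sg b), abs_sg]
    ring
  have e2 : Pr (b :: l).length * R (b :: l) t = Pr l.length * R l t *
      (1 + √(r l.length) ^ 2 + 2 * √(r l.length) * (sg b * cos (log l.length * t))) := by
    rw [List.length_cons, Pr, prod_range_succ, ← Pr, R, bb, be, sq_sqrt hr]
    field_simp
  rw [G, G, e1, e2, ← div_mul_div_comm, mul_pow]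
  ring

theorem G_step {σ : ℝ} (t : ℝ) {θ : ℕ} (hσ : 0 ≤ σ) (h6 : 1 ≤ θ) (l : List Bool)
    (h : θ * (σ * log l.length) ≤ 1 / 128) :
    (G σ t θ (true :: l) + G σ t θ (false :: l)) / 2 ≤ G σ t θ l *
      ((1 + r l.length) * exp (400 * (θ * σ) * (r l.length * log l.length))) := by
  set n := l.length
  have hr := r_nonneg n
  have hl : 0 ≤ log (n : ℝ) := log_natCast_nonneg n
  set δ := σ * log n with hδ
  have h4 : 0 ≤ δ := by positivity
  have hθ : (1 : ℝ) ≤ θ := by exact_mod_cast h6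
  have hδ1 : δ ≤ 1 / 128 := by nlinarith
  have he : exp δ ≤ 1 + 2 * δ := by
    have := (abs_le.1 (abs_exp_sub_one_le (x := δ) (by rw [abs_of_nonneg h4]; linarith))).2
    rw [abs_of_nonneg h4] at this
    linarith
  have he1 : 1 ≤ exp δ := one_le_exp h4
  have h0 : 0 ≤ √(r n) := sqrt_nonneg _
  have h1 : √(r n) ^ 2 ≤ 1 / 2 := by rw [sq_sqrt hr]; exact r_le n
  have h2 : √(r n) ≤ xx σ n := by rw [xx]; nlinarith
  have h3 : xx σ n - √(r n) ≤ 2 * δ * √(r n) := by rw [xx]; nlinarith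
  have hc : ∀ b, |sg b * cos (log n * t)| ≤ 1 := fun b => by
    rw [abs_mul, abs_sg, one_mul]; exact abs_cos_le_one _
  have a1 := one h0 h1 h2 h3 h4 h h6 (hc true)
  have a2 := one h0 h1 h2 h3 h4 h h6 (hc false)
  rw [G_cons, G_cons, ← mul_add, mul_div_assoc]
  refine mul_le_mul_of_nonneg_left ?_ (G_nonneg _ _ _ _)
  refine le_trans (div_le_div_of_nonneg_right (add_le_add a1 a2) two_pos.le) ?_
  have k1 : xx σ n ^ 2 - √(r n) ^ 2 ≤ 6 * δ * √(r n) ^ 2 := by
    have e2 : (xx σ n - √(r n)) * (xx σ n + √(r n)) ≤ 2 * δ * √(r n) * (3 * √(r n)) :=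
      mul_le_mul h3 (by nlinarith) (by linarith) (by positivity)
    nlinarith
  have k2 := add_one_le_exp (400 * (θ * σ) * (r n * log n))
  have k3 : 400 * (θ * σ) * (r n * log n) = 400 * (θ * δ * r n) := by rw [hδ]; ring
  rw [k3] at k2 ⊢
  rw [sq_sqrt hr] at k1 ⊢
  have k4 : 0 ≤ δ * r n := by positivity
  have k5 : δ * r n ≤ θ * δ * r n := by nlinarith
  have k6 := mul_le_mul_of_nonneg_left k1 (by linarith : (0 : ℝ) ≤ θ)
  have k7 := mul_le_mul_of_nonneg_left k2 (by linarith : (0 : ℝ) ≤ 1 + r n)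
  have k8 : 0 ≤ r n * (θ * δ * r n) := by positivity
  simp only [sg_true, sg_false]
  nlinarith

theorem av_G {σ : ℝ} (t : ℝ) {θ : ℕ} (hσ : 0 ≤ σ) (h6 : 1 ≤ θ) (n : ℕ) :
    (∀ k < n, θ * (σ * log k) ≤ 1 / 128) →
    av n (G σ t θ) ≤ Pr n * exp (400 * (θ * σ) * ∑ k ∈ range n, r k * log k) := by
  induction n with
  | zero => intro _; simp [av, G, Ec, Pr, R]
  | succ n ih =>
    intro h
    have h1 := ih fun k hk => h k (by omega)
    have hr := r_nonneg n
    refine le_trans (av_mono (n := n) (G := fun l =>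
      ((1 + r n) * exp (400 * (θ * σ) * (r n * log n))) * G σ t θ l) fun l hl => ?_) ?_
    · rw [mul_comm, ← hl]
      exact G_step t hσ h6 l (by rw [hl]; exact h n (by omega))
    · rw [av_mul, Pr, prod_range_succ, ← Pr, sum_range_succ, mul_add (400 * _), exp_add]
      refine (mul_le_mul_of_nonneg_left h1 (by positivity)).trans (le_of_eq ?_)
      ring

end CMP

open CMP in
theorem st_CMP : St_CMP := by
  refine ⟨exp 18 * exp 400, by positivity, ?_⟩
  filter_upwards [eventually_ge_atTop 3] with s hs j hj t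
  have hj1 : 2 * 2 ^ (16 * s) - (16 * s + 30) ≤ j := (mem_Ico.1 hj).1
  have hp : 16 * s < 2 ^ (16 * s) := Nat.lt_two_pow_self
  have hlog : Nat.log 2 s ≤ s := Nat.log_le_self 2 s
  have hp2 : 2 * (8 * s) * 2 ≤ 2 ^ (16 * s) := by
    have : 16 * s - 1 < 2 ^ (16 * s - 2) := by
      have h1 : 16 * s - 3 < 2 ^ (16 * s - 3) := Nat.lt_two_pow_self
      rw [show 16 * s - 2 = 16 * s - 3 + 1 by omega, pow_succ]
      omega
    rw [show 16 * s = 16 * s - 2 + 2 by omega, pow_add]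
    omega
  set K := Nat.log 2 s + 10 with hK
  set m := mm s j with hm
  have hjm : j = m + K := by rw [hm, mm]; omega
  have hm1 : 1 ≤ m := by omega
  have hsK : 512 * (s : ℝ) ≤ 2 ^ K := by
    have : s < 2 ^ (Nat.log 2 s + 1) := Nat.lt_pow_succ_log_self one_lt_two s
    have h2 : 512 * s ≤ 2 ^ K := by
      rw [hK, show Nat.log 2 s + 10 = Nat.log 2 s + 1 + 9 by ring, pow_add]
      omega
    exact_mod_cast h2
  have hσ : 0 ≤ sig j := by unfold sig; positivity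
  have key : ((32 * s : ℕ) : ℝ) * sig j * 2 ^ m ≤ 1 / 128 := by
    rw [sig, hjm, pow_add]
    push_cast
    have : (0 : ℝ) < 2 ^ K := by positivity
    rw [show 32 * (s : ℝ) * (1 / (8 * (2 ^ m * 2 ^ K))) * 2 ^ m = 4 * s / 2 ^ K by
      field_simp; ring, div_le_iff₀ this]
    linarith
  have hθσ : 0 ≤ ((32 * s : ℕ) : ℝ) * sig j := by positivity
  have h1 := av_G t hσ (show 1 ≤ 32 * s by omega) (Y m) fun k hk => by
    have := log_le_of_lt (a := 2 ^ m) hk
    push_cast at this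
    rw [← mul_assoc]
    exact (mul_le_mul_of_nonneg_left this hθσ).trans key
  have h2 : Pr (Y m) ≤ exp 18 * 2 ^ m := by
    have := Pr_le (a := 2 ^ m) (Nat.pow_le_pow_right two_pos hm1)
    push_cast at this
    exact this
  have h3 : 400 * (((32 * s : ℕ) : ℝ) * sig j) * ∑ k ∈ range (Y m), r k * log k ≤ 400 := by
    have a := srl_le (2 ^ m)
    push_cast at a
    have b : (1 : ℝ) ≤ 2 ^ m := one_le_pow₀ one_le_two
    have c := mul_le_mul_of_nonneg_left (a.trans (show (2 : ℝ) ^ m + 2 ≤ 3 * 2 ^ m by linarith)) hθσ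
    rw [mul_assoc]
    change 400 * (((32 * s : ℕ) : ℝ) * sig j * ∑ k ∈ range (2 ^ 2 ^ m), r k * log k) ≤ 400
    nlinarith
  have h4 : av (Y m) (fun l => ‖Ec (sig j) l t‖ ^ 2 * ind (t ∉ cm s j l)) ≤
      av (Y m) fun l => G (sig j) t (32 * s) l / 2 ^ (32 * s) := by
    refine av_mono fun l hl => ?_
    by_cases hc : t ∈ cm s j l
    · rw [ind_neg (not_not.2 hc), mul_zero]
      exact div_nonneg (G_nonneg _ _ _ _) (by positivity)
    · rw [ind_pos hc, mul_one, le_div_iff₀ (by positivity), G]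
      refine mul_le_mul_of_nonneg_left (pow_le_pow_left₀ two_pos.le ?_ _) (sq_nonneg _)
      rw [le_div_iff₀ (mul_pos (Pr_pos _) (R_pos t l)), hl, ← mul_assoc]
      exact (not_le.1 hc).le
  rw [av_div] at h4
  refine h4.trans (div_le_div_of_nonneg_right (h1.trans ?_) (by positivity))
  refine (mul_le_mul h2 (exp_le_exp.2 h3) (exp_pos _).le (by positivity)).trans (le_of_eq ?_)
  ring

end Pool.Agent.Lib.RX
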