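import Pool.Agent.Lib.RX.Kit2

/-! Project rx29: the number of windows with a large local mass. -/

namespace Pool.Agent.Lib.RX

open Finset Real MeasureTheory Filter Topology Pool.Agent.Lib.RM67 Pool.Agent.Lib.RM67.T96

noncomputable section

namespace XCNT

theorem cau {a : ℝ} (ha : 0 < a) (u : ℝ) :
    (Integrable fun t => (1 + a ^ 2 * (t - u) ^ 2)⁻¹) ∧
      ∫ t, (1 + a ^ 2 * (t - u) ^ 2)⁻¹ = π / a := by
  have e : (fun t => (1 + a ^ 2 * (t - u) ^ 2)⁻¹) = fun t => (a ^ 2)⁻¹ * RM67.ker a⁻¹ (t - u) := by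
    funext t
    unfold RM67.ker
    field_simp
  rw [e]
  refine ⟨((ker_int (inv_pos.2 ha)).comp_sub_right u).const_mul _, ?_⟩
  rw [integral_const_mul, integral_sub_right_eq_self (RM67.ker a⁻¹) u, int_ker (inv_pos.2 ha)]
  field_simp

theorem win {b α β t : ℝ} (hb : 0 < b) (h : α + 2 * b⁻¹ ≤ β) (ht : t ∈ Set.Ico α β) (u : ℝ) :
    (1 + b ^ 2 * (t - u) ^ 2)⁻¹ ≤ 3 * b * ∫ x in Set.Ico α β, (1 + b ^ 2 * (x - u) ^ 2)⁻¹ := by
  have hi := inv_pos.2 hb
  obtain ⟨v, h1, h2, h3, h4⟩ : ∃ v, α ≤ v ∧ v + b⁻¹ ≤ β ∧ v ≤ t ∧ t ≤ v + b⁻¹ := by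
    rcases le_total (t + b⁻¹) β with k | k
    · exact ⟨t, ht.1, k, le_rfl, by linarith⟩
    · exact ⟨t - b⁻¹, by linarith, by linarith [ht.2], by linarith, by linarith⟩
  have k1 : ∫ x in Set.Ico v (v + b⁻¹), (1 + b ^ 2 * (x - u) ^ 2)⁻¹ ≤
      ∫ x in Set.Ico α β, (1 + b ^ 2 * (x - u) ^ 2)⁻¹ :=
    setIntegral_mono_set (cau hb u).1.integrableOn (Eventually.of_forall fun x => by positivity)
      (Set.Ico_subset_Ico h1 h2).eventuallyLE
  have k2 := setIntegral_ge_of_const_le_real (μ := volume) (s := Set.Ico v (v + b⁻¹))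
    (f := fun x => (1 + b ^ 2 * (x - u) ^ 2)⁻¹) (c := (1 + b ^ 2 * (t - u) ^ 2)⁻¹ / 3)
    measurableSet_Ico measure_Ico_lt_top.ne (fun x hx => by
      have e : |b * (x - t)| ≤ 1 := by
        rw [abs_mul, abs_of_pos hb, ← le_div_iff₀' hb, one_div, abs_le]
        constructor <;> linarith [hx.1, hx.2]
      have e2 := (sq_le_one_iff_abs_le_one _).2 e
      rw [div_eq_mul_inv, ← mul_inv]
      refine inv_anti₀ (by positivity) ?_
      nlinarith [sq_nonneg (b * (x - t) - b * (t - u)), sq_nonneg (b * (t - u))])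
    (cau hb u).1.integrableOn
  rw [Real.volume_real_Ico_of_le (by linarith), add_sub_cancel_left] at k2
  have k3 := mul_le_mul_of_nonneg_left (k2.trans k1) (by positivity : 0 ≤ 3 * b)
  refine le_trans (le_of_eq ?_) k3
  field_simp

theorem sum_win {a i : ℕ} (h : a < i) (S : Finset ℤ) {t : ℤ → ℝ}
    (ht : ∀ k ∈ S, t k ∈ Set.Ico ((k : ℝ) / 2 ^ a) ((k + 1 : ℝ) / 2 ^ a)) (u : ℝ) :
    ∑ k ∈ S, (1 + (2 ^ i) ^ 2 * (t k - u) ^ 2)⁻¹ ≤ 10 := by
  have hb : (0 : ℝ) < 2 ^ i := by positivity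
  have ha : (0 : ℝ) < 2 ^ a := by positivity
  have h1 : 2 * ((2 : ℝ) ^ i)⁻¹ ≤ 1 / 2 ^ a := by
    rw [← div_eq_mul_inv, div_le_div_iff₀ hb ha, one_mul, ← pow_succ']
    exact pow_le_pow_right₀ one_le_two h
  refine (sum_le_sum fun k hk => win hb (by rw [add_div]; linarith) (ht k hk) u).trans ?_
  rw [← mul_sum, ← integral_biUnion_finset S (fun _ _ => measurableSet_Ico) ?_
    fun _ _ => (cau hb u).1.integrableOn]
  · have := (setIntegral_le_integral (s := ⋃ k ∈ S, Set.Ico ((k : ℝ) / 2 ^ a) ((k + 1 : ℝ) / 2 ^ a))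
      (cau hb u).1 (Eventually.of_forall fun x => by positivity)).trans_eq (cau hb u).2
    refine (mul_le_mul_of_nonneg_left this (by positivity)).trans ?_
    rw [mul_assoc, mul_div_cancel₀ _ hb.ne']
    linarith [pi_lt_d2]
  · intro k _ m _ hkm
    refine Set.disjoint_left.2 fun x hx hy => hkm ?_
    have a1 := (div_lt_div_iff_of_pos_right ha).1 (hx.1.trans_lt hy.2)
    have a2 := (div_lt_div_iff_of_pos_right ha).1 (hy.1.trans_lt hx.2)
    have b1 : k < m + 1 := by exact_mod_cast a1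
    have b2 : m < k + 1 := by exact_mod_cast a2
    omega

/-- The weight. -/
def g (s i : ℕ) (l : List Bool) (t : ℝ) : ℝ :=
  (gd s ∩ hi s i l).indicator (fun t => R l t * dens t) t +
    (gd s)ᶜ.indicator (fun t => R l t * dens t) t + 2 / 2 ^ (32 * s) * (R l t * dens t)

theorem g_int (s i : ℕ) (l : List Bool) : Integrable (g s i l) :=
  (((R_int l).indicator ((gd_meas s).inter (hi_meas s i l))).add
    ((R_int l).indicator (gd_meas s).compl)).add ((R_int l).const_mul _)

theorem rd (l : List Bool) (t : ℝ) : 0 ≤ R l t * dens t := (mul_pos (R_pos t l) (dens_pos t)).le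

theorem g_nonneg (s i : ℕ) (l : List Bool) (t : ℝ) : 0 ≤ g s i l t :=
  add_nonneg (add_nonneg (Set.indicator_nonneg (fun t _ => rd l t) t)
    (Set.indicator_nonneg (fun t _ => rd l t) t)) (mul_nonneg (by positivity) (rd l t))

theorem int_g (s i : ℕ) (l : List Bool) : ∫ t, g s i l t ≤ 2 * Mx s i l := by
  have a := (R_int l).indicator ((gd_meas s).inter (hi_meas s i l))
  have b := (R_int l).indicator (gd_meas s).compl
  unfold g
  rw [integral_add (a.fun_add b) ((R_int l).const_mul _), integral_add a b,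
    integral_indicator ((gd_meas s).inter (hi_meas s i l)), integral_indicator (gd_meas s).compl,
    integral_const_mul]
  have h1 := ms_nonneg (gd s ∩ hi s i l) l
  have h2 := ms_nonneg (gd s)ᶜ l
  have e : 2 / 2 ^ (32 * s) * ∫ t, R l t * dens t = 2 * (NN l / 2 ^ (32 * s)) := by
    rw [NN]; ring
  unfold Mx
  unfold ms at *
  linarith

theorem gk_int {f : ℝ → ℝ} (hf : Integrable f) (b t : ℝ) :
    Integrable fun u => f u * (1 + b ^ 2 * (t - u) ^ 2)⁻¹ :=
  hf.mul_bdd (c := 1) (Continuous.inv₀ (by fun_prop) fun _ => by positivity).aestronglyMeasurable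
    (Eventually.of_forall fun u => by
      rw [norm_of_nonneg (by positivity)]
      exact inv_le_one_of_one_le₀ (le_add_of_nonneg_right (by positivity)))

theorem one (s i : ℕ) (l : List Bool) {t : ℝ} (ht : t ∈ lo0 s i l) :
    1 / (2 : ℝ) ^ (12 * s) ≤ ∫ u, g s i l u * (1 + (2 ^ i) ^ 2 * (t - u) ^ 2)⁻¹ := by
  have hb : (0 : ℝ) < 2 ^ i := by positivity
  have h0 : 1 / (2 : ℝ) ^ (12 * s) < mu i l t := ht
  have c := cau hb t
  simp only [sub_sq_comm _ t] at c
  have i1 := gk_int (g_int s i l) (2 ^ i) t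
  have i2 := (mu_int i l t).const_mul (2 / 2 ^ (32 * s))
  have i3 := c.1.const_mul (2 ^ i / 2 ^ (44 * s) * (2 / π))
  have h1 := integral_mono ((mu_int i l t).add i2) (i1.add i3) fun u => by
    have k0 : 0 ≤ (1 + ((2 : ℝ) ^ i) ^ 2 * (t - u) ^ 2)⁻¹ := by positivity
    have k1 : R l u * dens u + 2 / 2 ^ (32 * s) * (R l u * dens u) ≤
        g s i l u + 2 ^ i / 2 ^ (44 * s) * (2 / π) := by
      have p : (0 : ℝ) ≤ 2 ^ i / 2 ^ (44 * s) * (2 / π) := by positivity
      unfold g
      by_cases a : u ∈ gd s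
      · by_cases b : u ∈ hi s i l
        · rw [Set.indicator_of_mem (Set.mem_inter a b), Set.indicator_of_notMem (by simpa)]
          linarith
        · rw [Set.indicator_of_notMem fun x => b x.2, Set.indicator_of_notMem (by simpa)]
          have := mul_le_mul (not_le.1 b).le (dens_le_one u) (dens_pos u).le (by positivity)
          linarith
      · rw [Set.indicator_of_notMem fun x => a x.1, Set.indicator_of_mem a]
        linarith
    have k2 := mul_le_mul_of_nonneg_right k1 k0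
    simp only [Pi.add_apply, div_eq_mul_inv] at k2 ⊢
    linarith
  simp only [Pi.add_apply] at h1
  rw [integral_add (mu_int i l t) i2, integral_add i1 i3, integral_const_mul, integral_const_mul,
    c.2] at h1
  have e : (2 : ℝ) ^ i / 2 ^ (44 * s) * (2 / π) * (π / 2 ^ i) =
      2 / 2 ^ (32 * s) * (1 / 2 ^ (12 * s)) := by
    rw [show 44 * s = 32 * s + 12 * s by ring, pow_add]
    field_simp
  have h2 := mul_le_mul_of_nonneg_left h0.le (by positivity : (0 : ℝ) ≤ 2 / 2 ^ (32 * s))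
  unfold mu at h0 h2
  linarith

end XCNT

open XCNT in
theorem st_CNT : St_CNT := by
  intro s i l a S h hS
  choose! t h1 h2 using hS
  have k1 := card_nsmul_le_sum S _ _ fun k hk => one s i l (h2 k hk)
  rw [← integral_finsetSum S fun k _ => gk_int (g_int s i l) _ _, nsmul_eq_mul, mul_one_div,
    div_le_iff₀ (by positivity)] at k1
  have k2 : ∫ u, ∑ k ∈ S, g s i l u * (1 + (2 ^ i) ^ 2 * (t k - u) ^ 2)⁻¹ ≤ ∫ u, g s i l u * 10 :=
    integral_mono (integrable_finsetSum S fun k _ => gk_int (g_int s i l) _ _)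
      ((g_int s i l).mul_const _) fun u => by
        simp only [← mul_sum]
        exact mul_le_mul_of_nonneg_left (sum_win h S h1 u) (g_nonneg s i l u)
  rw [integral_mul_const] at k2
  have k3 := int_g s i l
  have k4 := Mx_nonneg s i l
  refine k1.trans ?_
  rw [mul_right_comm]
  exact mul_le_mul_of_nonneg_right (by linarith) (by positivity)

end

end Pool.Agent.Lib.RX
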