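import Pool.Agent.Lib.RX.Kit2

/-! Project rx29: the almost sure assembly. -/

namespace Pool.Agent.Lib.RX

open Finset Real MeasureTheory Filter Topology Pool.Agent.Lib.RM67 Pool.Agent.Lib.RM67.T96
open ProbabilityTheory Asymptotics

noncomputable section

theorem st_ALL (hb : St_BAR) (hd : St_DER) (h14 : St_E14) (h2 : St_E2) (h3 : St_E3) (h5 : St_E5)
    (h6 : St_E6) (h7 : St_E7) (h8 : St_E8) (h9 : St_E9) (hM : St_DM) (hG : St_DG) (hB : St_DB) :
    St_ALL := by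
  obtain ⟨C1, c1, hB⟩ := hB
  obtain ⟨C2, c2, hG⟩ := hG
  have k : ∀ i : ℕ, 1 ≤ ((i + 1 : ℕ) : ℝ) := fun i => by exact_mod_cast Nat.le_add_left 1 i
  refine ⟨C1, c1, ((AE.all fun i => (hd _ (k i)).and ((h14.1 _ (k i)).and ((h2 _ (k i)).and
    ((h3 _ (k i)).and ((h6 _ (k i)).and (h8 _ (k i))))))).and
    (hb.and (h14.2.and (h5.and (h7.and h9))))).mono ?_⟩
  rintro z ⟨a, ⟨Λ, l1, hP⟩, e4, e5, e7, e9⟩
  obtain ⟨i, rfl⟩ : ∃ i, Λ = i + 1 := ⟨Λ - 1, by omega⟩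
  obtain ⟨⟨D, hD⟩, e1, e2, e3, e6, e8⟩ := a i
  refine ⟨C2 * (28 * D + 3) + 1, le_add_of_nonneg_left (by positivity), ?_⟩
  filter_upwards [e1, e2, e3, e4, e5, e6, e7, e8, e9, hM _ (k i), hG, hB] with
    s f1 f2 f3 f4 f5 f6 f7 f8 f9 gM gG gB
  refine ⟨f4, fun j hj v v0 v1 => (gG _ _ z (by linarith [Nat.cast_nonneg (α := ℝ) D]) hP
    (gM z D hP hD f2 f3) f5 f8 f9 j hj v v0 v1).trans ?_, gB _ z hP f1 f4 f6 f7⟩
  gcongr
  exact le_add_of_nonneg_right zero_le_one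

theorem abs_Psi (z : ℕ → Bool) (n x : ℕ) : |Psi (L z n) x| ≤ x := by
  rw [Psi_L, T]
  refine (abs_sum_le_sum_abs _ _).trans ((sum_le_card_nsmul _ _ 1 fun m _ => ?_).trans (by simp))
  unfold tm
  split_ifs
  · simp [abs_prod, abs_sg]
  · simp

/-- The stage of a dyadic range. -/
def stg (κ : ℕ) : ℕ := (Nat.log 2 (Nat.log 2 κ) - 1) / 16

theorem stg_top : Tendsto stg atTop atTop := by
  refine tendsto_atTop.2 fun b => ?_
  filter_upwards [(tendsto_lg.comp tendsto_lg).eventually_ge_atTop (16 * b + 1)] with κ h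
  simp only [Function.comp_apply] at h
  unfold stg; omega

theorem stg_mem {κ : ℕ} (h : 2 ≤ Nat.log 2 κ) :
    2 * N0 (stg κ) ≤ Nat.log 2 κ ∧ Nat.log 2 κ < NE (stg κ) := by
  have q0 := Nat.log_pos one_lt_two h
  refine ⟨?_, (Nat.lt_pow_succ_log_self one_lt_two _).trans_le
    (Nat.pow_le_pow_right two_pos (by unfold stg; omega))⟩
  rw [N0, ← pow_succ']
  exact (Nat.pow_le_pow_right two_pos (by unfold stg; omega)).trans
    (Nat.pow_log_le_self 2 (by omega))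

theorem near {A H Q w : ℝ} (hH : 0 < H) (hA : 0 ≤ A) (h : A + H ≤ Q * H * 2) (w0 : 0 ≤ w)
    (w1 : w * (Q * 2 ^ 2) ≤ 1) : A ≤ (A + H / 2) * exp (-w) := by
  have a1 := add_one_le_exp (-w)
  have a2 := mul_le_mul_of_nonneg_left w1 hH.le
  have a3 := mul_le_mul_of_nonneg_left h w0
  have a4 := mul_le_mul_of_nonneg_left a1 (show 0 ≤ A + H / 2 by positivity)
  nlinarith [mul_nonneg w0 hH.le]

theorem fin_le {a b c q t x y : ℝ} (h1 : x - y ≤ 2 * q + 2 * a * (2 * b)) (h2 : a * b ≤ 1)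
    (h3 : y ≤ c * t * (2 * q)) (h4 : 1 ≤ q) (h5 : 1 ≤ t) : x ≤ (2 * c + 6) * (q * t) := by
  nlinarith [mul_le_mul_of_nonneg_left h5 (zero_le_one.trans h4)]

theorem st_CORE (hA : St_ALL) (hF : St_DF) (hE : St_EXP) (hL : St_LINK) : St_CORE := by
  obtain ⟨C1, c1, hA⟩ := hA
  obtain ⟨C, c0, hF⟩ := hF C1 c1
  have hc : AE fun z => ∀ᶠ κ in atTop, ∀ i y, y < HH κ → (i + 1) * HH κ ≤ 2 ^ (κ + 1) →
      |Psi (L z (2 ^ 2 ^ (Nat.log 2 κ + 1))) (i * HH κ + y) -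
        Psi (L z (2 ^ 2 ^ (Nat.log 2 κ + 1))) (i * HH κ)| ≤ √(2 ^ κ) :=
    fun _ _ _ _ _ hZ => ev_chain hZ
  refine (hA.and (hc.and (hE (fun κ i => cf (stg κ) (log (i * HH κ + HH κ / 2)))
    (fun κ => Y (Nat.log 2 κ - J0 (stg κ))) fun κ => Y (Nat.log 2 κ + 1)))).mono ?_
  rintro z ⟨⟨M, m1, a1⟩, a2, a3⟩
  refine ⟨2 * (C * M) + 6, ?_⟩
  filter_upwards [stg_top.eventually a1, stg_top.eventually hF, a2, a3, ev_log 600,
    tendsto_lg.eventually (eventually_ge_atTop 2)] with κ ⟨f4, fV, fB⟩ fF f1 f3 hκ hj x hx1 hx2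
  have k0 : κ ≠ 0 := by rintro rfl; simp at hj
  have b1 := Nat.pow_log_le_self 2 k0
  have b2 := Nat.lt_pow_succ_log_self one_lt_two κ
  obtain ⟨n1, n2⟩ := stg_mem hj
  have e : 2 ^ (600 * Nat.log 2 κ) * HH κ = 2 ^ κ := by rw [HH, ← pow_add]; congr 1; omega
  generalize Nat.log 2 κ = n at *
  have hH : 0 < HH κ := Nat.two_pow_pos _
  generalize HH κ = H at *
  generalize stg κ = s at *
  have hi : x / H ∈ Ico (2 ^ (600 * n)) (2 ^ (600 * n + 1)) := mem_Ico.2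
    ⟨(Nat.le_div_iff_mul_le hH).2 (e ▸ hx1), (Nat.div_lt_iff_lt_mul hH).2
      (by rw [pow_succ, mul_right_comm, e]; exact hx2)⟩
  have hi1 : 2 ^ κ ≤ x / H * H := e ▸ Nat.mul_le_mul_right _ (mem_Ico.1 hi).1
  have hi2 : (x / H + 1) * H ≤ 2 ^ (κ + 1) :=
    (Nat.mul_le_mul_right _ (mem_Ico.1 hi).2).trans_eq (by rw [pow_succ, mul_right_comm, e]; rfl)
  have g3 := f3 _ hi
  have a := f1 (x / H) (x % H) (Nat.mod_lt _ hH) hi2
  rw [Nat.div_add_mod'] at a
  have f1' := fun y hy => f1 (x / H) y hy hi2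
  generalize x / H = i at *
  have H0 : (0 : ℝ) < H := by exact_mod_cast hH
  have r1 : (2 : ℝ) ^ κ ≤ i * H := by exact_mod_cast hi1
  have r2 : ((i : ℝ) + 1) * H ≤ 2 ^ (κ + 1) := by exact_mod_cast hi2
  have r3 : (2 : ℝ) ^ (600 * n) * H = 2 ^ κ := by exact_mod_cast e
  have p0 : (0 : ℝ) < 2 ^ κ := by positivity
  have ev : exp (log (i * H + H / 2)) = i * H + H / 2 := exp_log (by linarith)
  have l2 := log_pos one_lt_two
  have v1 : 2 ^ n * log 2 ≤ log (i * H + H / 2) := by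
    refine le_trans ?_ (log_le_log p0 (by linarith))
    rw [log_pow]; gcongr; exact_mod_cast b1
  have v2 : log (i * H + H / 2) ≤ 2 ^ (n + 1) * log 2 := by
    refine (log_le_log (by linarith) (show _ ≤ (2 : ℝ) ^ (κ + 1) by linarith)).trans ?_
    rw [log_pow]; gcongr; exact_mod_cast b2
  have g1 := fF M z n _ m1 f4 fV fB n1 n2 v1 v2 g3
  generalize log (i * H + H / 2) = v at *
  have x1 : (x : ℝ) ≤ 2 ^ (κ + 1) := by exact_mod_cast hx2.le
  have g2 := hL (TT s) (L z (Y (n + 1))) v (Psi (L z (Y (n + 1))) x) (1 / 2 ^ (600 * n + 2))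
    (2 * √(2 ^ κ)) (2 * 2 ^ (κ + 1)) (TT_pos s) (by positivity) (fun w w0 w1 => by
      have u1 : exp (v - w) ≤ i * H + H / 2 := ev ▸ exp_le_exp.2 (by linarith)
      have u2 : (i * H : ℕ) ≤ exp (v - w) := by
        rw [le_div_iff₀ (by positivity), pow_add] at w1
        rw [sub_eq_add_neg, exp_add, ev, Nat.cast_mul]
        refine near H0 (by positivity) ?_ w0 w1
        rw [r3, ← pow_succ]
        linarith
      have u3 := Nat.le_floor u2
      have u4 : ⌊exp (v - w)⌋₊ < i * H + H :=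
        (Nat.floor_lt (exp_pos _).le).2 (by push_cast; linarith)
      have b := f1' (⌊exp (v - w)⌋₊ - i * H) (by omega)
      rw [Nat.add_sub_cancel' u3] at b
      rw [abs_sub_comm] at a
      exact (abs_sub_le _ _ _).trans ((add_le_add b a).trans_eq (two_mul _).symm))
    fun y hy => (abs_sub _ _).trans (by linarith [abs_Psi z (Y (n + 1)) y, abs_Psi z (Y (n + 1)) x])
  have t1 : exp (-(TT s * (1 / 2 ^ (600 * n + 2)))) * 2 ^ (κ + 1) ≤ 1 := by
    have a1 : ((κ + 1 : ℕ) : ℝ) ≤ TT s * (1 / 2 ^ (600 * n + 2)) := by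
      rw [mul_one_div, le_div_iff₀ (by positivity), TT]
      calc _ ≤ (2 : ℝ) ^ (n + 1) * 2 ^ (600 * n + 2) := by gcongr; exact_mod_cast b2
        _ ≤ _ := by rw [← pow_add]; exact pow_le_pow_right₀ one_le_two (by omega)
    rw [exp_neg, inv_mul_le_iff₀ (exp_pos _), mul_one]
    refine le_trans ?_ (exp_le_exp.2 a1)
    rw [← mul_one ((κ + 1 : ℕ) : ℝ), exp_nat_mul]
    exact pow_le_pow_left₀ zero_le_two (by linarith [add_one_le_exp (1 : ℝ)]) _
  have t2 : 1 ≤ √(2 ^ κ) := one_le_sqrt.2 (one_le_pow₀ one_le_two)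
  have t3 : exp (v / 2) ≤ 2 * √(2 ^ κ) := by
    refine (abs_le_of_sq_le_sq' ?_ (by positivity)).2
    rw [mul_pow, sq_sqrt p0.le, ← exp_nat_mul, show ((2 : ℕ) : ℝ) * (v / 2) = v by ring, ev]
    rw [pow_succ] at r2
    linarith
  have t4 : (2 : ℝ) ^ (4 * s) ≤ √(√n) := by
    refine le_sqrt_of_sq_le (le_sqrt_of_sq_le ?_)
    rw [← pow_mul, ← pow_mul, show 4 * s * (2 * 2) = 16 * s by ring, ← cast_N0]
    exact_mod_cast (by omega : N0 s ≤ n)
  have t5 : 1 ≤ √(√n) := le_trans (one_le_pow₀ one_le_two) t4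
  have t6 : C * M * 2 ^ (4 * s) * exp (v / 2) ≤ C * M * √(√n) * (2 * √(2 ^ κ)) := by gcongr
  have t7 := abs_sub_abs_le_abs_sub (Psi (L z (Y (n + 1))) x) (SS (TT s) (L z (Y (n + 1))) v)
  rw [abs_sub_comm] at t7
  exact fin_le (t7.trans g2) t1 (g1.trans t6) t2 t5

theorem bigO (h : St_CORE) : AE fun z =>
    (fun x : ℝ => ∑ n ∈ (Icc 1 ⌊x⌋₊).filter Squarefree, ∏ p ∈ n.primeFactors, sg (z p))
      =O[atTop] fun x => √x * log (log x) ^ (1 / 4 : ℝ) := by
  refine h.mono ?_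
  rintro z ⟨C, hω⟩
  refine IsBigO.of_bound (|C| * 2) ?_
  filter_upwards [(tendsto_lg.comp (tendsto_nat_floor_atTop (α := ℝ))).eventually hω,
    eventually_ge_atTop 4, tendsto_log_atTop.eventually_ge_atTop 4,
    (tendsto_log_atTop.comp tendsto_log_atTop).eventually_ge_atTop 4] with x hx a1 a2 a3
  simp only [Function.comp_apply] at hx a3
  have b0 : ⌊x⌋₊ ≠ 0 := by rw [Ne, Nat.floor_eq_zero]; linarith
  have b1 := Nat.pow_log_le_self 2 b0
  have b2 := Nat.lt_pow_succ_log_self one_lt_two ⌊x⌋₊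
  have b3 := Nat.floor_le (show 0 ≤ x by linarith)
  have b4 := hx _ b1 b2
  have c2 := lg_step a2 (lg_step (n := ⌊x⌋₊) a1 (by linarith))
  have e : Psi (L z (2 ^ 2 ^ (Nat.log 2 (Nat.log 2 ⌊x⌋₊) + 1))) ⌊x⌋₊ =
      ∑ n ∈ (Icc 1 ⌊x⌋₊).filter Squarefree, ∏ p ∈ n.primeFactors, sg (z p) := by
    rw [Psi_L, T, sum_filter]
    refine sum_congr rfl fun n hn => if_congr (and_iff_left fun p hp => ?_) rfl rfl
    exact (Nat.le_of_mem_primeFactors hp).trans_lt ((mem_Icc.1 hn).2.trans_lt (b2.trans_le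
      (Nat.pow_le_pow_right two_pos (Nat.lt_pow_succ_log_self one_lt_two _))))
  rw [← e, norm_eq_abs, norm_of_nonneg (by positivity)]
  refine b4.trans ?_
  have d1 : √(2 ^ Nat.log 2 ⌊x⌋₊) ≤ √x := sqrt_le_sqrt (le_trans (by exact_mod_cast b1) b3)
  have d2 : √(√(Nat.log 2 (Nat.log 2 ⌊x⌋₊))) ≤ 2 * log (log x) ^ (1 / 4 : ℝ) := by
    have : (2 * log (log x) ^ (1 / 4 : ℝ)) ^ (2 * 2) = 16 * log (log x) := by
      rw [mul_pow, ← rpow_natCast (_ ^ _), ← rpow_mul (by linarith)]; norm_num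
    rw [sqrt_le_left (by positivity), sqrt_le_left (by positivity), ← pow_mul, this]
    linarith
  exact (mul_le_mul (le_abs_self C) (mul_le_mul d1 d2 (sqrt_nonneg _) (sqrt_nonneg _))
    (by positivity) (abs_nonneg C)).trans_eq (by ring)

/-- Transfer to independent signs indexed by the primes. -/
theorem transfer {g : ℝ → ℝ} (h : AE fun z =>
    (fun x : ℝ => ∑ n ∈ (Icc 1 ⌊x⌋₊).filter Squarefree, ∏ p ∈ n.primeFactors, sg (z p)) =O[atTop] g)
    {Ω : Type} [MeasurableSpace Ω] (μ : Measure Ω) [IsProbabilityMeasure μ]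
    (X : ℕ → Ω → ℝ) (hm : ∀ p, p.Prime → Measurable (X p))
    (hi : iIndepFun (fun p : Nat.Primes => X p) μ)
    (h1 : ∀ p, p.Prime → μ {ω | X p ω = 1} = 1 / 2)
    (h2 : ∀ p, p.Prime → μ {ω | X p ω = -1} = 1 / 2) :
    ∀ᵐ ω ∂μ, (fun x : ℝ => ∑ n ∈ (Icc 1 ⌊x⌋₊).filter Squarefree, ∏ p ∈ n.primeFactors, X p ω)
      =O[atTop] g := by
  classical
  have hg : Measurable fun x : ℝ => decide (x = 1) :=
    measurable_to_bool (by
      rw [show (fun x : ℝ => decide (x = 1)) ⁻¹' {true} = {1} by ext; simp]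
      exact measurableSet_singleton _)
  have m1 : ∀ p, p.Prime → ∀ a, MeasurableSet {ω | X p ω = a} := fun p hp a =>
    hm p hp (measurableSet_singleton a)
  have hF := fair_ext μ (fun n ω => decide (X n ω = 1)) (fun p => hg.comp (hm p p.2))
    (hi.comp (fun _ x => decide (x = 1)) fun _ => hg) fun p b => by
      have a : μ.real {ω | X p ω = 1} = 1 / 2 := by simp [measureReal_def, h1 p p.2]
      cases b
      · rw [show (fun ω => decide (X p ω = 1)) ⁻¹' {false} = {ω | X p ω = 1}ᶜ by ext; simp,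
          probReal_compl_eq_one_sub (m1 p p.2 1), a]
        norm_num
      · rw [show (fun ω => decide (X p ω = 1)) ⁻¹' {true} = {ω | X p ω = 1} by ext; simp, a]
  have h3 : ∀ᵐ ω ∂μ, ∀ p : ℕ, p.Prime → sg (decide (X p ω = 1)) = X p ω := by
    refine ae_all_iff.2 fun p => eventually_imp_distrib_left.2 fun hp => ?_
    have a : μ ({ω | X p ω = 1} ∪ {ω | X p ω = -1}) = 1 := by
      rw [measure_union (Set.disjoint_left.2 fun ω a b => by
        simp only [Set.mem_ofPred_eq] at a b; linarith) (m1 p hp _), h1 p hp, h2 p hp,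
        ENNReal.add_halves]
    filter_upwards [(mem_ae_iff_prob_eq_one ((m1 p hp 1).union (m1 p hp (-1)))).2 a] with ω hω
    rcases hω with h | h <;> simp only [Set.mem_ofPred_eq] at h <;> rw [h] <;> norm_num
  filter_upwards [Measure.ae_ae_of_ae_prod (h _ _ _ hF), h3] with ω hω h3
  obtain ⟨η, hη⟩ := hω.exists
  refine hη.congr_left fun x => sum_congr rfl fun n _ => prod_congr rfl fun p hp => ?_
  have := Nat.prime_of_mem_primeFactors hp
  simp only [this, if_true, h3 p this]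

end

end Pool.Agent.Lib.RX
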