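import Pool.Agent.Lib.RX.Kit2

/-! Project rx29: the bound for the narrow class. -/

namespace Pool.Agent.Lib.RX

open Finset Real MeasureTheory Filter Topology Pool.Agent.Lib.RM67 Pool.Agent.Lib.RM67.T96

namespace XDB

/-- The number of nonempty windows. -/
theorem card_act (h1 : St_CNT) {s j : ℕ} (h : Par s j) {Λ : ℝ} {z : ℕ → Bool}
    (hb : ∀ n, Pb Λ (L z n)) (hP : P1 Λ s z) :
    ((act s j (zm s j z)).card : ℝ) ≤ 60 * 2 ^ (7 * s) := by
  classical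
  have hsub : act s j (zm s j z) ⊆ (Ioc (mm s j - KK s) (mm s j)).biUnion fun i =>
      (KS s j).filter fun k => ∃ t ∈ Set.Ico ((k : ℝ) / 2 ^ (mm s j - KK s))
        ((k + 1 : ℝ) / 2 ^ (mm s j - KK s)), t ∈ lo0 s i (L z (Y i)) := by
    intro k hk
    obtain ⟨hk1, t, ⟨-, i, hi, hti⟩, ht⟩ := mem_filter.1 hk
    refine mem_biUnion.2 ⟨i, hi, mem_filter.2 ⟨hk1, t, ht, ?_⟩⟩
    rwa [zm, lo_L s z (Y_mono (mem_Ioc.1 hi).2)] at hti
  have hone : ∀ i ∈ Ioc (mm s j - KK s) (mm s j), ∀ S : Finset ℤ,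
      (∀ k ∈ S, ∃ t ∈ Set.Ico ((k : ℝ) / 2 ^ (mm s j - KK s))
        ((k + 1 : ℝ) / 2 ^ (mm s j - KK s)), t ∈ lo0 s i (L z (Y i))) →
      (S.card : ℝ) ≤ 60 * 2 ^ (5 * s) := by
    intro i hi S hS
    refine (h1 s i (L z (Y i)) (mm s j - KK s) S (mem_Ioc.1 hi).1 hS).trans ?_
    have h2 := hP i (h.i_mem hi)
    rw [GG_L hb, one_mul] at h2
    calc 60 * 2 ^ (12 * s) * Mx s i (L z (Y i)) ≤ 60 * 2 ^ (12 * s) * (1 / 2 ^ (7 * s)) :=
          mul_le_mul_of_nonneg_left h2 (by positivity)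
      _ = 60 * 2 ^ (5 * s) := by
          rw [show 12 * s = 5 * s + 7 * s by ring, pow_add]
          field_simp
  have h3 : ((act s j (zm s j z)).card : ℝ) ≤ _ :=
    Nat.cast_le.2 ((card_le_card hsub).trans card_biUnion_le)
  rw [Nat.cast_sum] at h3
  refine h3.trans ((sum_le_card_nsmul _ _ (60 * 2 ^ (5 * s)) fun i hi =>
    hone i hi _ fun k hk => by rw [mem_filter] at hk; exact hk.2).trans ?_)
  have h4 : ((Ioc (mm s j - KK s) (mm s j)).card : ℝ) ≤ 2 ^ (2 * s) := by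
    rw [← cast_KK, Nat.card_Ioc]
    exact Nat.cast_le.2 (by omega)
  rw [nsmul_eq_mul]
  calc _ ≤ (2 : ℝ) ^ (2 * s) * (60 * 2 ^ (5 * s)) :=
        mul_le_mul_of_nonneg_right h4 (by positivity)
    _ = 60 * 2 ^ (7 * s) := by
      rw [show 7 * s = 2 * s + 5 * s by ring, pow_add]
      ring

/-- The grid point below `v`. -/
theorem grid {s j : ℕ} (h : Par s j) {v : ℝ} (h0 : 0 ≤ v) (h1 : v ≤ Lam s j) :
    ∃ g ∈ range (2 ^ (5 * KK s)), (g : ℝ) * 2 ^ (j - 4 * KK s) ≤ v ∧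
      v - (g : ℝ) * 2 ^ (j - 4 * KK s) ≤ 2 ^ (j - 4 * KK s) := by
  have hp : (0 : ℝ) < 2 ^ (j - 4 * KK s) := by positivity
  have hq : 0 ≤ v / 2 ^ (j - 4 * KK s) := by positivity
  have a1 := Nat.floor_le hq
  have a2 := Nat.lt_floor_add_one (v / 2 ^ (j - 4 * KK s))
  rw [le_div_iff₀ hp] at a1
  rw [div_lt_iff₀ hp] at a2
  refine ⟨⌊v / 2 ^ (j - 4 * KK s)⌋₊, mem_range.2 ?_, a1, by linarith⟩
  rw [Nat.floor_lt hq, div_lt_iff₀ hp]
  refine h1.trans_lt ?_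
  have b1 := h.K4j
  have b2 := h.KJ
  have b3 := h.s_ge
  rw [Lam, Nat.cast_pow, Nat.cast_ofNat, ← pow_add]
  exact pow_lt_pow_right₀ one_lt_two (by omega)

end XDB

theorem st_DB (h1 : St_CNT) (h2 : St_UV) (h3 : St_LIP) : St_DB := by
  obtain ⟨C, hC, h2⟩ := h2
  refine ⟨721 + C / 2, by positivity, ?_⟩
  filter_upwards [h2, h3, par] with s h2 h3 hp Λ z hb p1 p4 p6 p7 j hj v hv0 hv1
  have h := hp j hj
  have hc := XDB.card_act h1 h hb p1
  obtain ⟨g, hg, g1, g2⟩ := XDB.grid h hv0 hv1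
  have g0 : (0 : ℝ) ≤ (g : ℝ) * 2 ^ (j - 4 * KK s) := by positivity
  have hL := h3 j hj z v _ p4 hc (by rw [abs_of_nonneg (sub_nonneg.2 g1)]; exact g2)
  have hS := p6 j hj
  rw [zm, GG_L hb, one_mul, ← zm] at hS
  have hθ : (0 : ℝ) < 2 ^ (7 * s) := by positivity
  have hone : ∀ k ∈ act s j (zm s j z), 2 ^ (7 * s) *
      ‖IN s j (sBk s j k (zm s j z)) z (g * 2 ^ (j - 4 * KK s))‖ ≤
      12 * 2 ^ (2 * s) + (2 ^ (7 * s)) ^ 2 / 2 * (C / 2 ^ j) *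
        (SA s j (sBk s j k (zm s j z)) true (L z (Y (j + 1))) +
          SA s j (sBk s j k (zm s j z)) false (L z (Y (j + 1)))) := by
    intro k hk
    have a1 := p7 j hj hc k hk g hg true
    have a2 := p7 j hj hc k hk g hg false
    have u := (h2 j hj z _ _ (sBk_meas s j k (zm s j z)) g0 (g1.trans hv1)).1
    have u1 := mul_le_mul_of_nonneg_left (u true) (by positivity : (0 : ℝ) ≤ (2 ^ (7 * s)) ^ 2 / 2)
    have u2 := mul_le_mul_of_nonneg_left (u false) (by positivity : (0 : ℝ) ≤ (2 ^ (7 * s)) ^ 2 / 2)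
    have n1 := mul_le_mul_of_nonneg_left (Complex.norm_le_abs_re_add_abs_im
      (IN s j (sBk s j k (zm s j z)) z (g * 2 ^ (j - 4 * KK s)))) hθ.le
    rw [cast_KK] at a1 a2
    simp only [cp, if_true, Bool.false_eq_true, if_false] at a1 a2
    linarith
  have hsum := sum_le_sum hone
  rw [← mul_sum, sum_add_distrib, sum_const, ← mul_sum, nsmul_eq_mul] at hsum
  have hsub : ∑ k ∈ act s j (zm s j z), (SA s j (sBk s j k (zm s j z)) true (L z (Y (j + 1))) +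
      SA s j (sBk s j k (zm s j z)) false (L z (Y (j + 1)))) ≤ 2 ^ j / 2 ^ (5 * s) := by
    classical
    exact (sum_le_sum_of_subset_of_nonneg (filter_subset _ _) fun k _ _ =>
      add_nonneg (SA_nonneg _ _ _ _ _) (SA_nonneg _ _ _ _ _)).trans hS
  have e1 := mul_le_mul_of_nonneg_left hsub
    (by positivity : (0 : ℝ) ≤ (2 ^ (7 * s)) ^ 2 / 2 * (C / 2 ^ j))
  have e2 : ((2 : ℝ) ^ (7 * s)) ^ 2 / 2 * (C / 2 ^ j) * (2 ^ j / 2 ^ (5 * s)) =
      2 ^ (7 * s) * (C / 2 * 2 ^ (2 * s)) := by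
    rw [show 7 * s = 2 * s + 5 * s by ring, pow_add]
    field_simp
  have e3 := mul_le_mul_of_nonneg_right hc (by positivity : (0 : ℝ) ≤ 12 * 2 ^ (2 * s))
  have e4 : ∑ k ∈ act s j (zm s j z),
      ‖IN s j (sBk s j k (zm s j z)) z (g * 2 ^ (j - 4 * KK s))‖ ≤ (720 + C / 2) * 2 ^ (2 * s) := by
    refine le_of_mul_le_mul_left ?_ hθ
    linarith
  have e5 : (1 : ℝ) ≤ 2 ^ (2 * s) := one_le_pow₀ one_le_two
  have e6 := Complex.abs_re_le_norm (IN s j (sB s j (zm s j z)) z v)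
  linarith

end Pool.Agent.Lib.RX
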