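import Pool.Agent.Lib.RX.Kit2

/-! Project rx29: the derivative martingale is bounded. -/

namespace Pool.Agent.Lib.RX

open Finset Real MeasureTheory Filter Topology Pool.Agent.Lib.RM67 Pool.Agent.Lib.RM67.T96

noncomputable section

namespace XDER

theorem kk_le {n k : ℕ} : Nat.clog 2 (Nat.clog 2 n) ≤ k ↔ n ≤ Y k := by
  rw [Nat.clog_le_iff_le_pow one_lt_two, Nat.clog_le_iff_le_pow one_lt_two, Y]

theorem kk_step (n : ℕ) : Nat.clog 2 (Nat.clog 2 (n + 1)) = Nat.clog 2 (Nat.clog 2 n) ∨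
    ∃ k, n = Y k ∧ Nat.clog 2 (Nat.clog 2 n) = k ∧ Nat.clog 2 (Nat.clog 2 (n + 1)) = k + 1 := by
  have a : n ≤ Y (Nat.clog 2 (Nat.clog 2 n)) := kk_le.1 le_rfl
  have b : Nat.clog 2 (Nat.clog 2 n) ≤ Nat.clog 2 (Nat.clog 2 (n + 1)) :=
    kk_le.2 ((Nat.le_succ n).trans (kk_le.1 le_rfl))
  by_cases h : n + 1 ≤ Y (Nat.clog 2 (Nat.clog 2 n))
  · exact Or.inl (le_antisymm (kk_le.2 h) b)
  · have c := Y_lt (Nat.lt_succ_self (Nat.clog 2 (Nat.clog 2 n)))
    have d := kk_le.not.2 h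
    have e := kk_le.2 (show n + 1 ≤ Y (Nat.clog 2 (Nat.clog 2 n) + 1) from by
      rw [Nat.succ_eq_add_one] at c; omega)
    exact Or.inr ⟨_, by omega, rfl, by omega⟩

theorem W_bd (t : ℝ) : ∀ l : List Bool, |WW l t| ≤ 2 * l.length
  | [] => by simp [WW]
  | b :: l => by
    rw [WW, List.length_cons]
    push_cast
    linarith [abs_add_le (WW l t) (sg b * bb l.length t - bb l.length t ^ 2), W_bd t l,
      abs_xi b l.length t]

theorem r_mul (l : List Bool) {f : ℝ → ℝ} (h : Integrable fun t => f t * dens t) :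
    Integrable fun t => R l t * f t * dens t := by
  simp only [mul_assoc]
  exact h.bdd_mul (c := 2 ^ l.length) (R_cont l).aestronglyMeasurable
    (Eventually.of_forall fun t => (abs_of_pos (R_pos t l)).trans_le (R_le t l))

theorem dd_int (k : ℕ) : Integrable fun t => |DD k t| * dens t := by
  refine ((Ph_int (k + 1)).1.sub (Ph_int k).1).congr (Eventually.of_forall fun t => ?_)
  simp only [Pi.sub_apply, Ph, sum_range_succ]
  ring

/-- The martingale at a fixed level. -/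
def I (Λ : ℝ) (k : ℕ) (l : List Bool) : ℝ := ∫ t, R l t * (ab Λ k t + 2 - WW l t) * dens t

theorem i_int (Λ : ℝ) (k : ℕ) (l : List Bool) :
    Integrable fun t => R l t * (ab Λ k t + 2 - WW l t) * dens t := by
  refine r_mul l ((((dens_int.const_mul (log (Λ * (k + 1)) + (34 + 18 * c3) + 2)).add lg_int).add
    (Ph_int k).1).sub (bd_int (WW_cont l) fun t => W_bd t l) |>.congr
    (Eventually.of_forall fun t => ?_))
  simp only [Pi.sub_apply, Pi.add_apply, ab]
  ring

theorem i_step (Λ : ℝ) (k : ℕ) (l : List Bool) :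
    (I Λ k (true :: l) + I Λ k (false :: l)) / 2 = I Λ k l := by
  unfold I
  rw [← integral_add (i_int _ _ _) (i_int _ _ _), ← integral_div]
  congr 1
  funext t
  simp only [R, WW, sg_true, sg_false]
  ring

theorem i_nonneg {Λ : ℝ} {k : ℕ} {l : List Bool} (h : ∀ t, WW l t ≤ ab Λ k t + 2) :
    0 ≤ I Λ k l :=
  integral_nonneg fun t => mul_nonneg (mul_nonneg (R_pos t l).le (sub_nonneg.2 (h t)))
    (dens_pos t).le

theorem i_succ {Λ : ℝ} (hΛ : 0 < Λ) (k : ℕ) (l : List Bool) :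
    I Λ (k + 1) l ≤ I Λ k l + (NN l / (k + 1) + ∫ t, R l t * |DD k t| * dens t) := by
  have a := (R_int l).div_const ((k : ℝ) + 1)
  have b := r_mul l (dd_int k)
  rw [NN, ← integral_div, ← integral_add a b, I, I, ← integral_add (i_int _ _ _) (a.fun_add b)]
  refine integral_mono (i_int _ _ _) ((i_int _ _ _).fun_add (a.fun_add b)) fun t => ?_
  have h1 : log (Λ * ((k + 1 : ℕ) + 1)) ≤ log (Λ * (k + 1)) + 1 / (k + 1) := by
    have := log_le_sub_one_of_pos (x := Λ * ((k + 1 : ℕ) + 1) / (Λ * (k + 1))) (by positivity)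
    rw [log_div (by positivity) (by positivity)] at this
    have e : Λ * ((k + 1 : ℕ) + 1) / (Λ * (k + 1)) - 1 = 1 / (k + 1) := by
      push_cast; field_simp; ring
    linarith
  have h2 := mul_le_mul_of_nonneg_left h1 (mul_pos (R_pos t l) (dens_pos t)).le
  simp only [ab, Ph, sum_range_succ, div_eq_mul_inv] at h2 ⊢
  linarith

/-- The jump at level `k`. -/
def T (Λ : ℝ) (k : ℕ) (l : List Bool) : ℝ :=
  GG Λ l * NN l / (k + 1) + ∫ t, R l t * |DD k t| * dens t

theorem rd_nonneg (k : ℕ) (l : List Bool) : 0 ≤ ∫ t, R l t * |DD k t| * dens t :=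
  integral_nonneg fun t => mul_nonneg (mul_nonneg (R_pos t l).le (abs_nonneg _)) (dens_pos t).le

theorem T_nonneg (Λ : ℝ) (k : ℕ) (l : List Bool) : 0 ≤ T Λ k l :=
  add_nonneg (div_nonneg (mul_nonneg (GG_nonneg _ _) (NN_nonneg _)) (by positivity)) (rd_nonneg k l)

theorem step {Λ : ℝ} (hΛ : 0 < Λ) {H : ℕ} {l : List Bool} (hl : l.length < H) :
    (Dm Λ (true :: l) + Dm Λ (false :: l)) / 2 ≤
      Dm Λ l + ∑ k ∈ range H, if l.length = Y k then T Λ k l else 0 := by
  have k1 := kill (P := Pb Λ) (Q := I Λ (Nat.clog 2 (Nat.clog 2 (l.length + 1)))) (l := l)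
    fun h => ⟨(i_step _ _ _).le, fun b => i_nonneg fun t => by
      have := W_ab hΛ h ((Nat.le_succ _).trans (kk_le.1 le_rfl)) t
      rw [WW]
      linarith [(abs_le.1 (abs_xi b l.length t)).2]⟩
  have n0 : ∀ k ∈ range H, 0 ≤ if l.length = Y k then T Λ k l else 0 := fun k _ => by
    split_ifs
    exacts [T_nonneg _ _ _, le_rfl]
  refine le_trans k1 ?_
  change GG Λ l * _ ≤ GG Λ l * I Λ _ l + _
  rcases kk_step l.length with h | ⟨k, h1, h2, h3⟩
  · rw [h]
    exact le_add_of_nonneg_right (sum_nonneg n0)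
  · have c : k < H := by
      have a : k < 2 ^ k := Nat.lt_two_pow_self
      have b : 2 ^ k < Y k := Nat.lt_two_pow_self
      omega
    have d := single_le_sum n0 (mem_range.2 c)
    rw [if_pos h1, T] at d
    have e := mul_le_mul_of_nonneg_left (i_succ hΛ k l) (GG_nonneg Λ l)
    have f := mul_le_of_le_one_left (rd_nonneg k l) (GG_le Λ l)
    rw [h2, h3]
    rw [mul_div_assoc] at d
    linarith

theorem av_T (Λ : ℝ) (k : ℕ) : av (Y k) (T Λ k) =
    av (Y k) (fun l => GG Λ l * NN l) / (k + 1) + ∫ t, |DD k t| * dens t := by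
  unfold T
  rw [av_add, av_div, (av_int _ fun l => r_mul l (dd_int k)).2]
  congr 2
  funext t
  have := av_R_app [] t (Y k)
  simp only [List.append_nil, R] at this
  simp only [mul_assoc, mul_comm (R _ t), av_mul, this, mul_one]

theorem summ {Λ : ℝ} (hΛ : 1 ≤ Λ) :
    Summable fun k : ℕ => av (Y k) (fun l => GG Λ l * NN l) / (k + 1) := by
  obtain ⟨C, C0, hC⟩ := mass
  have hA : 0 ≤ 12 * log Λ + C := by have := log_nonneg hΛ; positivity
  have s0 : Summable fun k : ℕ => (((k + 1 : ℕ) : ℝ) ^ (5 / 4 : ℝ))⁻¹ :=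
    (summable_nat_add_iff 1).2 (Real.summable_nat_rpow_inv.2 (by norm_num))
  refine Summable.of_norm_bounded_eventually_nat (s0.mul_left (2 * (12 * log Λ + C + 48))) ?_
  filter_upwards [eventually_ge_atTop (4 ^ 5)] with k hk
  have k0 : k ≠ 0 := by omega
  set l := Nat.log 4 k with hl
  have l5 : 5 ≤ l := Nat.le_log_of_pow_le (by norm_num) hk
  have l1 : 4 ^ l ≤ k := Nat.pow_log_le_self 4 k0
  have l2 : k < 4 ^ (l + 1) := Nat.lt_pow_succ_log_self (by norm_num) k
  have p4 : (0 : ℝ) < (4 ^ l : ℕ) := by positivity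
  have h1 : av (Y k) (fun l => GG Λ l * NN l) ≤ av (Y (4 ^ l)) fun l => GG Λ l * NN l := by
    obtain ⟨d, hd⟩ := Nat.exists_eq_add_of_le (Y_mono l1)
    rw [hd]
    exact av_sup _ _ _ fun l _ _ => kill fun _ => ⟨(NN_step l).le, fun _ => NN_nonneg _⟩
  have h2 := hC l (Λ * ((4 ^ l : ℕ) + 1)) l5 (by nlinarith)
  have h3 : av (Y (4 ^ l)) (fun l => GG Λ l * NN l) ≤
      av (Y (4 ^ l)) fun s => ind (Al (bar (4 ^ l) (Λ * ((4 ^ l : ℕ) + 1))) s) * NN s :=
    av_mono fun s _ => mul_le_mul_of_nonneg_right (by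
      by_cases h : Al (Pb Λ) s
      · exact (GG_le _ _).trans (ind_pos (h.mono fun t _ a => a.bar (by linarith) _)).ge
      · exact (ind_neg h).le.trans (ind_nonneg _)) (NN_nonneg s)
  have x1 : (1 : ℝ) ≤ (k + 1 : ℕ) := by exact_mod_cast Nat.succ_le_succ (Nat.zero_le k)
  obtain ⟨y, hy⟩ : ∃ y, y = ((k + 1 : ℕ) : ℝ) ^ (1 / 4 : ℝ) := ⟨_, rfl⟩
  have y1 : 1 ≤ y := hy ▸ one_le_rpow x1 (by norm_num)
  have y4 : y ^ 4 = (k + 1 : ℕ) := by
    rw [hy, ← rpow_natCast, ← rpow_mul (by positivity)]; norm_num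
  have y5 : ((k + 1 : ℕ) : ℝ) ^ (5 / 4 : ℝ) = y ^ 5 := by
    rw [hy, ← rpow_natCast, ← rpow_mul (by positivity)]; norm_num
  have y2 : y ^ 2 ≤ 2 * 2 ^ l := by
    refine abs_le_of_sq_le_sq' ?_ (by positivity) |>.2
    rw [← pow_mul, y4, ← pow_succ', ← pow_mul, mul_comm, pow_mul]
    exact_mod_cast l2
  have h4 : log (Λ * ((4 ^ l : ℕ) + 1)) ≤ log Λ + 4 * y := by
    rw [log_mul (by linarith) (by positivity)]
    have a : log (((4 ^ l : ℕ) : ℝ) + 1) ≤ log (y ^ 4) :=
      log_le_log (by positivity) (by rw [y4]; exact_mod_cast Nat.succ_le_succ l1)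
    rw [log_pow] at a
    push_cast at a ⊢
    linarith [log_le_sub_one_of_pos (show 0 < y by linarith)]
  have h5 := h1.trans (h3.trans h2)
  have e : (k : ℝ) + 1 = y ^ 4 := by rw [y4]; push_cast; rfl
  rw [norm_of_nonneg (div_nonneg (av_nonneg fun l _ => mul_nonneg (GG_nonneg _ _) (NN_nonneg _))
    (by positivity)), y5, e, ← div_eq_mul_inv, div_le_div_iff₀ (by positivity) (by positivity)]
  rw [le_div_iff₀ (by positivity)] at h5
  have g0 : 0 ≤ av (Y k) (fun l => GG Λ l * NN l) :=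
    av_nonneg fun l _ => mul_nonneg (GG_nonneg _ _) (NN_nonneg _)
  generalize av (Y k) (fun l => GG Λ l * NN l) = g at h5 g0
  have h6 : g * y ^ 2 ≤ 2 * (12 * log Λ + C + 48) * y := by
    nlinarith [mul_le_mul_of_nonneg_left y2 g0, mul_le_mul_of_nonneg_left y1 hA]
  nlinarith [mul_le_mul_of_nonneg_right h6 (show 0 ≤ y ^ 3 by positivity)]

end XDER

open XDER in
theorem st_DER : St_DER := by
  intro Λ hΛ
  have h0 : 0 < Λ := by linarith
  have n0 : ∀ l, 0 ≤ Dm Λ l := fun l => by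
    rcases GG_cases Λ l with h | ⟨_, h⟩
    · rw [Dm, h, zero_mul]
    · exact mul_nonneg (GG_nonneg _ _) (i_nonneg fun t => by
        linarith [W_ab h0 h (kk_le.1 le_rfl) t])
  refine (ae_ex (P := fun y l => Dm Λ l ≤ y) (C := Dm Λ [] +
    (∑' k : ℕ, av (Y k) (fun l => GG Λ l * NN l) / (k + 1) + 100)) fun H y hy => ?_).mono
    fun z ⟨y, _, h⟩ => ⟨y, h⟩
  have y0 : (0 : ℝ) < y := by exact_mod_cast hy
  have d := doobj 0 H (Dm Λ) (fun l => ∑ k ∈ range H, if l.length = Y k then T Λ k l else 0) y0 n0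
    (fun l => sum_nonneg fun k _ => by
      split_ifs
      exacts [T_nonneg _ _ _, le_rfl]) fun l _ h => step h0 (by omega)
  simp only [zero_add, Nat.zero_le, true_imp_iff] at d
  refine d.trans (div_le_div_of_nonneg_right (add_le_add le_rfl ?_) y0.le)
  simp only [av_sum]
  rw [sum_comm]
  have b : ∀ k ∈ range H, ∑ m ∈ Ico 0 H, av m (fun l => if l.length = Y k then T Λ k l else 0) ≤
      av (Y k) (T Λ k) := fun k _ => by
    have e : ∀ m, av m (fun l => if l.length = Y k then T Λ k l else 0) =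
        if m = Y k then av m (T Λ k) else 0 := fun m => by
      split_ifs with h
      · exact av_congr fun l hl => if_pos (hl.trans h)
      · exact (av_congr fun l hl => if_neg (hl ▸ h)).trans (av_const m 0)
    simp only [e, sum_ite_eq']
    split_ifs
    exacts [le_rfl, av_nonneg fun l _ => T_nonneg _ _ _]
  refine (sum_le_sum b).trans ?_
  simp only [av_T, sum_add_distrib]
  refine add_le_add ((summ hΛ).sum_le_tsum _ fun k _ => div_nonneg
    (av_nonneg fun l _ => mul_nonneg (GG_nonneg _ _) (NN_nonneg _)) (by positivity)) ?_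
  rw [← integral_finsetSum _ fun k _ => dd_int k]
  simpa only [Ph, sum_mul] using (Ph_int H).2

end

end Pool.Agent.Lib.RX
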