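import Pool.Agent.Lib.RX.Kit2

/-! Project rx29: block DF. -/

namespace Pool.Agent.Lib.RX

open Finset Real MeasureTheory Filter Topology Pool.Agent.Lib.RM67 Pool.Agent.Lib.RM67.T96

namespace DF

theorem blocks (f : ℕ → ℝ) {a b : ℕ} (h : a ≤ b) :
    ∑ m ∈ Ico (Y a) (Y b), f m = ∑ j ∈ Ico a b, ∑ m ∈ Ico (Y j) (Y (j + 1)), f m := by
  induction b, h using Nat.le_induction with
  | base => simp
  | succ b hb ih =>
    rw [sum_Ico_succ_top hb, ← ih, sum_Ico_consecutive _ (Y_mono hb) (Y_mono (Nat.le_succ b))]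

theorem tele (F : ℕ → ℝ) {a b : ℕ} (h : a ≤ b) :
    F b = F a + ∑ j ∈ Ico a b, (F (j + 1) - F j) := by
  induction b, h using Nat.le_induction with
  | base => simp
  | succ b hb ih => rw [sum_Ico_succ_top hb]; linarith

theorem geo (k : ℕ) : ∑ j ∈ range k, (2 : ℝ) ^ j ≤ 2 ^ k := by
  induction k with
  | zero => simp
  | succ k ih => rw [sum_range_succ, pow_succ]; linarith

theorem exp_sig {n : ℕ} {v : ℝ} (hv : 2 ^ n * log 2 ≤ v) (j : ℕ) :
    exp (-(sig j * v)) ≤ 12 / 2 ^ n * 2 ^ j := by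
  have p : (0 : ℝ) < 2 ^ j := by positivity
  have q : (0 : ℝ) < 2 ^ n := by positivity
  have h1 : 2 ^ n / (12 * 2 ^ j) ≤ sig j * v := by
    rw [sig, one_div_mul_eq_div, div_le_div_iff₀ (by positivity) (by positivity)]
    have := log_two_gt_d9
    have h2 : (2 : ℝ) ^ n * (2 / 3) ≤ v := le_trans (by gcongr; linarith) hv
    nlinarith
  have h2 : 2 ^ n / (12 * 2 ^ j) ≤ exp (sig j * v) := by linarith [add_one_le_exp (sig j * v)]
  rw [exp_neg]
  refine (inv_anti₀ (by positivity) h2).trans_eq ?_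
  field_simp

theorem sum_exp {n : ℕ} {v : ℝ} (hv : 2 ^ n * log 2 ≤ v) (a : ℕ) :
    ∑ j ∈ Ico a (n + 1), exp (-(sig j * v)) ≤ 24 := by
  have q : (0 : ℝ) < 2 ^ n := by positivity
  calc _ ≤ ∑ j ∈ range (n + 1), exp (-(sig j * v)) :=
        sum_le_sum_of_subset_of_nonneg (fun j hj => mem_range.2 (mem_Ico.1 hj).2)
          fun _ _ _ => (exp_pos _).le
    _ ≤ ∑ j ∈ range (n + 1), 12 / 2 ^ n * (2 : ℝ) ^ j := sum_le_sum fun j _ => exp_sig hv j
    _ ≤ 12 / 2 ^ n * 2 ^ (n + 1) := by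
        rw [← mul_sum]; exact mul_le_mul_of_nonneg_left (geo _) (by positivity)
    _ = 24 := by rw [pow_succ]; field_simp; norm_num

theorem cf_eq (s : ℕ) (v : ℝ) (z : ℕ → Bool) {j m : ℕ} (h : m ∈ Ico (Y j) (Y (j + 1))) :
    cf s v (L z m) = 2 ^ (12 * s) * exp (-(sig j * v)) * (xx (sig j) m *
      cp true (g0 (TT s) (sig j) (sB s j (zm s j z))ᶜ (L z m) (v - log m))) := by
  have h1 : Y (mm s j) ≤ m := (Y_mono (Nat.sub_le _ _)).trans (mem_Ico.1 h).1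
  rw [cf, L_len, lg_Y h, cfj, L_len, anc_L z h1]
  rfl

theorem step (h1 : St_SSE) (s j : ℕ) (v : ℝ) (z : ℕ → Bool) :
    SS (TT s) (L z (Y (j + 1))) v - SS (TT s) (L z (Y j)) v = exp (v / 2) *
      (exp (-(sig j * v)) * (IN s j (sB s j (zm s j z)) z v).re +
        (∑ m ∈ Ico (Y j) (Y (j + 1)), sg (z m) * cf s v (L z m)) / 2 ^ (12 * s)) := by
  have hm := sB_meas s j (zm s j z)
  have e := (g0_rec (TT_pos s) (sig_lt j) hm.compl true).tele z v (Y_mono (Nat.le_succ j))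
  have e2 : ∑ m ∈ Ico (Y j) (Y (j + 1)), sg (z m) * cf s v (L z m) =
      2 ^ (12 * s) * exp (-(sig j * v)) *
        (cp true (g0 (TT s) (sig j) (sB s j (zm s j z))ᶜ (L z (Y (j + 1))) v) -
          cp true (g0 (TT s) (sig j) (sB s j (zm s j z))ᶜ (L z (Y j)) v)) := by
    rw [e, mul_sum]
    exact sum_congr rfl fun m h => by rw [cf_eq s v z h]; ring
  have e3 : exp ((1 / 2 - sig j) * v) = exp (v / 2) * exp (-(sig j * v)) := by
    rw [← exp_add]; congr 1; ring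
  rw [e2, h1 _ _ _ _ (TT_pos s) (sig_lt j), h1 _ _ _ _ (TT_pos s) (sig_lt j),
    g0_univ (TT_pos s) (sig_lt j) hm, g0_univ (TT_pos s) (sig_lt j) hm, e3, IN]
  simp only [cp, if_true, Complex.add_re, Complex.sub_re]
  field_simp
  ring

theorem sq_blk (s j : ℕ) (v : ℝ) (z : ℕ → Bool) :
    ∑ m ∈ Ico (Y j) (Y (j + 1)), cf s v (L z m) ^ 2 =
      (2 ^ (12 * s) * exp (-(sig j * v))) ^ 2 * UV s j (sB s j (zm s j z))ᶜ true z v := by
  rw [UV, mul_sum]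
  exact sum_congr rfl fun m h => by rw [cf_eq s v z h]; ring

theorem ar1 {S Q X M N : ℝ} (hX : 1 ≤ X) (h : |S| ≤ 603 * N + Q / 2) (h2 : Q ≤ 24 * (M * X ^ 4))
    (h3 : N ≤ 2 ^ 17 * X ^ 4) : |S / X ^ 3| ≤ (603 * 2 ^ 17 + 12 * M) * X := by
  rw [abs_div, abs_of_pos (show 0 < X ^ 3 by positivity), div_le_iff₀ (by positivity)]
  calc _ ≤ 603 * (2 ^ 17 * X ^ 4) + 24 * (M * X ^ 4) / 2 := by linarith
    _ = _ := by ring

theorem ar2 {A B D E C X M : ℝ} (hX : 1 ≤ X) (hM : 1 ≤ M) (hC : 0 ≤ C) (hE : 0 < E) (h1 : |A| ≤ E)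
    (h2 : |B| ≤ 24 * (C * X)) (h3 : |D| ≤ (603 * 2 ^ 17 + 12 * M) * X) :
    |A + E * (B + D)| ≤ (13 + 24 * C + 603 * 2 ^ 17) * M * X * E := by
  refine (abs_add_le _ _).trans ?_
  rw [abs_mul, abs_of_pos hE]
  have b6 := (abs_add_le _ _).trans (add_le_add h2 h3)
  have a1 : X ≤ M * X := le_mul_of_one_le_left (by positivity) hM
  have a2 : C * X ≤ C * (M * X) := mul_le_mul_of_nonneg_left a1 hC
  have b7 : 1 + (24 * (C * X) + (603 * 2 ^ 17 + 12 * M) * X) ≤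
      (13 + 24 * C + 603 * 2 ^ 17) * M * X := by linarith
  linarith [mul_le_mul_of_nonneg_left b6 hE.le, mul_le_mul_of_nonneg_left b7 hE.le]

theorem ar3 {X M y : ℝ} (hX : 1 ≤ X) :
    (X ^ 3 * exp (-y)) ^ 2 * (M / X ^ 2 * exp y) = exp (-y) * (M * X ^ 4) := by
  rw [exp_neg]
  have := exp_pos y
  field_simp

end DF

theorem st_DF (h1 : St_SSE) (h2 : St_INI) : St_DF := by
  intro C1 hC
  refine ⟨13 + 24 * C1 + 603 * 2 ^ 17, by positivity, ?_⟩
  filter_upwards [h2] with s hI M z n v hM p4 pv pb n0 n1 v0 v1 pe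
  have hl := log_two_gt_d9
  have hl' := log_two_lt_d9
  have q : (0 : ℝ) < 2 ^ n := by positivity
  have v2 : 0 ≤ v := le_trans (by positivity) v0
  have ha : n - J0 s ≤ n + 1 := by omega
  have hJ : ∀ j ∈ Ico (n - J0 s) (n + 1), j ∈ JJ s ∧ v ≤ Lam s j := fun j hj => by
    obtain ⟨a, b⟩ := mem_Ico.1 hj
    refine ⟨mem_Ico.2 (by omega), v1.trans ?_⟩
    have : (2 : ℝ) ^ (n + 1) ≤ 2 ^ (j + J0 s + 1) := pow_le_pow_right₀ one_le_two (by omega)
    have p : (0 : ℝ) < 2 ^ (n + 1) := by positivity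
    exact (mul_le_of_le_one_right p.le (by linarith)).trans this
  have se := DF.sum_exp v0 (n - J0 s)
  obtain ⟨X, hX⟩ : ∃ X : ℝ, X = 2 ^ (4 * s) := ⟨_, rfl⟩
  rw [← hX]
  have X1 : 1 ≤ X := hX ▸ one_le_pow₀ one_le_two
  have x2 : (2 : ℝ) ^ (2 * s) ≤ X := hX ▸ pow_le_pow_right₀ one_le_two (by omega)
  have x8 : (2 : ℝ) ^ (8 * s) = X ^ 2 := by rw [hX, ← pow_mul]; congr 1; ring
  have x12 : (2 : ℝ) ^ (12 * s) = X ^ 3 := by rw [hX, ← pow_mul]; congr 1; ring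
  have x16 : (2 : ℝ) ^ (16 * s) = X ^ 4 := by rw [hX, ← pow_mul]; congr 1; ring
  have b1 : |∑ j ∈ Ico (n - J0 s) (n + 1),
      exp (-(sig j * v)) * (IN s j (sB s j (zm s j z)) z v).re| ≤ 24 * (C1 * X) := by
    refine (abs_sum_le_sum_abs _ _).trans ?_
    calc _ ≤ ∑ j ∈ Ico (n - J0 s) (n + 1), exp (-(sig j * v)) * (C1 * X) :=
          sum_le_sum fun j hj => by
            rw [abs_mul, abs_exp]
            exact mul_le_mul_of_nonneg_left ((pb j (hJ j hj).1 v v2 (hJ j hj).2).trans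
              (mul_le_mul_of_nonneg_left x2 hC)) (exp_pos _).le
      _ ≤ _ := by rw [← sum_mul]; exact mul_le_mul_of_nonneg_right se (by positivity)
  have b2 : ∑ m ∈ Ico (Y (n - J0 s)) (Y (n + 1)), cf s v (L z m) ^ 2 ≤ 24 * (M * X ^ 4) := by
    rw [DF.blocks _ ha]
    calc _ ≤ ∑ j ∈ Ico (n - J0 s) (n + 1), exp (-(sig j * v)) * (M * X ^ 4) :=
          sum_le_sum fun j hj => by
            rw [DF.sq_blk]
            refine (mul_le_mul_of_nonneg_left (pv j (hJ j hj).1 v v2 (hJ j hj).2)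
              (sq_nonneg _)).trans_eq ?_
            rw [x8, x12, DF.ar3 X1]
      _ ≤ _ := by rw [← sum_mul]; exact mul_le_mul_of_nonneg_right se (by positivity)
  have b3 : (n : ℝ) + 1 ≤ 2 ^ 17 * X ^ 4 := by
    rw [← x16, ← cast_NE]; exact_mod_cast n1
  have b4 := DF.ar1 X1 pe b2 b3
  rw [← x12] at b4
  rw [DF.tele (fun j => SS (TT s) (L z (Y j)) v) ha, sum_congr rfl fun j _ => DF.step h1 s j v z,
    ← mul_sum, sum_add_distrib, ← sum_div, ← DF.blocks _ ha]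
  exact DF.ar2 X1 hM hC (exp_pos _) (hI z n v p4 n0 n1 v0) b1 b4

end Pool.Agent.Lib.RX
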