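import Pool.Agent.Lib.RX.Kit2

/-! Project rx29: the variance of the main and the negligible class. -/

namespace Pool.Agent.Lib.RX

open Finset Real MeasureTheory Filter Topology Pool.Agent.Lib.RM67 Pool.Agent.Lib.RM67.T96

namespace DG

theorem compl_sB (s j : ℕ) (l : List Bool) : (sB s j l)ᶜ = sG s j l ∪ sO s j l := by
  ext t
  simp only [sB, sG, sO, Set.mem_compl_iff, Set.mem_inter_iff, Set.mem_union, Set.mem_sdiff]
  tauto

theorem UV_union {s j : ℕ} {A B : Set ℝ} (hA : MeasurableSet A) (hB : MeasurableSet B)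
    (h : Disjoint A B) (z : ℕ → Bool) (v : ℝ) :
    UV s j (A ∪ B) true z v ≤ 2 * UV s j A true z v + 2 * UV s j B true z v := by
  simp only [UV, mul_sum, ← sum_add_distrib]
  refine sum_le_sum fun n _ => ?_
  rw [g0_union (TT_pos s) (sig_lt j) hA hB h, cp_add, mul_add]
  nlinarith [sq_nonneg (xx (sig j) n * cp true (g0 (TT s) (sig j) A (L z n) (v - log n)) -
    xx (sig j) n * cp true (g0 (TT s) (sig j) B (L z n) (v - log n)))]

theorem floor_lt {s j : ℕ} (h : Par s j) {v : ℝ} (h0 : 0 ≤ v) (h1 : v ≤ Lam s j) :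
    ⌊v / rho s j⌋₊ < 2 ^ (s + J0 s + 3) := by
  rw [Nat.floor_lt (div_nonneg h0 (rho_pos s j).le), div_lt_iff₀ (rho_pos s j)]
  have e : (2 : ℝ) ^ (s + J0 s + 3) * 2 ^ (j - s) = 4 * Lam s j := by
    have := h.s_lt
    rw [Lam, ← pow_add, show s + J0 s + 3 + (j - s) = j + J0 s + 1 + 2 by omega, pow_add _ _ 2]
    ring
  have p := Lam_pos s j
  have q := mul_le_mul_of_nonneg_left log_two_gt_d9.le p.le
  push_cast
  rw [rho, ← mul_assoc, e]
  linarith

theorem fin {c1 c2 D M e e' X Q q m n E : ℝ} (h1 : 0 ≤ c1) (h2 : 0 ≤ c2) (hD : 0 ≤ D)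
    (hM : 1 ≤ M) (he : 1 ≤ e) (he' : e' ≤ e) (hX : 1 ≤ X) (hn : 0 ≤ n) (hq : Q - m ≤ X * e')
    (hm : m ≤ c2 * q) (hq' : q ≤ D * X * M) (hn' : n ≤ q) (hE : E ≤ e' * (n + 1)) :
    c1 * (Q + E) ≤ c1 * (2 + c2 * D + D) * M * X * e := by
  have a0 : 1 ≤ X * M := one_le_mul_of_one_le_of_one_le hX hM
  have a1 : X * e' ≤ X * M * e := by
    refine (mul_le_mul_of_nonneg_left he' (by linarith)).trans ?_
    exact mul_le_mul_of_nonneg_right (le_mul_of_one_le_right (by linarith) hM) (by linarith)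
  have a2 : m ≤ c2 * (D * X * M) * e :=
    (hm.trans (mul_le_mul_of_nonneg_left hq' h2)).trans
      (le_mul_of_one_le_right (by positivity) he)
  have a3 : E ≤ e * (D * X * M + X * M) :=
    hE.trans (mul_le_mul he' (by linarith) (by linarith) (by linarith))
  have a4 : Q + E ≤ (2 + c2 * D + D) * M * X * e := by linarith
  calc _ ≤ c1 * ((2 + c2 * D + D) * M * X * e) := mul_le_mul_of_nonneg_left a4 h1
    _ = _ := by ring

end DG

open DG in
theorem st_DG (h1 : St_UV) (h2 : St_MS) : St_DG := by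
  obtain ⟨c1, p1, h1⟩ := h1
  obtain ⟨c2, p2, h2⟩ := h2
  obtain ⟨D, hD⟩ : ∃ D, D = 16 * π * exp 18 := ⟨_, rfl⟩
  have pD : 0 ≤ D := by rw [hD]; positivity
  refine ⟨2 * (c1 * (2 + c2 * D + D)) + 2 * c1, by positivity, ?_⟩
  filter_upwards [h1, h2, par] with s h1 h2 hp Λ M z hM hb hm h5 h8 h9 j hj v v0 v1
  have P := hp j hj
  have mG := sG_meas s j (zm s j z)
  have mO := sO_meas s j (zm s j z)
  have hk := mem_range.2 (floor_lt P v0 v1)
  have a1 := (h1 j hj z _ v mO v0 v1).1 true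
  have a2 := (h1 j hj z _ v mG v0 v1).2
  have a3 := h2 j hj (zm s j z) _ ⌊v / rho s j⌋₊ mG
  have a4 := h8 j hj _ hk
  have a5 := h9 j hj _ hk
  have a6 := P.nP_le mG (fun t ht => ht.1.2)
  have a7 := hm j hj
  have g : GG Λ (zm s j z) = 1 := GG_L hb _
  rw [g, one_mul, sum_sub_distrib] at a4
  rw [← hD] at a6
  have e1 : 1 ≤ exp (sig j * v) := one_le_exp (mul_nonneg (sig_pos j).le v0)
  have e2 : exp (⌊v / rho s j⌋₊ * rho s j * sig j) ≤ exp (sig j * v) := by
    rw [exp_le_exp, mul_comm]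
    refine mul_le_mul_of_nonneg_left ?_ (sig_pos j).le
    exact (le_div_iff₀ (rho_pos s j)).1 (Nat.floor_le (div_nonneg v0 (rho_pos s j).le))
  have x1 : (1 : ℝ) ≤ 2 ^ j / 2 ^ (8 * s) := by
    rw [one_le_div (by positivity)]
    exact pow_le_pow_right₀ one_le_two (by have := P.s_le; have := P.m_le; omega)
  have x2 : (2 : ℝ) ^ (j - mm s j) * 2 ^ mm s j = 2 ^ j := by
    rw [← pow_add, Nat.sub_add_cancel P.m_le]
  have n0 := nP_nonneg s j (sG s j (zm s j z)) (zm s j z)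
  have b1 : 2 ^ (j - mm s j) * nP s j (sG s j (zm s j z)) (zm s j z) ≤
      D * (2 ^ j / 2 ^ (8 * s)) * M :=
    calc _ ≤ 2 ^ (j - mm s j) * (D * 2 ^ mm s j * (M / 2 ^ (8 * s))) :=
          mul_le_mul_of_nonneg_left (a6.trans (mul_le_mul_of_nonneg_left a7 (by positivity)))
            (by positivity)
      _ = _ := by rw [← x2]; ring
  have b2 := fin p1 p2 pD hM e1 e2 x1 n0 a4 (a3.trans_eq (mul_assoc _ _ _)) b1
    (le_mul_of_one_le_left n0 (one_le_pow₀ one_le_two)) a5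
  have b3 : UV s j (sG s j (zm s j z)) true z v ≤
      c1 * (2 + c2 * D + D) * M / 2 ^ (8 * s) * exp (sig j * v) := by
    refine a2.trans ?_
    rw [div_mul_eq_mul_div, div_le_iff₀ (by positivity)]
    exact b2.trans_eq (by ring)
  have b4 : UV s j (sO s j (zm s j z)) true z v ≤ c1 * M / 2 ^ (8 * s) * exp (sig j * v) :=
    calc _ ≤ c1 / 2 ^ j * (2 ^ j / 2 ^ (8 * s)) :=
          a1.trans (mul_le_mul_of_nonneg_left (h5 j hj) (by positivity))
      _ = c1 * 1 / 2 ^ (8 * s) * 1 := by field_simp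
      _ ≤ _ := by gcongr
  have b5 := UV_union (s := s) (j := j) mG mO
    (Set.disjoint_left.2 fun t ht ho => ho ht.1) z v
  show UV s j (sB s j (zm s j z))ᶜ true z v ≤ _
  rw [compl_sB]
  calc _ ≤ 2 * (c1 * (2 + c2 * D + D) * M / 2 ^ (8 * s) * exp (sig j * v)) +
        2 * (c1 * M / 2 ^ (8 * s) * exp (sig j * v)) := by linarith only [b3, b4, b5]
    _ = _ := by ring

end Pool.Agent.Lib.RX
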