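import Pool.Agent.Lib.RX.Kit2

/-! Project rx29: the mass of the main class is small. -/

namespace Pool.Agent.Lib.RX

open Finset Real MeasureTheory Filter Topology Pool.Agent.Lib.RM67 Pool.Agent.Lib.RM67.T96

noncomputable section

namespace DM

theorem abs_W (t : ℝ) : ∀ l : List Bool, |WW l t| ≤ 2 * l.length
  | [] => by simp [WW]
  | b :: l => by
    have h1 := abs_W t l
    have h2 := abs_xi b l.length t
    rw [WW, List.length_cons]
    push_cast
    linarith [abs_add_le (WW l t) (sg b * bb l.length t - bb l.length t ^ 2)]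

theorem D_int (Λ : ℝ) (k : ℕ) (l : List Bool) :
    Integrable fun t => R l t * (ab Λ k t + 2 - WW l t) * dens t := by
  have h1 : Integrable fun t => (ab Λ k t + 2 - WW l t) * dens t := by
    have := (((dens_int.const_mul (log (Λ * (k + 1)) + (34 + 18 * c3) + 2)).add lg_int).add
      (Ph_int k).1).sub (bd_int (WW_cont l) (abs_W · l))
    refine this.congr (Eventually.of_forall fun t => ?_)
    simp only [ab, Pi.add_apply, Pi.sub_apply]
    ring
  have h2 := h1.bdd_mul (c := 2 ^ l.length) (R_cont l).aestronglyMeasurable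
    (Eventually.of_forall fun t => by
      rw [Real.norm_eq_abs, abs_of_pos (R_pos t l)]; exact R_le t l)
  simpa only [mul_assoc] using h2

theorem Rl_eq (γ : ℝ) (n : ℕ) (t : ℝ) : ∀ l : List Bool, l.length ≤ n → Rl γ n l t = R l t
  | [], _ => rfl
  | b :: l, h => by
    have h1 : l.length < n := h
    rw [Rl, R, Rl_eq γ n t l h1.le, if_neg (not_le.2 h1), mul_one]

/-- The integrand of the ballot martingale. -/
def qf (Λ : ℝ) (s : ℕ) (l : List Bool) (t : ℝ) : ℝ := (R l t -
  exp (-(la s * (ab Λ (NE s) t + 1 - WW (anc (Y (N0 s)) l) t))) * Rl (1 + la s) (Y (N0 s)) l t) *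
    dens t

theorem qf_cont (Λ : ℝ) (s : ℕ) (l : List Bool) : Continuous (qf Λ s l) :=
  ((R_cont l).sub ((continuous_exp.comp (continuous_const.mul (((ab_cont Λ _).add
    continuous_const).sub (WW_cont _))).neg).mul (Rl_cont _ _ l))).mul dens_cont

theorem kap_sub (s : ℕ) (z : ℕ → Bool) (i : ℕ) :
    kap s (i + 1) (L z (Y (i + 1))) ⊆ kap s i (L z (Y i)) := by
  rintro t ⟨h1, h2⟩
  refine ⟨h1, fun ⟨k, hk, h3⟩ => h2 ⟨k, ?_, ?_⟩⟩
  · have := mem_Icc.1 hk
    exact mem_Icc.2 (by omega)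
  · have hk' := (mem_Icc.1 hk).2
    rw [lo_L s z (Y_mono hk')] at h3
    rwa [lo_L s z (Y_mono (by omega))]

theorem alg1 {r d a w : ℝ} (h : 0 ≤ r * d * (a - w)) : 2 * (r * d) ≤ r * (a + 2 - w) * d := by
  linarith

theorem alg2 {r d a b w y : ℝ} (c : 0 < r * d) (hy : 0 < y) (h : a ≤ b + 13) :
    (r - exp (-(y * (a + 1 - w))) * r) * d ≤ y * (r * (b + 2 - w) * d + 12 * (r * d)) := by
  have k := add_one_le_exp (-(y * (a + 1 - w)))
  have d := mul_le_mul_of_nonneg_left h hy.le
  have e : 1 - exp (-(y * (a + 1 - w))) ≤ y * (b + 2 - w + 12) := by linarith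
  have f := mul_le_mul_of_nonneg_left e c.le
  linarith

theorem Qm_eq (Λ : ℝ) (s : ℕ) (A : Set ℝ) (l : List Bool) :
    Qm Λ s A l = ∫ t in A, qf Λ s l t := rfl

end DM

open DM in
theorem st_DM (h1 : St_TILT) (h2 : St_HH) : St_DM := by
  intro Λ hΛ
  have hΛ0 : 0 < Λ := by linarith
  filter_upwards [h1 Λ hΛ, h2 Λ hΛ, par] with s hT hH hP z D hb hD e2 e3 j hj
  have p := hP j hj
  obtain ⟨m1, m2⟩ := mem_Icc.1 p.m_mem
  have hla : 0 < la s := by unfold la; positivity
  have T : ∀ i, N0 s ≤ i → i ≤ NE s → ∀ t, 0 ≤ qf Λ s (L z (Y i)) t ∧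
      qf Λ s (L z (Y i)) t ≤ R (L z (Y i)) t * dens t ∧
      (1 ≤ la s ^ 2 * ∑ n ∈ Ico (Y (N0 s)) (Y i), bb n t ^ 2 / 2 →
        R (L z (Y i)) t * dens t ≤ 2 * qf Λ s (L z (Y i)) t) := by
    intro i a b t
    obtain ⟨c, d⟩ := hT (L z (Y i)) t (by simpa using Y_mono a) (by simpa using Y_mono b) (hb _)
    have r0 := R_pos t (L z (Y i))
    have d0 := dens_pos t
    have len : (L z (Y i)).length = Y i := by simp
    rw [len] at d
    have s0 : 0 ≤ la s ^ 2 * ∑ n ∈ Ico (Y (N0 s)) (Y i), bb n t ^ 2 / 2 :=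
      mul_nonneg (sq_nonneg _) (sum_nonneg fun _ _ => by positivity)
    have x1 : exp (-(la s ^ 2 * ∑ n ∈ Ico (Y (N0 s)) (Y i), bb n t ^ 2 / 2)) ≤ 1 :=
      exp_le_one_iff.2 (by linarith)
    have x0 := mul_nonneg (exp_pos (-(la s * (ab Λ (NE s) t + 1 -
      WW (anc (Y (N0 s)) (L z (Y i))) t)))).le c
    refine ⟨mul_nonneg (sub_nonneg.2 (d.trans (mul_le_of_le_one_right r0.le x1))) d0.le,
      mul_le_mul_of_nonneg_right (by linarith) d0.le, fun h => ?_⟩
    have x2 : exp (-(la s ^ 2 * ∑ n ∈ Ico (Y (N0 s)) (Y i), bb n t ^ 2 / 2)) ≤ 1 / 2 := by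
      refine (exp_le_exp.2 (neg_le_neg h)).trans ?_
      linarith [exp_neg_one_lt_d9]
    have x3 := d.trans (mul_le_mul_of_nonneg_left x2 r0.le)
    unfold qf
    rw [← mul_assoc]
    exact mul_le_mul_of_nonneg_right (by linarith) d0.le
  have I : ∀ i, N0 s ≤ i → i ≤ NE s → Integrable (qf Λ s (L z (Y i))) := fun i a b =>
    (R_int (L z (Y i))).mono' (qf_cont _ _ _).aestronglyMeasurable
      (Eventually.of_forall fun t => by
        rw [norm_of_nonneg (T i a b t).1]; exact (T i a b t).2.1)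
  have step : ∀ i, N0 s ≤ i → i ≤ NE s →
      Qm Λ s (kap s i (L z (Y i))) (L z (Y i)) ≤
        Qm Λ s (kap s (N0 s) (L z (Y (N0 s)))) (L z (Y (N0 s))) +
        ∑ k ∈ Ico (N0 s) i, (Qm Λ s (kap s k (L z (Y k))) (L z (Y (k + 1))) -
          Qm Λ s (kap s k (L z (Y k))) (L z (Y k))) := by
    intro i a
    induction i, a using Nat.le_induction with
    | base => intro _; simp
    | succ i a ih =>
      intro b
      have c := ih (by omega)
      have d : Qm Λ s (kap s (i + 1) (L z (Y (i + 1)))) (L z (Y (i + 1))) ≤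
          Qm Λ s (kap s i (L z (Y i))) (L z (Y (i + 1))) := by
        rw [Qm_eq, Qm_eq]
        exact setIntegral_mono_set (I (i + 1) (by omega) b).integrableOn
          (Eventually.of_forall fun t => (T (i + 1) (by omega) b t).1)
          (kap_sub s z i).eventuallyLE
      rw [sum_Ico_succ_top a]
      linarith
  have start : Qm Λ s (kap s (N0 s) (L z (Y (N0 s)))) (L z (Y (N0 s))) ≤ la s * (7 * D) := by
    set l := L z (Y (N0 s)) with hl
    have len : l.length = Y (N0 s) := by simp [hl]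
    have w : ∀ t, WW l t ≤ ab Λ (N0 s) t := W_ab hΛ0 (hb _) len.le
    have d1 : ∫ t, R l t * (ab Λ (N0 s) t + 2 - WW l t) * dens t ≤ D := by
      have := hD (Y (N0 s))
      rwa [Dm, GG_L hb, one_mul, ← hl, len, clog_Y] at this
    have d2 : 2 * NN l ≤ D := by
      refine le_trans ?_ d1
      rw [NN, ← integral_const_mul]
      refine integral_mono ((R_int l).const_mul 2) (D_int Λ _ l) fun t => ?_
      exact alg1 (mul_nonneg (mul_pos (R_pos t l) (dens_pos t)).le (sub_nonneg.2 (w t)))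
    have i1 : Integrable fun t => la s * (R l t * (ab Λ (N0 s) t + 2 - WW l t) * dens t +
        12 * (R l t * dens t)) := ((D_int Λ _ l).add ((R_int l).const_mul 12)).const_mul _
    have n1 : ∀ t, 0 ≤ la s * (R l t * (ab Λ (N0 s) t + 2 - WW l t) * dens t +
        12 * (R l t * dens t)) := fun t => by
      have := R_pos t l
      have := dens_pos t
      have : 0 ≤ ab Λ (N0 s) t + 2 - WW l t := by linarith [w t]
      positivity
    calc _ ≤ ∫ t in kap s (N0 s) l, la s * (R l t * (ab Λ (N0 s) t + 2 - WW l t) * dens t +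
          12 * (R l t * dens t)) := by
          rw [Qm_eq]
          refine setIntegral_mono_on (I _ le_rfl (m1.trans m2)).integrableOn i1.integrableOn
            (kap_meas _ _ _) fun t ht => ?_
          rw [qf, anc_of_le len.le, Rl_eq _ _ _ _ len.le]
          exact alg2 (mul_pos (R_pos t l) (dens_pos t)) hla (hH t ht.1).1.2.2
      _ ≤ ∫ t, la s * (R l t * (ab Λ (N0 s) t + 2 - WW l t) * dens t +
          12 * (R l t * dens t)) := setIntegral_le_integral i1 (Eventually.of_forall n1)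
      _ ≤ _ := by
          rw [integral_const_mul, integral_add (D_int Λ _ l) ((R_int l).const_mul 12),
            integral_const_mul]
          refine mul_le_mul_of_nonneg_left ?_ hla.le
          unfold NN at d2
          linarith
  have last : ms (kap s (mm s j) (zm s j z)) (zm s j z) ≤
      2 * Qm Λ s (kap s (mm s j) (L z (Y (mm s j)))) (L z (Y (mm s j))) := by
    rw [Qm_eq, ← integral_const_mul, ms, zm]
    refine setIntegral_mono_on (R_int _).integrableOn ((I _ m1 m2).const_mul 2).integrableOn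
      (kap_meas _ _ _) fun t ht => (T _ m1 m2 t).2.2 ?_
    have a := (hH t ht.1).2.2.2.2 _ p.N3 m2
    have b : la s ^ 2 * ((2 : ℝ) ^ (16 * s) / 4) = 1 := by
      rw [la, show 16 * s = 8 * s * 2 by ring, pow_mul _ (8 * s) 2]
      have : (2 : ℝ) ^ (8 * s) ≠ 0 := by positivity
      generalize (2 : ℝ) ^ (8 * s) = y at this ⊢
      field_simp
      norm_num
    exact b.ge.trans (mul_le_mul_of_nonneg_left a (sq_nonneg _))
  have sub : sG s j (zm s j z) ⊆ kap s (mm s j) (zm s j z) ∪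
      (gd s ∩ {t | ∃ i ∈ Icc (N0 s) (mm s j - KK s), t ∈ lo s i (zm s j z)}) := by
    rintro t ⟨⟨a, -⟩, b⟩
    by_cases c : t ∈ kap s (mm s j) (zm s j z)
    · exact Or.inl c
    · refine Or.inr ⟨a, ?_⟩
      have : ∃ i ∈ Icc (N0 s) (mm s j), t ∈ lo s i (zm s j z) := by
        by_contra d
        exact c ⟨a, d⟩
      obtain ⟨i, hi, d⟩ := this
      have := mem_Icc.1 hi
      refine ⟨i, mem_Icc.2 ⟨this.1, ?_⟩, d⟩
      by_contra e
      exact b ⟨i, mem_Ioc.2 ⟨not_le.1 e, this.2⟩, d⟩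
  have f2 := e2 _ m2
  rw [GG_L hb, one_mul] at f2
  have f3 := e3 _ m2 (al_L.2 fun n _ => hb n)
  have f4 := (ms_mono sub (zm s j z)).trans
    (ms_union _ ((gd_meas s).inter (los_meas _ _ _)) _)
  have f5 := ms_los s (Icc (N0 s) (mm s j - KK s)) (zm s j z) (zm s j z)
  have f6 := step _ m1 m2
  have f7 : (28 * D + 3) / 2 ^ (8 * s) = 2 * (la s * (7 * D)) + 3 * (1 / 2 ^ (8 * s)) := by
    rw [la]; ring
  rw [f7]
  unfold zm at *
  linarith

end

end Pool.Agent.Lib.RX
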