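import Pool.Agent.Lib.RX.Kit2

/-! Project rx29: events 1 and 4 hold almost surely for all large stages. -/

namespace Pool.Agent.Lib.RX

open Finset Real MeasureTheory Filter Topology Pool.Agent.Lib.RM67 Pool.Agent.Lib.RM67.T96

noncomputable section

namespace E14

theorem mean_le {j n : ℕ} (h : n ≤ Y (j + 1)) :
    av n (fun l => ∫ t, ‖Ec (sig j) l t‖ ^ 2 * dens t) ≤ 2 * exp 20 * 2 ^ j := by
  obtain ⟨h1, h2⟩ := av_int (n := n) _ fun l => Ec_int (sig j) l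
  rw [h2]
  calc _ ≤ ∫ t : ℝ, 2 * exp 20 * 2 ^ j * dens t := by
        refine integral_mono h1 (dens_int.const_mul _) fun t => ?_
        simp only [mul_comm _ (dens t), av_mul]
        exact mul_le_mul_of_nonneg_left ((av_Ec _ t n).trans (exp_xx_all h)) (dens_pos t).le
    _ = _ := by rw [integral_const_mul, int_dens, mul_one]

theorem four (i : ℕ) (hi : i ≤ 1) : AE fun z => ∀ᶠ s in atTop, ∀ j ∈ JJ s,
    ∫ t, ‖Ec (sig j) (L z (Y (j + i))) t‖ ^ 2 * dens t ≤ 2 ^ j * 2 ^ (48 * s) := by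
  refine (ae_of (S := JJ) (n := fun _ j => Y (j + i))
    (B := fun s j l => ¬ ∫ t, ‖Ec (sig j) l t‖ ^ 2 * dens t ≤ 2 ^ j * 2 ^ (48 * s)) 1 ?_).mono
    fun z hz => hz.mono fun s hs j hj => not_not.1 (hs j hj)
  filter_upwards [ev_const (2 ^ 17 * (2 * exp 20))] with s hs
  have hb : ∀ j ∈ JJ s, pr (Y (j + i))
      (fun l => ¬ ∫ t, ‖Ec (sig j) l t‖ ^ 2 * dens t ≤ 2 ^ j * 2 ^ (48 * s)) ≤
      2 * exp 20 / 2 ^ (48 * s) := fun j _ => by
    refine (markov' (by positivity) (fun l => integral_nonneg fun t =>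
      mul_nonneg (sq_nonneg _) (dens_pos t).le) (mean_le (Y_mono (by omega)))).trans (le_of_eq ?_)
    field_simp
  refine (sum_le_card_nsmul _ _ _ hb).trans ?_
  rw [nsmul_eq_mul, pow_one]
  have h17 : (2 : ℝ) ^ (16 * s) * 2 ^ s ≤ 2 ^ (48 * s) := by
    rw [← pow_add]; exact pow_le_pow_right₀ one_le_two (by omega)
  calc _ ≤ 2 ^ 17 * 2 ^ (16 * s) * (2 * exp 20 / (2 ^ (16 * s) * 2 ^ s)) := by
        gcongr
        exact card_JJ s
    _ = 2 ^ 17 * (2 * exp 20) / 2 ^ s := by field_simp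
    _ ≤ _ := by gcongr

theorem one (h : St_MX) (Λ : ℝ) (hΛ : 1 ≤ Λ) : AE fun z => ∀ᶠ s in atTop, P1 Λ s z := by
  refine (ae_of (S := fun s => Icc (N0 s) (NE s)) (n := fun _ i => Y i)
    (B := fun s i l => ¬ GG Λ l * Mx s i l ≤ 1 / 2 ^ (7 * s)) 10 ?_).mono
    fun z hz => hz.mono fun s hs j hj => not_not.1 (hs j hj)
  filter_upwards [ev_const (2 ^ 17), h Λ hΛ] with s hs hm
  have hb : ∀ i ∈ Icc (N0 s) (NE s), pr (Y i) (fun l => ¬ GG Λ l * Mx s i l ≤ 1 / 2 ^ (7 * s)) ≤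
      (s : ℝ) ^ 9 / 2 ^ (24 * s) / (1 / 2 ^ (7 * s)) := fun i hi =>
    markov' (by positivity) (fun l => mul_nonneg (GG_nonneg _ _) (Mx_nonneg _ _ _)) (hm i hi)
  refine (sum_le_card_nsmul _ _ _ hb).trans ?_
  rw [nsmul_eq_mul]
  have h24 : (2 : ℝ) ^ (24 * s) = 2 ^ (16 * s) * 2 ^ (7 * s) * 2 ^ s := by
    rw [← pow_add, ← pow_add]; congr 1; ring
  calc _ ≤ 2 ^ 17 * 2 ^ (16 * s) * ((s : ℝ) ^ 9 / 2 ^ (24 * s) / (1 / 2 ^ (7 * s))) := by
        gcongr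
        exact card_Icc s
    _ = 2 ^ 17 * (s : ℝ) ^ 9 / 2 ^ s := by rw [h24]; field_simp
    _ ≤ s * (s : ℝ) ^ 9 / 2 ^ s := by gcongr
    _ = _ := by ring

end E14

theorem st_E14 (h : St_MX) : St_E14 := by
  refine ⟨E14.one h, ((E14.four 0 zero_le_one).and (E14.four 1 le_rfl)).mono fun z hz => ?_⟩
  filter_upwards [hz.1, hz.2] with s h0 h1 j hj i hi
  obtain rfl | rfl : i = 0 ∨ i = 1 := by omega
  exacts [h0 j hj, h1 j hj]

end

end Pool.Agent.Lib.RX
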