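import Pool.Agent.Lib.RX.Kit2

/-! Project rx29: block E2. -/

namespace Pool.Agent.Lib.RX

open Finset Real MeasureTheory Filter Topology Pool.Agent.Lib.RM67 Pool.Agent.Lib.RM67.T96

noncomputable section

namespace E2

/-- One term. -/
def Tm (Λ : ℝ) (s i : ℕ) (l : List Bool) : ℝ := GG Λ l * ms (gd s ∩ lo s i l) l

/-- The term, once it is old. -/
def Zi (Λ : ℝ) (s i : ℕ) (l : List Bool) : ℝ := if Y (i + KK s) ≤ l.length then Tm Λ s i l else 0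

/-- The jump at the time when it becomes old. -/
def Ji (Λ : ℝ) (s i : ℕ) (l : List Bool) : ℝ :=
  if l.length + 1 = Y (i + KK s) then (Tm Λ s i (true :: l) + Tm Λ s i (false :: l)) / 2 else 0

theorem Tm_nonneg (Λ : ℝ) (s i : ℕ) (l : List Bool) : 0 ≤ Tm Λ s i l :=
  mul_nonneg (GG_nonneg _ _) (ms_nonneg _ _)

theorem Zi_nonneg (Λ : ℝ) (s i : ℕ) (l : List Bool) : 0 ≤ Zi Λ s i l := by
  unfold Zi
  split_ifs
  exacts [Tm_nonneg _ _ _ _, le_rfl]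

theorem Ji_nonneg (Λ : ℝ) (s i : ℕ) (l : List Bool) : 0 ≤ Ji Λ s i l := by
  unfold Ji
  split_ifs
  exacts [div_nonneg (add_nonneg (Tm_nonneg _ _ _ _) (Tm_nonneg _ _ _ _)) zero_le_two, le_rfl]

theorem step (Λ : ℝ) (s i : ℕ) (l : List Bool) :
    (Zi Λ s i (true :: l) + Zi Λ s i (false :: l)) / 2 ≤ Zi Λ s i l + Ji Λ s i l := by
  by_cases h : Y (i + KK s) ≤ l.length
  · have h1 : Y i ≤ l.length := (Y_mono (Nat.le_add_right _ _)).trans h
    have h2 : ∀ b, Zi Λ s i (b :: l) = GG Λ (b :: l) * ms (gd s ∩ lo s i l) (b :: l) := by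
      intro b
      rw [Zi, if_pos (by simp; omega), Tm, lo, anc_cons b h1, lo]
    have h3 : (GG Λ (true :: l) * ms (gd s ∩ lo s i l) (true :: l) +
        GG Λ (false :: l) * ms (gd s ∩ lo s i l) (false :: l)) / 2 ≤
        GG Λ l * ms (gd s ∩ lo s i l) l :=
      av_GG_ms Λ _ ((gd_meas s).inter (lo_meas s i l)) l 1
    have h4 : Zi Λ s i l = GG Λ l * ms (gd s ∩ lo s i l) l := if_pos h
    rw [h2, h2, h4]
    linarith [Ji_nonneg Λ s i l]
  · by_cases h1 : l.length + 1 = Y (i + KK s)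
    · have h2 : ∀ b, Zi Λ s i (b :: l) = Tm Λ s i (b :: l) := fun b => if_pos (by simp; omega)
      rw [h2, h2, Ji, if_pos h1]
      linarith [Zi_nonneg Λ s i l]
    · have h2 : ∀ b, Zi Λ s i (b :: l) = 0 := fun b => if_neg (by simp; omega)
      rw [h2, h2]
      linarith [Zi_nonneg Λ s i l, Ji_nonneg Λ s i l]

theorem jump (Λ : ℝ) (s i : ℕ) (S : Finset ℕ) :
    ∑ m ∈ S, av m (Ji Λ s i) ≤ av (Y (i + KK s)) (Tm Λ s i) := by
  obtain ⟨n, hn⟩ : ∃ n, Y (i + KK s) = n + 1 := ⟨_, (Nat.succ_pred_eq_of_pos (Y_pos _)).symm⟩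
  have h : ∀ m, av m (Ji Λ s i) = if m = n then av (n + 1) (Tm Λ s i) else 0 := by
    intro m
    split_ifs with hm
    · subst hm
      rw [av]
      exact av_congr fun l hl => if_pos (by omega)
    · rw [← av_const m 0]
      exact av_congr fun l hl => if_neg (by omega)
  simp only [h, sum_ite_eq', hn]
  split_ifs
  exacts [le_rfl, av_nonneg fun l _ => Tm_nonneg _ _ _ _]

/-- The sum of the old terms. -/
def Zs (Λ : ℝ) (s : ℕ) (l : List Bool) : ℝ := ∑ i ∈ Icc (N0 s) (NE s - KK s), Zi Λ s i l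

/-- The bad event. -/
def Bd (Λ : ℝ) (s : ℕ) (l : List Bool) : Prop :=
  ¬ Al (fun t => 0 ≤ t.length → Zs Λ s t ≤ 1 / 2 ^ (8 * s)) l

theorem Zs_nil (Λ : ℝ) (s : ℕ) : Zs Λ s [] = 0 :=
  sum_eq_zero fun i _ => if_neg (not_le.2 (Y_pos (i + KK s)))

theorem pr_le' (Λ : ℝ) (s n : ℕ) : pr n (Bd Λ s) ≤
    (∑ i ∈ Icc (N0 s) (NE s - KK s), av (Y (i + KK s)) (Tm Λ s i)) / (1 / 2 ^ (8 * s)) := by
  have d := doobj 0 n (Zs Λ s)
    (fun l => ∑ i ∈ Icc (N0 s) (NE s - KK s), Ji Λ s i l) (c := 1 / 2 ^ (8 * s)) (by positivity)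
    (fun l => sum_nonneg fun i _ => Zi_nonneg _ _ _ _)
    (fun l => sum_nonneg fun i _ => Ji_nonneg _ _ _ _) fun l _ _ => by
      unfold Zs
      rw [← sum_add_distrib, ← sum_add_distrib, sum_div]
      exact sum_le_sum fun i _ => step Λ s i l
  rw [zero_add, av, Zs_nil, zero_add] at d
  refine d.trans (div_le_div_of_nonneg_right ?_ (by positivity))
  simp only [av_sum]
  rw [sum_comm]
  exact sum_le_sum fun i _ => jump Λ s i _

theorem num (s : ℕ) (hs : (2 : ℝ) ^ 17 ≤ s) :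
    2 ^ 17 * 2 ^ (16 * s) * ((s : ℝ) ^ 12 / 2 ^ (25 * s)) / (1 / 2 ^ (8 * s)) ≤
      (s : ℝ) ^ 13 / 2 ^ s := by
  have e2 : (2 : ℝ) ^ (25 * s) = 2 ^ (16 * s) * 2 ^ s * 2 ^ (8 * s) := by
    rw [← pow_add, ← pow_add]; congr 1; ring
  have e3 : (2 : ℝ) ^ 17 * 2 ^ (16 * s) * ((s : ℝ) ^ 12 / 2 ^ (25 * s)) / (1 / 2 ^ (8 * s)) =
      2 ^ 17 * (s : ℝ) ^ 12 / 2 ^ s := by
    rw [e2]; field_simp
  rw [e3, pow_succ' (s : ℝ) 12]
  gcongr

theorem Zi_of {Λ : ℝ} {s i : ℕ} {l : List Bool} (h : Y (i + KK s) ≤ l.length) :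
    Zi Λ s i l = GG Λ l * ms (gd s ∩ lo s i l) l := if_pos h

theorem node {Λ : ℝ} {s m : ℕ} {l : List Bool} (hm : m ≤ NE s) (hl : l.length = Y m) :
    GG Λ l * ∑ i ∈ Icc (N0 s) (m - KK s), ms (gd s ∩ lo s i l) l ≤ Zs Λ s l := by
  have e : GG Λ l * ∑ i ∈ Icc (N0 s) (m - KK s), ms (gd s ∩ lo s i l) l =
      ∑ i ∈ Icc (N0 s) (m - KK s), Zi Λ s i l := by
    rw [mul_sum]
    refine sum_congr rfl fun i hi => (Zi_of ?_).symm
    have h2 := mem_Icc.1 hi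
    have h3 := N0_pos s
    have h4 : i + KK s ≤ m := by omega
    exact (Y_mono h4).trans hl.ge
  exact e.le.trans (sum_le_sum_of_subset_of_nonneg
    (Icc_subset_Icc_right (Nat.sub_le_sub_right hm _)) fun i _ _ => Zi_nonneg _ _ _ _)

theorem path0 {Λ : ℝ} {s n k : ℕ} {z : ℕ → Bool} (h : ¬ Bd Λ s (L z n)) (hk : k ≤ n) :
    Zs Λ s (L z k) ≤ 1 / 2 ^ (8 * s) :=
  al_L.1 (not_not.1 h) k hk (Nat.zero_le _)

theorem path {Λ : ℝ} {s : ℕ} {z : ℕ → Bool} (h : ¬ Bd Λ s (L z (Y (NE s)))) : P2 Λ s z :=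
  fun m hm => (node hm (L_len z (Y m))).trans (path0 h (Y_mono hm))

end E2

open E2 in
theorem st_E2 (h : St_OLD) : St_E2 := by
  intro Λ hΛ
  refine (ae_of (S := fun _ => {0}) (n := fun s _ => Y (NE s)) (B := fun s _ => Bd Λ s) 13 ?_).mono
    fun z hz => hz.mono fun s hs => path (hs 0 (mem_singleton_self 0))
  filter_upwards [h Λ hΛ, ev_const (2 ^ 17)] with s hs hs'
  rw [sum_singleton]
  refine (pr_le' Λ s _).trans
    (le_trans (div_le_div_of_nonneg_right ?_ (by positivity)) (num s hs'))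
  refine (sum_le_card_nsmul _ _ ((s : ℝ) ^ 12 / 2 ^ (25 * s)) fun i hi => ?_).trans ?_
  · have h1 := mem_Icc.1 hi
    have h2 := N0_pos s
    exact hs i h1.1 (by omega)
  · rw [nsmul_eq_mul]
    refine mul_le_mul_of_nonneg_right (le_trans ?_ (card_Icc s)) (by positivity)
    exact Nat.cast_le.2 (card_le_card (Icc_subset_Icc_right (Nat.sub_le _ _)))

end

end Pool.Agent.Lib.RX
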