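import Pool.Agent.Lib.RX.Kit2

/-! Project rx29: block E3, the ballot martingale on the never-low frequencies. -/

namespace Pool.Agent.Lib.RX

open Finset Real MeasureTheory Filter Topology Pool.Agent.Lib.RM67 Pool.Agent.Lib.RM67.T96

noncomputable section

namespace XE3

/-- The tilt weight. -/
def om (Λ : ℝ) (s : ℕ) (l : List Bool) (t : ℝ) : ℝ :=
  exp (-(la s * (ab Λ (NE s) t + 1 - WW (anc (Y (N0 s)) l) t)))

/-- The coefficient of the plain product. -/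
def c1 (A : Set ℝ) (l : List Bool) : ℝ := ∫ t in A, dens t * (R l t * (1 * bb l.length t))

/-- The coefficient of the amplified product. -/
def c2 (Λ : ℝ) (s : ℕ) (A : Set ℝ) (l : List Bool) : ℝ := ∫ t in A, dens t * om Λ s l t *
  (Rl (1 + la s) (Y (N0 s)) l t * ((1 + la s) * bb l.length t))

/-- The coefficient on block `i`. -/
def cb (Λ : ℝ) (s i : ℕ) (l : List Bool) : ℝ := GG Λ (anc (Y i) l) *
  (c1 (kap s i (anc (Y i) l)) l - c2 Λ s (kap s i (anc (Y i) l)) l)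

/-- The coefficient of the martingale. -/
def cc (Λ : ℝ) (s : ℕ) (l : List Bool) : ℝ :=
  if l.length ∈ Ico (Y (N0 s)) (Y (NE s)) then cb Λ s (Nat.log 2 (Nat.log 2 l.length)) l else 0

/-- The martingale. -/
def Mt (Λ : ℝ) (s : ℕ) : List Bool → ℝ
  | [] => 0
  | b :: l => Mt Λ s l + sg b * cc Λ s l

theorem om_cont (Λ : ℝ) (s : ℕ) (l : List Bool) : Continuous (om Λ s l) := by
  have h1 := ab_cont Λ (NE s)
  have h2 := WW_cont (anc (Y (N0 s)) l)
  unfold om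
  fun_prop

theorem intA {s : ℕ} {A : Set ℝ} (hA : A ⊆ gd s) {f : ℝ → ℝ} (hf : Continuous f) :
    IntegrableOn f A :=
  (hf.continuousOn.integrableOn_compact (isCompact_Icc (a := -(2 : ℝ) ^ (32 * s))
    (b := 2 ^ (32 * s)))).mono_set fun _ ht => abs_le.1 (hA ht).1

theorem ind_int {A : Set ℝ} (hA : MeasurableSet A) (g h k : ℝ → ℝ) :
    ∫ t, A.indicator g t * h t * k t = ∫ t in A, g t * (h t * k t) := by
  rw [← integral_indicator hA]
  congr 1
  funext t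
  by_cases ht : t ∈ A
  · simp only [Set.indicator_of_mem ht, mul_assoc]
  · simp only [Set.indicator_of_notMem ht, zero_mul]

theorem Qm_cons (Λ : ℝ) {s : ℕ} {A : Set ℝ} (hA : A ⊆ gd s) (b : Bool) {l : List Bool}
    (hl : Y (N0 s) ≤ l.length) :
    Qm Λ s A (b :: l) = Qm Λ s A l + sg b * (c1 A l - c2 Λ s A l) := by
  have h1 := R_cont l
  have h2 := om_cont Λ s l
  have h3 := Rl_cont (1 + la s) (Y (N0 s)) l
  have h4 := bb_cont l.length
  have h5 := dens_cont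
  have e : Qm Λ s A l =
      ∫ t in A, (R l t - om Λ s l t * Rl (1 + la s) (Y (N0 s)) l t) * dens t := rfl
  rw [e, c1, c2, ← integral_sub (intA hA (by fun_prop)) (intA hA (by fun_prop)),
    ← integral_const_mul, ← integral_add (intA hA (by fun_prop)) (intA hA (by fun_prop)), Qm]
  congr 1
  funext t
  rw [anc_cons b hl, R, Rl, if_pos hl, om]
  ring

theorem cc_eq (Λ : ℝ) {s i : ℕ} (hi : i ∈ Ico (N0 s) (NE s)) {l : List Bool}
    (hl : l.length ∈ Ico (Y i) (Y (i + 1))) : cc Λ s l = cb Λ s i l := by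
  have h1 := Y_mono (mem_Ico.1 hi).1
  have h2 := Y_mono (Nat.succ_le_of_lt (mem_Ico.1 hi).2)
  have h3 := mem_Ico.1 hl
  rw [cc, if_pos (mem_Ico.2 ⟨h1.trans h3.1, h3.2.trans_le h2⟩), lg_Y hl]

theorem Mt_zero (Λ : ℝ) (s : ℕ) : ∀ l : List Bool, l.length ≤ Y (N0 s) → Mt Λ s l = 0
  | [], _ => rfl
  | b :: l, h => by
    rw [List.length_cons] at h
    rw [Mt, Mt_zero Λ s l (by omega), cc, if_neg fun h' => by have := (mem_Ico.1 h').1; omega]
    simp

theorem block (Λ : ℝ) {s i : ℕ} (hi : i ∈ Ico (N0 s) (NE s)) (z : ℕ → Bool)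
    (hG : GG Λ (L z (Y i)) = 1) {n : ℕ} (h1 : Y i ≤ n) (h2 : n ≤ Y (i + 1)) :
    Qm Λ s (kap s i (L z (Y i))) (L z n) - Qm Λ s (kap s i (L z (Y i))) (L z (Y i)) =
      Mt Λ s (L z n) - Mt Λ s (L z (Y i)) := by
  induction n, h1 using Nat.le_induction with
  | base => simp
  | succ n hn ih =>
    have h3 := Y_mono (mem_Ico.1 hi).1
    rw [L, Qm_cons Λ (show kap s i (L z (Y i)) ⊆ gd s from fun _ ht => ht.1) _
      (by rw [L_len]; omega), Mt, cc_eq Λ hi (by rw [L_len]; exact mem_Ico.2 ⟨hn, h2⟩), cb,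
      anc_L z hn, hG]
    linarith [ih (by omega)]

theorem path (Λ : ℝ) {s m : ℕ} (h0 : N0 s ≤ m) (h1 : m ≤ NE s) (z : ℕ → Bool)
    (h : Al (Pb Λ) (L z (Y m))) :
    ∑ i ∈ Ico (N0 s) m, (Qm Λ s (kap s i (L z (Y i))) (L z (Y (i + 1))) -
      Qm Λ s (kap s i (L z (Y i))) (L z (Y i))) = Mt Λ s (L z (Y m)) := by
  rw [sum_congr rfl fun i hi => block Λ (mem_Ico.2 ⟨(mem_Ico.1 hi).1, (mem_Ico.1 hi).2.trans_le h1⟩)
    z (ind_pos (al_L.2 fun k hk => al_L.1 h k (hk.trans (Y_mono (mem_Ico.1 hi).2.le))))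
    (Y_mono (Nat.le_succ i)) le_rfl, sum_Ico_sub (fun i => Mt Λ s (L z (Y i))) h0,
    Mt_zero Λ s (L z (Y (N0 s))) (by rw [L_len]), sub_zero]

theorem sum_blocks (f : ℕ → ℝ) {a b : ℕ} (h : a ≤ b) : ∑ n ∈ Ico (Y a) (Y b), f n =
    ∑ i ∈ Ico a b, ∑ k ∈ range (Y (i + 1) - Y i), f (Y i + k) := by
  induction b, h using Nat.le_induction with
  | base => simp
  | succ b hb ih =>
    rw [sum_Ico_succ_top hb, ← ih, ← sum_Ico_eq_sum_range,
      sum_Ico_consecutive f (Y_mono hb) (Y_mono (Nat.le_succ b))]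

theorem kap_sub {s i : ℕ} (hi : N0 s ≤ i) {l : List Bool} (hl : l.length = Y i) :
    kap s i l ⊆ gd s \ lo0 s i l := fun _ ht =>
  ⟨ht.1, fun h => ht.2 ⟨i, mem_Icc.2 ⟨hi, le_rfl⟩, (lo_self hl).symm ▸ h⟩⟩

theorem ind_bd {A B : Set ℝ} (h : A ⊆ B) {g F f : ℝ → ℝ} (h0 : ∀ t, 0 ≤ f t)
    (k : ∀ t, |g t * F t| ≤ f t) (t : ℝ) : |A.indicator g t * F t| ≤ B.indicator f t := by
  by_cases ht : t ∈ A
  · rw [Set.indicator_of_mem ht, Set.indicator_of_mem (h ht)]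
    exact k t
  · rw [Set.indicator_of_notMem ht, zero_mul, abs_zero]
    exact Set.indicator_nonneg (fun t _ => h0 t) t

theorem q (x y : ℝ) : (1 * (x - y)) ^ 2 ≤ 2 * x ^ 2 + 2 * y ^ 2 := by
  nlinarith [sq_nonneg (x + y)]

theorem fin {C u x y : ℝ} (hC : 0 ≤ C) (h : 2 ^ 17 * C ≤ u) (hx : 1 ≤ x) (hy : y ≤ 2 ^ 17 * x ^ 16) :
    y * (C / x ^ 12 * (u ^ 9 / x ^ 24)) ≤ u ^ 10 / x * (1 / x ^ 8) ^ 2 := by
  have hu : 0 ≤ u := le_trans (by positivity) h
  have h0 : 0 < x := one_pos.trans_le hx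
  calc _ ≤ 2 ^ 17 * x ^ 16 * (C / x ^ 12 * (u ^ 9 / x ^ 24)) := by gcongr
    _ = 2 ^ 17 * C * u ^ 9 / x ^ 20 := by field_simp
    _ ≤ u * u ^ 9 / x ^ 17 := by gcongr; norm_num
    _ = _ := by field_simp

theorem var (h1 : St_KV) (h2 : St_TILT) {Λ : ℝ} (hΛ : 1 ≤ Λ) : ∃ C : ℝ, 0 ≤ C ∧
    ∀ᶠ s : ℕ in atTop, ∀ i ∈ Ico (N0 s) (NE s), ∀ l0 : List Bool, l0.length = Y i →
      ∑ k ∈ range (Y (i + 1) - Y i), av k (fun e => cc Λ s (e ++ l0) ^ 2) ≤
        C / 2 ^ (12 * s) * (GG Λ l0 * Mx s i l0) := by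
  obtain ⟨C, hC, h1⟩ := h1
  refine ⟨4 * C, by positivity, ?_⟩
  filter_upwards [h1, h2 Λ hΛ, eventually_ge_atTop 1] with s k1 k2 hs i hi l0 hl
  obtain ⟨i1, i2⟩ := mem_Ico.1 hi
  have hY : Y (N0 s) ≤ l0.length := (Y_mono i1).trans hl.ge
  have hm := kap_meas s i l0
  have p0 : ∀ t, 0 ≤ R l0 t * dens t := fun t => (mul_pos (R_pos t l0) (dens_pos t)).le
  have e : ∀ k ∈ range (Y (i + 1) - Y i), av k (fun e => cc Λ s (e ++ l0) ^ 2) =
      av k fun e => (GG Λ l0 * ((∫ t, (kap s i l0).indicator dens t * R (e ++ l0) t *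
        (1 * bb (Y i + k) t)) - ∫ t, (kap s i l0).indicator (fun t => dens t * om Λ s l0 t) t *
          Rl (1 + la s) (Y (N0 s)) (e ++ l0) t * ((1 + la s) * bb (Y i + k) t))) ^ 2 := by
    intro k hk
    refine av_congr fun e he => ?_
    have hk' := mem_range.1 hk
    have e1 : (e ++ l0).length = Y i + k := by rw [List.length_append, he, hl, add_comm]
    have e2 : om Λ s (e ++ l0) = om Λ s l0 := by
      funext t
      rw [om, om, anc_append_le hY]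
    rw [cc_eq Λ hi (by rw [e1]; exact mem_Ico.2 (by omega)), cb, anc_append hl, c1, c2, e1, e2,
      ind_int hm, ind_int hm]
  rw [sum_congr rfl e]
  rcases GG_cases Λ l0 with h | ⟨h, hP⟩
  · simp [h, av_const]
  have la0 : 0 ≤ la s := by unfold la; positivity
  have la1 : la s ≤ 1 := by
    rw [la, div_le_one (by positivity)]
    exact le_self_pow₀ one_le_two (by omega)
  have a1 := k1 i (mem_Icc.2 ⟨i1, i2.le⟩) l0 1 ((kap s i l0).indicator dens) R hl (by norm_num)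
    (dens_cont.measurable.indicator hm) (fun l => (R_cont l).measurable)
    (fun b l t _ => by rw [R, mul_one])
    (ind_bd (kap_sub i1 hl) p0 fun t => by rw [mul_comm, abs_of_nonneg (p0 t)])
  have a2 := k1 i (mem_Icc.2 ⟨i1, i2.le⟩) l0 (1 + la s)
    ((kap s i l0).indicator fun t => dens t * om Λ s l0 t) (Rl (1 + la s) (Y (N0 s))) hl
    (abs_le.2 ⟨by linarith, by linarith⟩)
    ((dens_cont.mul (om_cont Λ s l0)).measurable.indicator hm)
    (fun l => (Rl_cont _ _ l).measurable)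
    (fun b l t h => by rw [Rl, if_pos (hY.trans h)])
    (ind_bd (kap_sub i1 hl) p0 fun t => by
      obtain ⟨b1, b2⟩ := k2 l0 t hY (hl.le.trans (Y_mono i2.le)) hP
      have b3 : exp (-(la s ^ 2 * ∑ n ∈ Ico (Y (N0 s)) l0.length, bb n t ^ 2 / 2)) ≤ 1 :=
        exp_le_one_iff.2 (neg_nonpos.2 (mul_nonneg (sq_nonneg _)
          (sum_nonneg fun _ _ => by positivity)))
      have b4 : 0 ≤ om Λ s l0 t * Rl (1 + la s) (Y (N0 s)) l0 t := mul_nonneg (exp_pos _).le b1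
      rw [mul_assoc, abs_of_nonneg (mul_nonneg (dens_pos t).le b4), mul_comm]
      exact mul_le_mul_of_nonneg_right
        (b2.trans (mul_le_of_le_one_right (R_pos t l0).le b3)) (dens_pos t).le)
  rw [h]
  refine (sum_le_sum fun k _ => av_mono fun e _ => q _ _).trans ?_
  simp only [av_add, av_mul, sum_add_distrib, ← mul_sum]
  exact (add_le_add (mul_le_mul_of_nonneg_left a1 zero_le_two)
    (mul_le_mul_of_nonneg_left a2 zero_le_two)).trans (le_of_eq (by ring))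

theorem tot (h1 : St_KV) (h2 : St_TILT) (h3 : St_MX) {Λ : ℝ} (hΛ : 1 ≤ Λ) :
    ∀ᶠ s : ℕ in atTop, ∑ n ∈ Ico 0 (0 + Y (NE s)), av n (fun l => cc Λ s l ^ 2) ≤
      (s : ℝ) ^ 10 / 2 ^ s * (1 / 2 ^ (8 * s)) ^ 2 := by
  obtain ⟨C, hC, h⟩ := var h1 h2 hΛ
  filter_upwards [h, h3 Λ hΛ, ev_const (2 ^ 17 * C)] with s k1 k2 k3
  have hN : N0 s ≤ NE s := by rw [NE_eq]; omega
  have e : ∑ n ∈ Ico 0 (0 + Y (NE s)), av n (fun l => cc Λ s l ^ 2) =
      ∑ n ∈ Ico (Y (N0 s)) (Y (NE s)), av n (fun l => cc Λ s l ^ 2) := by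
    refine (sum_subset (Ico_subset_Ico (Nat.zero_le _) (by omega)) fun n _ hn => ?_).symm
    rw [← av_const n 0]
    exact av_congr fun l hl => by rw [cc, hl, if_neg hn, zero_pow two_ne_zero]
  have b : ∀ i ∈ Ico (N0 s) (NE s), ∑ k ∈ range (Y (i + 1) - Y i),
      av (Y i + k) (fun l => cc Λ s l ^ 2) ≤ C / 2 ^ (12 * s) * ((s : ℝ) ^ 9 / 2 ^ (24 * s)) := by
    intro i hi
    simp only [av_tower]
    rw [← av_sum]
    refine (av_mono fun l hl => k1 i hi l hl).trans ?_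
    rw [av_mul]
    exact mul_le_mul_of_nonneg_left (k2 i (mem_Icc.2 ⟨(mem_Ico.1 hi).1, (mem_Ico.1 hi).2.le⟩))
      (div_nonneg hC (pow_pos two_pos _).le)
  have c : ((Ico (N0 s) (NE s)).card : ℝ) ≤ 2 ^ 17 * 2 ^ (16 * s) :=
    le_trans (by exact_mod_cast card_le_card Ico_subset_Icc_self) (card_Icc s)
  rw [e, sum_blocks (fun n => av n fun l => cc Λ s l ^ 2) hN]
  refine (sum_le_card_nsmul _ _ _ b).trans ?_
  rw [nsmul_eq_mul]
  simp only [mul_comm _ s, pow_mul] at c ⊢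
  exact fin hC k3 (one_le_pow₀ one_le_two) c

end XE3

open XE3 in
theorem st_E3 (h1 : St_KV) (h2 : St_TILT) (h3 : St_MX) : St_E3 := by
  intro Λ hΛ
  refine (ae_of (S := fun _ => {0}) (n := fun s _ => 0 + Y (NE s)) (B := fun s _ l =>
    ¬ Al (fun t => 0 ≤ t.length → Mt Λ s t ^ 2 ≤ (1 / 2 ^ (8 * s)) ^ 2) l) 10 ?_).mono
    fun z hz => hz.mono fun s hs m hm hA => ?_
  · filter_upwards [tot h1 h2 h3 hΛ] with s hs
    rw [sum_singleton]
    refine (doobj 0 (Y (NE s)) (fun l => Mt Λ s l ^ 2) (fun l => cc Λ s l ^ 2) (by positivity)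
      (fun _ => sq_nonneg _) (fun _ => sq_nonneg _) fun l _ _ => ?_).trans ?_
    · simp only [Mt, sg_true, sg_false]
      exact le_of_eq (by ring)
    · rw [div_le_iff₀ (by positivity)]
      simpa [av, Mt] using hs
  · rcases le_or_gt (N0 s) m with h0 | h0
    · rw [path Λ h0 hm z hA]
      have k := hs 0 (mem_singleton_self 0)
      rw [not_not, al_L] at k
      have k1 : Y m ≤ 0 + Y (NE s) := by rw [zero_add]; exact Y_mono hm
      exact (abs_le_of_sq_le_sq' (k (Y m) k1 (Nat.zero_le _)) (by positivity)).2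
    · rw [Ico_eq_empty_of_le h0.le, sum_empty]
      positivity

end

end Pool.Agent.Lib.RX
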