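import Pool.Agent.Lib.RX.Kit2

/-! Project rx29: event 5. -/

namespace Pool.Agent.Lib.RX

open Finset Real MeasureTheory Filter Topology Pool.Agent.Lib.RM67 Pool.Agent.Lib.RM67.T96

namespace E5

theorem mean {s j : ℕ} (h : Par s j) {C G : ℝ}
    (hC : ∀ t, av (Y (mm s j)) (fun l => ‖Ec (sig j) l t‖ ^ 2 * ind (t ∉ cm s j l)) ≤ C)
    (hG : ∫ t in (gd s)ᶜ, dens t ≤ G) :
    av (Y (mm s j)) (fun l => nP s j (sO s j l) l) ≤ 8 * π * (2 * exp 20 * 2 ^ j * G + C) := by
  set F : List Bool → ℝ → ℝ := fun l t =>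
    (gd s)ᶜ.indicator (fun t => ‖Ec (sig j) l t‖ ^ 2 * dens t) t +
      (cm s j l)ᶜ.indicator (fun t => ‖Ec (sig j) l t‖ ^ 2 * dens t) t with hF
  have hi : ∀ l, Integrable (F l) := fun l =>
    ((Ec_int _ l).indicator (gd_meas s).compl).add ((Ec_int _ l).indicator (cm_meas s j l).compl)
  have h1 : ∀ l, nP s j (sO s j l) l ≤ 8 * π * ∫ t, F l t := fun l => by
    refine (Phi_norm2 (TT_pos s) (sig_le j) (sO_meas s j l) l).trans
      (mul_le_mul_of_nonneg_left ?_ (by positivity))
    rw [← integral_indicator (sO_meas s j l)]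
    refine integral_mono ((Ec_int _ l).indicator (sO_meas s j l)) (hi l) fun t => ?_
    have p : 0 ≤ ‖Ec (sig j) l t‖ ^ 2 * dens t := mul_nonneg (sq_nonneg _) (dens_pos t).le
    by_cases a : t ∈ gd s <;> by_cases b : t ∈ cm s j l <;> simp [hF, sO, a, b, p]
  refine (av_mono fun l _ => h1 l).trans ?_
  rw [av_mul, (av_int F hi).2]
  refine mul_le_mul_of_nonneg_left ?_ (by positivity)
  have h2 : ∀ t, av (Y (mm s j)) (fun l => F l t) ≤
      2 * exp 20 * 2 ^ j * (gd s)ᶜ.indicator dens t + C * dens t := fun t => by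
    have e : ∀ l, F l t = (gd s)ᶜ.indicator dens t * ‖Ec (sig j) l t‖ ^ 2 +
        dens t * (‖Ec (sig j) l t‖ ^ 2 * ind (t ∉ cm s j l)) := fun l => by
      by_cases a : t ∈ gd s <;> by_cases b : t ∈ cm s j l <;> simp [hF, a, b, ind, mul_comm]
    simp only [e]
    rw [av_add, av_mul, av_mul, mul_comm _ ((gd s)ᶜ.indicator dens t), mul_comm C]
    exact add_le_add (mul_le_mul_of_nonneg_left ((av_Ec _ t _).trans (exp_xx_all h.Ym'))
      (Set.indicator_nonneg (fun t _ => (dens_pos t).le) t))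
      (mul_le_mul_of_nonneg_left (hC t) (dens_pos t).le)
  have i1 := (dens_int.indicator (gd_meas s).compl).const_mul (2 * exp 20 * 2 ^ j)
  refine (integral_mono (av_int F hi).1 (i1.add (dens_int.const_mul C)) h2).trans ?_
  simp only [Pi.add_apply]
  rw [integral_add i1 (dens_int.const_mul C), integral_const_mul, integral_const_mul, int_dens,
    integral_indicator (gd_meas s).compl, mul_one]
  gcongr

end E5

theorem st_E5 (h1 : St_SA) (h2 : St_CMP) (h3 : St_GOOD) : St_E5 := by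
  obtain ⟨C, hC, h2⟩ := h2
  obtain ⟨G, hG, h3⟩ := h3
  refine (ae_of (S := JJ) (n := fun _ j => Y (j + 1)) (B := fun s j l =>
    ¬ SA s j (sO s j (anc (Y (mm s j)) l)) true l ≤ 2 ^ j / 2 ^ (8 * s)) 21 ?_).mono ?_
  · filter_upwards [h1, h2, par, ev_const (2 ^ 17 * (8 * π * (2 * exp 20 * G + C)))]
      with s a1 a2 a3 a4
    have k : ∀ j ∈ JJ s, pr (Y (j + 1)) (fun l =>
        ¬ SA s j (sO s j (anc (Y (mm s j)) l)) true l ≤ 2 ^ j / 2 ^ (8 * s)) ≤
        (s : ℝ) ^ 20 * (8 * π * (2 * exp 20 * G + C)) / 2 ^ (24 * s) := fun j hj => by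
      have p := a3 j hj
      have m1 := E5.mean p (a2 j hj) (h3 s (by have := p.s_ge; omega))
      have m2 : av (Y (j + 1)) (fun l => SA s j (sO s j (anc (Y (mm s j)) l)) true l) ≤
          (s : ℝ) ^ 20 * (8 * π * (2 * exp 20 * 2 ^ j * (G / 2 ^ (32 * s)) +
            C * 2 ^ j / 2 ^ (32 * s))) := by
        rw [av_split p.Ym']
        refine (av_mono (G := fun l => (s : ℝ) ^ 20 * nP s j (sO s j l) l) fun l hl => ?_).trans ?_
        · simp only [anc_append hl]
          exact a1 j hj l _ true hl (sO_meas s j l)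
        · rw [av_mul]
          refine mul_le_mul_of_nonneg_left (m1.trans ?_) (by positivity)
          have := p.m_le
          gcongr
          exact one_le_two
      refine (markov' (by positivity) (fun l => SA_nonneg _ _ _ _ _) m2).trans_eq ?_
      rw [show 32 * s = 24 * s + 8 * s by ring, pow_add]
      field_simp
    refine (sum_le_card_nsmul _ _ _ k).trans ?_
    rw [nsmul_eq_mul]
    refine (mul_le_mul_of_nonneg_right (card_JJ s) (by positivity)).trans ?_
    have e : (2 : ℝ) ^ s ≤ 2 ^ (8 * s) := pow_le_pow_right₀ one_le_two (by omega)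
    calc _ = (s : ℝ) ^ 20 * (2 ^ 17 * (8 * π * (2 * exp 20 * G + C))) / 2 ^ (8 * s) := by
          rw [show 24 * s = 16 * s + 8 * s by ring, pow_add]
          field_simp
      _ ≤ (s : ℝ) ^ 20 * s / 2 ^ s := by gcongr
      _ = _ := by ring
  · intro z hz
    filter_upwards [hz, par] with s a1 a2 j hj
    have := not_not.1 (a1 j hj)
    rwa [anc_L z (a2 j hj).Ym'] at this

end Pool.Agent.Lib.RX
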