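import Pool.Agent.Lib.RX.Kit2

/-! Project rx29: event 6. -/

namespace Pool.Agent.Lib.RX

open Finset Real MeasureTheory Filter Topology Pool.Agent.Lib.RM67 Pool.Agent.Lib.RM67.T96

namespace E6

theorem win (s j : ℕ) (l : List Bool) :
    ∑ k ∈ KS s j, ms (sBk s j k l) l ≤ ms (sB s j l) l := by
  have d : Set.Pairwise (KS s j : Set ℤ) (Function.onFun Disjoint fun k => sBk s j k l) := by
    intro a _ b _ hab
    refine Set.disjoint_left.2 fun t ha hb => hab ?_
    have p : (0 : ℝ) < 2 ^ (mm s j - KK s) := by positivity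
    have h1 := (div_lt_div_iff_of_pos_right p).1 (ha.2.1.trans_lt hb.2.2)
    have h2 := (div_lt_div_iff_of_pos_right p).1 (hb.2.1.trans_lt ha.2.2)
    have h3 : a < b + 1 := by exact_mod_cast h1
    have h4 : b < a + 1 := by exact_mod_cast h2
    omega
  have e := integral_biUnion_finset (μ := volume) (f := fun t => R l t * dens t) (KS s j)
    (fun k _ => sBk_meas s j k l) d fun k _ => (R_int l).integrableOn
  refine le_trans (le_of_eq e.symm) (ms_mono (fun t ht => ?_) l)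
  obtain ⟨k, _, hk⟩ := Set.mem_iUnion₂.1 ht
  exact hk.1

theorem old (h2 : St_LOW) (Λ : ℝ) (s : ℕ) {i m : ℕ} (h : i ≤ m) :
    av (Y m) (fun l => GG Λ l * ms (gd s ∩ lo s i l) l) ≤
      2 * av (Y i) fun l => GG Λ l * Mx s i l := by
  rw [av_split (Y_mono h), ← av_mul]
  refine av_mono fun l hl => ?_
  simp only [lo, anc_append hl]
  refine (av_GG_ms Λ _ ((gd_meas s).inter (lo0_meas s i l)) l _).trans ?_
  rw [mul_left_comm]
  exact mul_le_mul_of_nonneg_left (h2 s i l).2.1 (GG_nonneg _ _)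

theorem mean (h2 : St_LOW) (Λ : ℝ) {s j : ℕ} (h : Par s j) {M : ℝ} (hM : 0 ≤ M)
    (h3 : ∀ i ∈ Icc (N0 s) (NE s), av (Y i) (fun l => GG Λ l * Mx s i l) ≤ M) :
    av (Y (mm s j)) (fun l => GG Λ l * ∑ k ∈ KS s j, nP s j (sBk s j k l) l) ≤
      16 * π * exp 18 * 2 ^ j * (2 ^ (2 * s) * (2 * M)) := by
  have h1 : ∀ l, GG Λ l * ∑ k ∈ KS s j, nP s j (sBk s j k l) l ≤ 16 * π * exp 18 * 2 ^ j *
      ∑ i ∈ Ioc (mm s j - KK s) (mm s j), GG Λ l * ms (gd s ∩ lo s i l) l := fun l => by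
    rw [← mul_sum, mul_left_comm]
    refine mul_le_mul_of_nonneg_left ?_ (GG_nonneg _ _)
    refine (sum_le_sum fun k _ => h.nP_le (sBk_meas s j k l) fun t ht => ht.1.1.2).trans ?_
    rw [← mul_sum]
    have a := (win s j l).trans ((ms_mono (B := gd s ∩
      {t | ∃ i ∈ Ioc (mm s j - KK s) (mm s j), t ∈ lo s i l}) (fun t ht => ⟨ht.1.1, ht.2⟩) l).trans
      (ms_los s _ l l))
    have b : (2 : ℝ) ^ mm s j ≤ 2 ^ j := pow_le_pow_right₀ one_le_two h.m_le
    exact mul_le_mul (by gcongr) a (sum_nonneg fun _ _ => ms_nonneg _ _) (by positivity)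
  refine (av_mono fun l _ => h1 l).trans ?_
  rw [av_mul, av_sum]
  refine mul_le_mul_of_nonneg_left ?_ (by positivity)
  refine (sum_le_card_nsmul _ _ (2 * M) fun i hi => (old h2 Λ s (mem_Ioc.1 hi).2).trans
    (mul_le_mul_of_nonneg_left (h3 i (h.i_mem hi)) zero_le_two)).trans ?_
  rw [nsmul_eq_mul, ← cast_KK]
  refine mul_le_mul_of_nonneg_right ?_ (by positivity)
  rw [Nat.card_Ioc]
  exact Nat.cast_le.2 (by omega)

/-- The random variable of the event. -/
noncomputable def X (Λ : ℝ) (s j : ℕ) (l : List Bool) : ℝ := GG Λ (anc (Y (mm s j)) l) *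
  ∑ k ∈ KS s j, (SA s j (sBk s j k (anc (Y (mm s j)) l)) true l +
    SA s j (sBk s j k (anc (Y (mm s j)) l)) false l)

theorem X_nonneg (Λ : ℝ) (s j : ℕ) (l : List Bool) : 0 ≤ X Λ s j l :=
  mul_nonneg (GG_nonneg _ _)
    (sum_nonneg fun _ _ => add_nonneg (SA_nonneg _ _ _ _ _) (SA_nonneg _ _ _ _ _))

end E6

theorem st_E6 (h1 : St_SA) (h2 : St_LOW) (h3 : St_MX) : St_E6 := by
  intro Λ hΛ
  refine (ae_of (S := JJ) (n := fun _ j => Y (j + 1)) (B := fun s j l =>
    ¬ E6.X Λ s j l ≤ 2 ^ j / 2 ^ (5 * s)) 30 ?_).mono ?_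
  · filter_upwards [h1, h3 Λ hΛ, par, ev_const (2 ^ 17 * (64 * π * exp 18))] with s a1 a2 a3 a4
    have k : ∀ j ∈ JJ s, pr (Y (j + 1)) (fun l => ¬ E6.X Λ s j l ≤ 2 ^ j / 2 ^ (5 * s)) ≤
        (s : ℝ) ^ 29 * (64 * π * exp 18) / 2 ^ (17 * s) := fun j hj => by
      have p := a3 j hj
      have m1 := E6.mean h2 Λ p (by positivity) a2
      have m2 : av (Y (j + 1)) (E6.X Λ s j) ≤ 2 * (s : ℝ) ^ 20 *
          (16 * π * exp 18 * 2 ^ j * (2 ^ (2 * s) * (2 * ((s : ℝ) ^ 9 / 2 ^ (24 * s))))) := by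
        rw [av_split p.Ym']
        refine (av_mono (G := fun l => 2 * (s : ℝ) ^ 20 *
          (GG Λ l * ∑ k ∈ KS s j, nP s j (sBk s j k l) l)) fun l hl => ?_).trans ?_
        · simp only [E6.X, anc_append hl]
          rw [av_mul, av_sum, mul_left_comm, mul_sum (KS s j) _ (2 * (s : ℝ) ^ 20)]
          refine mul_le_mul_of_nonneg_left (sum_le_sum fun k _ => ?_) (GG_nonneg _ _)
          rw [av_add]
          have b1 := a1 j hj l _ true hl (sBk_meas s j k l)
          have b2 := a1 j hj l _ false hl (sBk_meas s j k l)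
          linarith
        · rw [av_mul]
          exact mul_le_mul_of_nonneg_left m1 (by positivity)
      refine (markov' (by positivity) (E6.X_nonneg Λ s j) m2).trans_eq ?_
      have e : (2 : ℝ) ^ (24 * s) = 2 ^ (17 * s) * 2 ^ (2 * s) * 2 ^ (5 * s) := by
        rw [← pow_add, ← pow_add]; congr 1; ring
      rw [e]
      field_simp
      ring
    refine (sum_le_card_nsmul _ _ _ k).trans ?_
    rw [nsmul_eq_mul]
    refine (mul_le_mul_of_nonneg_right (card_JJ s) (by positivity)).trans ?_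
    calc _ = (s : ℝ) ^ 29 * (2 ^ 17 * (64 * π * exp 18)) / 2 ^ s := by
          rw [show 17 * s = 16 * s + s by ring, pow_add]
          field_simp
      _ ≤ (s : ℝ) ^ 29 * s / 2 ^ s := by gcongr
      _ = _ := by ring
  · intro z hz
    filter_upwards [hz, par] with s a1 a2 j hj
    have := not_not.1 (a1 j hj)
    rwa [E6.X, anc_L z (a2 j hj).Ym'] at this

end Pool.Agent.Lib.RX
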