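import Pool.Agent.Lib.RX.Kit2

/-! Project rx29: event 7, the exponential inequality on the grid for the narrow windows. -/

namespace Pool.Agent.Lib.RX

open Finset Real MeasureTheory Filter Topology Pool.Agent.Lib.RM67 Pool.Agent.Lib.RM67.T96

noncomputable section

namespace E7

theorem ex_early (c : List Bool → ℝ) (n : ℕ) : ∀ {l : List Bool}, l.length ≤ n → Ex c n l = 0
  | [], _ => rfl
  | b :: l, h => by
    have h1 : l.length < n := h
    rw [Ex, if_neg (not_le.2 h1), ex_early c n h1.le, add_zero]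

theorem ex_cond (c : List Bool → ℝ) {n : ℕ} {l0 : List Bool} (h : l0.length ≤ n) (k : ℕ) :
    av k (fun e => exp (Ex c n (e ++ l0))) ≤ 1 := by
  refine (av_sup0 k _ fun e _ => ?_).trans_eq (by simp [ex_early c n h])
  simp only [List.cons_append, Ex]
  generalize e ++ l0 = l
  split_ifs
  · have h := cosh_le_exp_half_sq (c l)
    rw [cosh_eq] at h
    simp only [exp_add, exp_sub, sg_true, sg_false, one_mul, neg_mul]
    have h2 := mul_le_mul_of_nonneg_left ((div_le_one (exp_pos _)).2 h) (exp_pos (Ex c n l)).le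
    exact le_trans (le_of_eq (by ring)) (h2.trans_eq (mul_one _))
  · simp

theorem ex_tail (c : List Bool → ℝ) {n : ℕ} {l0 : List Bool} (h : l0.length ≤ n) (k y : ℕ) :
    pr k (fun e => (y : ℝ) < Ex c n (e ++ l0)) ≤ 1 / 2 ^ y := by
  refine (pr_mono fun e _ he => exp_lt_exp.2 he).trans
    ((markov (F := fun e => exp (Ex c n (e ++ l0))) (exp_pos _) fun e => (exp_pos _).le).trans ?_)
  refine div_le_div₀ zero_le_one (ex_cond c h k) (by positivity) ?_
  rw [← exp_one_pow]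
  exact pow_le_pow_left₀ zero_le_two (by linarith [add_one_le_exp 1]) _

theorem ex_path (c : List Bool → ℝ) (z : ℕ → Bool) {n N : ℕ} (h : n ≤ N) :
    Ex c n (L z N) = ∑ m ∈ Ico n N, (sg (z m) * c (L z m) - c (L z m) ^ 2 / 2) := by
  induction N, h using Nat.le_induction with
  | base => simp [ex_early c n (L_len z n).le]
  | succ N h ih => rw [sum_Ico_succ_top h, L, Ex, ih, L_len, if_pos h]

/-- The coefficient of the exponential supermartingale. -/
def co (s j : ℕ) (A : Set ℝ) (b : Bool) (θ v : ℝ) (l : List Bool) : ℝ :=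
  θ * (xx (sig j) l.length * cp b (g0 (TT s) (sig j) A l (v - log l.length)))

theorem co_path (s j : ℕ) {A : Set ℝ} (hA : MeasurableSet A) (b : Bool) (θ v : ℝ)
    (z : ℕ → Bool) : Ex (co s j A b θ v) (Y j) (L z (Y (j + 1))) =
      θ * cp b (IN s j A z v) - θ ^ 2 / 2 * UV s j A b z v := by
  have h := Y_mono (Nat.le_succ j)
  rw [ex_path _ z h, IN, cp_sub, (g0_rec (TT_pos s) (sig_lt j) hA b).tele z v h, UV, mul_sum,
    mul_sum, ← sum_sub_distrib]
  refine sum_congr rfl fun m _ => ?_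
  simp only [co, L_len]
  ring

/-- The bad event, given the node at the splitting time. -/
def Bad (s j : ℕ) (l0 l : List Bool) : Prop := ((act s j l0).card : ℝ) ≤ 60 * 2 ^ (7 * s) ∧
  ∃ p ∈ act s j l0 ×ˢ range (2 ^ (5 * KK s)) ×ˢ (univ : Finset (Bool × Bool)),
    ((6 * KK s : ℕ) : ℝ) < Ex (co s j (sBk s j p.1 l0) p.2.2.1 (sg p.2.2.2 * 2 ^ (7 * s))
      (p.2.1 * 2 ^ (j - 4 * KK s))) (Y j) l

theorem bad_cond (s j : ℕ) {l0 : List Bool} (h : l0.length ≤ Y j) (k : ℕ) :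
    pr k (fun e => Bad s j l0 (e ++ l0)) ≤ 240 * 2 ^ (7 * s) / 2 ^ KK s := by
  by_cases hc : ((act s j l0).card : ℝ) ≤ 60 * 2 ^ (7 * s)
  · refine (pr_mono fun e _ he => he.2).trans ((pr_union k _ _).trans
      ((sum_le_card_nsmul _ _ _ fun p _ => ex_tail _ h k _).trans ?_))
    rw [card_product, card_product, card_range, card_univ, Fintype.card_prod, Fintype.card_bool,
      nsmul_eq_mul, show 6 * KK s = 5 * KK s + KK s by ring, pow_add]
    push_cast
    calc _ ≤ 60 * 2 ^ (7 * s) * (2 ^ (5 * KK s) * 4) * (1 / (2 ^ (5 * KK s) * 2 ^ KK s) : ℝ) := by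
          gcongr
      _ = _ := by field_simp; norm_num
  · refine (pr_le (F := fun _ => 0) fun e _ => ⟨le_rfl, fun he => absurd he.1 hc⟩).trans ?_
    rw [av_const]
    positivity

theorem bad_pr {s j : ℕ} (h : Par s j) :
    pr (Y (j + 1)) (fun l => Bad s j (anc (Y (mm s j)) l) l) ≤ 240 * 2 ^ (7 * s) / 2 ^ KK s := by
  rw [pr, av_split h.Ym']
  refine av_le fun l0 hl => ?_
  simp only [anc_append hl]
  exact bad_cond s j (hl.le.trans h.Ym) _

theorem num {s K : ℕ} {c : ℝ} (h : c ≤ 2 ^ 17 * 2 ^ (16 * s)) (hK : 24 * s + 25 ≤ K) :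
    c * (240 * 2 ^ (7 * s) / 2 ^ K) ≤ 1 / 2 ^ s := by
  have h1 : (2 : ℝ) ^ (24 * s + 25) ≤ 2 ^ K := pow_le_pow_right₀ one_le_two hK
  have h2 : (2 : ℝ) ^ (24 * s + 25) = 2 ^ 25 * (2 ^ (16 * s) * 2 ^ (7 * s) * 2 ^ s) := by ring
  have h3 : (0 : ℝ) < 2 ^ (7 * s) * 2 ^ s := by positivity
  have h4 := mul_le_mul_of_nonneg_right h h3.le
  have h5 : (0 : ℝ) < 2 ^ (16 * s) * 2 ^ (7 * s) * 2 ^ s := by positivity
  rw [← mul_div_assoc, div_le_div_iff₀ (by positivity) (by positivity)]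
  linarith

end E7

open E7 in
theorem st_E7 : St_E7 := by
  refine AE.mono (ae_of (S := JJ) (n := fun _ j => Y (j + 1))
    (B := fun s j l => Bad s j (anc (Y (mm s j)) l) l) 0 ?_) fun z hz => ?_
  · filter_upwards [par, ev_par0] with s hp ⟨_, hK, _⟩
    refine (sum_le_card_nsmul _ _ _ fun j hj => bad_pr (hp j hj)).trans ?_
    rw [nsmul_eq_mul, pow_zero]
    exact num (card_JJ s) (by unfold J0 at hK; omega)
  · filter_upwards [hz, par] with s hs hp j hj hc k hk g hg b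
    have h := hs j hj
    rw [anc_L z (hp j hj).Ym'] at h
    have h1 : ∀ b', Ex (co s j (sBk s j k (zm s j z)) b (sg b' * 2 ^ (7 * s))
        (g * 2 ^ (j - 4 * KK s))) (Y j) (L z (Y (j + 1))) ≤ ((6 * KK s : ℕ) : ℝ) := fun b' =>
      not_lt.1 fun hlt => h ⟨hc, (k, g, b, b'),
        mem_product.2 ⟨hk, mem_product.2 ⟨hg, mem_univ _⟩⟩, hlt⟩
    have h2 := h1 true
    have h3 := h1 false
    rw [co_path _ _ (sBk_meas _ _ _ _)] at h2 h3
    simp only [sg_true, sg_false, one_mul, neg_mul, neg_sq] at h2 h3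
    push_cast at h2 h3
    rcases abs_cases (cp b (IN s j (sBk s j k (zm s j z)) z (g * 2 ^ (j - 4 * KK s)))) with
      ⟨e, _⟩ | ⟨e, _⟩ <;> rw [e] <;> linarith

end

end Pool.Agent.Lib.RX
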