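import Pool.Agent.Lib.RX.Kit2

/-! Project rx29: event 8. -/

namespace Pool.Agent.Lib.RX

open Finset Real MeasureTheory Filter Topology Pool.Agent.Lib.RM67 Pool.Agent.Lib.RM67.T96

noncomputable section

namespace E8

/-- One centred window integral, read on a longer list. -/
def Dv (s j k i : ℕ) (l : List Bool) : ℝ :=
  QQ s j k i (sG s j (anc (Y (mm s j)) l)) (anc (PP s j i) l) -
    MM s j k i (sG s j (anc (Y (mm s j)) l)) (anc (Y (mm s j)) l)

theorem one {Λ : ℝ} {s j : ℕ} (h : Par s j) {c m : ℝ} (hc : 0 ≤ c) (k i : ℕ) (hi : i ≤ 2 ^ s)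
    (h1 : ∀ l0 : List Bool, l0.length = Y (mm s j) → av (PP s j i - Y (mm s j)) (fun e =>
      (QQ s j k i (sG s j l0) (e ++ l0) - MM s j k i (sG s j l0) l0) ^ 2) ≤ c * Mx s (mm s j) l0)
    (h2 : av (Y (mm s j)) (fun l => GG Λ l * Mx s (mm s j) l) ≤ m) :
    av (Y (j + 1)) (fun l => GG Λ (anc (Y (mm s j)) l) * Dv s j k i l ^ 2) ≤ c * m := by
  have e1 := av_anc (h.PP_le hi) fun l => GG Λ (anc (Y (mm s j)) l) *
    (QQ s j k i (sG s j (anc (Y (mm s j)) l)) l -
      MM s j k i (sG s j (anc (Y (mm s j)) l)) (anc (Y (mm s j)) l)) ^ 2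
  simp only [anc_anc (h.PP_ge i)] at e1
  unfold Dv
  rw [e1, av_split (h.PP_ge i)]
  refine le_trans (av_mono (G := fun l => c * (GG Λ l * Mx s (mm s j) l)) fun l hl => ?_) ?_
  · simp only [anc_append hl]
    rw [av_mul, mul_left_comm]
    exact mul_le_mul_of_nonneg_left (h1 l hl) (GG_nonneg _ _)
  · rw [av_mul]
    exact mul_le_mul_of_nonneg_left h2 hc

theorem tail {Λ : ℝ} {s j k : ℕ} {b y : ℝ} (hy : 0 < y)
    (h1 : ∀ i ∈ range (2 ^ s),
      av (Y (j + 1)) (fun l => GG Λ (anc (Y (mm s j)) l) * Dv s j k i l ^ 2) ≤ b) :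
    pr (Y (j + 1)) (fun l => ¬ GG Λ (anc (Y (mm s j)) l) * ∑ i ∈ range (2 ^ s), Dv s j k i l ≤ y) ≤
      2 ^ s * (2 ^ s * b) / y ^ 2 := by
  refine le_trans (pr_mono fun l _ hl => ?_) (markov' (F := fun l => 2 ^ s *
    ∑ i ∈ range (2 ^ s), GG Λ (anc (Y (mm s j)) l) * Dv s j k i l ^ 2) (c := y ^ 2)
    (by positivity) (fun l => mul_nonneg (by positivity) (sum_nonneg fun i _ =>
      mul_nonneg (GG_nonneg _ _) (sq_nonneg _))) ?_)
  · intro h2
    apply hl
    rcases GG_cases Λ (anc (Y (mm s j)) l) with h0 | ⟨h0, -⟩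
    · rw [h0, zero_mul]; exact hy.le
    · simp only [h0, one_mul] at h2 ⊢
      have h3 := sq_sum_le_card_mul_sum_sq (s := range (2 ^ s)) (f := fun i => Dv s j k i l)
      rw [card_range] at h3
      push_cast at h3
      exact abs_le_of_sq_le_sq' (h3.trans h2) hy.le |>.2
  · rw [av_mul, av_sum]
    refine mul_le_mul_of_nonneg_left ?_ (by positivity)
    refine (sum_le_card_nsmul _ _ b h1).trans_eq ?_
    rw [card_range, nsmul_eq_mul]
    push_cast
    rfl

end E8

open E8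

theorem st_E8 (h1 : St_FRO) (h2 : St_MX) : St_E8 := by
  intro Λ hΛ
  refine (ae_of (S := JJ) (n := fun _ j => Y (j + 1)) (B := fun s j l =>
    ∃ k ∈ range (2 ^ (s + J0 s + 3)), ¬ GG Λ (anc (Y (mm s j)) l) *
      ∑ i ∈ range (2 ^ s), Dv s j k i l ≤ 2 ^ j / 2 ^ (8 * s) * exp (k * rho s j * sig j))
    71 ?_).mono ?_
  · filter_upwards [par, h1, h2 Λ hΛ, ev_const 6144] with s hp hF hM hs
    have p : (0 : ℝ) < 2 ^ s := by positivity
    have key : ∀ j ∈ JJ s, pr (Y (j + 1)) (fun l => ∃ k ∈ range (2 ^ (s + J0 s + 3)),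
        ¬ GG Λ (anc (Y (mm s j)) l) * ∑ i ∈ range (2 ^ s), Dv s j k i l ≤
          2 ^ j / 2 ^ (8 * s) * exp (k * rho s j * sig j)) ≤ 7 * (s : ℝ) ^ 69 / (2 ^ s) ^ 17 := by
      intro j hj
      have h := hp j hj
      have q : (0 : ℝ) < 2 ^ j := by positivity
      refine (pr_union _ _ _).trans ?_
      refine le_trans (sum_le_sum (g := fun k : ℕ => (s : ℝ) ^ 69 / (2 ^ s) ^ 18 *
        exp (-(2 * (k * rho s j * sig j)))) fun k _ => ?_) ?_
      · refine (tail (b := (s : ℝ) ^ 60 * (2 ^ j) ^ 2 / 2 ^ (12 * s) * ((s : ℝ) ^ 9 / 2 ^ (24 * s)))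
          (by positivity) fun i hi => one h (by positivity) k i (mem_range.1 hi).le
            (fun l0 hl => (hF j hj l0 k i hl (mem_range.1 hi).le).trans_eq (by ring))
            (hM _ h.m_mem)).trans_eq ?_
        rw [exp_neg, two_mul (k * rho s j * sig j), exp_add, mul_comm 12 s, mul_comm 24 s,
          mul_comm 8 s, pow_mul, pow_mul, pow_mul]
        have := exp_pos (k * rho s j * sig j)
        field_simp
      · rw [← mul_sum]
        refine (mul_le_mul_of_nonneg_left (h.geom _) (by positivity)).trans_eq ?_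
        field_simp
    refine (sum_le_card_nsmul _ _ _ key).trans ?_
    rw [nsmul_eq_mul]
    refine (mul_le_mul_of_nonneg_right (card_JJ s) (by positivity)).trans ?_
    rw [mul_comm 16 s, pow_mul]
    have e : (2 : ℝ) ^ 17 * (2 ^ s) ^ 16 * (7 * (s : ℝ) ^ 69 / (2 ^ s) ^ 17) =
        2 ^ 17 * 7 * (s : ℝ) ^ 69 / 2 ^ s := by field_simp
    rw [e]
    refine div_le_div_of_nonneg_right ?_ p.le
    rw [show (s : ℝ) ^ 71 = s ^ 2 * s ^ 69 by ring]
    exact mul_le_mul_of_nonneg_right (by nlinarith) (by positivity)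
  · intro z hz
    filter_upwards [hz, par] with s hs hp j hj k hk
    have h := hp j hj
    have h3 := not_not.1 fun hn => hs j hj ⟨k, hk, hn⟩
    rw [anc_L z h.Ym'] at h3
    have e : ∑ i ∈ range (2 ^ s), Dv s j k i (L z (Y (j + 1))) = ∑ i ∈ range (2 ^ s),
        (QQ s j k i (sG s j (zm s j z)) (L z (PP s j i)) -
          MM s j k i (sG s j (zm s j z)) (zm s j z)) := sum_congr rfl fun i hi => by
      rw [Dv, anc_L z h.Ym', anc_L z (h.PP_le (mem_range.1 hi).le), zm]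
    rw [e] at h3
    exact h3

end

end Pool.Agent.Lib.RX
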