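import Pool.Agent.Lib.RX.Kit2

/-! Project rx29: event 9. -/

namespace Pool.Agent.Lib.RX

open Finset Real MeasureTheory Filter Topology Pool.Agent.Lib.RM67 Pool.Agent.Lib.RM67.T96

noncomputable section

namespace XE9

theorem num (c : ℝ) {N x : ℝ} (hN : 0 ≤ N) (hx : 0 ≤ x) :
    (c * N) ^ 18 / (exp x * (N + 1)) ^ 18 ≤ c ^ 18 * exp (-(2 * x)) := by
  have h1 : exp (2 * x) ≤ exp x ^ 18 := by
    rw [← exp_nat_mul]
    exact exp_le_exp.2 (by push_cast; linarith)
  have h2 : N ^ 18 ≤ (N + 1) ^ 18 := pow_le_pow_left₀ hN (by linarith) _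
  rw [exp_neg, ← div_eq_mul_inv, mul_pow, mul_pow, div_le_div_iff₀ (by positivity) (exp_pos _),
    mul_assoc, mul_comm (N ^ 18)]
  gcongr

theorem cond {n m : ℕ} (h : m ≤ n) {E : List Bool → List Bool → ℝ} {N : List Bool → ℝ} {c x : ℝ}
    (hN : ∀ l, 0 ≤ N l) (hx : 0 ≤ x)
    (hE : ∀ l0, l0.length = m → av (n - m) (fun e => E l0 (e ++ l0) ^ 18) ≤ (c * N l0) ^ 18) :
    pr n (fun l => ¬ E (anc m l) l ≤ exp x * (N (anc m l) + 1)) ≤ c ^ 18 * exp (-(2 * x)) := by
  have p : ∀ l, 0 < exp x * (N l + 1) := fun l => by have := hN l; positivity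
  refine (pr_le (F := fun l => E (anc m l) l ^ 18 / (exp x * (N (anc m l) + 1)) ^ 18)
    fun l _ => ⟨by positivity, fun hb => ?_⟩).trans ?_
  · exact (one_le_div (pow_pos (p _) _)).2 (pow_le_pow_left₀ (p _).le (not_le.1 hb).le _)
  · rw [av_split h, ← av_const m (c ^ 18 * exp (-(2 * x)))]
    refine av_mono fun l0 hl => ?_
    simp only [anc_append hl, av_div]
    exact (div_le_div_of_nonneg_right (hE l0 hl) (pow_pos (p _) _).le).trans (num c (hN _) hx)

end XE9

open XE9 in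
theorem st_E9 (h : St_ERR) : St_E9 := by
  refine (ae_of (S := JJ) (n := fun _ j => Y (j + 1)) (B := fun s j l =>
    ∃ k ∈ range (2 ^ (s + J0 s + 3)), ¬ Er s j k (sG s j (anc (Y (mm s j)) l)) l ≤
      exp (k * rho s j * sig j) *
        (nP s j (sG s j (anc (Y (mm s j)) l)) (anc (Y (mm s j)) l) + 1)) 5401 ?_).mono ?_
  · filter_upwards [h, par, ev_const (7 * 2 ^ 17)] with s h1 h2 h3
    have b : ∀ j ∈ JJ s, pr (Y (j + 1)) (fun l => ∃ k ∈ range (2 ^ (s + J0 s + 3)),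
        ¬ Er s j k (sG s j (anc (Y (mm s j)) l)) l ≤ exp (k * rho s j * sig j) *
          (nP s j (sG s j (anc (Y (mm s j)) l)) (anc (Y (mm s j)) l) + 1)) ≤
        ((s : ℝ) ^ 300 / 2 ^ s) ^ 18 * (7 * 2 ^ s) := fun j hj => by
      refine (pr_union _ _ _).trans ((sum_le_sum fun k _ => cond (h2 j hj).Ym'
        (E := fun l0 l => Er s j k (sG s j l0) l) (N := fun l0 => nP s j (sG s j l0) l0)
        (c := (s : ℝ) ^ 300 / 2 ^ s) (fun _ => nP_nonneg _ _ _ _)
        (by have := rho_pos s j; have := sig_pos j; positivity)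
        fun l0 hl => h1 j hj l0 _ k hl (sG_meas _ _ _)).trans ?_)
      rw [← mul_sum]
      exact mul_le_mul_of_nonneg_left ((h2 j hj).geom _) (by positivity)
    refine (sum_le_card_nsmul _ _ _ b).trans ?_
    rw [nsmul_eq_mul]
    calc _ ≤ 2 ^ 17 * 2 ^ (16 * s) * (((s : ℝ) ^ 300 / 2 ^ s) ^ 18 * (7 * 2 ^ s)) :=
          mul_le_mul_of_nonneg_right (card_JJ s) (by positivity)
      _ = 7 * 2 ^ 17 * ((s : ℝ) ^ 5400 / 2 ^ s) := by
          rw [div_pow, ← pow_mul, mul_comm 16 s, pow_mul 2 s 16]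
          field_simp
      _ ≤ s * ((s : ℝ) ^ 5400 / 2 ^ s) := mul_le_mul_of_nonneg_right h3 (by positivity)
      _ = _ := by rw [pow_succ' _ 5400, mul_div_assoc]
  · intro z hz
    filter_upwards [hz, par] with s h1 h2 j hj k hk
    have := h1 j hj
    simp only [anc_L z (h2 j hj).Ym', not_exists, not_and, not_not] at this
    exact this k hk

end

end Pool.Agent.Lib.RX
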