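import Pool.Agent.Lib.RX.Kit0

/-! Project rx29: two comparisons of energies. -/

namespace Pool.Agent.Lib.RX

open Real MeasureTheory

namespace XEN

theorem en_int (ρ : ℝ) {f : ℝ → ℝ} (hf : Integrable f) :
    Integrable (fun p : ℝ × ℝ => f p.1 * f p.2 * (1 + ρ ^ 2 * (p.1 - p.2) ^ 2)⁻¹)
      (volume.prod volume) := by
  refine (hf.mul_prod hf).mul_bdd (c := 1) (Continuous.aestronglyMeasurable ?_)
    (Filter.Eventually.of_forall fun p => ?_)
  · exact Continuous.inv₀ (by fun_prop) fun p => by positivity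
  · rw [norm_eq_abs, abs_of_pos (by positivity)]
    exact inv_le_one_of_one_le₀ (le_add_of_nonneg_right (by positivity))

theorem en_eq (ρ : ℝ) {f : ℝ → ℝ} (hf : Integrable f) :
    En ρ f = ∫ p : ℝ × ℝ, f p.1 * f p.2 * (1 + ρ ^ 2 * (p.1 - p.2) ^ 2)⁻¹ ∂(volume.prod volume) := by
  rw [integral_prod _ (en_int ρ hf)]
  simp only [En, ← integral_const_mul, div_eq_mul_inv, mul_assoc]

theorem en_shift (ρ s : ℝ) (f : ℝ → ℝ) : En ρ (fun t => f (t + s)) = En ρ f := by
  unfold En
  rw [← integral_add_right_eq_self (fun t => f t * ∫ t', f t' / (1 + ρ ^ 2 * (t - t') ^ 2)) s]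
  refine integral_congr_ae (Filter.Eventually.of_forall fun t => ?_)
  simp only
  rw [← integral_add_right_eq_self (fun t' => f t' / (1 + ρ ^ 2 * (t + s - t') ^ 2)) s]
  simp only [add_sub_add_right_eq_sub]

end XEN

open XEN in
theorem st_EN : St_EN := by
  refine ⟨fun ρ ρ' f g h0 h1 hf hg hp hle => ?_, fun ρ Φ D s hm hi hD => ?_⟩
  · rw [en_eq ρ hf, en_eq ρ' hg]
    refine integral_mono (en_int ρ hf) (en_int ρ' hg) fun p => ?_
    have a1 := hp p.1
    have a2 := hp p.2
    have a3 := hle p.1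
    have a4 := hle p.2
    have a5 := a1.trans a3
    have a6 := a2.trans a4
    simp only
    gcongr
  · have hf : Integrable fun t => ‖Φ t‖ ^ 2 := by
      simp only [sq]
      exact hi.norm.mul_bdd (c := D) hi.norm.aestronglyMeasurable
        (Filter.Eventually.of_forall fun t => by simpa using hD t)
    have hs : Integrable fun t => ‖Φ (t + s)‖ ^ 2 := hf.comp_add_right s
    have ha : Integrable fun t => ‖Φ (t + s) * (starRingEnd ℂ) (Φ t)‖ := by
      simp only [norm_mul, RCLike.norm_conj]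
      exact (hi.norm.comp_add_right s).mul_bdd (c := D) hi.norm.aestronglyMeasurable
        (Filter.Eventually.of_forall fun t => by simpa using hD t)
    have e : En ρ (fun t => ‖Φ t‖ ^ 2) =
        (En ρ (fun t => ‖Φ (t + s)‖ ^ 2) + En ρ fun t => ‖Φ t‖ ^ 2) / 2 := by
      rw [en_shift ρ s fun t => ‖Φ t‖ ^ 2]
      ring
    rw [e, en_eq ρ ha, en_eq ρ hs, en_eq ρ hf, ← integral_add (en_int ρ hs) (en_int ρ hf),
      ← integral_div]
    refine integral_mono (en_int ρ ha) (((en_int ρ hs).add (en_int ρ hf)).div_const 2) fun p => ?_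
    simp only [norm_mul, RCLike.norm_conj]
    rw [← add_mul, mul_div_right_comm]
    refine mul_le_mul_of_nonneg_right ?_ (by positivity)
    nlinarith [sq_nonneg (‖Φ (p.1 + s)‖ * ‖Φ (p.2 + s)‖ - ‖Φ p.1‖ * ‖Φ p.2‖)]

end Pool.Agent.Lib.RX
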