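import Pool.Agent.Lib.RX.Kit2

/-! Project rx29: the conditional moment of the freezing error. -/

namespace Pool.Agent.Lib.RX

open Finset Real MeasureTheory Filter Topology Pool.Agent.Lib.RM67 Pool.Agent.Lib.RM67.T96

noncomputable section

namespace ERR

/-- One piece. -/
theorem one (h1 : St_HYP) (h2 : St_MINK) {x : ℕ → ℝ} {F : List Bool → ℝ → ℝ} (hF : Rec x F)
    (hB : ∀ l, BC (F l)) (l0 : List Bool) {a b c : ℕ} (ha : l0.length ≤ a) (hab : a ≤ b)
    (hb : b ≤ c) {ρ u0 u1 η : ℝ} (hρ : 0 < ρ) (hu : ∀ n ∈ Ico a b, |u0 - log n - u1| ≤ ρ)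
    (hη : ∑ n ∈ Ico a b, x n ^ 2 ≤ η) :
    av (c - l0.length) (fun e => Wn ρ u0 (mx F a (anc b (e ++ l0))) ^ 18) ≤
      (864 * η * Wn ρ u1 (hy x 72 (fun u => F l0 u ^ 2) l0.length (c - l0.length))) ^ 18 := by
  obtain ⟨k0, rfl⟩ := Nat.exists_eq_add_of_le ha
  obtain ⟨k1, rfl⟩ := Nat.exists_eq_add_of_le (ha.trans hab)
  obtain ⟨K, rfl⟩ := Nat.exists_eq_add_of_le ((ha.trans hab).trans hb)
  rw [Nat.add_sub_cancel_left]
  have k01 : k0 ≤ k1 := by omega
  have k1K : k1 ≤ K := by omega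
  set H := hy x 72 (fun u => F l0 u ^ 2) l0.length K with hH
  have HB : BC H := hy_BC x 72 ((hB l0).pow 2) _ K
  have H0 : ∀ u, 0 ≤ H u := hy_nonneg x (by norm_num) (fun u => sq_nonneg _) _ K
  have W0 : 0 ≤ Wn ρ u1 H := Wn_nonneg _ _ H0
  have SB : ∀ k ∈ Ico k0 k1,
      BC fun u => x (l0.length + k) ^ 2 * H (u - log (l0.length + k : ℕ)) :=
    fun k _ => (HB.shift _).cmul _
  simp only [anc_app]
  rw [av_anc k1K fun e => Wn ρ u0 (mx F (l0.length + k0) (e ++ l0)) ^ 18]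
  refine (h2 k1 18 (fun e => mx F (l0.length + k0) (e ++ l0))
    (fun u => 288 * ∑ k ∈ Ico k0 k1, x (l0.length + k) ^ 2 * H (u - log (l0.length + k : ℕ)))
    ρ u0 (by norm_num) hρ (fun e => mx_BC hB _ _) (fun e u => mx_nonneg _ _ _ _)
    ((BC.sum _ SB).cmul _)
    (fun u => mul_nonneg (by norm_num) (sum_nonneg fun k _ => mul_nonneg (sq_nonneg _) (H0 _)))
    fun u => ?_).trans ?_
  · have := h1 x F hF 18 (by norm_num) l0 k0 k1 K k01 k1K u
    rwa [show (16 : ℝ) * (18 : ℕ) = 288 by norm_num,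
      show (4 : ℝ) * (18 : ℕ) = 72 by norm_num] at this
  · refine pow_le_pow_left₀ (Wn_nonneg _ _ fun u => mul_nonneg (by norm_num)
      (sum_nonneg fun k _ => mul_nonneg (sq_nonneg _) (H0 _))) ?_ 18
    rw [Wn_cmul, Wn_sum hρ u0 _ SB]
    have e : ∑ k ∈ Ico k0 k1, x (l0.length + k) ^ 2 ≤ η := by
      refine le_trans (le_of_eq ?_) hη
      rw [add_comm l0.length k0, add_comm l0.length k1, ← sum_Ico_add (fun n => x n ^ 2)]
    calc _ ≤ 288 * ∑ k ∈ Ico k0 k1, x (l0.length + k) ^ 2 * (3 * Wn ρ u1 H) := by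
          refine mul_le_mul_of_nonneg_left (sum_le_sum fun k hk => ?_) (by norm_num)
          rw [Wn_cmul, Wn_shift]
          refine mul_le_mul_of_nonneg_left (Wn_cmp hρ le_rfl (hu _ ?_) HB H0) (sq_nonneg _)
          have := mem_Ico.1 hk
          exact mem_Ico.2 (by omega)
      _ ≤ 288 * (η * (3 * Wn ρ u1 H)) := by
          rw [← sum_mul]
          gcongr
      _ = _ := by ring

end ERR

theorem st_ERR (h1 : St_HYP) (h2 : St_MINK) (h3 : St_WS) (h4 : St_WINE) : St_ERR := by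
  filter_upwards [par] with s hs j hj l0 A k hl hA
  have p := hs j hj
  have hρ := rho_pos s j
  set F : List Bool → ℝ → ℝ := fun l u => (g1 (TT s) (sig j) A l u).re with hF
  have FR : Rec (xx (sig j)) F := g1_rec (TT_pos s) (sig_lt j) hA true
  have FB : ∀ l, BC (F l) := g1_BC (TT_pos s) (sig_lt j) hA true
  set H := hy (xx (sig j)) 72 (fun u => F l0 u ^ 2) l0.length (Y (j + 1) - l0.length) with hH
  have HB : BC H := hy_BC _ 72 ((FB l0).pow 2) _ _
  have H0 : ∀ u, 0 ≤ H u := hy_nonneg _ (by norm_num) (fun u => sq_nonneg _) _ _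
  set u0 : ℝ := ((k : ℝ) - 2 * 2 ^ s) * rho s j with hu0
  have key : ∀ i : Fin (2 ^ s), av (Y (j + 1) - l0.length) (fun e => Wn (rho s j) (uu s j k i)
      (mx F (PP s j i) (anc (PP s j (i + 1)) (e ++ l0))) ^ 18) ≤
      (864 * (3 / 2 ^ s) * Wn (rho s j) (u0 - (i : ℕ) * (2 * rho s j)) H) ^ 18 := by
    intro i
    refine ERR.one h1 h2 FR FB l0 (hl.le.trans (p.PP_ge i)) (PP_mono s j (Nat.le_succ _))
      (p.PP_le i.2) hρ (fun n hn => ?_) (p.piece i.2)
    obtain ⟨a, b⟩ := log_mem hn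
    rw [p.log_PP] at a b
    push_cast at b
    rw [uu, hu0, abs_le]
    constructor <;> linarith
  have hN := nP_nonneg s j A l0
  have two : (0 : ℝ) < 2 ^ s := by positivity
  have hρ' : 0 < 2 * ((2 ^ s : ℕ) : ℝ) * (2 * rho s j) := by positivity
  have w1 := h3 (2 ^ s) (rho s j) (2 * rho s j) _ u0 H hρ (by linarith) le_rfl hρ' HB H0
  have w2 := Wn_hy (xx (sig j)) (ρ := 72) (by norm_num) hρ' ((FB l0).pow 2) l0.length
    (B := nP s j A l0) (fun v => (Wn_mono hρ' v ((FB l0).pow 2)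
      (g1_BC2 (TT_pos s) (sig_lt j) hA l0) fun u => cp_sq true _).trans
      ((h4 _ _ v hρ' (Phi_int (TT_pos s) (sig_lt j) hA l0)).2
        (Phi_int2 (TT_pos s) (sig_le j) hA l0))) hN (Y (j + 1) - l0.length) u0
  have w3 : exp (72 * ∑ m ∈ Ico l0.length (l0.length + (Y (j + 1) - l0.length)),
      xx (sig j) m ^ 2) ≤ (s : ℝ) ^ 216 := by
    rw [hl, Nat.add_sub_cancel' p.Ym', show (72 : ℝ) = (72 : ℕ) by norm_num, exp_nat_mul,
      show 216 = 3 * 72 by norm_num, pow_mul]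
    exact pow_le_pow_left₀ (exp_pos _).le p.exp_xx 72
  have s1 : (6144 : ℝ) ≤ s := by exact_mod_cast p.s_ge
  have s2 : (51840 : ℝ) ≤ (s : ℝ) ^ 84 :=
    le_trans (by nlinarith) (pow_le_pow_right₀ (by linarith) (show 2 ≤ 84 by norm_num))
  rw [← hl]
  simp only [Er, sum_range]
  refine (mink_sum univ (fun i e => Wn_nonneg _ _ fun u => mx_nonneg _ _ _ _)
    (fun i => mul_nonneg (by positivity) (Wn_nonneg _ _ H0)) key).trans
    (pow_le_pow_left₀ (sum_nonneg fun i _ => mul_nonneg (by positivity) (Wn_nonneg _ _ H0)) ?_ 18)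
  rw [← mul_sum, ← sum_range fun i : ℕ => Wn (rho s j) (u0 - i * (2 * rho s j)) H]
  calc _ ≤ 864 * (3 / 2 ^ s) * (20 * ((s : ℝ) ^ 216 * nP s j A l0)) := by
        refine mul_le_mul_of_nonneg_left (w1.trans ?_) (by positivity)
        exact mul_le_mul_of_nonneg_left (w2.trans (mul_le_mul_of_nonneg_right w3 hN)) (by norm_num)
    _ = 51840 * (s : ℝ) ^ 216 / 2 ^ s * nP s j A l0 := by ring
    _ ≤ (s : ℝ) ^ 84 * (s : ℝ) ^ 216 / 2 ^ s * nP s j A l0 := by gcongr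
    _ = _ := by rw [← pow_add]

end

end Pool.Agent.Lib.RX
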