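import Pool.Agent.Lib.RX.Kit0

/-! Project rx29: the exponential inequality at the test points. -/

namespace Pool.Agent.Lib.RX

open Finset Real MeasureTheory Filter Topology Pool.Agent.Lib.RM67 Pool.Agent.Lib.RM67.T96

noncomputable section

namespace EXP

theorem Ex_eq (c : List Bool → ℝ) (z : ℕ → Bool) (n : ℕ) : ∀ N, Ex c n (L z N) =
    ∑ m ∈ Ico n N, sg (z m) * c (L z m) - (∑ m ∈ Ico n N, c (L z m) ^ 2) / 2
  | 0 => by simp [L, Ex]
  | N + 1 => by
    have ih := Ex_eq c z n N
    by_cases h : n ≤ N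
    · rw [sum_Ico_succ_top h, sum_Ico_succ_top h]
      simp only [L, Ex, ih, L_len, h, if_true]
      ring
    · rw [Ico_eq_empty_of_le (by omega)] at ih ⊢
      simp only [L, Ex, ih, L_len, h, if_false, add_zero]

end EXP

theorem st_EXP : St_EXP := by
  intro c n0 n1 Ω _ μ _ Z hZ
  have h := hZ.bc (fun κ => Ico (2 ^ (600 * Nat.log 2 κ)) (2 ^ (600 * Nat.log 2 κ + 1)))
    (fun κ _ => n1 κ)
    (fun κ i l => exp (603 * (Nat.log 2 κ + 1) : ℕ) <
      exp (Ex (c κ i) (n0 κ) l) + exp (Ex (fun l => -c κ i l) (n0 κ) l)) (summable_sq 2) ?_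
  · filter_upwards [h] with ω hω
    filter_upwards [hω] with κ hκ i hi
    have k := not_lt.1 (hκ i hi)
    have k1 := exp_le_exp.1 ((le_add_of_nonneg_right (exp_pos _).le).trans k)
    have k2 := exp_le_exp.1 ((le_add_of_nonneg_left (exp_pos _).le).trans k)
    rw [EXP.Ex_eq] at k1 k2
    simp only [neg_sq, mul_neg, sum_neg_distrib] at k2
    push_cast at k1 k2
    exact abs_le.2 ⟨by linarith, by linarith⟩
  filter_upwards [eventually_gt_atTop 0] with κ h0
  have h0' : (0 : ℝ) < κ := by positivity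
  set j := Nat.log 2 κ with hj
  refine (sum_le_card_nsmul _ _ (2 / 2 ^ (603 * (j + 1))) fun i _ => ?_).trans ?_
  · refine (markov (exp_pos _) fun l => by positivity).trans ?_
    rw [av_add]
    refine div_le_div₀ (by norm_num) ((add_le_add (av_Ex _ _ _) (av_Ex _ _ _)).trans_eq
      one_add_one_eq_two) (by positivity) ?_
    rw [← exp_one_pow]
    exact pow_le_pow_left₀ zero_le_two (by linarith [add_one_le_exp 1]) _
  · have k1 : (κ : ℝ) ^ 2 ≤ (2 ^ (j + 1)) ^ 2 := by gcongr; exact lt_lg κ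
    have k2 : (2 : ℝ) ^ (600 * j) * (2 ^ (j + 1)) ^ 2 ≤ 2 ^ (603 * (j + 1)) := by
      simp only [← pow_mul, ← pow_add]
      exact pow_le_pow_right₀ one_le_two (by omega)
    rw [Nat.card_Ico, Nat.two_pow_succ, Nat.add_sub_cancel,
      nsmul_eq_mul, Nat.cast_pow, Nat.cast_ofNat, ← mul_div_assoc,
      div_le_div_iff₀ (by positivity) (by positivity)]
    have k3 := (mul_le_mul_of_nonneg_left k1 (by positivity)).trans k2
    rw [mul_right_comm, mul_comm 2]
    exact mul_le_mul_of_nonneg_right k3 zero_le_two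

end

end Pool.Agent.Lib.RX
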