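import Pool.Agent.Lib.RX.Kit2

/-! Project rx29: the conditional variance of one frozen window integral. -/

namespace Pool.Agent.Lib.RX

open Finset Real MeasureTheory Filter Topology Pool.Agent.Lib.RM67 Pool.Agent.Lib.RM67.T96

noncomputable section

namespace FRO

/-- The bilinear window integral of two functions. -/
def W2 (ρ u0 : ℝ) (f g : ℝ → ℂ) : ℂ :=
  ∫ u, (exp (-|u - u0| / ρ) : ℝ) * (f u * (starRingEnd ℂ) (g u))

/-- Bounded and continuous, complex values. -/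
def CB (f : ℝ → ℂ) : Prop := Continuous f ∧ ∃ C, ∀ u, ‖f u‖ ≤ C

theorem CB.shift {f : ℝ → ℂ} (hf : CB f) (a : ℝ) : CB fun u => f (u - a) := by
  obtain ⟨h, C, hC⟩ := hf
  exact ⟨h.comp (continuous_sub_right a), C, fun u => hC _⟩

theorem II_CB {Φ : ℝ → ℂ} (h : Integrable Φ) : CB (II Φ) := ⟨II_cont h, _, norm_II Φ⟩

theorem W2_int {ρ : ℝ} (hρ : 0 < ρ) (u0 : ℝ) {f g : ℝ → ℂ} (hf : CB f) (hg : CB g) :
    Integrable fun u => ((exp (-|u - u0| / ρ) : ℝ) : ℂ) * (f u * (starRingEnd ℂ) (g u)) := by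
  obtain ⟨a, C, hC⟩ := hf
  obtain ⟨b, D, hD⟩ := hg
  refine (chi_int hρ u0).ofReal.mul_bdd (c := C * D)
    (a.mul (Complex.continuous_conj.comp b)).aestronglyMeasurable (Eventually.of_forall fun u => ?_)
  rw [norm_mul, Complex.norm_conj]
  exact mul_le_mul (hC u) (hD u) (norm_nonneg _) ((norm_nonneg _).trans (hC u))

theorem W2_shift (ρ u0 a : ℝ) (f g : ℝ → ℂ) :
    W2 ρ u0 (fun u => f (u - a)) (fun u => g (u - a)) = W2 ρ (u0 - a) f g := by
  unfold W2
  rw [← integral_sub_right_eq_self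
    (fun u => ((exp (-|u - (u0 - a)| / ρ) : ℝ) : ℂ) * (f u * (starRingEnd ℂ) (g u))) a]
  simp only [sub_sub_sub_cancel_right]

theorem Bw_step {ρ : ℝ} (hρ : 0 < ρ) {Φ Ψ : ℝ → ℂ} (hΦ : Integrable Φ) (c a : ℝ)
    (h : ∀ u, II Ψ u = II Φ u + c * II Φ (u - a)) (u0 v : ℝ) :
    Bw ρ Ψ u0 v = Bw ρ Φ u0 v + (c ^ 2 : ℝ) * Bw ρ Φ (u0 - a) v +
      c * (Bw ρ Φ (u0 - a) (v - a) + Bw ρ Φ u0 (v + a)) := by
  have f := II_CB hΦ
  have e1 : Bw ρ Φ (u0 - a) v =
      W2 ρ u0 (fun u => II Φ (u - a)) (fun u => II Φ (u - v - a)) := by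
    have := W2_shift ρ u0 a (II Φ) fun u => II Φ (u - v)
    simp only [sub_right_comm _ a v] at this
    exact this.symm
  have e2 : Bw ρ Φ (u0 - a) (v - a) =
      W2 ρ u0 (fun u => II Φ (u - a)) (fun u => II Φ (u - v)) := by
    have := W2_shift ρ u0 a (II Φ) fun u => II Φ (u - (v - a))
    simp only [sub_sub_sub_cancel_right] at this
    exact this.symm
  have e3 : Bw ρ Φ u0 (v + a) = W2 ρ u0 (II Φ) (fun u => II Φ (u - v - a)) := by
    simp only [sub_sub]; rfl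
  have i0 := W2_int hρ u0 f (f.shift v)
  have i1 := W2_int hρ u0 (f.shift a) ((f.shift a).shift v)
  have i2 := W2_int hρ u0 (f.shift a) (f.shift v)
  have i3 := W2_int hρ u0 f ((f.shift a).shift v)
  rw [e1, e2, e3, Bw, Bw, W2, W2, W2, ← integral_add i2 i3, ← integral_const_mul,
    ← integral_const_mul, ← integral_add i0 (i1.const_mul _)]
  refine Eq.trans ?_ (integral_add (i0.add (i1.const_mul _)) ((i2.add i3).const_mul _))
  congr 1
  funext u
  simp only [h, map_add, map_mul, Complex.conj_ofReal, Pi.add_apply]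
  push_cast
  ring

theorem Bw_zero (ρ : ℝ) (Φ : ℝ → ℂ) (u0 : ℝ) :
    Bw ρ Φ u0 0 = (Wn ρ u0 fun u => ‖II Φ u‖ ^ 2 : ℝ) := by
  rw [Bw, Wn, ← integral_complex_ofReal]
  congr 1
  funext u
  rw [sub_zero, Complex.mul_conj, Complex.normSq_eq_norm_sq]
  push_cast
  rfl

/-- The deterministic evolution of the mean. -/
def mc (x : ℕ → ℝ) (f : ℝ × ℝ → ℂ) (n : ℕ) : ℕ → ℝ × ℝ → ℂ
  | 0, z => f z
  | k + 1, z => mc x f n k z +
      (x (n + k) ^ 2 : ℝ) * mc x f n k (z.1 - log (n + k : ℕ), z.2)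

theorem mc_zero (x : ℕ → ℝ) {f : ℝ × ℝ → ℂ} {g : ℝ → ℝ} (h : ∀ u, f (u, 0) = g u) (n : ℕ) :
    ∀ k u, mc x f n k (u, 0) = hy x 1 g n k u
  | 0, u => h u
  | k + 1, u => by
    simp only [mc, hy, mc_zero x h n k]
    push_cast
    ring

theorem bx_nonneg {ρ : ℝ} (hρ : 0 < ρ) (Φ : ℝ → ℂ) (v : ℝ) : 0 ≤ bx ρ Φ v :=
  mul_nonneg (by positivity) (integral_nonneg fun s => by positivity)

theorem mu_le (i : ℕ) (l : List Bool) (t : ℝ) : mu i l t ≤ NN l :=
  integral_mono (mu_int i l t) (R_int l) fun t' => by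
    have := R_pos t' l
    have := dens_pos t'
    exact mul_le_mul_of_nonneg_right
      (div_le_self (by positivity) (le_add_of_nonneg_right (by positivity))) (by positivity)

theorem En_ind (i : ℕ) (l : List Bool) {S : Set ℝ} (hS : MeasurableSet S) {c : ℝ} (hc : 0 ≤ c) :
    En (2 ^ i) (fun t => c * S.indicator (fun t => R l t * dens t) t) ≤
      c ^ 2 * ∫ t in S, R l t * mu i l t * dens t := by
  have p : ∀ t, 0 ≤ S.indicator (fun t => R l t * dens t) t := fun t =>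
    Set.indicator_nonneg (fun t _ => (mul_pos (R_pos t l) (dens_pos t)).le) t
  have q : Integrable fun t => R l t * mu i l t * dens t :=
    bd_int ((R_cont l).mul (mu_cont i l)) (C := 2 ^ l.length * NN l) fun t => by
      rw [abs_of_nonneg (mul_nonneg (R_pos t l).le (mu_nonneg i l t))]
      exact mul_le_mul (R_le t l) (mu_le i l t) (mu_nonneg i l t) (by positivity)
  have k : ∀ t, ∫ t', c * S.indicator (fun t => R l t * dens t) t' /
      (1 + (2 ^ i) ^ 2 * (t - t') ^ 2) ≤ c * mu i l t := by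
    intro t
    rw [mu, ← integral_const_mul]
    refine integral_mono_of_nonneg (Eventually.of_forall fun t' => ?_)
      ((mu_int i l t).const_mul c) (Eventually.of_forall fun t' => ?_)
    · have := p t'
      positivity
    · have h1 : S.indicator (fun t => R l t * dens t) t' ≤ R l t' * dens t' :=
        Set.indicator_le_self' (fun t _ => (mul_pos (R_pos t l) (dens_pos t)).le) t'
      refine (div_le_div_of_nonneg_right (mul_le_mul_of_nonneg_left h1 hc)
        (by positivity)).trans_eq ?_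
      ring
  rw [En, ← integral_indicator hS, ← integral_const_mul]
  refine integral_mono_of_nonneg (Eventually.of_forall fun t => ?_)
    ((q.indicator hS).const_mul _) (Eventually.of_forall fun t => ?_)
  · refine mul_nonneg (mul_nonneg hc (p t)) (integral_nonneg fun t' => ?_)
    have := p t'
    positivity
  · refine (mul_le_mul_of_nonneg_left (k t) (mul_nonneg hc (p t))).trans_eq ?_
    by_cases h : t ∈ S
    · simp only [Set.indicator_of_mem h]; ring
    · simp [h]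

theorem sG_sub {s j : ℕ} (h : Par s j) {l : List Bool} (hl : l.length = Y (mm s j)) :
    sG s j l ⊆ gd s \ lo0 s (mm s j) l := by
  rintro t ⟨⟨a, -⟩, b⟩
  have := h.N_le
  have := KK_pos s
  exact ⟨a, fun c => b ⟨mm s j, mem_Ioc.2 ⟨by omega, le_rfl⟩, by rwa [lo_self hl]⟩⟩

theorem En_le (h4 : St_EN) (h5 : St_LOW) {s j : ℕ} (h : Par s j) {l : List Bool}
    (hl : l.length = Y (mm s j)) :
    En (2 ^ (j + 1)) (fun t => ‖Phi (TT s) (sig j) (sG s j l) l t‖ ^ 2) ≤
      (16 * π * exp 18 * 2 ^ mm s j) ^ 2 * (2 * Mx s (mm s j) l / 2 ^ (12 * s)) := by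
  have hS := (gd_meas s).diff (lo0_meas s (mm s j) l)
  refine (h4.1 _ (2 ^ mm s j) _ (fun t => 16 * π * exp 18 * 2 ^ mm s j *
    (gd s \ lo0 s (mm s j) l).indicator (fun t => R l t * dens t) t) (by positivity)
    (pow_le_pow_right₀ one_le_two (h.m_le.trans (Nat.le_succ j)))
    (Phi_int2 (TT_pos s) (sig_le j) (sG_meas s j l) l) (((R_int l).indicator hS).const_mul _)
    (fun t => sq_nonneg _) fun t => ?_).trans ((En_ind _ l hS (by positivity)).trans ?_)
  · refine (h.Phi_cm (fun t ht => ht.1.2) t).trans (mul_le_mul_of_nonneg_left ?_ (by positivity))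
    exact Set.indicator_le_indicator_of_subset (sG_sub h hl)
      (fun t => (mul_pos (R_pos t l) (dens_pos t)).le) t
  · exact mul_le_mul_of_nonneg_left (h5 s (mm s j) l).2.2 (by positivity)

theorem fin {C c s M E F : ℝ} {a P : ℝ} {j : ℕ} (C0 : 0 ≤ C) (a0 : 0 < a) (ha : a ≤ 2 ^ j)
    (hP : 0 < P) (m0 : 0 ≤ M) (s1 : 1 ≤ s) (hs : 32 * C * c ^ 2 ≤ s) (F0 : 0 ≤ F)
    (e1 : F ≤ s ^ 48) (e2 : E ≤ (c * a) ^ 2 * (2 * M / P)) :
    8 * F * (C * 2 ^ (j + 1) / a * E) ≤ s ^ 60 * (2 ^ j) ^ 2 * M / P := by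
  have e4 : s ^ 49 ≤ s ^ 60 := pow_le_pow_right₀ s1 (by norm_num)
  calc _ ≤ 8 * F * (C * 2 ^ (j + 1) / a * ((c * a) ^ 2 * (2 * M / P))) := by gcongr
    _ ≤ 8 * s ^ 48 * (C * 2 ^ (j + 1) / a * ((c * a) ^ 2 * (2 * M / P))) := by gcongr
    _ = 32 * C * c ^ 2 * s ^ 48 * (2 ^ j * a) * M / P := by field_simp; ring
    _ ≤ s * s ^ 48 * (2 ^ j * 2 ^ j) * M / P := by gcongr
    _ = s ^ 49 * (2 ^ j) ^ 2 * M / P := by ring
    _ ≤ _ := by gcongr

end FRO

open FRO in
theorem st_FRO (h1 : St_VAR) (h2 : St_WINX) (h3 : St_BX) (h4 : St_EN) (h5 : St_LOW) : St_FRO := by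
  obtain ⟨C, C0, h3⟩ := h3
  filter_upwards [par, ev_const (32 * C * (16 * π * exp 18) ^ 2)] with s hp hs j hj l0 k i hl hi
  have h := hp j hj
  set A := sG s j l0 with hA
  have mA : MeasurableSet A := sG_meas s j l0
  have hT := TT_pos s
  have hρ := rho_pos s j
  have I := Phi_int hT (sig_lt j) mA
  obtain ⟨D, hD⟩ := Phi_bd hT (sig_le j) A l0
  have eK : Y (mm s j) + (PP s j i - Y (mm s j)) = PP s j i := Nat.add_sub_cancel' (h.PP_ge i)
  have sub : Ico (Y (mm s j)) (Y (mm s j) + (PP s j i - Y (mm s j))) ⊆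
      Ico (Y (mm s j)) (Y (j + 1)) := by
    rw [eK]; exact Ico_subset_Ico_right (h.PP_le hi)
  have key := (h1 (ℝ × ℝ) Prod.snd (fun n z => (z.1 - log n, z.2))
    (fun n z => (z.1 - log n, z.2 - log n)) (fun n z => (z.1, z.2 + log n))
    (fun n => xx (sig j) n ^ 2) (xx (sig j))
    (fun e z => Bw (rho s j) (Phi (TT s) (sig j) A (e ++ l0)) z.1 z.2)
    (Y (mm s j)) (PP s j i - Y (mm s j)) (bx (rho s j) (Phi (TT s) (sig j) A l0))
    (C * 2 ^ (j + 1) / (2 ^ mm s j : ℕ) *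
      En (2 ^ (j + 1)) fun t => ‖Phi (TT s) (sig j) A l0 t‖ ^ 2)
    (fun _ _ => ⟨rfl, rfl, rfl⟩)
    (fun n hn => by
      have a := xx_sq_le (j := j) (mem_Ico.1 (sub hn)).2
      have b := r_nonneg n
      exact ⟨sq_nonneg _, by linarith, by linarith⟩)
    (fun b e z => by
      have el : (e ++ l0).length = Y (mm s j) + e.length := by
        rw [List.length_append, hl, add_comm]
      have := Bw_step hρ (I (e ++ l0)) (Ψ := Phi (TT s) (sig j) A (b :: (e ++ l0))) _ _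
        (g1_cons hT (sig_lt j) mA b (e ++ l0)) z.1 z.2
      rw [el, mul_pow, ← sq_abs (sg b), abs_sg, one_pow, one_mul] at this
      exact this)
    (fun z => h2 _ _ D _ _ hρ (Phi_meas hT (sig_lt j) mA l0) (I l0) hD)
    (bx_nonneg hρ _)
    (fun v => h3 (2 ^ mm s j) (2 ^ (32 * s)) _ _ D v _ _ (h.a64 le_rfl)
      (le_self_pow₀ one_le_two (by have := h.s_ge; omega)) (h.T4' le_rfl) hρ
      (one_le_pow₀ one_le_two)
      (fun n hn => ⟨(mem_Ico.1 hn).1, by
        simpa using log_le_of_lt (a := 2 ^ (j + 1)) (mem_Ico.1 (sub hn)).2⟩)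
      (Phi_meas hT (sig_lt j) mA l0) (I l0) hD
      fun t ht => Set.indicator_of_notMem (fun a => not_le.2 ht a.1.1.1) _)).2
    (mc (xx (sig j)) (fun z => Bw (rho s j) (Phi (TT s) (sig j) A l0) z.1 z.2) (Y (mm s j)))
    (fun _ => rfl) (fun _ _ => rfl) (uu s j k i, 0)
  rw [mc_zero _ (fun u => Bw_zero _ _ u)] at key
  simp only [Bw_zero, ← Complex.ofReal_sub, Complex.norm_real, norm_eq_abs, sq_abs] at key
  refine le_trans key ?_
  have e1 : exp (24 * ∑ n ∈ Ico (Y (mm s j)) (Y (mm s j) + (PP s j i - Y (mm s j))), r n) ≤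
      (s : ℝ) ^ 48 :=
    calc _ ≤ exp ((24 : ℕ) * ∑ n ∈ Ico (Y (mm s j)) (Y (j + 1)), r n) :=
          exp_le_exp.2 (mul_le_mul_of_nonneg_left
            (sum_le_sum_of_subset_of_nonneg sub fun n _ _ => r_nonneg n) (by norm_num))
      _ ≤ ((s : ℝ) ^ 2) ^ 24 := by
          rw [exp_nat_mul]; exact pow_le_pow_left₀ (exp_pos _).le h.exp_r 24
      _ = _ := by ring
  have s1 : (1 : ℝ) ≤ s := by exact_mod_cast le_trans (by norm_num) h.s_ge
  rw [Nat.cast_pow, Nat.cast_ofNat]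
  exact fin C0 (by positivity) (pow_le_pow_right₀ one_le_two h.m_le) (by positivity)
    (Mx_nonneg s (mm s j) l0) s1 hs (exp_pos _).le e1 (En_le h4 h5 h hl)

end

end Pool.Agent.Lib.RX
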