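import Pool.Agent.Lib.RX.Blue

/-! Project rx29, block GAUSS: a Gaussian integral. -/

namespace Pool.Agent.Lib.RX

open Real MeasureTheory Filter

namespace GAUSS

theorem int_pow (k : ℕ) {τ : ℝ} (hτ : 0 < τ) :
    Integrable fun μ : ℝ => |μ| ^ k * exp (-(τ * μ ^ 2 / 2)) := by
  have h := (integrable_rpow_mul_exp_neg_mul_sq (b := τ / 2) (by positivity) (s := (k : ℝ))
    (by linarith [Nat.cast_nonneg (α := ℝ) k])).norm
  refine h.congr (Eventually.of_forall fun μ => ?_)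
  simp only [norm_eq_abs, abs_mul, abs_exp, rpow_natCast, abs_pow]
  rw [show -(τ / 2) * μ ^ 2 = -(τ * μ ^ 2 / 2) by ring]

theorem int_bd {τ : ℝ} (hτ : 0 < τ) (k : ℕ) {g : ℝ → ℝ} (hg : Continuous g)
    (hb : ∀ μ, |g μ| ≤ |μ| ^ k) : Integrable fun μ : ℝ => g μ * exp (-(τ * μ ^ 2 / 2)) := by
  refine (int_pow k hτ).mono' (by fun_prop) (Eventually.of_forall fun μ => ?_)
  rw [norm_eq_abs, abs_mul, abs_exp]
  exact mul_le_mul_of_nonneg_right (hb μ) (exp_pos _).le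

theorem int_cos {τ : ℝ} (hτ : 0 < τ) (ρ : ℝ) :
    ∫ μ : ℝ, cos (μ * ρ) * exp (-(τ * μ ^ 2 / 2)) = √(2 * π / τ) * exp (-(ρ ^ 2 / (2 * τ))) := by
  have hb : 0 < (((τ / 2 : ℝ) : ℂ)).re := by rw [Complex.ofReal_re]; positivity
  have h := fourierIntegral_gaussian hb (ρ : ℂ)
  have hi : Integrable fun x : ℝ =>
      Complex.exp (Complex.I * ρ * x) * Complex.exp (-((τ / 2 : ℝ) : ℂ) * x ^ 2) := by
    refine (integrable_cexp_quadratic hb (Complex.I * ρ) 0).congr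
      (Eventually.of_forall fun x => ?_)
    simp only
    rw [← Complex.exp_add, add_zero, add_comm]
  have h2 := congrArg Complex.re h
  rw [← RCLike.re_to_complex, ← integral_re hi] at h2
  have e1 : ∀ x : ℝ, RCLike.re (Complex.exp (Complex.I * ρ * x) *
      Complex.exp (-((τ / 2 : ℝ) : ℂ) * x ^ 2)) = cos (x * ρ) * exp (-(τ * x ^ 2 / 2)) := by
    intro x
    rw [RCLike.re_to_complex,
      show -((τ / 2 : ℝ) : ℂ) * x ^ 2 = ((-(τ * x ^ 2 / 2) : ℝ) : ℂ) by push_cast; ring,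
      ← Complex.ofReal_exp, Complex.re_mul_ofReal,
      show Complex.I * ρ * x = ((x * ρ : ℝ) : ℂ) * Complex.I by push_cast; ring,
      Complex.exp_ofReal_mul_I_re]
  simp only [e1] at h2
  rw [h2, show -(ρ : ℂ) ^ 2 / (4 * ((τ / 2 : ℝ) : ℂ)) = ((-(ρ ^ 2 / (2 * τ)) : ℝ) : ℂ) by
      push_cast; ring,
    ← Complex.ofReal_exp, Complex.re_mul_ofReal,
    show (π : ℂ) / ((τ / 2 : ℝ) : ℂ) = ((2 * π / τ : ℝ) : ℂ) by
      have : (τ : ℂ) ≠ 0 := by exact_mod_cast hτ.ne'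
      push_cast; field_simp,
    show (1 / 2 : ℂ) = ((1 / 2 : ℝ) : ℂ) by push_cast; ring,
    ← Complex.ofReal_cpow (by positivity), Complex.ofReal_re, sqrt_eq_rpow]

end GAUSS

open GAUSS

theorem st_GAUSS : St_GAUSS := by
  refine ⟨fun k τ hτ => int_pow k hτ, fun τ ρ hτ => ?_⟩
  have i1 := int_bd hτ 0 (g := fun μ => cos (μ * ρ)) (by fun_prop) fun μ => by
    rw [pow_zero]; exact abs_cos_le_one _
  have i2 := int_bd hτ 0 (g := fun μ => sin (μ * ρ)) (by fun_prop) fun μ => by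
    rw [pow_zero]; exact abs_sin_le_one _
  have i3 := int_bd hτ 1 (g := fun μ => μ * sin (μ * ρ)) (by fun_prop) fun μ => by
    rw [pow_one, abs_mul]; exact mul_le_of_le_one_right (abs_nonneg _) (abs_sin_le_one _)
  have hd : ∀ μ : ℝ, HasDerivAt (fun μ : ℝ => sin (μ * ρ) * exp (-(τ * μ ^ 2 / 2)))
      (ρ * (cos (μ * ρ) * exp (-(τ * μ ^ 2 / 2))) -
        τ * (μ * sin (μ * ρ) * exp (-(τ * μ ^ 2 / 2)))) μ := fun μ => by
    have a := ((hasDerivAt_id' μ).mul_const ρ).sin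
    have b := ((((hasDerivAt_pow 2 μ).const_mul τ).div_const 2).neg).exp
    refine (a.mul b).congr_deriv ?_
    simp only [Pi.neg_apply]
    push_cast
    ring
  have h0 := integral_eq_zero_of_hasDerivAt_of_integrable hd
    ((i1.const_mul ρ).sub (i3.const_mul τ)) i2
  rw [integral_sub (i1.const_mul ρ) (i3.const_mul τ), integral_const_mul, integral_const_mul,
    int_cos hτ, sub_eq_zero, sqrt_div (by positivity)] at h0
  have s0 : 0 < √τ := sqrt_pos.2 hτ
  refine mul_left_cancel₀ hτ.ne' ?_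
  rw [← h0]
  field_simp

end Pool.Agent.Lib.RX
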