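import Pool.Agent.Lib.RX.Kit0

/-! Project rx29: the bad frequencies have small measure. -/

namespace Pool.Agent.Lib.RX

open Finset Real MeasureTheory Filter Topology Pool.Agent.Lib.RM67 Pool.Agent.Lib.RM67.T96

noncomputable section

namespace GOOD

theorem cont (i : ℕ) : Continuous (DD i) := by unfold DD; fun_prop

theorem int1 (i : ℕ) : Integrable fun t => |DD i t| * RM67.dens t := by
  refine bd_int (cont i).abs
    (C := ∑ m ∈ Ioc (2 ^ 2 ^ i) (2 ^ 2 ^ (i + 1)), be m ^ 2 / 4) fun t => ?_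
  rw [abs_abs]
  refine (abs_sum_le_sum_abs _ _).trans (sum_le_sum fun m _ => ?_)
  rw [abs_mul, abs_of_nonneg (by positivity)]
  exact mul_le_of_le_one_right (by positivity) (abs_cos_le_one _)

theorem one (i : ℕ) {η : ℝ} (h : 0 < η) :
    ∫ t, |DD i t| * RM67.dens t ≤ η + η⁻¹ * (32 / 2 ^ i) := by
  obtain ⟨j1, j2⟩ := DD_sq i
  calc _ ≤ ∫ t, η * RM67.dens t + η⁻¹ * (DD i t ^ 2 * RM67.dens t) := by
        refine integral_mono (int1 i) ((dens_int.const_mul _).add (j1.const_mul _)) fun t => ?_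
        have e : η⁻¹ * η = 1 := inv_mul_cancel₀ h.ne'
        have : |DD i t| ≤ η + η⁻¹ * DD i t ^ 2 := by
          refine le_of_mul_le_mul_left ?_ h
          rw [mul_add, ← mul_assoc, mul_comm η η⁻¹, e, ← sq_abs]
          nlinarith [sq_nonneg (|DD i t| - η), mul_nonneg h.le (abs_nonneg (DD i t))]
        simp only
        nlinarith [dens_pos t]
    _ ≤ _ := by
        rw [integral_add (dens_int.const_mul _) (j1.const_mul _), integral_const_mul,
          integral_const_mul, int_dens, mul_one]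
        gcongr

theorem tail (a n : ℕ) :
    ∑ k ∈ Ico (2 * a) n, ∫ t, |DD k t| * RM67.dens t ≤ 100 / 2 ^ a := by
  have g : ∀ K : ℕ, ∑ i ∈ range K, (((3 : ℝ) / 4) ^ i + 32 * (2 / 3) ^ i) =
      100 - 4 * (3 / 4) ^ K - 96 * (2 / 3) ^ K := fun K => by
    induction K with
    | zero => norm_num
    | succ K ih => rw [sum_range_succ, ih]; ring
  have k : ∀ i, ∫ t, |DD (2 * a + i) t| * RM67.dens t ≤
      ((3 / 4) ^ i + 32 * (2 / 3) ^ i) / 2 ^ a := fun i => by
    refine (one (2 * a + i) (η := (3 / 4) ^ i / 2 ^ a) (by positivity)).trans_eq ?_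
    rw [pow_add, mul_comm 2 a, pow_mul]
    simp only [div_pow]
    rw [show (4 : ℝ) ^ i = 2 ^ i * 2 ^ i by rw [← mul_pow]; norm_num]
    field_simp
  rw [sum_Ico_eq_sum_range]
  refine (sum_le_sum fun i _ => k i).trans ?_
  rw [← sum_div, g]
  gcongr
  linarith [pow_pos (show (0 : ℝ) < 3 / 4 by norm_num) (n - 2 * a),
    pow_pos (show (0 : ℝ) < 2 / 3 by norm_num) (n - 2 * a)]

theorem meas (s : ℕ) : MeasurableSet (gd s) :=
  ((isClosed_le continuous_abs continuous_const).inter
    (isClosed_le (continuous_finsetSum _ fun k _ => (cont k).abs) continuous_const)).measurableSet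

end GOOD

theorem st_GOOD : St_GOOD := by
  refine ⟨101, by norm_num, fun s _ => ?_⟩
  have hT : (0 : ℝ) < 2 ^ (32 * s) := by positivity
  have kp : ∀ t, 0 ≤ π⁻¹ * RM67.ker (2 ^ (32 * s)) t := fun t => by unfold RM67.ker; positivity
  have sp : ∀ t, 0 ≤ ∑ k ∈ Ico (64 * s) (NE s), |DD k t| * RM67.dens t := fun t =>
    sum_nonneg fun k _ => mul_nonneg (abs_nonneg _) (dens_pos t).le
  have i1 := (ker_int hT).const_mul π⁻¹
  have i2 : Integrable fun t => ∑ k ∈ Ico (64 * s) (NE s), |DD k t| * RM67.dens t :=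
    integrable_finsetSum _ fun k _ => GOOD.int1 k
  calc _ ≤ ∫ t in (gd s)ᶜ, (π⁻¹ * RM67.ker (2 ^ (32 * s)) t +
          ∑ k ∈ Ico (64 * s) (NE s), |DD k t| * RM67.dens t) := by
        refine setIntegral_mono_on dens_int.integrableOn (i1.add i2).integrableOn
          (GOOD.meas s).compl fun t ht => ?_
        simp only [gd, Set.mem_compl_iff, Set.mem_ofPred_eq, not_and_or, not_le] at ht
        rcases ht with ht | ht
        · linarith [dens_le hT ht, sp t]
        · have := mul_le_mul_of_nonneg_right ht.le (dens_pos t).le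
          rw [sum_mul] at this
          linarith [kp t]
    _ ≤ ∫ t, (π⁻¹ * RM67.ker (2 ^ (32 * s)) t +
          ∑ k ∈ Ico (64 * s) (NE s), |DD k t| * RM67.dens t) :=
        setIntegral_le_integral (i1.add i2)
          (Eventually.of_forall fun t => add_nonneg (kp t) (sp t))
    _ ≤ _ := by
        rw [integral_add i1 i2, integral_const_mul, int_ker hT,
          integral_finsetSum _ fun k _ => GOOD.int1 k]
        have h := GOOD.tail (32 * s) (NE s)
        rw [show 2 * (32 * s) = 64 * s by ring] at h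
        have e : π⁻¹ * (π / 2 ^ (32 * s)) = 1 / 2 ^ (32 * s) := by field_simp
        rw [e]
        refine (add_le_add le_rfl h).trans_eq ?_
        ring

end

end Pool.Agent.Lib.RX
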