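import Pool.Agent.Lib.RX.Kit0

/-! Project rx29: heights at good frequencies. -/

namespace Pool.Agent.Lib.RX

open Finset Real MeasureTheory Filter Topology Pool.Agent.Lib.RM67 Pool.Agent.Lib.RM67.T96

namespace HH

theorem log2_le : log 2 ≤ 0.7 := by linarith [log_two_lt_d9]

theorem log2_ge : 0.69 ≤ log 2 := by linarith [log_two_gt_d9]

theorem term_ge (m : ℕ) (t : ℝ) : 2 / 9 * (bb m t ^ 2 / 2) ≤ bb m t ^ 2 - bb m t ^ 4 := by
  have h := bb_sq_le m t
  have h0 := sq_nonneg (bb m t)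
  nlinarith

theorem sum_ge (S : Finset ℕ) (t : ℝ) :
    2 / 9 * ∑ m ∈ S, bb m t ^ 2 / 2 ≤ ∑ m ∈ S, (bb m t ^ 2 - bb m t ^ 4) := by
  rw [mul_sum]
  exact sum_le_sum fun m _ => term_ge m t

theorem sub_le {s a b : ℕ} {t : ℝ} (ht : t ∈ gd s) (ha : 64 * s ≤ a) (hb : b ≤ NE s) :
    ∑ k ∈ Ico a b, |DD k t| ≤ 1 :=
  (sum_le_sum_of_subset_of_nonneg (Ico_subset_Ico ha hb) fun _ _ _ => abs_nonneg _).trans ht.2

theorem Ph_split {a b : ℕ} (h : a ≤ b) (t : ℝ) :
    Ph b t = Ph a t + ∑ k ∈ Ico a b, |DD k t| := (sum_range_add_sum_Ico _ h).symm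

theorem Ph_mono {a b : ℕ} (h : a ≤ b) (t : ℝ) : Ph a t ≤ Ph b t := by
  rw [Ph_split h]
  exact le_add_of_nonneg_right (sum_nonneg fun _ _ => abs_nonneg _)

theorem Ph_le {s : ℕ} {t : ℝ} (hD : ∀ k, |DD k t| ≤ 8) (ht : t ∈ gd s) (h : 64 * s ≤ NE s) :
    Ph (NE s) t ≤ 512 * s + 1 := by
  rw [Ph_split h]
  have a : Ph (64 * s) t ≤ 512 * s := by
    refine (sum_le_card_nsmul _ _ 8 fun k _ => hD k).trans ?_
    simp only [card_range, nsmul_eq_mul]
    push_cast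
    linarith
  linarith [sub_le ht le_rfl le_rfl]

theorem log_t {s : ℕ} {t : ℝ} (ht : t ∈ gd s) : log (1 + t ^ 2) ≤ 64 * s + 1 := by
  have a : t ^ 2 ≤ 2 ^ (64 * s) := by
    rw [← sq_abs, show 64 * s = 32 * s * 2 by ring, pow_mul]
    exact pow_le_pow_left₀ (abs_nonneg _) ht.1 2
  have b : (1 : ℝ) ≤ 2 ^ (64 * s) := one_le_pow₀ one_le_two
  have c : 1 + t ^ 2 ≤ 2 ^ (64 * s + 1) := by rw [pow_succ _ (64 * s)]; linarith
  refine (log_le_log (by positivity) c).trans ?_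
  rw [log_pow]
  have : (0 : ℝ) ≤ s := Nat.cast_nonneg s
  push_cast
  nlinarith [log2_le]

theorem log_NE {Λ : ℝ} (hΛ : 1 ≤ Λ) (s : ℕ) :
    log (Λ * (NE s + 1)) ≤ log Λ + 16 * s + 18 := by
  have b : (1 : ℝ) ≤ 2 ^ (16 * s + 17) := one_le_pow₀ one_le_two
  have c : (NE s : ℝ) + 1 ≤ 2 ^ (16 * s + 18) := by
    rw [NE, pow_succ _ (16 * s + 17)]
    push_cast
    linarith
  rw [log_mul (by positivity) (by positivity)]
  have d := log_le_log (by positivity) c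
  rw [log_pow] at d
  have : (0 : ℝ) ≤ s := Nat.cast_nonneg s
  push_cast at d
  nlinarith [log2_le]

theorem log_cmp {Λ : ℝ} (hΛ : 1 ≤ Λ) (s : ℕ) :
    log (Λ * (NE s + 1)) ≤ log (Λ * (N0 s + 1)) + 12 := by
  have c : Λ * ((NE s : ℝ) + 1) ≤ Λ * (N0 s + 1) * 2 ^ 17 := by
    rw [mul_assoc, NE, N0, pow_add]
    push_cast
    refine mul_le_mul_of_nonneg_left ?_ (by linarith)
    nlinarith
  have d := log_le_log (by positivity) c
  rw [log_mul (x := Λ * (N0 s + 1)) (by positivity) (by positivity), log_pow] at d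
  push_cast at d
  linarith [log2_le]

end HH

open HH in
theorem st_HH (h : St_ARG) : St_HH := by
  obtain ⟨C, hC, h1, h2, h3, -, h5⟩ := h
  intro Λ hΛ
  have hL : 0 ≤ log Λ := log_nonneg hΛ
  have hc := c3_spec.1
  filter_upwards [ev_const (1200 + (log Λ + 18 * c3 + 2 * C + 100)), ev_poly 1000 1]
    with s hs hp t ht
  rw [pow_one] at hp
  have s1 : (1200 : ℝ) ≤ s := by linarith only [hs, hL, hc, hC]
  have sC : 2 * C ≤ s := by linarith only [hs, hL, hc, hC]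
  have q : 1200 * (s : ℝ) + (log Λ + 18 * c3 + 2 * C + 100) ≤ (s : ℝ) ^ 2 := by
    have a := mul_le_mul_of_nonneg_right hs (show (0 : ℝ) ≤ s by linarith only [s1])
    have b := mul_le_mul_of_nonneg_left (show (1 : ℝ) ≤ s by linarith only [s1])
      (show 0 ≤ log Λ + 18 * c3 + 2 * C + 100 by linarith only [hL, hc, hC])
    linarith only [a, b]
  have p2 : (2 : ℝ) ^ s ≤ 2 ^ (2 * s) := pow_le_pow_right₀ one_le_two (by omega)
  have p16 : (2 : ℝ) ^ s ≤ 2 ^ (16 * s) := pow_le_pow_right₀ one_le_two (by omega)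
  have n0 : 1000 * s ≤ 2 ^ s := by exact_mod_cast hp
  have n1 : 1200 ≤ s := by exact_mod_cast s1
  have n2 : 2 ^ s ≤ N0 s := Nat.pow_le_pow_right two_pos (by omega)
  have n3 : N0 s ≤ NE s := Nat.pow_le_pow_right two_pos (by omega)
  have n4 : 64 * s ≤ N0 s := by omega
  have n5 : 2 ^ s ≤ 2 ^ (64 * s) := Nat.pow_le_pow_right two_pos (by omega)
  have n6 : 2 ^ (128 * s) ≤ Y (64 * s) := Nat.pow_le_pow_right two_pos (by omega)
  have eN : (N0 s : ℝ) = 2 ^ (16 * s) := by rw [N0]; push_cast; rfl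
  have a1 := Ph_le (h5 · t) ht (n4.trans n3)
  have a2 := log_t ht
  have a3 := log_NE hΛ s
  have a4 : ab Λ (NE s) t ≤ 592 * s + (log Λ + 18 * c3 + 54) := by
    unfold ab
    linarith only [a1, a2, a3]
  refine ⟨⟨?_, by linarith only [a4, q, hC, s1], ?_⟩, fun i hi l hl hh => ?_, fun i hi hk => ?_,
    fun i hi hk => ?_, fun m hm hk => ?_⟩
  · have b1 : 0 ≤ log (Λ * (NE s + 1)) :=
      log_nonneg (one_le_mul_of_one_le_of_one_le hΛ (le_add_of_nonneg_left (Nat.cast_nonneg _)))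
    have b2 : 0 ≤ log (1 + t ^ 2) := log_nonneg (le_add_of_nonneg_right (sq_nonneg t))
    have b3 := Ph_nonneg (NE s) t
    unfold ab
    linarith only [b1, b2, b3, hc]
  · have b1 := log_cmp hΛ s
    have b2 := Ph_split n3 t
    have b3 := sub_le ht n4 le_rfl
    unfold ab
    linarith only [b1, b2, b3]
  · have b1 := log_le_log (by positivity) (show (2 : ℝ) ^ i / 2 ^ (44 * s) ≤ R l t from hh)
    rw [log_div (by positivity) (by positivity), log_pow, log_pow] at b1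
    have b2 := h3 l t
    have b3 := h2 i t
    have b4 := Ph_mono hi t
    rw [hl] at b2
    push_cast at b1
    have b5 : 44 * (s : ℝ) * log 2 ≤ 44 * s * 0.7 :=
      mul_le_mul_of_nonneg_left log2_le (by positivity)
    linarith only [b1, b2, b3, b4, b5, a1, a4, q, s1]
  · have b1 := h1 i (KK s) t (by omega)
    have b2 := sub_le ht (n4.trans hi) hk
    have b3 := sum_ge (Ico (Y i) (Y (i + KK s))) t
    have e : (KK s : ℝ) = 2 ^ (2 * s) := by rw [KK]; push_cast; rfl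
    rw [e] at b1
    have b4 : (2 : ℝ) ^ (2 * s) * 0.69 ≤ 2 ^ (2 * s) * log 2 :=
      mul_le_mul_of_nonneg_left log2_ge (by positivity)
    linarith only [b1, b2, b3, b4, p2, hp, sC, s1]
  · have hi' : 64 * s ≤ i := n4.trans hi
    have b1 := h1 (64 * s) (i - 64 * s) t (by omega)
    rw [Nat.add_sub_cancel' hi', Nat.cast_sub hi'] at b1
    have b2 := sub_le ht le_rfl hk
    have b3 := sum_ge (Ico (Y (64 * s)) (Y i)) t
    have b4 : ∑ m ∈ Ico (Y (64 * s)) (Y i), (bb m t ^ 2 - bb m t ^ 4) ≤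
        ∑ m ∈ Ico (2 ^ (128 * s)) (Y i), (bb m t ^ 2 - bb m t ^ 4) :=
      sum_le_sum_of_subset_of_nonneg (Ico_subset_Ico n6 le_rfl) fun m _ _ =>
        le_trans (by positivity) (term_ge m t)
    have b5 : (2 : ℝ) ^ (16 * s) ≤ i := by rw [← eN]; exact_mod_cast hi
    push_cast at b1
    have b6 : ((i : ℝ) - 64 * s) * 0.69 ≤ (i - 64 * s) * log 2 :=
      mul_le_mul_of_nonneg_left log2_ge (by linarith only [b5, p16, hp, s1])
    have b7 : ∑ k ∈ Ico (64 * s) i, |DD k t| ≤ 1 := b2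
    linarith only [b1, b7, b3, b4, b5, b6, p16, hp, sC, s1]
  · have hm' : N0 s ≤ m := by omega
    have b1 := h1 (N0 s) (m - N0 s) t (by omega)
    rw [Nat.add_sub_cancel' hm', Nat.cast_sub hm'] at b1
    have b2 := sub_le ht n4 hk
    have b5 : 3 * (N0 s : ℝ) ≤ 2 * m := by exact_mod_cast hm
    have b6 : ((m : ℝ) - N0 s) * 0.69 ≤ (m - N0 s) * log 2 :=
      mul_le_mul_of_nonneg_left log2_ge (sub_nonneg.2 (Nat.cast_le.2 hm'))
    linarith only [b1, b2, b5, b6, eN, p16, hp, sC, s1]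

end Pool.Agent.Lib.RX
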