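import Pool.Agent.Lib.RX.Kit0

/-! Project rx29: moments of the running maximum. -/

namespace Pool.Agent.Lib.RX

open Finset Real MeasureTheory Filter Topology Pool.Agent.Lib.RM67 Pool.Agent.Lib.RM67.T96

namespace HYP

theorem hypA {x : ℕ → ℝ} {F : List Bool → ℝ → ℝ} (hF : Rec x F) (q : ℕ) (l : List Bool)
    (k : ℕ) : ∀ u, av k (fun e => (F (e ++ l) u ^ 2) ^ q) ≤
      hy x (4 * q) (fun u => F l u ^ 2) l.length k u ^ q := by
  induction k with
  | zero => intro u; exact le_rfl
  | succ k ih =>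
    intro u
    have hρ : (0 : ℝ) ≤ 4 * q := by positivity
    have h0 := hy_nonneg x hρ (f := fun u => F l u ^ 2) (fun u => sq_nonneg _) l.length k
    refine le_trans (av_mono (n := k) fun e he => ?_) (mink (q := q)
      (F := fun e => F (e ++ l) u ^ 2)
      (G := fun e => 4 * q * x (l.length + k) ^ 2 *
        F (e ++ l) (u - log (l.length + k : ℕ)) ^ 2)
      (fun _ => sq_nonneg _) (fun _ => by positivity) (h0 _)
      (mul_nonneg (by positivity) (h0 _)) (ih u) ?_)
    · have h2 := two_pt (F (e ++ l) u)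
        (x (l.length + k) * F (e ++ l) (u - log (l.length + k : ℕ))) q
      simp only [List.cons_append, hF _ (e ++ l), List.length_append, he, add_comm k, sg_true,
        sg_false]
      rw [mul_pow (x _), ← mul_assoc] at h2
      refine le_trans (le_of_eq ?_) h2
      congr 4 <;> ring
    · simp only [mul_pow _ _ q, av_mul]
      exact mul_le_mul_of_nonneg_left (ih _) (by positivity)

/-- The increment since the given time. -/
noncomputable def Dn (F : List Bool → ℝ → ℝ) (n : ℕ) (u : ℝ) (t : List Bool) : ℝ := F t u - F (anc n t) u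

theorem Dn_cons {x : ℕ → ℝ} {F : List Bool → ℝ → ℝ} (hF : Rec x F) {n : ℕ} (u : ℝ) (b : Bool)
    {t : List Bool} (h : n ≤ t.length) :
    Dn F n u (b :: t) = Dn F n u t + sg b * (x t.length * F t (u - log t.length)) := by
  rw [Dn, Dn, anc_cons b h, hF]
  ring

theorem hypB {x : ℕ → ℝ} {F : List Bool → ℝ → ℝ} (hF : Rec x F) (q : ℕ) (l : List Bool)
    (k0 K : ℕ) (u : ℝ) (j : ℕ) : k0 + j ≤ K →
    av (k0 + j) (fun e => (Dn F (l.length + k0) u (e ++ l) ^ 2) ^ q) ≤
      (4 * q * ∑ k ∈ Ico k0 (k0 + j), x (l.length + k) ^ 2 *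
        hy x (4 * q) (fun u => F l u ^ 2) l.length K (u - log (l.length + k : ℕ))) ^ q := by
  have hρ : (0 : ℝ) ≤ 4 * q := by positivity
  have h0 := hy_nonneg x hρ (f := fun u => F l u ^ 2) (fun u => sq_nonneg _) l.length
  induction j with
  | zero =>
    intro _
    refine av_le fun e he => le_of_eq ?_
    rw [Dn, anc_of_le (by simp [he]; omega)]
    simp
  | succ j ih =>
    intro hj
    have h1 := ih (by omega)
    rw [← add_assoc, sum_Ico_succ_top (by omega), mul_add, ← mul_assoc]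
    refine le_trans (av_mono (n := k0 + j) fun e he => ?_) (mink (q := q)
      (F := fun e => Dn F (l.length + k0) u (e ++ l) ^ 2)
      (G := fun e => 4 * q * x (l.length + (k0 + j)) ^ 2 *
        F (e ++ l) (u - log (l.length + (k0 + j) : ℕ)) ^ 2)
      (fun _ => sq_nonneg _) (fun _ => by positivity)
      (mul_nonneg hρ (sum_nonneg fun k _ => mul_nonneg (sq_nonneg _) (h0 _ _)))
      (mul_nonneg (by positivity) (h0 _ _)) h1 ?_)
    · have hl : (e ++ l).length = l.length + (k0 + j) := by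
        rw [List.length_append, he, add_comm]
      have h2 := two_pt (Dn F (l.length + k0) u (e ++ l))
        (x (l.length + (k0 + j)) * F (e ++ l) (u - log (l.length + (k0 + j) : ℕ))) q
      rw [mul_pow (x _), ← mul_assoc] at h2
      refine le_trans (le_of_eq ?_) h2
      simp only [List.cons_append]
      rw [Dn_cons hF u true (by omega), Dn_cons hF u false (by omega), hl, sg_true, sg_false]
      congr 4 <;> ring
    · simp only [mul_pow _ _ q, av_mul]
      refine mul_le_mul_of_nonneg_left ((hypA hF q l _ _).trans ?_) (by positivity)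
      exact pow_le_pow_left₀ (h0 _ _)
        (hy_mono x hρ (f := fun u => F l u ^ 2) (fun u => sq_nonneg _) l.length _
          (show k0 + j ≤ K by omega)) q

theorem mx_start (F : List Bool → ℝ → ℝ) (u : ℝ) {n : ℕ} :
    ∀ {t : List Bool}, t.length ≤ n → mx F n t u = 0
  | [], _ => rfl
  | _ :: _, h => if_pos h

theorem step {x : ℕ → ℝ} {F : List Bool → ℝ → ℝ} (hF : Rec x F) (q n : ℕ) (u : ℝ)
    {t : List Bool} (h : n ≤ t.length) :
    ((2 * (√(mx F n (true :: t) u) ^ q) ^ 2 -
        4 * |Dn F n u (true :: t)| ^ q * √(mx F n (true :: t) u) ^ q) +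
      (2 * (√(mx F n (false :: t) u) ^ q) ^ 2 -
        4 * |Dn F n u (false :: t)| ^ q * √(mx F n (false :: t) u) ^ q)) / 2 ≤
      2 * (√(mx F n t u) ^ q) ^ 2 - 4 * |Dn F n u t| ^ q * √(mx F n t u) ^ q := by
  have hm : 0 ≤ √(mx F n t u) ^ q := by positivity
  have a : ∀ b, 2 * (√(mx F n (b :: t) u) ^ q) ^ 2 -
      4 * |Dn F n u (b :: t)| ^ q * √(mx F n (b :: t) u) ^ q ≤
      2 * (√(mx F n t u) ^ q) ^ 2 - 4 * |Dn F n u (b :: t)| ^ q * √(mx F n t u) ^ q := by
    intro b
    have e : mx F n (b :: t) u = max (mx F n t u) (Dn F n u (b :: t) ^ 2) := by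
      rw [mx, if_neg (not_lt.2 h), Dn, anc_cons b h]
    rw [e]
    rcases le_total (mx F n t u) (Dn F n u (b :: t) ^ 2) with h1 | h1
    · rw [max_eq_right h1, sqrt_sq_eq_abs]
      nlinarith [sq_nonneg (|Dn F n u (b :: t)| ^ q - √(mx F n t u) ^ q)]
    · rw [max_eq_left h1]
  have c : |Dn F n u t| ^ q ≤
      1 / 2 * |Dn F n u (true :: t)| ^ q + 1 / 2 * |Dn F n u (false :: t)| ^ q := by
    refine le_trans ?_ ((convexOn_pow (𝕜 := ℝ) q).2 (abs_nonneg (Dn F n u (true :: t)))
      (abs_nonneg (Dn F n u (false :: t))) (show (0 : ℝ) ≤ 1 / 2 by norm_num)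
      (show (0 : ℝ) ≤ 1 / 2 by norm_num) (by norm_num))
    refine pow_le_pow_left₀ (abs_nonneg _) ?_ q
    have e : Dn F n u t = 1 / 2 * Dn F n u (true :: t) + 1 / 2 * Dn F n u (false :: t) := by
      rw [Dn_cons hF u true h, Dn_cons hF u false h, sg_true, sg_false]
      ring
    have h3 := abs_add_le (1 / 2 * Dn F n u (true :: t)) (1 / 2 * Dn F n u (false :: t))
    rw [← e, abs_mul, abs_mul, abs_of_pos (show (0 : ℝ) < 1 / 2 by norm_num)] at h3
    simpa only [smul_eq_mul] using h3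
  have := mul_le_mul_of_nonneg_right c hm
  have a1 := a true
  have a2 := a false
  linarith

end HYP

open HYP in
theorem st_HYP : St_HYP := by
  intro x F hF q hq l k0 k1 K h01 h1K u
  obtain ⟨j, rfl⟩ := Nat.exists_eq_add_of_le h01
  set n := l.length + k0 with hn
  let U : List Bool → ℝ := fun t =>
    2 * (√(mx F n t u) ^ q) ^ 2 - 4 * |Dn F n u t| ^ q * √(mx F n t u) ^ q
  have h1 : av (k0 + j) (fun e => U (e ++ l)) ≤ av k0 (fun e => U (e ++ l)) :=
    av_sup k0 j (fun e => U (e ++ l)) fun e he _ =>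
      step hF q n u (t := e ++ l) (by rw [List.length_append]; omega)
  have h2 : av k0 (fun e => U (e ++ l)) ≤ 0 := by
    refine av_le fun e he => le_of_eq ?_
    have : mx F n (e ++ l) u = 0 := mx_start F u (by rw [List.length_append]; omega)
    simp only [U, this, sqrt_zero, zero_pow (show q ≠ 0 by omega)]
    ring
  have h3 := hypB hF q l k0 K u j h1K
  have h4 : av (k0 + j) (fun e => mx F n (e ++ l) u ^ q) ≤
      av (k0 + j) fun e => 4 * (Dn F n u (e ++ l) ^ 2) ^ q + U (e ++ l) := by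
    refine av_mono fun e _ => ?_
    have e1 : mx F n (e ++ l) u ^ q = (√(mx F n (e ++ l) u) ^ q) ^ 2 := by
      rw [← pow_mul, mul_comm, pow_mul, sq_sqrt (mx_nonneg F n u _)]
    have e2 : (Dn F n u (e ++ l) ^ 2) ^ q = (|Dn F n u (e ++ l)| ^ q) ^ 2 := by
      rw [← sq_abs, ← pow_mul, mul_comm, pow_mul]
    rw [e1, e2]
    simp only [U]
    nlinarith [sq_nonneg (√(mx F n (e ++ l) u) ^ q - 2 * |Dn F n u (e ++ l)| ^ q)]
  rw [av_add, av_mul] at h4
  have h5 : (4 : ℝ) ≤ 4 ^ q := le_self_pow₀ (by norm_num) (by omega)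
  have hρ : (0 : ℝ) ≤ 4 * q := by positivity
  have h0 := hy_nonneg x hρ (f := fun u => F l u ^ 2) (fun u => sq_nonneg _) l.length
  set S := ∑ k ∈ Ico k0 (k0 + j), x (l.length + k) ^ 2 *
    hy x (4 * q) (fun u => F l u ^ 2) l.length K (u - log (l.length + k : ℕ)) with hS
  have hS0 : 0 ≤ S := sum_nonneg fun k _ => mul_nonneg (sq_nonneg _) (h0 _ _)
  have h6 : 0 ≤ (4 * q * S) ^ q := by positivity
  rw [show 16 * q * S = 4 * (4 * q * S) by ring, mul_pow]
  nlinarith

end Pool.Agent.Lib.RX
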