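import Pool.Agent.Lib.RX.Kit2

/-! Project rx29, block INI: the initial value. -/

namespace Pool.Agent.Lib.RX

open Finset Real MeasureTheory Filter Topology Pool.Agent.Lib.RM67 Pool.Agent.Lib.RM67.T96

namespace INI

theorem norm_g0 {T σ B : ℝ} (hT : 0 < T) (hσ : σ ≤ 1 / 4) (l : List Bool) (v : ℝ)
    (hB : ∫ t, ‖Ec σ l t‖ ^ 2 * dens t ≤ B) : ‖g0 T σ Set.univ l v‖ ≤ T / 4 + 2 * B := by
  have hc : 0 < T + (1 / 2 - σ) := by linarith
  have i1 := (ker_int hc).const_mul (T ^ 2)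
  have i2 := Phi_int2 hT hσ MeasurableSet.univ l
  have i3 := aa_int hT (show 0 ≤ 1 / 2 - σ by linarith)
    (Phi_int hT (show σ < 1 / 2 by linarith) MeasurableSet.univ l)
  have h1 : ∫ t, ‖aa T (1 / 2 - σ) t * Phi T σ Set.univ l t‖ ≤
      ∫ t, 2⁻¹ * (T ^ 2 * RM67.ker (T + (1 / 2 - σ)) t + ‖Phi T σ Set.univ l t‖ ^ 2) :=
    integral_mono i3.norm ((i1.add i2).const_mul _) fun t => by
      simp only [norm_mul, ← aa_sq]
      nlinarith [sq_nonneg (‖aa T (1 / 2 - σ) t‖ - ‖Phi T σ Set.univ l t‖)]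
  rw [integral_const_mul, integral_add i1 i2, integral_const_mul, int_ker hc] at h1
  have h2 := Phi_norm2 hT hσ MeasurableSet.univ l
  rw [Measure.restrict_univ] at h2
  have h3 : T ^ 2 * (π / (T + (1 / 2 - σ))) ≤ π * T := by
    rw [← mul_div_assoc, div_le_iff₀ hc]
    nlinarith [mul_nonneg (mul_pos pi_pos hT).le (show 0 ≤ 1 / 2 - σ by linarith)]
  have h4 := mul_le_mul_of_nonneg_left hB (by positivity : 0 ≤ 8 * π)
  refine (norm_II _ _).trans ?_
  rw [inv_mul_le_iff₀ (by positivity)]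
  linarith

theorem alg {a : ℝ} (ha : a ≠ 0) (b c : ℝ) :
    1 / (8 * a) * (a * (2 ^ 13 * b) * c) = 1024 * (b * c) := by
  field_simp; ring

end INI

theorem st_INI (h : St_SSE) : St_INI := by
  filter_upwards [ev_par0] with s ⟨h1, h2, h3, _⟩ z n v h4 h5 h6 h7
  have hj : n - J0 s ∈ JJ s := mem_Ico.2 (by omega)
  have hT := TT_pos s
  have k1 := INI.norm_g0 hT (sig_le (n - J0 s)) (L z (Y (n - J0 s))) v (h4 _ hj 0 zero_le_one)
  have k2 : (2 : ℝ) ^ (n - J0 s) * 2 ^ (48 * s) * 2 ^ 2 ≤ TT s := by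
    rw [← pow_add, ← pow_add, TT]
    have := NE_eq s
    exact pow_le_pow_right₀ one_le_two (by omega)
  have k3 : TT s ≤ exp (sig (n - J0 s) * v) := by
    have e : (2 : ℝ) ^ n = 2 ^ (n - J0 s) * (2 ^ 13 * NE s) := by
      rw [NE, Nat.cast_pow, Nat.cast_ofNat, ← pow_add, ← pow_add]
      congr 1
      unfold J0 at h2 ⊢
      omega
    have p : (0 : ℝ) ≤ NE s * log 2 := mul_nonneg (Nat.cast_nonneg _) (log_nonneg one_le_two)
    rw [← log_le_iff_le_exp hT, TT, log_pow]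
    refine le_trans ?_ (mul_le_mul_of_nonneg_left h7 (sig_pos _).le)
    rw [e, sig, INI.alg (by positivity), Nat.cast_mul, Nat.cast_ofNat]
    linarith
  rw [h _ _ _ _ hT (sig_lt (n - J0 s)), abs_mul, abs_of_pos (exp_pos _)]
  calc _ ≤ exp ((1 / 2 - sig (n - J0 s)) * v) * exp (sig (n - J0 s) * v) :=
        mul_le_mul_of_nonneg_left ((Complex.abs_re_le_norm _).trans (k1.trans (by linarith)))
          (exp_pos _).le
    _ = _ := by rw [← exp_add]; congr 1; ring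

end Pool.Agent.Lib.RX
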