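import Pool.Agent.Lib.RX.Kit2

/-! Project rx29: the quadratic variation on one block. -/

namespace Pool.Agent.Lib.RX

open Finset Real MeasureTheory Filter Topology Pool.Agent.Lib.RM67 Pool.Agent.Lib.RM67.T96

namespace KV

theorem two_cos (a : ℝ) : ee (-a) + ee a = ((2 * cos a : ℝ) : ℂ) := by
  apply Complex.ext
  · rw [Complex.add_re, ee_re, ee_re, Complex.ofReal_re, cos_neg]; ring
  · rw [Complex.add_im, ee_im, ee_im, Complex.ofReal_im, sin_neg]; ring

theorem cos_id {G : ℝ → ℝ} (hG : Integrable G) (γ : ℝ) (n : ℕ) (z : ℝ) :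
    ∫ t, ((G t * (γ * bb n t) : ℝ) : ℂ) * ee (t * z) = ((γ * be n / 2 : ℝ) : ℂ) *
      ((∫ t, (G t : ℂ) * ee (t * (z - log n))) + ∫ t, (G t : ℂ) * ee (t * (z + log n))) := by
  have h : Integrable fun t => (G t : ℂ) := hG.ofReal
  rw [← integral_add (ee_int h _) (ee_int h _), ← integral_const_mul]
  congr 1
  funext t
  have a : ee (t * (z - log n)) = ee (t * z) * ee (-(log n * t)) := by
    rw [← ee_add]; congr 1; ring
  have b : ee (t * (z + log n)) = ee (t * z) * ee (log n * t) := by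
    rw [← ee_add]; congr 1; ring
  rw [a, b, ← mul_add, ← mul_add, two_cos, bb]
  simp only [Complex.ofReal_mul, Complex.ofReal_div, Complex.ofReal_ofNat]
  ring

theorem abs_gb {γ : ℝ} (hγ : |γ| ≤ 2) (n : ℕ) (t : ℝ) : |γ * bb n t| ≤ 2 := by
  have h1 : |bb n t| ≤ 1 := by
    rw [← sq_le_one_iff_abs_le_one]; linarith [bb_sq_le n t]
  rw [abs_mul]
  exact (mul_le_of_le_one_right (abs_nonneg _) h1).trans hγ

theorem gb_int {G : ℝ → ℝ} (hG : Integrable G) {γ : ℝ} (hγ : |γ| ≤ 2) (n : ℕ) :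
    Integrable fun t => G t * (γ * bb n t) :=
  hG.mul_bdd (c := 2) (continuous_const.mul (bb_cont n)).aestronglyMeasurable
    (Eventually.of_forall (abs_gb hγ n))

theorem x_sq {γ : ℝ} (hγ : |γ| ≤ 2) (n : ℕ) : (γ * be n / 2) ^ 2 ≤ 4 * r n := by
  have h1 : γ ^ 2 ≤ 4 := by
    rw [← sq_abs]; nlinarith [abs_nonneg γ]
  have h2 := (be_sq_le n).2.1
  have h3 := mul_le_mul h1 h2 (sq_nonneg _) (by norm_num)
  rw [div_pow, mul_pow]
  linarith

theorem coef_le {G : ℝ → ℝ} (hG : Integrable G) {γ : ℝ} (hγ : |γ| ≤ 2) (n : ℕ) :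
    (∫ t, G t * (γ * bb n t)) ^ 2 ≤ 8 * (r n * (‖∫ t, (G t : ℂ) * ee (t * (0 - log n))‖ ^ 2 +
      ‖∫ t, (G t : ℂ) * ee (t * (0 + log n))‖ ^ 2)) := by
  have h := cos_id hG γ n 0
  simp only [mul_zero, ee_zero, mul_one, integral_complex_ofReal] at h
  have h1 := congrArg (fun z : ℂ => ‖z‖ ^ 2) h
  simp only [norm_mul, mul_pow, Complex.norm_real, norm_eq_abs, sq_abs] at h1
  set p := ∫ t, (G t : ℂ) * ee (t * (0 - log n))
  set q := ∫ t, (G t : ℂ) * ee (t * (0 + log n))
  have h2 : ‖p + q‖ ^ 2 ≤ 2 * (‖p‖ ^ 2 + ‖q‖ ^ 2) := by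
    have := pow_le_pow_left₀ (norm_nonneg _) (norm_add_le p q) 2
    nlinarith [sq_nonneg (‖p‖ - ‖q‖)]
  have h3 := mul_le_mul (x_sq hγ n) h2 (sq_nonneg _) (by have := r_nonneg n; positivity)
  rw [h1]
  linarith

theorem en_le (s i : ℕ) (l : List Bool) :
    En (2 ^ i) ((gd s \ lo0 s i l).indicator fun t => R l t * dens t) ≤
      ∫ t in gd s \ lo0 s i l, R l t * mu i l t * dens t := by
  have hA : MeasurableSet (gd s \ lo0 s i l) := (gd_meas s).diff (lo0_meas s i l)
  have p : ∀ t, 0 ≤ R l t * dens t := fun t => (mul_pos (R_pos t l) (dens_pos t)).le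
  have g0 : ∀ t, 0 ≤ (gd s \ lo0 s i l).indicator (fun t => R l t * dens t) t := fun t =>
    Set.indicator_nonneg (fun t _ => p t) t
  have g1 : ∀ t, (gd s \ lo0 s i l).indicator (fun t => R l t * dens t) t ≤ R l t * dens t :=
    fun t => Set.indicator_le_self' (fun t _ => p t) t
  rw [← integral_indicator hA, En]
  refine integral_mono_of_nonneg (Eventually.of_forall fun t => mul_nonneg (g0 t)
    (integral_nonneg fun t' => div_nonneg (g0 t') (by positivity))) ?_
    (Eventually.of_forall fun t => ?_)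
  · refine ((R_int l).mul_const (1 / 2 ^ (12 * s))).mono'
      ((((R_cont l).mul (mu_cont i l)).mul dens_cont).measurable.indicator hA).aestronglyMeasurable
      (Eventually.of_forall fun t => ?_)
    by_cases h : t ∈ gd s \ lo0 s i l
    · have h1 : mu i l t ≤ 1 / 2 ^ (12 * s) := not_lt.1 h.2
      rw [Set.indicator_of_mem h, mul_right_comm,
        norm_of_nonneg (mul_nonneg (p t) (mu_nonneg i l t))]
      exact mul_le_mul_of_nonneg_left h1 (p t)
    · rw [Set.indicator_of_notMem h, norm_zero]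
      exact mul_nonneg (p t) (by positivity)
  · by_cases h : t ∈ gd s \ lo0 s i l
    · simp only [Set.indicator_of_mem h]
      rw [mul_right_comm _ (mu i l t)]
      refine mul_le_mul_of_nonneg_left (integral_mono_of_nonneg (Eventually.of_forall fun t' =>
        div_nonneg (g0 t') (by positivity)) (mu_int i l t) (Eventually.of_forall fun t' => ?_)) (p t)
      simp only [div_mul_eq_mul_div]
      exact div_le_div_of_nonneg_right (g1 t') (by positivity)
    · simp [Set.indicator_of_notMem h]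

end KV

open KV in
theorem st_KV (h1 : St_VAR) (h2 : St_SE) (h3 : St_EN) (h4 : St_LOW) : St_KV := by
  obtain ⟨C, hC, h2⟩ := h2
  refine ⟨32 * 6 ^ 20 * C, by positivity, ?_⟩
  filter_upwards [ev_par0] with s ⟨p1, p2, p3, _⟩ i hi l0 γ w F hl hγ hw hF hrec hb
  have hi1 := (mem_Icc.1 hi).1
  have hi2 : i < 2 ^ i := Nat.lt_two_pow_self
  have hA : MeasurableSet (gd s \ lo0 s i l0) := (gd_meas s).diff (lo0_meas s i l0)
  have gI := (R_int l0).indicator hA
  have hY : Y i + (Y (i + 1) - Y i) = Y (i + 1) := Nat.add_sub_cancel' (Y_mono (Nat.le_succ i))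
  have hc : ∀ b e t, w t * F (b :: e ++ l0) t = w t * F (e ++ l0) t +
      sg b * (w t * F (e ++ l0) t * (γ * bb (Y i + e.length) t)) := fun b e t => by
    rw [List.cons_append, hrec b _ t (by simp), List.length_append, hl, add_comm e.length]
    ring
  have hG : ∀ e, Integrable fun t => w t * F (e ++ l0) t := by
    intro e
    induction e with
    | nil => exact gI.mono' (hw.mul (hF _)).aestronglyMeasurable (Eventually.of_forall hb)
    | cons b e ih =>
      simp only [hc]
      exact ih.add ((gb_int ih hγ _).const_mul _)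
  have f0 : Integrable fun t => ((w t * F ([] ++ l0) t : ℝ) : ℂ) := (hG []).ofReal
  have hS := fun v => h2 (2 ^ i) (2 ^ (32 * s)) (2 ^ (i + 1)) v (Ico (Y i) (Y i + (Y (i + 1) - Y i)))
    _ (by omega) (le_self_pow₀ one_le_two (by omega))
    (by rw [← pow_mul]; exact pow_le_pow_right₀ one_le_two (by omega)) (one_le_pow₀ one_le_two)
    (fun n hn => ⟨(mem_Ico.1 hn).1, by
      rw [hY] at hn
      refine (log_mem hn).2.trans ?_
      push_cast
      exact mul_le_of_le_one_right (by positivity) (by linarith [log_two_lt_d9])⟩) f0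
    fun t ht => by
      have := hb t
      rw [Set.indicator_of_notMem fun h => (not_le.2 ht) h.1.1] at this
      rw [List.nil_append, abs_nonpos_iff.1 this, Complex.ofReal_zero]
  have hV := (h1 ℝ id (fun _ z => z) (fun n z => z - log n) (fun n z => z + log n) (fun _ => 0)
    (fun n => γ * be n / 2) (fun e h => ∫ t, ((w t * F (e ++ l0) t : ℝ) : ℂ) * ee (t * h)) (Y i)
    (Y (i + 1) - Y i) (fun v => ‖∫ t, ((w t * F ([] ++ l0) t : ℝ) : ℂ) * ee (t * v)‖ ^ 2) _
    (fun _ _ => ⟨rfl, rfl, rfl⟩)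
    (fun n _ => ⟨le_rfl, by have := r_nonneg n; positivity, x_sq hγ n⟩)
    (fun b e z => by
      have a : Integrable fun t => ((w t * F (e ++ l0) t : ℝ) : ℂ) := (hG e).ofReal
      have c : Integrable fun t =>
          ((w t * F (e ++ l0) t * (γ * bb (Y i + e.length) t) : ℝ) : ℂ) := (gb_int (hG e) hγ _).ofReal
      rw [Complex.ofReal_zero, zero_mul, add_zero, Complex.ofReal_mul (sg b), mul_assoc,
        ← cos_id (hG e), ← integral_const_mul,
        ← integral_add (ee_int a z) ((ee_int c z).const_mul _)]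
      congr 1
      funext t
      rw [hc, Complex.ofReal_add, Complex.ofReal_mul (sg b)]
      ring)
    (fun _ => le_rfl) (fun _ => sq_nonneg _) hS).1 0 (fun n => 0 - log n) (fun n => 0 + log n)
    fun _ => ⟨rfl, rfl⟩
  have hE : En (2 ^ (i + 1)) (fun t => ‖((w t * F ([] ++ l0) t : ℝ) : ℂ)‖) ≤
      2 * Mx s i l0 / 2 ^ (12 * s) :=
    ((h3.1 _ (2 ^ i) _ _ (by positivity) (pow_le_pow_right₀ one_le_two (Nat.le_succ i)) f0.norm gI
      (fun _ => norm_nonneg _) fun t => by rw [Complex.norm_real]; exact hb t).trans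
      (en_le s i l0)).trans (h4 s i l0).2.2
  have hX : exp (20 * ∑ n ∈ Ico (Y i) (Y i + (Y (i + 1) - Y i)), r n) ≤ 6 ^ 20 := by
    have := sr_blk (a := i) (b := i + 1) (by omega) (Nat.le_succ i)
    rw [Nat.add_sub_cancel_left] at this
    rw [hY, show (20 : ℝ) = (20 : ℕ) by norm_num, exp_nat_mul]
    exact pow_le_pow_left₀ (exp_pos _).le (by linarith) 20
  have hM := Mx_nonneg s i l0
  have e2 : C * 2 ^ (i + 1) / ((2 ^ i : ℕ) : ℝ) = 2 * C := by
    push_cast
    rw [pow_succ]
    field_simp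
  rw [e2] at hV
  calc _ ≤ ∑ k ∈ range (Y (i + 1) - Y i), 8 * (r (Y i + k) * av k fun e =>
        ‖∫ t, ((w t * F (e ++ l0) t : ℝ) : ℂ) * ee (t * (0 - log (Y i + k : ℕ)))‖ ^ 2 +
          ‖∫ t, ((w t * F (e ++ l0) t : ℝ) : ℂ) * ee (t * (0 + log (Y i + k : ℕ)))‖ ^ 2) := by
        refine sum_le_sum fun k _ => ?_
        rw [← av_mul, ← av_mul]
        exact av_mono fun e _ => coef_le (hG e) hγ _
    _ ≤ 8 * (6 ^ 20 * (2 * C * (2 * Mx s i l0 / 2 ^ (12 * s)))) := by
        rw [← mul_sum]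
        refine mul_le_mul_of_nonneg_left (hV.trans ?_) (by norm_num)
        exact (mul_le_mul_of_nonneg_left (mul_le_mul_of_nonneg_left hE (by positivity))
          (exp_pos _).le).trans (mul_le_mul_of_nonneg_right hX (by positivity))
    _ = _ := by ring

end Pool.Agent.Lib.RX
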