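import Pool.Agent.Lib.RX.Kit0

/-! Project rx29: the smoothed sum is an average of sharp sums. -/

namespace Pool.Agent.Lib.RX

open Finset Real MeasureTheory Filter Topology Pool.Agent.Lib.RM67 Pool.Agent.Lib.RM67.T96

noncomputable section

namespace LINK

/-- The density of the smoothing. -/
def kd (T w : ℝ) : ℝ := 2 * (1 - exp (-(T * w))) * (T * exp (-(T * w)))

theorem kd_deriv (T w : ℝ) : HasDerivAt (fun w => (1 - exp (-(T * w))) ^ 2) (kd T w) w := by
  have h : HasDerivAt (fun w => exp (-(T * w))) (exp (-(T * w)) * -T) w := by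
    simpa using ((hasDerivAt_id w).const_mul T).neg.exp
  refine ((h.const_sub 1).pow 2).congr_deriv ?_
  simp only [kd, Nat.cast_ofNat, Nat.add_one_sub_one, pow_one]
  ring

theorem kd_nonneg {T w : ℝ} (hT : 0 < T) (hw : 0 ≤ w) : 0 ≤ kd T w := by
  have : exp (-(T * w)) ≤ 1 := exp_le_one_iff.2 (neg_nonpos.2 (mul_nonneg hT.le hw))
  exact mul_nonneg (by linarith) (by positivity)

theorem kd_lim {T : ℝ} (hT : 0 < T) :
    Tendsto (fun w => (1 - exp (-(T * w))) ^ 2) atTop (𝓝 1) := by
  have h : Tendsto (fun w => exp (-(T * w))) atTop (𝓝 0) :=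
    tendsto_exp_neg_atTop_nhds_zero.comp (tendsto_id.const_mul_atTop hT)
  simpa using (h.const_sub 1).pow 2

theorem kd_int {T a : ℝ} (hT : 0 < T) (ha : 0 ≤ a) : IntegrableOn (kd T) (Set.Ioi a) :=
  integrableOn_Ioi_deriv_of_nonneg' (fun w _ => kd_deriv T w)
    (fun _ hw => kd_nonneg hT (ha.trans (le_of_lt hw))) (kd_lim hT)

theorem kd_val {T a : ℝ} (hT : 0 < T) (ha : 0 ≤ a) :
    ∫ w in Set.Ioi a, kd T w = 1 - (1 - exp (-(T * a))) ^ 2 :=
  integral_Ioi_of_hasDerivAt_of_nonneg' (fun w _ => kd_deriv T w)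
    (fun _ hw => kd_nonneg hT (ha.trans (le_of_lt hw))) (kd_lim hT)

theorem kd_ind {T a : ℝ} (hT : 0 < T) (ha : 0 ≤ a) :
    ∫ w in Set.Ioi 0, (Set.Ioi a).indicator (kd T) w = 1 - (1 - exp (-(T * a))) ^ 2 := by
  rw [setIntegral_indicator measurableSet_Ioi, Set.Ioi_inter_Ioi, sup_eq_right.2 ha, kd_val hT ha]

theorem psi_bd : ∀ (l : List Bool) (z : ℕ), |Psi l z| ≤ 2 ^ l.length
  | [], z => by
    rw [Psi]
    split_ifs <;> simp
  | b :: l, z => by
    rw [Psi, List.length_cons, pow_succ]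
    refine (abs_add_le _ _).trans ?_
    rw [abs_mul, abs_sg]
    linarith [psi_bd l z, psi_bd l (z / d l.length)]

theorem psi_int {T : ℝ} (hT : 0 < T) (l : List Bool) (v : ℝ) :
    IntegrableOn (fun w => kd T w * Psi l ⌊exp (v - w)⌋₊) (Set.Ioi 0) := by
  have m : Measurable fun w => Psi l ⌊exp (v - w)⌋₊ :=
    (measurable_from_top (f := Psi l)).comp
      (Nat.measurable_floor.comp (measurable_exp.comp (measurable_const.sub measurable_id)))
  exact (kd_int hT le_rfl).mul_bdd m.aestronglyMeasurable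
    (Eventually.of_forall fun w => psi_bd l _)

theorem link {T : ℝ} (hT : 0 < T) : ∀ (l : List Bool) (v : ℝ),
    SS T l v = ∫ w in Set.Ioi 0, kd T w * Psi l ⌊exp (v - w)⌋₊
  | [], v => by
    have e : ∀ w, kd T w * Psi [] ⌊exp (v - w)⌋₊ = kd T w - (Set.Ioi v).indicator (kd T) w := by
      intro w
      rw [Psi, Set.indicator_apply]
      by_cases h : v < w
      · rw [if_neg, if_pos (Set.mem_Ioi.2 h)]
        · simp
        · rw [Nat.one_le_floor_iff, one_le_exp_iff]
          linarith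
      · rw [if_pos, if_neg (fun k => h (Set.mem_Ioi.1 k))]
        · simp
        · rw [Nat.one_le_floor_iff, one_le_exp_iff]
          linarith
    simp only [e, SS, Kf]
    split_ifs with h
    · rw [integral_sub (kd_int hT le_rfl) ((kd_int hT le_rfl).indicator measurableSet_Ioi),
        kd_ind hT h, kd_val hT le_rfl]
      simp
    · refine (setIntegral_eq_zero_of_forall_eq_zero fun w hw => ?_).symm
      rw [Set.indicator_of_mem (Set.mem_Ioi.2 ((not_le.1 h).trans (Set.mem_Ioi.1 hw))), sub_self]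
  | b :: l, v => by
    rw [SS, link hT l v]
    split_ifs with h
    · have e : ∀ w, kd T w * Psi (b :: l) ⌊exp (v - w)⌋₊ = kd T w * Psi l ⌊exp (v - w)⌋₊ +
          sg b * (kd T w * Psi l ⌊exp (v - log l.length - w)⌋₊) := by
        intro w
        have p : (0 : ℝ) < l.length := by exact_mod_cast h.pos
        rw [Psi, d, if_pos h, ← Nat.floor_div_natCast, sub_right_comm, exp_sub _ (log _), exp_log p]
        ring
      simp only [e]
      rw [integral_add (psi_int hT l v) ((psi_int hT l _).const_mul _), integral_const_mul,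
        link hT l]
    · simp [Psi, d, h]

end LINK

open LINK in
theorem st_LINK : St_LINK := by
  intro T l v y δ τ M hT hδ h1 h2
  have hτ : 0 ≤ τ := (abs_nonneg _).trans (h1 0 le_rfl hδ)
  have hM : 0 ≤ M := (abs_nonneg _).trans (h2 0 (by simpa using (exp_pos v).le))
  have i0 := kd_int hT (le_refl (0 : ℝ))
  have v0 : ∫ w in Set.Ioi 0, kd T w = 1 := by simpa using kd_val hT (le_refl (0 : ℝ))
  have e : SS T l v - y = ∫ w in Set.Ioi 0, (kd T w * Psi l ⌊exp (v - w)⌋₊ - kd T w * y) := by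
    rw [integral_sub (psi_int hT l v) (i0.mul_const y), integral_mul_const, v0, link hT, one_mul]
  have i1 := (i0.indicator (measurableSet_Ioi (a := δ))).mul_const M
  have b : ∀ w ∈ Set.Ioi (0 : ℝ), ‖kd T w * Psi l ⌊exp (v - w)⌋₊ - kd T w * y‖ ≤
      kd T w * τ + (Set.Ioi δ).indicator (kd T) w * M := by
    intro w hw
    have hw0 : 0 ≤ w := le_of_lt hw
    have k0 := kd_nonneg hT hw0
    rw [← mul_sub, norm_eq_abs, abs_mul, abs_of_nonneg k0]
    by_cases h : δ < w
    · rw [Set.indicator_of_mem (Set.mem_Ioi.2 h)]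
      have := mul_le_mul_of_nonneg_left (h2 ⌊exp (v - w)⌋₊
        ((Nat.floor_le (exp_pos _).le).trans (exp_le_exp.2 (by linarith)))) k0
      linarith [mul_nonneg k0 hτ]
    · rw [Set.indicator_of_notMem (fun k => h (Set.mem_Ioi.1 k)), zero_mul, add_zero]
      exact mul_le_mul_of_nonneg_left (h1 w hw0 (not_lt.1 h)) k0
  have n := norm_integral_le_of_norm_le ((i0.mul_const τ).add i1)
    ((ae_restrict_iff' measurableSet_Ioi).2 (Eventually.of_forall b))
  simp only [Pi.add_apply] at n
  rw [integral_add (i0.mul_const τ) i1, integral_mul_const, integral_mul_const, v0, kd_ind hT hδ,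
    ← e, norm_eq_abs] at n
  have := mul_nonneg (sq_nonneg (exp (-(T * δ)))) hM
  nlinarith

end

end Pool.Agent.Lib.RX
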