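import Pool.Agent.Lib.RX.Kit2

/-! Project rx29: from the grid to all points. -/

namespace Pool.Agent.Lib.RX

open Finset Real MeasureTheory Filter Topology Pool.Agent.Lib.RM67 Pool.Agent.Lib.RM67.T96

noncomputable section

namespace LIP

theorem ee_lip (x y : ℝ) : ‖ee x - ee y‖ ≤ |x - y| := by
  have e : ee x - ee y = ee y * (ee (x - y) - 1) := by
    rw [mul_sub, ← ee_add, mul_one, add_sub_cancel]
  rw [e, norm_mul, norm_ee, one_mul, ee, mul_comm]
  exact Real.norm_exp_I_mul_ofReal_sub_one_le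

/-- A function with narrow spectrum has a slowly varying modulus. -/
theorem slow {Ψ : ℝ → ℂ} (h : Integrable Ψ) {a w : ℝ} (hs : ∀ t, Ψ t ≠ 0 → |t - a| ≤ w)
    (v v' : ℝ) : ‖II Ψ v‖ ≤ ‖II Ψ v'‖ + (2 * π)⁻¹ * (w * |v - v'| * ∫ t, ‖Ψ t‖) := by
  have e : II Ψ v = ee (a * (v - v')) * II Ψ v' +
      (2 * π : ℝ)⁻¹ * ∫ t, Ψ t * (ee (t * v) - ee (a * (v - v') + t * v')) := by
    simp only [II, mul_sub (Ψ _), ee_add, mul_left_comm (Ψ _) (ee (a * _))]
    rw [integral_sub (ee_int h v) ((ee_int h v').const_mul _), integral_const_mul]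
    ring
  rw [e]
  refine (norm_add_le _ _).trans (add_le_add (by simp) ?_)
  rw [norm_mul, Complex.norm_real, norm_of_nonneg (by positivity), ← integral_const_mul]
  refine mul_le_mul_of_nonneg_left (norm_integral_le_of_norm_le (h.norm.const_mul _)
    (Eventually.of_forall fun t => ?_)) (by positivity)
  by_cases h0 : Ψ t = 0
  · simp [h0]
  · rw [norm_mul, mul_comm]
    refine mul_le_mul_of_nonneg_right ((ee_lip _ _).trans ?_) (norm_nonneg _)
    rw [show t * v - (a * (v - v') + t * v') = (t - a) * (v - v') by ring, abs_mul]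
    exact mul_le_mul_of_nonneg_right (hs t h0) (abs_nonneg _)

theorem l1 {T σ : ℝ} {A : Set ℝ} (hT : 0 < T) (hσ : σ ≤ 1 / 4) (hA : MeasurableSet A)
    (l : List Bool) {a w c B : ℝ} (hw : 0 ≤ w) (hc : 0 < c) (hs : A ⊆ Set.Ico a (a + w))
    (hB : ∫ t, ‖Ec σ l t‖ ^ 2 * dens t ≤ B) :
    ∫ t, ‖Phi T σ A l t‖ ≤ (c * w + 8 * π * B / c) / 2 := by
  have i1 : Integrable ((Set.Ico a (a + w)).indicator fun _ : ℝ => c) :=
    (integrableOn_const (by simp)).integrable_indicator measurableSet_Ico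
  have i2 := Phi_int2 hT hσ hA l
  have h1 : ∫ t, ‖Phi T σ A l t‖ ^ 2 ≤ 8 * π * B := by
    refine (Phi_norm2 hT hσ hA l).trans (mul_le_mul_of_nonneg_left (le_trans ?_ hB) (by positivity))
    exact setIntegral_le_integral (Ec_int σ l) (Eventually.of_forall fun t =>
      mul_nonneg (sq_nonneg _) (dens_pos t).le)
  calc _ ≤ ∫ t, ((Set.Ico a (a + w)).indicator (fun _ : ℝ => c) t +
        ‖Phi T σ A l t‖ ^ 2 / c) / 2 := by
        refine integral_mono (Phi_int hT (by linarith) hA l).norm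
          ((i1.add (i2.div_const c)).div_const 2) fun t => ?_
        by_cases ht : t ∈ A
        · simp only [Set.indicator_of_mem (hs ht)]
          rw [le_div_iff₀ two_pos, add_div' _ _ _ hc.ne', le_div_iff₀ hc]
          nlinarith [sq_nonneg (‖Phi T σ A l t‖ - c)]
        · have := Set.indicator_nonneg (s := Set.Ico a (a + w)) (f := fun _ : ℝ => c)
            (fun _ _ => hc.le) t
          simp only [Phi, Set.indicator_of_notMem ht, norm_zero]
          positivity
    _ ≤ _ := by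
        rw [integral_div, integral_add i1 (i2.div_const c), integral_div,
          integral_indicator_const _ measurableSet_Ico, Real.volume_real_Ico_of_le (by linarith),
          smul_eq_mul, add_sub_cancel_left, mul_comm w c]
        gcongr

theorem split (s j : ℕ) (l : List Bool) (f : ℝ → ℂ) (t : ℝ) :
    (sB s j l).indicator f t = ∑ k ∈ act s j l, (sBk s j k l).indicator f t := by
  by_cases ht : t ∈ sB s j l
  · set n := mm s j - KK s with hn
    have p : (0 : ℝ) < 2 ^ n := by positivity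
    have k0 : ∀ k : ℤ, t ∈ sBk s j k l ↔ ⌊t * 2 ^ n⌋ = k := fun k => by
      rw [sBk, Set.mem_inter_iff, and_iff_right ht, Set.mem_Ico, div_le_iff₀ p, lt_div_iff₀ p,
        Int.floor_eq_iff]
    have hb := abs_le.1 ht.1.1.1
    have m : ⌊t * 2 ^ n⌋ ∈ act s j l := by
      classical
      refine mem_filter.2 ⟨mem_Icc.2 ⟨Int.le_floor.2 ?_, Int.floor_le_iff.2 ?_⟩, t, (k0 _).2 rfl⟩
      · push_cast
        rw [pow_add]
        nlinarith [hb.1]
      · push_cast
        rw [pow_add]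
        nlinarith [hb.2]
    rw [sum_eq_single_of_mem _ m fun k _ hk => Set.indicator_of_notMem
      (fun h => hk ((k0 k).1 h).symm) f, Set.indicator_of_mem ht,
      Set.indicator_of_mem ((k0 _).2 rfl)]
  · rw [Set.indicator_of_notMem ht]
    exact (sum_eq_zero fun k _ => Set.indicator_of_notMem (fun h => ht h.1) f).symm

theorem g0_split (s j : ℕ) (l l' : List Bool) (v : ℝ) : g0 (TT s) (sig j) (sB s j l) l' v =
    ∑ k ∈ act s j l, g0 (TT s) (sig j) (sBk s j k l) l' v := by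
  simp only [g0]
  rw [← II_sum _ fun k _ => aa_int (TT_pos s) (by linarith [sig_lt j])
    (Phi_int (TT_pos s) (sig_lt j) (sBk_meas s j k l) l')]
  simp only [Phi, split, mul_sum]

theorem one {s j : ℕ} (k : ℤ) (l l1' l0 : List Bool) {B : ℝ} (v v' : ℝ)
    (h1 : ∫ t, ‖Ec (sig j) l1' t‖ ^ 2 * dens t ≤ B) (h0 : ∫ t, ‖Ec (sig j) l0 t‖ ^ 2 * dens t ≤ B) :
    ‖g0 (TT s) (sig j) (sBk s j k l) l1' v - g0 (TT s) (sig j) (sBk s j k l) l0 v‖ ≤
      ‖g0 (TT s) (sig j) (sBk s j k l) l1' v' - g0 (TT s) (sig j) (sBk s j k l) l0 v'‖ +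
      (2 * π)⁻¹ * (1 / 2 ^ (mm s j - KK s) * |v - v'| *
        (2 ^ j * (1 / 2 ^ (mm s j - KK s)) + 8 * π * B / 2 ^ j)) := by
  have c0 : 0 ≤ 1 / 2 - sig j := by linarith [sig_lt j]
  have hA := sBk_meas s j k l
  have i := fun l' => Phi_int (TT_pos s) (sig_lt j) hA l'
  have i' := fun l' => aa_int (TT_pos s) c0 (i l')
  have hs : sBk s j k l ⊆ Set.Ico ((k : ℝ) / 2 ^ (mm s j - KK s))
      (k / 2 ^ (mm s j - KK s) + 1 / 2 ^ (mm s j - KK s)) := fun t ht => by
    rw [← add_div]; exact ht.2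
  have b := fun l' hB => l1 (TT_pos s) (sig_le j) hA l' (c := 2 ^ j) (B := B) (by positivity)
    (by positivity) hs hB
  simp only [g0, ← II_sub (i' l1') (i' l0)]
  refine (slow ((i' l1').sub (i' l0)) (a := k / 2 ^ (mm s j - KK s))
    (w := 1 / 2 ^ (mm s j - KK s)) (fun t ht => ?_) v v').trans ?_
  · have : t ∈ sBk s j k l := by
      by_contra h
      exact ht (by simp [Phi, h])
    have := hs this
    rw [abs_of_nonneg (by linarith [this.1])]
    linarith [this.2]
  · refine add_le_add le_rfl (mul_le_mul_of_nonneg_left (mul_le_mul_of_nonneg_left ?_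
      (by positivity)) (by positivity))
    refine (integral_mono ((i' l1').sub (i' l0)).norm ((i l1').norm.add (i l0).norm)
      fun t => ?_).trans ?_
    · refine (norm_sub_le _ _).trans (add_le_add ?_ ?_) <;>
      · rw [norm_mul]
        exact mul_le_of_le_one_left (norm_nonneg _) (norm_aa (TT_pos s) c0 t)
    · simp only [Pi.add_apply]
      rw [integral_add (i l1').norm (i l0).norm]
      linarith [b l1' h1, b l0 h0]

theorem num {s j : ℕ} (h : Par s j) {d : ℝ} (h0 : 0 ≤ d) (hd : d ≤ 2 ^ (j - 4 * KK s)) :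
    60 * 2 ^ (7 * s) * ((2 * π)⁻¹ * (1 / 2 ^ (mm s j - KK s) * d *
      (2 ^ j * (1 / 2 ^ (mm s j - KK s)) + 8 * π * (2 ^ j * 2 ^ (48 * s)) / 2 ^ j))) ≤ 1 := by
  have a1 := h.K4j
  have a2 := h.N_le
  have a3 := h.m_le
  have a4 := h.KJ
  set X : ℝ := 2 ^ KK s with hX
  set S : ℝ := 2 ^ s with hS
  have S1 : 1 ≤ S := one_le_pow₀ one_le_two
  have X1 : 1 ≤ X := one_le_pow₀ one_le_two
  have hD : (2 : ℝ) ^ (j - mm s j) ≤ 1024 * S := by
    have h1 : (2 : ℝ) ^ (j - mm s j) ≤ 1024 * s := by exact_mod_cast h.hi2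
    have h2 : (s : ℝ) ≤ 2 ^ s := by exact_mod_cast (Nat.lt_two_pow_self (n := s)).le
    linarith
  have hXS : 2 ^ 30 * S ^ 80 ≤ X := by
    rw [hS, ← pow_mul, ← pow_add]
    exact pow_le_pow_right₀ one_le_two (by unfold J0 at a4; omega)
  have e1 : (2 : ℝ) ^ j * (1 / 2 ^ (mm s j - KK s)) = 2 ^ (j - mm s j) * X := by
    rw [mul_one_div, div_eq_iff (by positivity), hX, ← pow_add, ← pow_add]
    congr 1; omega
  have e2 : (1 : ℝ) / 2 ^ (mm s j - KK s) * 2 ^ (j - 4 * KK s) = 2 ^ (j - mm s j) / X ^ 3 := by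
    rw [one_div_mul_eq_div, div_eq_div_iff (by positivity) (by positivity), hX, ← pow_mul,
      ← pow_add, ← pow_add]
    congr 1; omega
  have e3 : (2 : ℝ) ^ (48 * s) ≤ X := pow_le_pow_right₀ one_le_two (by omega)
  have e4 : (2 : ℝ) ^ (7 * s) = S ^ 7 := by rw [hS, ← pow_mul, mul_comm]
  have p4 : π ≤ 4 := pi_le_four
  have p1 : (2 * π)⁻¹ ≤ 1 := inv_le_one_of_one_le₀ (by linarith [pi_gt_three])
  rw [e1, e4, mul_comm ((2 : ℝ) ^ j), mul_div_assoc, mul_div_cancel_right₀ _ (by positivity)]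
  have b1 : 1 / 2 ^ (mm s j - KK s) * d ≤ 1024 * S / X ^ 3 :=
    ((mul_le_mul_of_nonneg_left hd (by positivity)).trans e2.le).trans (by gcongr)
  have b2 : 2 ^ (j - mm s j) * X + 8 * π * 2 ^ (48 * s) ≤ 2048 * S * X := by
    have : 8 * π * 2 ^ (48 * s) ≤ 8 * 4 * X := by gcongr
    nlinarith [mul_le_mul_of_nonneg_right hD (by positivity : 0 ≤ X)]
  calc _ ≤ 60 * S ^ 7 * (1 * (1024 * S / X ^ 3 * (2048 * S * X))) := by gcongr
    _ = 60 * 2 ^ 21 * S ^ 9 / X ^ 2 := by field_simp; ring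
    _ ≤ 1 := by
      rw [div_le_one (by positivity)]
      have : S ^ 9 ≤ S ^ 80 := pow_le_pow_right₀ S1 (by norm_num)
      nlinarith [pow_pos (lt_of_lt_of_le one_pos S1) 9]

end LIP

theorem st_LIP : St_LIP := by
  filter_upwards [par] with s hp j hj z v v' h4 hc hv
  have h := hp j hj
  have n := LIP.num h (abs_nonneg _) hv
  simp only [IN]
  rw [LIP.g0_split, LIP.g0_split, ← sum_sub_distrib]
  refine (norm_sum_le _ _).trans ((sum_le_sum fun k _ =>
    LIP.one k _ _ _ v v' (h4 j hj 1 le_rfl) (h4 j hj 0 zero_le_one)).trans ?_)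
  rw [sum_add_distrib, sum_const, nsmul_eq_mul, add_comm]
  exact add_le_add_left ((mul_le_mul_of_nonneg_right hc (by positivity)).trans n) _

end

end Pool.Agent.Lib.RX
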