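import Pool.Agent.Lib.RX.Kit0

/-! Project rx29: block LOW, masses of sets with a large local mass. -/

namespace Pool.Agent.Lib.RX

open Finset Real MeasureTheory Filter Topology Pool.Agent.Lib.RM67 Pool.Agent.Lib.RM67.T96

noncomputable section

namespace XLOW

theorem dens_cont : Continuous RM67.dens := by
  unfold RM67.dens RM67.ker
  exact continuous_const.mul (Continuous.inv₀ (by fun_prop) fun t => by positivity)

theorem dens_bd (t : ℝ) : dens t ≤ 2 / π := by
  unfold RM67.dens RM67.ker
  have : ((1 / 2 : ℝ) ^ 2 + t ^ 2)⁻¹ ≤ 4 := by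
    rw [inv_le_comm₀ (by positivity) (by norm_num)]
    nlinarith [sq_nonneg t]
  calc _ ≤ (2 * π)⁻¹ * 4 := by gcongr
    _ = 2 / π := by field_simp; norm_num

theorem cau {a : ℝ} (ha : 0 < a) (u : ℝ) :
    (Integrable fun t => (1 + a ^ 2 * (t - u) ^ 2)⁻¹) ∧
      ∫ t, (1 + a ^ 2 * (t - u) ^ 2)⁻¹ = π / a := by
  have e : (fun t => (1 + a ^ 2 * (t - u) ^ 2)⁻¹) = fun t => (a ^ 2)⁻¹ * ker a⁻¹ (t - u) := by
    funext t
    unfold RM67.ker
    field_simp
  rw [e]
  refine ⟨((ker_int (inv_pos.2 ha)).comp_sub_right u).const_mul _, ?_⟩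
  rw [integral_const_mul, integral_sub_right_eq_self (ker a⁻¹) u, int_ker (inv_pos.2 ha)]
  field_simp

/-- The integrand of the local mass. -/
def G (i : ℕ) (l : List Bool) (t t' : ℝ) : ℝ :=
  R l t' / (1 + (2 ^ i) ^ 2 * (t - t') ^ 2) * dens t'

theorem G_cont (i : ℕ) (l : List Bool) : Continuous fun p : ℝ × ℝ => G i l p.1 p.2 := by
  unfold G
  exact (((R_cont l).comp continuous_snd).div (by fun_prop) fun p => by positivity).mul
    (dens_cont.comp continuous_snd)

theorem G_nonneg (i : ℕ) (l : List Bool) (t t' : ℝ) : 0 ≤ G i l t t' := by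
  have := R_pos t' l
  have := dens_pos t'
  unfold G
  positivity

theorem G_le (i : ℕ) (l : List Bool) (t t' : ℝ) : G i l t t' ≤ R l t' * dens t' :=
  mul_le_mul_of_nonneg_right
    (div_le_self (R_pos t' l).le (le_add_of_nonneg_right (by positivity))) (dens_pos t').le

theorem G_int (i : ℕ) (l : List Bool) :
    Integrable (Function.uncurry fun t t' => G i l t t' * dens t) (volume.prod volume) := by
  refine (dens_int.mul_prod (R_int l)).mono'
    ((G_cont i l).mul (dens_cont.comp continuous_fst)).aestronglyMeasurable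
    (Eventually.of_forall fun p => ?_)
  change ‖G i l p.1 p.2 * dens p.1‖ ≤ _
  rw [Real.norm_of_nonneg (mul_nonneg (G_nonneg _ _ _ _) (dens_pos _).le), mul_comm]
  exact mul_le_mul_of_nonneg_left (G_le _ _ _ _) (dens_pos _).le

theorem mu_meas (i : ℕ) (l : List Bool) : Measurable (mu i l) :=
  ((G_cont i l).stronglyMeasurable.integral_prod_right' (ν := volume)).measurable

theorem mu_nonneg (i : ℕ) (l : List Bool) (t : ℝ) : 0 ≤ mu i l t :=
  integral_nonneg fun t' => G_nonneg i l t t'

theorem mu_dens (i : ℕ) (l : List Bool) (t : ℝ) :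
    ∫ t', G i l t t' * dens t = mu i l t * dens t := integral_mul_const _ _

theorem mu_int (i : ℕ) (l : List Bool) : Integrable fun t => mu i l t * dens t := by
  simpa only [Function.uncurry_apply_pair, mu_dens] using (G_int i l).integral_prod_left

theorem int_mu (i : ℕ) (l : List Bool) : ∫ t, mu i l t * dens t ≤ 2 * NN l / 2 ^ i := by
  have ha : (0 : ℝ) < 2 ^ i := by positivity
  simp only [← mu_dens]
  rw [integral_integral_swap (G_int i l), NN, mul_div_right_comm, ← integral_const_mul]
  refine integral_mono_of_nonneg (Eventually.of_forall fun t' => integral_nonneg fun t =>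
    mul_nonneg (G_nonneg _ _ _ _) (dens_pos _).le) ((R_int l).const_mul _)
    (Eventually.of_forall fun t' => ?_)
  have h := cau ha t'
  have h0 : 0 ≤ R l t' * dens t' := (mul_pos (R_pos t' l) (dens_pos t')).le
  calc ∫ t, G i l t t' * dens t
      ≤ ∫ t, R l t' * dens t' * (2 / π) * (1 + (2 ^ i) ^ 2 * (t - t') ^ 2)⁻¹ := by
        refine integral_mono_of_nonneg (Eventually.of_forall fun t =>
          mul_nonneg (G_nonneg _ _ _ _) (dens_pos _).le) (h.1.const_mul _)
          (Eventually.of_forall fun t => ?_)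
        refine (mul_le_mul_of_nonneg_left (dens_bd t) (G_nonneg _ _ _ _)).trans (le_of_eq ?_)
        unfold G
        ring
    _ = 2 / 2 ^ i * (R l t' * dens t') := by
        rw [integral_const_mul, h.2]
        field_simp

theorem hi_meas (s i : ℕ) (l : List Bool) : MeasurableSet (hi s i l) :=
  measurableSet_le measurable_const (R_cont l).measurable

theorem lo0_meas (s i : ℕ) (l : List Bool) : MeasurableSet (lo0 s i l) :=
  measurableSet_lt measurable_const (mu_meas i l)

theorem sub_add {f : ℝ → ℝ} (hf : Integrable f) (h0 : ∀ t, 0 ≤ f t) {A B C : Set ℝ}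
    (h : A ⊆ B ∪ C) : ∫ t in A, f t ≤ (∫ t in B, f t) + ∫ t in C, f t := by
  rw [← integral_add_measure hf.restrict hf.restrict]
  exact integral_mono_measure
    ((Measure.restrict_mono h le_rfl).trans (Measure.restrict_union_le B C))
    (Eventually.of_forall h0) (hf.restrict.add_measure hf.restrict)

theorem ms_nonneg (A : Set ℝ) (l : List Bool) : 0 ≤ ms A l :=
  integral_nonneg fun t => (mul_pos (R_pos t l) (dens_pos t)).le

theorem on_le {f : ℝ → ℝ} (hf : Integrable f) {A : Set ℝ} (hA : MeasurableSet A) (i : ℕ)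
    (l : List Bool) {c : ℝ} (hc : 0 ≤ c) (h : ∀ t ∈ A, f t ≤ c * (mu i l t * dens t)) :
    ∫ t in A, f t ≤ c * (2 * NN l / 2 ^ i) := by
  have k := (mu_int i l).const_mul c
  refine (setIntegral_mono_on hf.integrableOn k.integrableOn hA h).trans
    ((setIntegral_le_integral k (Eventually.of_forall fun t =>
      mul_nonneg hc (mul_nonneg (mu_nonneg i l t) (dens_pos t).le))).trans ?_)
  rw [integral_const_mul]
  exact mul_le_mul_of_nonneg_left (int_mu i l) hc

theorem one (s i : ℕ) (l : List Bool) :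
    ms (lo0 s i l \ hi s i l) l ≤ 2 * NN l / 2 ^ (32 * s) := by
  refine (on_le (R_int l) ((lo0_meas s i l).diff (hi_meas s i l)) i l
    (c := 2 ^ i / 2 ^ (32 * s)) (by positivity) fun t ht => ?_).trans (le_of_eq (by field_simp))
  have h1 : 1 / (2 : ℝ) ^ (12 * s) < mu i l t := ht.1
  have h2 : R l t < (2 : ℝ) ^ i / 2 ^ (44 * s) := not_le.1 ht.2
  rw [← mul_assoc]
  refine mul_le_mul_of_nonneg_right (h2.le.trans ?_) (dens_pos t).le
  refine le_trans (le_of_eq ?_) (mul_le_mul_of_nonneg_left h1.le (by positivity))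
  rw [show 44 * s = 32 * s + 12 * s by ring, pow_add]
  field_simp

theorem two (s i : ℕ) (l : List Bool) : ms (gd s ∩ lo0 s i l) l ≤ 2 * Mx s i l := by
  have h := sub_add (R_int l) (fun t => (mul_pos (R_pos t l) (dens_pos t)).le)
    (A := gd s ∩ lo0 s i l) (B := gd s ∩ hi s i l) (C := lo0 s i l \ hi s i l) fun t ht =>
      (em (t ∈ hi s i l)).imp (fun a => ⟨ht.1, a⟩) fun a => ⟨ht.2, a⟩
  have h1 := one s i l
  have h2 := ms_nonneg (gd s ∩ hi s i l) l
  have h3 := ms_nonneg (gd s)ᶜ l
  rw [mul_div_assoc] at h1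
  unfold Mx
  unfold ms at *
  linarith

theorem three (s i : ℕ) (l : List Bool) :
    ∫ t in gd s \ lo0 s i l, R l t * mu i l t * dens t ≤ 2 * Mx s i l / 2 ^ (12 * s) := by
  have hf : Integrable fun t => R l t * mu i l t * dens t := by
    simp only [mul_assoc]
    exact (mu_int i l).bdd_mul (c := 2 ^ l.length) (R_cont l).aestronglyMeasurable
      (Eventually.of_forall fun t => (abs_of_pos (R_pos t l)).trans_le (R_le t l))
  have h := sub_add hf (fun t => mul_nonneg (mul_nonneg (R_pos t l).le (mu_nonneg i l t))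
    (dens_pos t).le) (A := gd s \ lo0 s i l) (B := (lo0 s i l)ᶜ ∩ (gd s ∩ hi s i l))
    (C := (hi s i l)ᶜ) fun t ht => (em (t ∈ hi s i l)).imp (fun a => ⟨ht.2, ht.1, a⟩) fun a => a
  have h1 := on_le hf (hi_meas s i l).compl i l (c := 2 ^ i / 2 ^ (44 * s)) (by positivity)
    fun t ht => by
      have h2 : R l t < (2 : ℝ) ^ i / 2 ^ (44 * s) := not_le.1 ht
      rw [mul_assoc]
      exact mul_le_mul_of_nonneg_right h2.le (mul_nonneg (mu_nonneg i l t) (dens_pos t).le)
  have h2 : ∫ t in (lo0 s i l)ᶜ ∩ (gd s ∩ hi s i l), R l t * mu i l t * dens t ≤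
      1 / 2 ^ (12 * s) * ms (gd s ∩ hi s i l) l := by
    have k := ((R_int l).const_mul (1 / 2 ^ (12 * s))).restrict (s := gd s ∩ hi s i l)
    rw [← Measure.restrict_restrict (lo0_meas s i l).compl, ms, ← integral_const_mul]
    refine (setIntegral_mono_on hf.restrict.integrableOn k.integrableOn (lo0_meas s i l).compl
      fun t ht => ?_).trans (setIntegral_le_integral k (Eventually.of_forall fun t =>
        mul_nonneg (by positivity) (mul_pos (R_pos t l) (dens_pos t)).le))
    have h3 : mu i l t ≤ 1 / (2 : ℝ) ^ (12 * s) := not_lt.1 ht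
    rw [mul_right_comm, mul_comm]
    exact mul_le_mul_of_nonneg_right h3 (mul_pos (R_pos t l) (dens_pos t)).le
  have h3 : (2 : ℝ) ^ i / 2 ^ (44 * s) * (2 * NN l / 2 ^ i) =
      1 / 2 ^ (12 * s) * (2 * (NN l / 2 ^ (32 * s))) := by
    rw [show 44 * s = 32 * s + 12 * s by ring, pow_add]
    field_simp
  have h4 := ms_nonneg (gd s ∩ hi s i l) l
  have h5 := ms_nonneg (gd s)ᶜ l
  rw [h3] at h1
  refine (h.trans (add_le_add h2 h1)).trans ?_
  rw [← mul_add, div_eq_inv_mul (2 * Mx s i l), one_div]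
  refine mul_le_mul_of_nonneg_left ?_ (by positivity)
  unfold Mx
  linarith

end XLOW

theorem st_LOW : St_LOW := fun s i l => ⟨XLOW.one s i l, XLOW.two s i l, XLOW.three s i l⟩

end

end Pool.Agent.Lib.RX
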