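import Pool.Agent.Lib.RX.Kit0

/-! Project rx29, row MINK: Minkowski's inequality for window integrals. -/

namespace Pool.Agent.Lib.RX

open Finset Real MeasureTheory Filter Topology Pool.Agent.Lib.RM67 Pool.Agent.Lib.RM67.T96

namespace MINK

theorem young {a b : ℝ} (ha : 0 ≤ a) (hb : 0 ≤ b) :
    ∀ m : ℕ, ((m : ℝ) + 1) * (a ^ m * b) ≤ m * a ^ (m + 1) + b ^ (m + 1)
  | 0 => by simp
  | m + 1 => by
    have h := mul_le_mul_of_nonneg_left (young ha hb m) ha
    have k : 0 ≤ (a - b) * (a ^ (m + 1) - b ^ (m + 1)) := by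
      rcases le_total a b with c | c
      · exact mul_nonneg_of_nonpos_of_nonpos (sub_nonpos.2 c)
          (sub_nonpos.2 (pow_le_pow_left₀ ha c _))
      · exact mul_nonneg (sub_nonneg.2 c) (sub_nonneg.2 (pow_le_pow_left₀ hb c _))
    push_cast
    simp only [pow_succ] at h k ⊢
    nlinarith

/-- Hoelder's inequality for the finite mean. -/
theorem hold (n m : ℕ) {c F : List Bool → ℝ} {h : ℝ} (hc : ∀ l, 0 ≤ c l) (hF : ∀ l, 0 ≤ F l)
    (hh : 0 ≤ h) (h1 : av n (fun l => c l ^ (m + 1)) ≤ 1)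
    (h2 : av n (fun l => F l ^ (m + 1)) ≤ h ^ (m + 1)) : av n (fun l => c l ^ m * F l) ≤ h := by
  refine le_of_forall_pos_le_add fun η hη => ?_
  have g0 : 0 < h + η := by linarith
  have a : av n (fun l => (((m : ℝ) + 1) * (h + η) ^ m) * (c l ^ m * F l)) ≤
      av n (fun l => (m * (h + η) ^ (m + 1)) * c l ^ (m + 1) + F l ^ (m + 1)) :=
    av_mono fun l _ => by
      have := young (mul_nonneg (hc l) g0.le) (hF l) m
      simp only [mul_pow] at this
      linarith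
  rw [av_add, av_mul, av_mul] at a
  have b : h ^ (m + 1) ≤ (h + η) ^ (m + 1) := pow_le_pow_left₀ hh (by linarith) _
  have d : (m * (h + η) ^ (m + 1)) * av n (fun l => c l ^ (m + 1)) ≤ m * (h + η) ^ (m + 1) :=
    mul_le_of_le_one_right (by positivity) h1
  refine le_of_mul_le_mul_left (a := ((m : ℝ) + 1) * (h + η) ^ m) ?_ (by positivity)
  have e : ((m : ℝ) + 1) * (h + η) ^ m * (h + η) =
      m * (h + η) ^ (m + 1) + (h + η) ^ (m + 1) := by ring
  linarith

end MINK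

theorem st_MINK : St_MINK := by
  intro n q F h ρ u0 hq hρ hF hF0 hh hh0 H
  obtain ⟨m, rfl⟩ : ∃ m, q = m + 1 := ⟨q - 1, by omega⟩
  have hX : ∀ l, 0 ≤ Wn ρ u0 (F l) := fun l => Wn_nonneg _ _ (hF0 l)
  have hW : 0 ≤ Wn ρ u0 h := Wn_nonneg _ _ hh0
  rcases le_or_gt (av n fun l => Wn ρ u0 (F l) ^ (m + 1)) 0 with hA | hA
  · exact hA.trans (by positivity)
  obtain ⟨N, hN, e⟩ : ∃ N : ℝ, 0 < N ∧ N ^ (m + 1) = av n fun l => Wn ρ u0 (F l) ^ (m + 1) :=
    ⟨_, rpow_pos_of_pos hA _, rpow_inv_natCast_pow hA.le (Nat.succ_ne_zero m)⟩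
  have h1 : av n (fun l => (Wn ρ u0 (F l) / N) ^ (m + 1)) = 1 := by
    simp only [div_pow, av_div]
    rw [← e, div_self (by positivity)]
  have h2 : av n (fun l => Wn ρ u0 fun u => (Wn ρ u0 (F l) / N) ^ m * F l u) ≤ Wn ρ u0 h := by
    have k : ∀ l, BC fun u => (Wn ρ u0 (F l) / N) ^ m * F l u := fun l => (hF l).cmul _
    rw [av_Wn hρ u0 n k]
    exact Wn_mono hρ u0 (av_BC n k) hh fun u =>
      MINK.hold n m (fun l => div_nonneg (hX l) hN.le) (fun l => hF0 l u) (hh0 u) h1.le (H u)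
  have h3 : av n (fun l => Wn ρ u0 fun u => (Wn ρ u0 (F l) / N) ^ m * F l u) = N := by
    have : (fun l => Wn ρ u0 fun u => (Wn ρ u0 (F l) / N) ^ m * F l u) =
        fun l => N * (Wn ρ u0 (F l) / N) ^ (m + 1) := by
      funext l
      rw [Wn_cmul, pow_succ]
      field_simp
    rw [this, av_mul, h1, mul_one]
  rw [← e]
  exact pow_le_pow_left₀ hN.le (h3 ▸ h2) _

end Pool.Agent.Lib.RX
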