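import Pool.Agent.Lib.RX.Kit2

/-! Project rx29, block MS: the sum of the conditional means. -/

namespace Pool.Agent.Lib.RX

open Finset Real MeasureTheory Filter Topology Pool.Agent.Lib.RM67 Pool.Agent.Lib.RM67.T96

noncomputable section

theorem st_MS (h1 : St_WS) (h2 : St_WINE) : St_MS := by
  refine ⟨1080, by norm_num, ?_⟩
  filter_upwards [par] with s hs j hj l0 A k hA
  have hp := hs j hj
  have hρ := rho_pos s j
  have hn := nP_nonneg s j A l0
  have hf : ∀ u0, 0 ≤ Wn (rho s j) u0 fun u => ‖g1 (TT s) (sig j) A l0 u‖ ^ 2 :=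
    fun u0 => Wn_nonneg _ _ fun u => by positivity
  have hbase : ∀ a, ∑ i ∈ range (2 ^ s),
      (fun u0 => Wn (rho s j) u0 fun u => ‖g1 (TT s) (sig j) A l0 u‖ ^ 2) (uu s j k i - a) ≤
      20 * nP s j A l0 := by
    intro a
    have hρ' : 0 < 2 * ((2 ^ s : ℕ) : ℝ) * rho s j := by positivity
    have e1 := h1 (2 ^ s) (rho s j) (rho s j) (2 * ((2 ^ s : ℕ) : ℝ) * rho s j)
      (((k : ℝ) - 2 ^ s) * rho s j - a) (fun u => ‖g1 (TT s) (sig j) A l0 u‖ ^ 2) hρ le_rfl le_rfl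
      hρ' (g1_BC2 (TT_pos s) (sig_lt j) hA l0) fun u => by positivity
    have e2 := (h2 _ (Phi (TT s) (sig j) A l0) (((k : ℝ) - 2 ^ s) * rho s j - a) hρ'
      (Phi_int (TT_pos s) (sig_lt j) hA l0)).2 (Phi_int2 (TT_pos s) (sig_le j) hA l0)
    have e3 : ∀ i : ℕ, uu s j k i - a = ((k : ℝ) - 2 ^ s) * rho s j - a - i * rho s j := by
      intro i; rw [uu]; ring
    simp only [e3]
    refine e1.trans ?_
    exact mul_le_mul_of_nonneg_left e2 (by norm_num)
  have hsum := hy_sum (range (2 ^ s)) (uu s j k) (xx (sig j)) (ρ := 1) (B := 20 * nP s j A l0)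
    zero_le_one (f := fun u0 => Wn (rho s j) u0 fun u => ‖g1 (TT s) (sig j) A l0 u‖ ^ 2)
    (Y (mm s j)) hbase (by positivity) (Y (j + 1) - Y (mm s j)) 0
  rw [Nat.add_sub_cancel' hp.Ym', one_mul] at hsum
  have hle : ∑ i ∈ range (2 ^ s), MM s j k i A l0 ≤ ∑ i ∈ range (2 ^ s), hy (xx (sig j)) 1
      (fun u0 => Wn (rho s j) u0 fun u => ‖g1 (TT s) (sig j) A l0 u‖ ^ 2)
      (Y (mm s j)) (Y (j + 1) - Y (mm s j)) (uu s j k i - 0) := by
    refine sum_le_sum fun i hi => ?_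
    rw [sub_zero, MM]
    exact hy_mono (xx (sig j)) zero_le_one hf (Y (mm s j)) (uu s j k i)
      (Nat.sub_le_sub_right (hp.PP_le (mem_range.1 hi).le) _)
  refine hle.trans (hsum.trans ?_)
  have := mul_le_mul_of_nonneg_right hp.exp_xx' (show 0 ≤ 20 * nP s j A l0 by positivity)
  refine this.trans_eq ?_
  ring

end

end Pool.Agent.Lib.RX
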