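import Pool.Agent.Lib.RX.Kit2

/-! Project rx29, block MX: the mean of the exceptional mass. -/

namespace Pool.Agent.Lib.RX

open Finset Real MeasureTheory Filter Topology Pool.Agent.Lib.RM67 Pool.Agent.Lib.RM67.T96

namespace MX

/-- From a pointwise bound on good frequencies to the mean mass. -/
theorem mass {Λ K : ℝ} {s i n : ℕ} (hK : 0 ≤ K) (h : ∀ t ∈ gd s,
    av n (fun l => GG Λ l * R l t * ind (t ∈ hi s i l)) ≤ K) :
    av n (fun l => GG Λ l * ms (gd s ∩ hi s i l) l) ≤ K := by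
  have hm : ∀ l, MeasurableSet (gd s ∩ hi s i l) := fun l => (gd_meas s).inter (hi_meas s i l)
  have hi' : ∀ l, Integrable fun t =>
      GG Λ l * (gd s ∩ hi s i l).indicator (fun t => R l t * dens t) t := fun l =>
    ((R_int l).indicator (hm l)).const_mul _
  simp only [ms, ← integral_indicator (hm _), ← integral_const_mul]
  rw [(av_int _ hi').2]
  refine (integral_mono (av_int _ hi').1 (dens_int.const_mul K) fun t => ?_).trans (by
    rw [integral_const_mul, int_dens, mul_one])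
  have d := dens_pos t
  by_cases ht : t ∈ gd s
  · refine le_trans (av_mono (G := fun l => dens t * (GG Λ l * R l t * ind (t ∈ hi s i l)))
      fun l _ => ?_) ?_
    · by_cases hl : t ∈ hi s i l
      · rw [Set.indicator_of_mem (show t ∈ gd s ∩ hi s i l from ⟨ht, hl⟩), ind_pos hl]
        exact le_of_eq (by ring)
      · rw [Set.indicator_of_notMem (fun a => hl a.2), ind_neg hl]
        exact le_of_eq (by ring)
    · rw [av_mul, mul_comm]
      exact mul_le_mul_of_nonneg_right (h t ht) d.le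
  · refine le_trans (av_mono (G := fun _ => 0) fun l _ => ?_) ?_
    · rw [Set.indicator_of_notMem (fun a => ht a.1), mul_zero]
    · rw [av_const]; positivity

theorem bad (s n : ℕ) : av n (fun l => ms (gd s)ᶜ l) = ∫ t in (gd s)ᶜ, dens t := by
  have := av_ms (gd s)ᶜ (gd_meas s).compl [] n
  simpa [ms, R] using this

theorem sq1 (s : ℕ) : (2 : ℝ) ^ (16 * s) / 16 * √(2 ^ (16 * s) / 16) = 2 ^ (24 * s) / 64 := by
  rw [show (2 : ℝ) ^ (16 * s) / 16 = (2 ^ (8 * s) / 4) ^ 2 by ring, sqrt_sq (by positivity)]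
  ring

theorem sq2 (s : ℕ) : √((2 ^ (128 * s) : ℕ) : ℝ) = 2 ^ (64 * s) := by
  rw [show ((2 ^ (128 * s) : ℕ) : ℝ) = (2 ^ (64 * s)) ^ 2 by push_cast; ring,
    sqrt_sq (by positivity)]

end MX

open MX

theorem st_MX (h1 : St_BAL32) (h2 : St_ARG) (h3 : St_GOOD) (h4 : St_HH) : St_MX := by
  obtain ⟨C, C0, hC⟩ := h1
  obtain ⟨D, D0, -, -, -, hD, -⟩ := h2
  obtain ⟨E, E0, hE⟩ := h3
  intro Λ hΛ
  filter_upwards [h4 Λ hΛ, ev_const (C * (64 + D) + E + 1), eventually_ge_atTop 1] with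
    s hs hc s1 i hi'
  obtain ⟨i0, i1⟩ := mem_Icc.1 hi'
  have r1 : (1 : ℝ) ≤ s := by exact_mod_cast s1
  have p : (0 : ℝ) < 2 ^ (24 * s) := by positivity
  have q1 : (2 : ℝ) ^ (24 * s) ≤ 2 ^ (32 * s) := pow_le_pow_right₀ one_le_two (by omega)
  have q2 : (2 : ℝ) ^ (24 * s) ≤ 2 ^ (64 * s) := pow_le_pow_right₀ one_le_two (by omega)
  have s2 : (1 : ℝ) ≤ (s : ℝ) ^ 2 := one_le_pow₀ r1
  have s8 : (1 : ℝ) ≤ (s : ℝ) ^ 8 := one_le_pow₀ r1
  have a1 : av (Y i) (fun l => GG Λ l * ms (gd s ∩ hi s i l) l) ≤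
      C * (64 + D) * (s : ℝ) ^ 8 / 2 ^ (24 * s) := by
    refine mass (by positivity) fun t ht => ?_
    obtain ⟨⟨b0, b1, -⟩, b2, -, b4, -⟩ := hs t ht
    have v := b4 i i0 i1
    have n0 : 2 ^ (128 * s) ≤ Y i := by
      by_contra hn
      rw [Ico_eq_empty (by omega), sum_empty] at v
      exact absurd v (not_le.2 (by positivity))
    have k := hC (2 ^ (128 * s)) (Y i) (Pb Λ) t (ab Λ (NE s) t) ((s : ℝ) ^ 2) _ _ n0 b0 s2
      (fun l hl hp => W_ab (by linarith) hp (hl.trans (Y_mono i1)) t) (by positivity) v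
      (hD _ _ t Nat.one_le_two_pow)
    rw [sq1, sq2] at k
    refine (av_mono fun l hl => ?_).trans (k.trans ?_)
    · refine mul_le_mul_of_nonneg_left ?_ (mul_nonneg (GG_nonneg _ _) (R_pos t l).le)
      by_cases hl' : t ∈ hi s i l
      · rw [ind_pos hl', ind_pos (b2 i i1 l hl hl')]
      · rw [ind_neg hl']; exact ind_nonneg _
    · have e1 : (ab Λ (NE s) t + 3) / (2 ^ (24 * s) / 64) ≤ 64 * (s : ℝ) ^ 2 / 2 ^ (24 * s) := by
        rw [div_div_eq_mul_div, mul_comm]; gcongr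
      have e2 : D / 2 ^ (64 * s) ≤ D * (s : ℝ) ^ 2 / 2 ^ (24 * s) :=
        div_le_div₀ (by positivity) (le_mul_of_one_le_right D0 s2) p q2
      calc _ ≤ C * ((s : ℝ) ^ 2) ^ 3 *
            (64 * (s : ℝ) ^ 2 / 2 ^ (24 * s) + D * (s : ℝ) ^ 2 / 2 ^ (24 * s)) := by gcongr
        _ = _ := by ring
  have a2 : av (Y i) (fun l => ms (gd s)ᶜ l) ≤ E * (s : ℝ) ^ 8 / 2 ^ (24 * s) := by
    rw [bad]
    exact (hE s s1).trans (div_le_div₀ (by positivity) (le_mul_of_one_le_right E0 s8) p q1)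
  have a3 : av (Y i) (fun l => NN l / 2 ^ (32 * s)) ≤ (s : ℝ) ^ 8 / 2 ^ (24 * s) := by
    rw [av_div]
    exact div_le_div₀ (by positivity) ((av_NN _).trans s8) p q1
  calc _ ≤ av (Y i) fun l =>
        GG Λ l * ms (gd s ∩ hi s i l) l + ms (gd s)ᶜ l + NN l / 2 ^ (32 * s) := by
        refine av_mono fun l _ => ?_
        have g1 := mul_le_of_le_one_left (ms_nonneg (gd s)ᶜ l) (GG_le Λ l)
        have g2 := mul_le_of_le_one_left
          (div_nonneg (NN_nonneg l) (show (0 : ℝ) ≤ 2 ^ (32 * s) by positivity)) (GG_le Λ l)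
        unfold Mx
        linarith [mul_add (GG Λ l) (ms (gd s ∩ hi s i l) l + ms (gd s)ᶜ l) (NN l / 2 ^ (32 * s)),
          mul_add (GG Λ l) (ms (gd s ∩ hi s i l) l) (ms (gd s)ᶜ l)]
    _ ≤ (C * (64 + D) + E + 1) * (s : ℝ) ^ 8 / 2 ^ (24 * s) := by
        rw [av_add, av_add, add_mul, add_mul, add_div, add_div, one_mul]
        linarith
    _ ≤ s * (s : ℝ) ^ 8 / 2 ^ (24 * s) := by gcongr
    _ = _ := by ring

end Pool.Agent.Lib.RX
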