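import Pool.Agent.Lib.RX.Kit2

/-! Project rx29, row OLD: one jump of the old mass. -/

namespace Pool.Agent.Lib.RX

open Finset Real MeasureTheory Filter Topology Pool.Agent.Lib.RM67 Pool.Agent.Lib.RM67.T96

namespace OLD

/-- A pointwise decay bound gives a bound for the mass. -/
theorem av_dec {Λ c : ℝ} {A : Set ℝ} (hA : MeasurableSet A) (l : List Bool) (k : ℕ)
    (h : ∀ t ∈ A, av k (fun e => GG Λ (e ++ l) * R (e ++ l) t) ≤ GG Λ l * R l t * c) :
    av k (fun e => GG Λ (e ++ l) * ms A (e ++ l)) ≤ c * (GG Λ l * ms A l) := by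
  simp only [ms, ← integral_indicator hA, ← integral_const_mul]
  have I := av_int (n := k)
    (fun e t => GG Λ (e ++ l) * A.indicator (fun t => R (e ++ l) t * dens t) t)
    fun e => ((R_int (e ++ l)).indicator hA).const_mul _
  rw [I.2]
  refine integral_mono I.1 ((((R_int l).indicator hA).const_mul _).const_mul _) fun t => ?_
  by_cases ht : t ∈ A
  · have := mul_le_mul_of_nonneg_left (h t ht) (dens_pos t).le
    rw [← av_mul] at this
    simp only [Set.indicator_of_mem ht]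
    exact (av_mono fun e _ => le_of_eq (by ring)).trans (this.trans_eq (by ring))
  · simp only [Set.indicator_of_notMem ht, mul_zero, av_const, le_refl]

theorem n1 {s : ℕ} (hs : (14 : ℝ) ≤ s) : 16 ≤ ((2 : ℝ) ^ s / 3) ^ 2 := by
  have p1 : (s : ℝ) < 2 ^ s := by exact_mod_cast Nat.lt_two_pow_self
  nlinarith

theorem n2 {s : ℕ} (hs : (14 : ℝ) ≤ s) :
    12 * (s : ℝ) ^ 2 / 2 ^ s * ((s : ℝ) ^ 9 / 2 ^ (24 * s)) + 2 / 2 ^ (32 * s) ≤
      (s : ℝ) ^ 12 / 2 ^ (25 * s) := by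
  have q3 : (2 : ℝ) / 2 ^ (32 * s) ≤ 2 / 2 ^ (25 * s) := by
    gcongr <;> norm_num
  have q4 : 12 * (s : ℝ) ^ 2 / 2 ^ s * ((s : ℝ) ^ 9 / 2 ^ (24 * s)) =
      12 * (s : ℝ) ^ 11 / 2 ^ (25 * s) := by
    rw [show 25 * s = s + 24 * s by ring, pow_add]
    field_simp
  have q5 : 12 * (s : ℝ) ^ 11 + 2 ≤ (s : ℝ) ^ 12 := by
    have : (1 : ℝ) ≤ (s : ℝ) ^ 11 := one_le_pow₀ (by linarith)
    rw [pow_succ (s : ℝ) 11]
    nlinarith
  have q6 := div_le_div_of_nonneg_right q5 (by positivity : (0 : ℝ) ≤ 2 ^ (25 * s))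
  rw [add_div] at q6
  linarith

theorem n3 (s : ℕ) : 0 ≤ 12 * (s : ℝ) ^ 2 / 2 ^ s ∧ (0 : ℝ) ≤ 2 / 2 ^ (32 * s) :=
  ⟨by positivity, by positivity⟩

end OLD

theorem st_OLD (h1 : St_BALH) (h2 : St_LOW) (h3 : St_HH) (h4 : St_MX) : St_OLD := by
  intro Λ hΛ
  filter_upwards [h3 Λ hΛ, h4 Λ hΛ, ev_const 14] with s hH hM hs i h0 hK
  have p2 := OLD.n1 hs
  have p3 : ((2 : ℝ) ^ s / 3) ^ 2 = 2 ^ (2 * s) / 9 := by
    rw [div_pow, ← pow_mul, mul_comm s 2]; norm_num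
  have p4 : 4 * (s : ℝ) ^ 2 / √(((2 : ℝ) ^ s / 3) ^ 2) = 12 * (s : ℝ) ^ 2 / 2 ^ s := by
    rw [sqrt_sq (by positivity)]
    field_simp
    norm_num
  have hY : Y i ≤ Y (i + KK s) := Y_mono (Nat.le_add_right _ _)
  have key : ∀ l : List Bool, l.length = Y i →
      av (Y (i + KK s) - Y i) (fun e => GG Λ (e ++ l) * ms (gd s ∩ lo s i (e ++ l)) (e ++ l)) ≤
        12 * (s : ℝ) ^ 2 / 2 ^ s * (GG Λ l * Mx s i l) + 2 / 2 ^ (32 * s) * NN l := by
    intro l hl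
    have e1 : l.length + (Y (i + KK s) - Y i) = Y (i + KK s) := by omega
    have m1 := (gd_meas s).inter (hi_meas s i l)
    have m2 := (lo0_meas s i l).diff (hi_meas s i l)
    have a0 : ∀ t ∈ gd s ∩ hi s i l, av (Y (i + KK s) - Y i)
        (fun e => GG Λ (e ++ l) * R (e ++ l) t) ≤
          GG Λ l * R l t * (12 * (s : ℝ) ^ 2 / 2 ^ s) := by
      intro t ht
      have k2 := (hH t ht.1).2.1 i ((Nat.le_add_right _ _).trans hK) l hl ht.2
      have k3 := (hH t ht.1).2.2.1 i h0 hK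
      have c1 : ∀ l' : List Bool, l'.length ≤ l.length + (Y (i + KK s) - Y i) → Pb Λ l' →
          WW l' t ≤ ab Λ (NE s) t := fun l' hl' hp =>
        W_ab (zero_lt_one.trans_le hΛ) hp ((hl'.trans_eq e1).trans (Y_mono hK)) t
      have c3 : ((2 : ℝ) ^ s / 3) ^ 2 ≤ ∑ m ∈ Ico l.length (l.length + (Y (i + KK s) - Y i)),
          (bb m t ^ 2 - bb m t ^ 4) := by
        rw [e1, hl]
        exact p3.trans_le k3
      have c4 : ab Λ (NE s) t + 2 - WW l t ≤ (s : ℝ) ^ 2 :=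
        le_trans (sub_le_sub_right (add_le_add_right (by norm_num) _) _) k2
      have b := h1 (Pb Λ) t _ _ _ l _ c1 p2 c3 c4
      rwa [p4] at b
    have a := OLD.av_dec m1 l _ a0
    have b := av_GG_ms Λ _ m2 l (Y (i + KK s) - Y i)
    have c : GG Λ l * ms (lo0 s i l \ hi s i l) l ≤ 2 / 2 ^ (32 * s) * NN l := by
      refine (mul_le_of_le_one_left (ms_nonneg _ _) (GG_le _ _)).trans ((h2 s i l).1.trans_eq ?_)
      ring
    have d : GG Λ l * ms (gd s ∩ hi s i l) l ≤ GG Λ l * Mx s i l := by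
      refine mul_le_mul_of_nonneg_left ?_ (GG_nonneg _ _)
      have := ms_nonneg (gd s)ᶜ l
      have : 0 ≤ NN l / 2 ^ (32 * s) := div_nonneg (NN_nonneg l) (by positivity)
      unfold Mx
      linarith
    refine le_trans ?_ (add_le_add (a.trans (mul_le_mul_of_nonneg_left d (OLD.n3 s).1))
      (b.trans c))
    rw [← av_add]
    refine av_mono fun e _ => ?_
    rw [← mul_add, lo, anc_append hl]
    refine mul_le_mul_of_nonneg_left ((ms_mono (fun t ht => ?_) _).trans (ms_union _ m2 _))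
      (GG_nonneg _ _)
    by_cases h : t ∈ hi s i l
    exacts [Or.inl ⟨ht.1, h⟩, Or.inr ⟨ht.2, h⟩]
  rw [av_split hY]
  refine (av_mono key).trans ?_
  rw [av_add, av_mul, av_mul]
  have q0 : i ∈ Icc (N0 s) (NE s) := mem_Icc.2 ⟨h0, (Nat.le_add_right _ _).trans hK⟩
  have q1 := mul_le_mul_of_nonneg_left (hM i q0) (OLD.n3 s).1
  have q2 := mul_le_of_le_one_right (OLD.n3 s).2 (av_NN (Y i))
  exact (add_le_add q1 q2).trans (OLD.n2 hs)

end Pool.Agent.Lib.RX
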