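import Pool.Agent.Lib.RX.Kit2

/-! Project rx29, block SA: the mean of the maximal window integral. -/

namespace Pool.Agent.Lib.RX

open Finset Real MeasureTheory Filter Topology Pool.Agent.Lib.RM67 Pool.Agent.Lib.RM67.T96

namespace Sa65

theorem gen (h1 : St_HYP) {x : ℕ → ℝ} {F : List Bool → ℝ → ℝ} (hF : Rec x F) (hB : ∀ l, BC (F l))
    (l : List Bool) (K : ℕ) {ρ B : ℝ} (hρ : 0 < ρ) (B0 : 0 ≤ B)
    (hW : ∀ u0, Wn ρ u0 (fun u => F l u ^ 2) ≤ B) (u0 : ℝ) :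
    av K (fun e => Wn ρ u0 fun u => 2 * F l u ^ 2 + 2 * mx F l.length (e ++ l) u) ≤
      2 * B + 32 * ((∑ m ∈ Ico l.length (l.length + K), x m ^ 2) *
        (exp (4 * ∑ m ∈ Ico l.length (l.length + K), x m ^ 2) * B)) := by
  have f2 := (hB l).pow 2
  have b1 : ∀ e, BC fun u => 2 * F l u ^ 2 + 2 * mx F l.length (e ++ l) u := fun e =>
    (f2.cmul 2).add ((mx_BC hB _ _).cmul 2)
  have b2 := hy_BC x 4 f2 l.length K
  have b3 : ∀ k ∈ range K, BC fun u => x (l.length + k) ^ 2 *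
      hy x 4 (fun u => F l u ^ 2) l.length K (u - log (l.length + k : ℕ)) :=
    fun k _ => (b2.shift _).cmul _
  rw [av_Wn hρ u0 K b1]
  refine (Wn_mono hρ u0 (av_BC K b1) ((f2.cmul 2).add ((BC.sum _ b3).cmul 32)) fun u => ?_).trans ?_
  · have := h1 x F hF 1 le_rfl l 0 K K (Nat.zero_le K) le_rfl u
    simp only [pow_one, add_zero, Nat.cast_one, mul_one, ← range_eq_Ico] at this
    rw [av_add, av_const, av_mul]
    linarith
  · rw [Wn_add hρ u0 (f2.cmul 2) ((BC.sum _ b3).cmul 32), Wn_cmul, Wn_cmul, Wn_sum hρ u0 _ b3]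
    refine add_le_add (by linarith [hW u0]) (mul_le_mul_of_nonneg_left ?_ (by norm_num))
    rw [sum_Ico_eq_sum_range (fun m => x m ^ 2), Nat.add_sub_cancel_left, sum_mul]
    refine sum_le_sum fun k _ => ?_
    rw [Wn_cmul, Wn_shift]
    refine mul_le_mul_of_nonneg_left ?_ (sq_nonneg _)
    have := Wn_hy x (ρ := 4) (by norm_num) hρ f2 l.length hW B0 K (u0 - log (l.length + k : ℕ))
    rwa [sum_Ico_eq_sum_range (fun m => x m ^ 2), Nat.add_sub_cancel_left] at this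

theorem num {S s B : ℝ} (hs : 6144 ≤ s) (h : exp S ≤ s ^ 3) (B0 : 0 ≤ B) :
    2 * B + 32 * (S * (exp (4 * S) * B)) ≤ s ^ 20 * B := by
  have a : S ≤ s ^ 3 := by linarith [add_one_le_exp S]
  have b : exp (4 * S) ≤ (s ^ 3) ^ 4 := by
    rw [show 4 * S = (4 : ℕ) * S by norm_num, exp_nat_mul]
    exact pow_le_pow_left₀ (exp_pos S).le h 4
  have c : S * exp (4 * S) ≤ s ^ 3 * (s ^ 3) ^ 4 :=
    mul_le_mul a b (exp_pos _).le (by positivity)
  have d : 1 ≤ s ^ 15 := one_le_pow₀ (by linarith)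
  have e : s ^ 1 ≤ s ^ 5 := pow_le_pow_right₀ (by linarith) (by norm_num)
  have f : 34 * s ^ 15 ≤ s ^ 5 * s ^ 15 := mul_le_mul_of_nonneg_right (by linarith) (by positivity)
  have g : 2 + 32 * (S * exp (4 * S)) ≤ s ^ 20 := by linarith
  linarith [mul_le_mul_of_nonneg_right g B0]

end Sa65

theorem st_SA (h1 : St_HYP) (h2 : St_WINE) : St_SA := by
  filter_upwards [par] with s hs j hj l0 A b hl hA
  have p := hs j hj
  have B0 : 0 ≤ nP s j A l0 := integral_nonneg fun _ => sq_nonneg _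
  have hB := g1_BC (TT_pos s) (sig_lt j) hA b
  have k := Sa65.gen h1 (g1_rec (TT_pos s) (sig_lt j) hA b) hB l0 (Y (j + 1) - Y (mm s j))
    (Lam_pos s j) B0 (fun u0 => (Wn_mono (Lam_pos s j) u0 ((hB l0).pow 2)
      (g1_BC2 (TT_pos s) (sig_lt j) hA l0) fun u => cp_sq b _).trans
        ((h2 _ _ u0 (Lam_pos s j) (Phi_int (TT_pos s) (sig_lt j) hA l0)).2
          (Phi_int2 (TT_pos s) (sig_le j) hA l0))) 0
  rw [hl, Nat.add_sub_cancel' p.Ym'] at k
  simp only [SA, anc_append hl]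
  exact k.trans (Sa65.num (by exact_mod_cast p.s_ge) p.exp_xx B0)

end Pool.Agent.Lib.RX
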