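import Pool.Agent.Lib.RX.Kit0

/-! Project rx29: block SAMP, sampling at the logarithms of the primes. -/

namespace Pool.Agent.Lib.RX

open Finset Real MeasureTheory Filter Topology Pool.Agent.Lib.RM67 Pool.Agent.Lib.RM67.T96

namespace SAMP

theorem subst (T c : ℝ) (g : ℝ → ℝ) :
    ∫ w, T * exp (-(T * |w|)) * g (c - w) = ∫ u, T * exp (-(T * |c - u|)) * g u := by
  have h := integral_sub_left_eq_self (fun u => T * exp (-(T * |c - u|)) * g u) volume c
  simp only [sub_sub_cancel] at h
  exact h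

theorem integ {T : ℝ} (hT : 0 < T) (c : ℝ) {g : ℝ → ℝ} (hg : BC g) :
    Integrable fun u => T * exp (-(T * |c - u|)) * g u := by
  have h := (hg.int (ρ := 1 / T) (by positivity) c).const_mul T
  refine h.congr (Eventually.of_forall fun u => ?_)
  have e : -|u - c| / (1 / T) = -(T * |c - u|) := by
    rw [abs_sub_comm u c]; field_simp
  simp only [e, mul_assoc]

theorem pt {T ρ y ς v L u : ℝ} (hT : 2 ≤ T) (hρ : 1 ≤ ρ) (hς : ς = 1 ∨ ς = -1) (h1 : y ≤ L)
    (h2 : L ≤ y + ρ) :
    exp (-(T * |v + ς * L - u|)) ≤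
      exp (-(T / 2 * |L - ς * (u - v)|)) * (exp 1 * exp (-|u - (v + ς * y)| / ρ)) := by
  have e : |v + ς * L - u| = |L - ς * (u - v)| := by
    rcases hς with rfl | rfl
    · congr 1; ring
    · rw [← abs_neg]; congr 1; ring
  have t : |u - (v + ς * y)| ≤ |L - ς * (u - v)| + ρ := by
    have a := le_abs_self (L - ς * (u - v))
    have b := neg_abs_le (L - ς * (u - v))
    rcases hς with rfl | rfl <;> exact abs_le.2 ⟨by linarith, by linarith⟩
  rw [e, ← exp_add, ← exp_add]
  refine exp_le_exp.2 ?_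
  set z := |L - ς * (u - v)| with hz
  have z0 : 0 ≤ z := abs_nonneg _
  have hρ0 : 0 < ρ := by linarith
  have k : |u - (v + ς * y)| / ρ ≤ z + 1 := by
    rw [div_le_iff₀ hρ0]; nlinarith
  rw [neg_div]
  nlinarith

end SAMP

theorem st_SAMP (h : St_BTK) : St_SAMP := by
  obtain ⟨C, hC, h⟩ := h
  refine ⟨C * exp 1, by positivity, fun a T ρ y ς v S g ha hT hTa hρ hς hS hg hg0 => ?_⟩
  have hT0 : 0 < T := by linarith
  have hρ0 : 0 < ρ := by linarith
  have hi : ∀ n ∈ S, Integrable fun u =>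
      r n * (T * exp (-(T * |v + ς * log n - u|)) * g u) :=
    fun n _ => (SAMP.integ hT0 _ hg).const_mul _
  simp only [SAMP.subst, ← integral_const_mul]
  rw [← integral_finsetSum _ hi, Wn, ← integral_const_mul]
  refine integral_mono (integrable_finsetSum _ hi) ((hg.int hρ0 _).const_mul _) fun u => ?_
  have k := h a T S ha hT hTa (fun n hn => (hS n hn).1) (ς * (u - v))
  have p : 0 ≤ exp 1 * exp (-|u - (v + ς * y)| / ρ) * g u :=
    mul_nonneg (by positivity) (hg0 u)
  calc ∑ n ∈ S, r n * (T * exp (-(T * |v + ς * log n - u|)) * g u)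
      ≤ ∑ n ∈ S, r n * (T * exp (-(T / 2 * |log n - ς * (u - v)|))) *
          (exp 1 * exp (-|u - (v + ς * y)| / ρ) * g u) := by
        refine sum_le_sum fun n hn => ?_
        have q := SAMP.pt (v := v) (u := u) hT hρ hς (hS n hn).2.1 (hS n hn).2.2
        have q2 := mul_le_mul_of_nonneg_left q
          (mul_nonneg (mul_nonneg (r_nonneg n) hT0.le) (hg0 u))
        calc _ = r n * T * g u * exp (-(T * |v + ς * log n - u|)) := by ring
          _ ≤ _ := q2
          _ = _ := by ring
    _ = (∑ n ∈ S, r n * (T * exp (-(T / 2 * |log n - ς * (u - v)|)))) *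
          (exp 1 * exp (-|u - (v + ς * y)| / ρ) * g u) := (sum_mul _ _ _).symm
    _ ≤ C / a * (exp 1 * exp (-|u - (v + ς * y)| / ρ) * g u) := mul_le_mul_of_nonneg_right k p
    _ = C * exp 1 / a * (exp (-|u - (v + ς * y)| / ρ) * g u) := by ring

end Pool.Agent.Lib.RX
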