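import Pool.Agent.Lib.RX.Kit1

/-! Project rx29, row SE: sampling of a Fourier integral. -/

namespace Pool.Agent.Lib.RX

open Finset Real MeasureTheory Filter Topology Pool.Agent.Lib.RM67 Pool.Agent.Lib.RM67.T96

noncomputable section

namespace XSE

theorem En_two (ρ : ℝ) (f : ℝ → ℝ) : En ρ (fun t => 2 * f t) = 4 * En ρ f := by
  rw [En, En, ← integral_const_mul]
  refine integral_congr_ae (Eventually.of_forall fun t => ?_)
  simp only [mul_div_assoc, integral_const_mul]
  ring

theorem split (f : ℝ → ℂ) (h : ℝ) : ‖∫ t, f t * ee (t * h)‖ ^ 2 =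
    (2 * π) ^ 2 * (cp true (II f h) ^ 2 + cp false (II f h) ^ 2) := by
  have e : ∫ t, f t * ee (t * h) = (2 * π : ℝ) * II f h := by
    rw [II, ← mul_assoc, ← Complex.ofReal_mul, mul_inv_cancel₀ (by positivity), Complex.ofReal_one,
      one_mul]
  rw [e, norm_mul, mul_pow, Complex.norm_real, norm_eq_abs, sq_abs, Complex.sq_norm,
    Complex.normSq_apply, cp_true, cp_false]
  ring

end XSE

open XSE in
theorem st_SE (h1 : St_STEP) (h2 : St_SAMP) (h3 : St_WINE) (h4 : St_EN) : St_SE := by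
  obtain ⟨C, hC, hS⟩ := h2
  refine ⟨16 * (2 * π) ^ 2 * C, by positivity, fun a T ρ v S f ha hT hTa hρ hn hf h0 => ?_⟩
  have hT0 : 0 < T := by linarith
  have hρ0 : 0 < ρ := by linarith
  set Φ : ℝ → ℂ := fun t => f t * (1 + (t / T : ℝ) * Complex.I) with hΦ
  have hb : ∀ t, ‖Φ t‖ ≤ 2 * ‖f t‖ := fun t => by
    by_cases ht : T < |t|
    · simp [hΦ, h0 t ht]
    · rw [hΦ, norm_mul, mul_comm]
      refine mul_le_mul_of_nonneg_right ((norm_add_le _ _).trans ?_) (norm_nonneg _)
      rw [norm_one, norm_mul, Complex.norm_I, mul_one, Complex.norm_real, norm_eq_abs, abs_div,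
        abs_of_pos hT0]
      have := (div_le_one hT0).2 (not_lt.1 ht)
      linarith
  have hi : Integrable Φ := (hf.norm.const_mul 2).mono'
    (hf.aestronglyMeasurable.mul (Continuous.aestronglyMeasurable (by fun_prop)))
    (Eventually.of_forall hb)
  have e : (fun t => aa T 0 t * Φ t) = f := funext fun t => by
    have k := line_ne hT0 t
    have k' : (T : ℂ) ≠ 0 := Complex.ofReal_ne_zero.2 hT0.ne'
    simp only [aa, hΦ]
    push_cast
    rw [add_zero]
    field_simp
  have hE : En ρ (fun t => ‖Φ t‖) ≤ 4 * En ρ fun t => ‖f t‖ := by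
    rw [← En_two]
    exact h4.1 ρ ρ _ _ hρ0.le le_rfl hi.norm (hf.norm.const_mul 2) (fun t => norm_nonneg _) hb
  have key : ∀ (b : Bool) (ς : ℝ), (ς = 1 ∨ ς = -1) →
      ∑ n ∈ S, r n * cp b (II f (v + ς * log n)) ^ 2 ≤
        C / a * (ρ * (4 * En ρ fun t => ‖f t‖)) := fun b ς hς => by
    refine (sum_le_sum fun n _ => mul_le_mul_of_nonneg_left ?_ (r_nonneg n)).trans
      ((hS a T ρ 0 ς v S (fun u => cp b (II Φ u) ^ 2) ha hT hTa hρ hς
        (fun n h => ⟨(hn n h).1, log_natCast_nonneg n, by simpa using (hn n h).2⟩)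
        ((II_BC hi b).pow 2) fun u => sq_nonneg _).trans
        (mul_le_mul_of_nonneg_left ?_ (by positivity)))
    · have := h1 T 0 Φ hT0 le_rfl hi b (v + ς * log n)
      rwa [e] at this
    · exact (Wn_mono hρ0 _ ((II_BC hi b).pow 2) ((II_BCn hi).pow 2) fun u => cp_sq _ _).trans
        ((h3 ρ Φ _ hρ0 hi).1.trans (mul_le_mul_of_nonneg_left hE hρ0.le))
  have k1 := key true 1 (Or.inl rfl)
  have k2 := key false 1 (Or.inl rfl)
  have k3 := key true (-1) (Or.inr rfl)
  have k4 := key false (-1) (Or.inr rfl)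
  simp only [one_mul, neg_mul, ← sub_eq_add_neg] at k1 k2 k3 k4
  have k5 := mul_le_mul_of_nonneg_left (add_le_add (add_le_add k1 k2) (add_le_add k3 k4))
    (sq_nonneg (2 * π))
  refine le_of_eq_of_le ?_ (k5.trans_eq ?_)
  · simp only [← sum_add_distrib, mul_sum]
    refine sum_congr rfl fun n _ => ?_
    rw [split, split]
    ring
  · ring

end

end Pool.Agent.Lib.RX
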