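import Pool.Agent.Lib.RX.Kit2

/-! Project rx29, row SSE: the smoothed sum as an inverse Fourier integral. -/

namespace Pool.Agent.Lib.RX

open Finset Real MeasureTheory Filter Topology Pool.Agent.Lib.RM67 Pool.Agent.Lib.RM67.T96

namespace SSE

theorem xx_prime (σ : ℝ) {n : ℕ} (hn : n.Prime) : xx σ n = exp (-((1 / 2 - σ) * log n)) := by
  have h0 : (0 : ℝ) < n := by exact_mod_cast hn.pos
  have e : √(r n) = exp (-(1 / 2 * log n)) := by
    rw [r_prime hn, sqrt_eq_iff_mul_self_eq (by positivity) (exp_pos _).le, ← exp_add,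
      show -(1 / 2 * log n) + -(1 / 2 * log n) = -log (n : ℝ) by ring, exp_neg, exp_log h0, one_div]
  rw [xx, e, ← exp_add]
  congr 1
  ring

end SSE

theorem st_SSE (h : St_BASE) : St_SSE := by
  intro T σ l v hT hσ
  induction l generalizing v with
  | nil =>
    have k := congrArg Complex.re (h T (1 / 2 - σ) v hT (by linarith))
    rw [Complex.ofReal_re, Complex.re_ofReal_mul] at k
    simpa [SS, g0, Phi, Ec] using k
  | cons b l ih =>
    rw [SS, g0_cons hT hσ MeasurableSet.univ, Complex.add_re, Complex.re_ofReal_mul, ih v]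
    split_ifs with hp
    · rw [ih, SSE.xx_prime σ hp, show (1 / 2 - σ) * (v - log l.length) =
        (1 / 2 - σ) * v + -((1 / 2 - σ) * log l.length) by ring, exp_add]
      ring
    · simp [xx, r_not hp]

end Pool.Agent.Lib.RX
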