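import Pool.Agent.Lib.RX.Kit0

/-! Project rx29: the smoothing step. -/

namespace Pool.Agent.Lib.RX

open Finset Real MeasureTheory Filter Topology Pool.Agent.Lib.RM67 Pool.Agent.Lib.RM67.T96

noncomputable section

namespace XSTEP

theorem ee_norm (y : ℝ) : ‖ee y‖ = 1 := Complex.norm_exp_ofReal_mul_I y

theorem ee_cont : Continuous ee := by
  unfold ee
  fun_prop

theorem ee_add (x y : ℝ) : ee (x + y) = ee x * ee y := by
  simp only [ee, ← Complex.exp_add]
  congr 1
  push_cast
  ring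

theorem ii_cont {Φ : ℝ → ℂ} (hΦ : Integrable Φ) : Continuous (II Φ) := by
  refine continuous_const.mul (continuous_of_dominated (bound := fun t => ‖Φ t‖) ?_ ?_ hΦ.norm ?_)
  · exact fun u => hΦ.1.mul (ee_cont.comp (continuous_id.mul continuous_const)).aestronglyMeasurable
  · exact fun u => Eventually.of_forall fun t => by simp [ee_norm]
  · exact Eventually.of_forall fun t =>
      continuous_const.mul (ee_cont.comp (continuous_const.mul continuous_id))

theorem ii_bd (Φ : ℝ → ℂ) (u : ℝ) : ‖II Φ u‖ ≤ (2 * π)⁻¹ * ∫ t, ‖Φ t‖ := by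
  unfold II
  rw [norm_mul, Complex.norm_real, Real.norm_of_nonneg (by positivity)]
  exact mul_le_mul_of_nonneg_left ((norm_integral_le_integral_norm _).trans (by simp [ee_norm]))
    (by positivity)

theorem cp_le (b : Bool) (z : ℂ) : |cp b z| ≤ ‖z‖ := by
  cases b
  exacts [Complex.abs_im_le_norm z, Complex.abs_re_le_norm z]

theorem cp_bc {Φ : ℝ → ℂ} (hΦ : Integrable Φ) (b : Bool) (h : ℝ) :
    BC fun w => cp b (II Φ (h - w)) := by
  refine ⟨?_, _, fun w => (cp_le _ _).trans (ii_bd Φ _)⟩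
  have := (ii_cont hΦ).comp (continuous_sub_left h)
  cases b
  exacts [Complex.continuous_im.comp this, Complex.continuous_re.comp this]

theorem aa_eq {T c : ℝ} (hT : 0 < T) (hc : 0 ≤ c) (t : ℝ) :
    aa T c t = ∫ w in Set.Ioi (0 : ℝ), ((T * exp (-(T + c) * w) : ℝ) : ℂ) * ee (-(t * w)) := by
  have ha : (-(T + c + t * Complex.I) : ℂ).re < 0 := by simp; linarith
  have e := integral_exp_mul_complex_Ioi ha 0
  have f : ∀ w : ℝ, ((T * exp (-(T + c) * w) : ℝ) : ℂ) * ee (-(t * w)) =
      T * Complex.exp (-(T + c + t * Complex.I) * w) := by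
    intro w
    simp only [ee, Complex.ofReal_mul, Complex.ofReal_exp, mul_assoc, ← Complex.exp_add]
    congr 2
    push_cast
    ring
  simp only [f, integral_const_mul, e, aa]
  rw [neg_div_neg_eq, Complex.ofReal_zero, mul_zero, Complex.exp_zero, mul_one_div]

theorem k_int {T c : ℝ} (hT : 0 < T) (hc : 0 ≤ c) :
    IntegrableOn (fun w => T * exp (-(T + c) * w)) (Set.Ioi (0 : ℝ)) :=
  (integrableOn_exp_mul_Ioi (by linarith) 0).const_mul T

theorem swap {T c : ℝ} {Φ : ℝ → ℂ} (hT : 0 < T) (hc : 0 ≤ c) (hΦ : Integrable Φ) (h : ℝ) :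
    II (fun t => aa T c t * Φ t) h =
      ∫ w in Set.Ioi (0 : ℝ), ((T * exp (-(T + c) * w) : ℝ) : ℂ) * II Φ (h - w) := by
  have i : Integrable (Function.uncurry fun t w : ℝ =>
      ((T * exp (-(T + c) * w) : ℝ) : ℂ) * (Φ t * ee (t * (h - w))))
      (volume.prod (volume.restrict (Set.Ioi (0 : ℝ)))) := by
    have j := (hΦ.mul_prod (k_int hT hc).ofReal).mul_bdd (c := 1)
      (g := fun p : ℝ × ℝ => ee (p.1 * (h - p.2)))
      (ee_cont.comp (by fun_prop)).aestronglyMeasurable
      (Eventually.of_forall fun p => (ee_norm _).le)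
    refine j.congr (Eventually.of_forall fun p => ?_)
    exact (mul_assoc _ _ _).trans (mul_left_comm _ _ _)
  have s := integral_integral_swap i
  simp only [II, integral_const_mul] at s ⊢
  simp only [mul_left_comm _ (((2 * π : ℝ)⁻¹ : ℝ) : ℂ), integral_const_mul, ← s]
  congr 2
  funext t
  rw [aa_eq hT hc, mul_assoc, ← integral_mul_const]
  congr 1
  funext w
  rw [mul_sub t, sub_eq_add_neg, ee_add]
  ring

theorem cp_swap {T c : ℝ} {Φ : ℝ → ℂ} (hT : 0 < T) (hc : 0 ≤ c) (hΦ : Integrable Φ) (b : Bool)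
    (h : ℝ) : cp b (II (fun t => aa T c t * Φ t) h) =
      ∫ w in Set.Ioi (0 : ℝ), T * exp (-(T + c) * w) * cp b (II Φ (h - w)) := by
  have i : Integrable (fun w => ((T * exp (-(T + c) * w) : ℝ) : ℂ) * II Φ (h - w))
      (volume.restrict (Set.Ioi (0 : ℝ))) :=
    (k_int hT hc).ofReal.mul_bdd ((ii_cont hΦ).comp (continuous_sub_left h)).aestronglyMeasurable
      (Eventually.of_forall fun w => ii_bd Φ _)
  rw [swap hT hc hΦ]
  cases b
  · simpa only [cp, Bool.false_eq_true, if_false, RCLike.im_to_complex, Complex.im_ofReal_mul]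
      using (integral_im i).symm
  · simpa only [cp, if_true, RCLike.re_to_complex, Complex.re_ofReal_mul]
      using (integral_re i).symm

theorem cs {T c : ℝ} (hT : 0 < T) (hc : 0 ≤ c) {f : ℝ → ℝ} (hf : BC f) :
    (∫ w in Set.Ioi (0 : ℝ), T * exp (-(T + c) * w) * f w) ^ 2 ≤
      ∫ w, T * exp (-(T * |w|)) * f w ^ 2 := by
  have bi : ∀ g, BC g → IntegrableOn (fun w => T * exp (-(T + c) * w) * g w) (Set.Ioi (0 : ℝ)) :=
    fun g hg => by
      obtain ⟨a, C, hC⟩ := hg
      exact (k_int hT hc).mul_bdd a.aestronglyMeasurable (Eventually.of_forall hC)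
  have i1 := bi f hf
  have i2 := bi _ (hf.pow 2)
  have i0 := k_int hT hc
  have i3 : Integrable fun w => T * exp (-(T * |w|)) * f w ^ 2 := by
    refine (((hf.pow 2).int (ρ := T⁻¹) (by positivity) 0).const_mul T).congr
      (Eventually.of_forall fun w => ?_)
    simp only [sub_zero, div_inv_eq_mul, mul_assoc]
    congr 3
    ring
  have hK : ∫ w in Set.Ioi (0 : ℝ), T * exp (-(T + c) * w) ≤ 1 := by
    rw [integral_const_mul, integral_exp_mul_Ioi (by linarith), mul_zero, exp_zero, neg_div_neg_eq,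
      mul_one_div, div_le_one (by linarith)]
    linarith
  set m := ∫ w in Set.Ioi (0 : ℝ), T * exp (-(T + c) * w) * f w with hm
  have h1 : ∫ w in Set.Ioi (0 : ℝ), 2 * m * (T * exp (-(T + c) * w) * f w) ≤
      ∫ w in Set.Ioi (0 : ℝ), (m ^ 2 * (T * exp (-(T + c) * w)) +
        T * exp (-(T + c) * w) * f w ^ 2) := by
    refine integral_mono (i1.const_mul _) ((i0.const_mul _).add i2) fun w => ?_
    have := mul_nonneg (by positivity : 0 ≤ T * exp (-(T + c) * w)) (sq_nonneg (f w - m))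
    simp only
    linarith
  rw [integral_add (i0.const_mul _) i2, integral_const_mul, integral_const_mul, ← hm] at h1
  have h2 : ∫ w in Set.Ioi (0 : ℝ), T * exp (-(T + c) * w) * f w ^ 2 ≤
      ∫ w in Set.Ioi (0 : ℝ), T * exp (-(T * |w|)) * f w ^ 2 := by
    refine setIntegral_mono_on i2 i3.integrableOn measurableSet_Ioi fun w hw => ?_
    have hw : 0 < w := hw
    rw [abs_of_pos hw]
    have : exp (-(T + c) * w) ≤ exp (-(T * w)) := exp_le_exp.2 (by nlinarith)
    gcongr
  have h3 := setIntegral_le_integral (s := Set.Ioi (0 : ℝ)) i3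
    (Eventually.of_forall fun w => by positivity)
  nlinarith [mul_le_mul_of_nonneg_left hK (sq_nonneg m)]

end XSTEP

open XSTEP in
theorem st_STEP : St_STEP := by
  intro T c Φ hT hc hΦ b h
  rw [cp_swap hT hc hΦ]
  exact cs hT hc (cp_bc hΦ b h)

end

end Pool.Agent.Lib.RX
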