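import Pool.Agent.Lib.RX.Kit2

/-! Project rx29: the amplified product stays below the product. -/

namespace Pool.Agent.Lib.RX

open Finset Real Filter Pool.Agent.Lib.RM67 Pool.Agent.Lib.RM67.T96

namespace XTILT

theorem lg {x : ℝ} (h : |x| ≤ 1 / 2) : |log (1 + x) - (x - x ^ 2 / 2)| ≤ 2 * |x| ^ 3 := by
  have h1 := abs_log_sub_add_sum_range_le (x := -x) (by rw [abs_neg]; linarith) 2
  rw [abs_neg, sub_neg_eq_add] at h1
  have e : ∑ i ∈ range 2, (-x) ^ (i + 1) / ((i : ℝ) + 1) + log (1 + x) =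
      log (1 + x) - (x - x ^ 2 / 2) := by
    simp only [sum_range_succ, sum_range_zero]
    push_cast
    ring
  rw [e] at h1
  refine h1.trans ?_
  rw [div_le_iff₀ (by linarith)]
  have := mul_le_mul_of_nonneg_left h (show 0 ≤ |x| ^ 3 by positivity)
  norm_num
  linarith

theorem step {a y : ℝ} (h0 : 0 ≤ a) (h1 : a ≤ 1) (hy : |y| ≤ 1 / 4) :
    0 ≤ 1 + (1 + a) * y ∧
      1 + (1 + a) * y ≤ (1 + y) * exp (a * (y - y ^ 2) - a ^ 2 * (y ^ 2 / 2) + 18 * |y| ^ 3) := by
  have h2 : |(1 + a) * y| ≤ 2 * |y| := by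
    rw [abs_mul, abs_of_nonneg (by linarith)]
    exact mul_le_mul_of_nonneg_right (by linarith) (abs_nonneg y)
  have h3 : 0 < 1 + (1 + a) * y := by linarith [(abs_le.1 h2).1]
  have h4 : 0 < 1 + y := by linarith [(abs_le.1 hy).1]
  have h5 := (abs_le.1 (lg (x := (1 + a) * y) (by linarith))).2
  have h6 := (abs_le.1 (lg (x := y) (by linarith))).1
  have h7 : |(1 + a) * y| ^ 3 ≤ (2 * |y|) ^ 3 := pow_le_pow_left₀ (abs_nonneg _) h2 3
  refine ⟨h3.le, ?_⟩
  rw [← exp_log h3]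
  nth_rewrite 1 [← exp_log h4]
  rw [← exp_add, exp_le_exp]
  nlinarith

theorem Rl_eq (γ : ℝ) (n : ℕ) (t : ℝ) : ∀ l : List Bool, l.length ≤ n → Rl γ n l t = R l t
  | [], _ => rfl
  | b :: l, h => by
    rw [List.length_cons] at h
    rw [Rl, R, Rl_eq γ n t l (by omega), if_neg (by omega), mul_one]

theorem key {a : ℝ} (h0 : 0 ≤ a) (h1 : a ≤ 1) (n : ℕ) (t : ℝ) : ∀ l : List Bool, n ≤ l.length →
    (∀ m ∈ Ico n l.length, |bb m t| ≤ 1 / 4) → 0 ≤ Rl (1 + a) n l t ∧
      Rl (1 + a) n l t ≤ R l t * exp (a * (WW l t - WW (anc n l) t) -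
        a ^ 2 * ∑ m ∈ Ico n l.length, bb m t ^ 2 / 2 + 18 * ∑ m ∈ Ico n l.length, |bb m t| ^ 3)
  | [], _, _ => by simp [Rl, R, anc]
  | b :: l, h, hb => by
    by_cases hn : n ≤ l.length
    · rw [List.length_cons] at hb
      obtain ⟨k1, k2⟩ := key h0 h1 n t l hn fun m hm =>
        hb m (mem_Ico.2 ⟨(mem_Ico.1 hm).1, by have := (mem_Ico.1 hm).2; omega⟩)
      have e1 : |sg b * bb l.length t| = |bb l.length t| := by cases b <;> simp
      have e2 : (sg b * bb l.length t) ^ 2 = bb l.length t ^ 2 := by cases b <;> simp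
      obtain ⟨k3, k4⟩ := step h0 h1 (y := sg b * bb l.length t)
        (e1 ▸ hb _ (mem_Ico.2 ⟨hn, by omega⟩))
      rw [e1, e2] at k4
      have e3 : sg b * (1 + a) * bb l.length t = (1 + a) * (sg b * bb l.length t) := by ring
      rw [Rl, if_pos hn, e3, R, WW, anc_cons b hn, List.length_cons, sum_Ico_succ_top hn,
        sum_Ico_succ_top hn]
      refine ⟨mul_nonneg k1 k3, (mul_le_mul k2 k4 k3
        (mul_nonneg (R_pos t l).le (exp_pos _).le)).trans_eq ?_⟩
      rw [mul_mul_mul_comm, ← exp_add]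
      congr 2
      ring
    · have e : (b :: l).length = n := by rw [List.length_cons] at h ⊢; omega
      rw [Rl_eq _ _ _ _ e.le, anc_of_le e.le, e]
      simp [(R_pos t (b :: l)).le]

end XTILT

open XTILT in
theorem st_TILT (h : St_ARG) : St_TILT := by
  obtain ⟨C, hC, -, -, -, h4, -⟩ := h
  intro Λ hΛ
  filter_upwards [ev_par0, ev_poly (32 * C) 0] with s ⟨p1, _, _, p4⟩ hs l t l1 l2 hP
  rw [pow_zero, mul_one] at hs
  have a0 : 0 < la s := by unfold la; positivity
  have a1 : la s ≤ 1 := by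
    rw [la, div_le_one (by positivity)]
    exact le_self_pow₀ one_le_two (by omega)
  have b1 : 18 * s ≤ 2 ^ N0 s := by
    have := Nat.lt_two_pow_self (n := 16 * s)
    have := NE_eq s
    have : N0 s = 2 ^ (16 * s) := rfl
    omega
  have b2 : (2 : ℝ) ^ (9 * s) ≤ √(Y (N0 s) : ℝ) := by
    refine le_sqrt_of_sq_le ?_
    rw [← pow_mul, Y]
    push_cast
    exact pow_le_pow_right₀ one_le_two (by omega)
  have b3 : ∑ m ∈ Ico (Y (N0 s)) l.length, |bb m t| ^ 3 ≤ la s / 64 := by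
    refine (h4 _ _ t (Y_pos _)).trans ((div_le_div_of_nonneg_left hC (by positivity) b2).trans ?_)
    rw [la, div_div, div_le_div_iff₀ (by positivity) (by positivity),
      show 9 * s = s + 8 * s by ring, pow_add]
    have := mul_le_mul_of_nonneg_right hs (show (0 : ℝ) ≤ 2 ^ (8 * s) by positivity)
    generalize (2 : ℝ) ^ (8 * s) = u at this ⊢
    generalize (2 : ℝ) ^ s = v at this ⊢
    linarith
  obtain ⟨k1, k2⟩ := key a0.le a1 (Y (N0 s)) t l l1 fun m hm => by
    have := single_le_sum (f := fun m => |bb m t| ^ 3) (fun _ _ => by positivity) hm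
    refine le_of_pow_le_pow_left₀ (n := 3) (by norm_num) (by norm_num) ?_
    norm_num
    linarith
  refine ⟨k1, (mul_le_mul_of_nonneg_left k2 (exp_pos _).le).trans ?_⟩
  rw [mul_left_comm, ← exp_add]
  refine mul_le_mul_of_nonneg_left (exp_le_exp.2 ?_) (R_pos t l).le
  have w := mul_le_mul_of_nonneg_left (W_ab (by linarith : 0 < Λ) hP l2 t) a0.le
  linarith

end Pool.Agent.Lib.RX
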