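import Pool.Agent.Lib.RX.Kit2

/-! Project rx29, row UV: sampling bounds for the predictable variation. -/

namespace Pool.Agent.Lib.RX

open Finset Real MeasureTheory Filter Topology Pool.Agent.Lib.RM67 Pool.Agent.Lib.RM67.T96

namespace XUV

theorem kint {T : ℝ} (hT : 0 < T) {g : ℝ → ℝ} (hg : BC g) (c : ℝ) :
    Integrable fun w => T * exp (-(T * |w|)) * g (c - w) := by
  obtain ⟨h, C, hC⟩ := hg
  have h1 : BC fun w => g (c - w) := ⟨h.comp (continuous_const.sub continuous_id), C, fun _ => hC _⟩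
  refine ((h1.int (inv_pos.2 hT) 0).const_mul T).congr (Eventually.of_forall fun w => ?_)
  simp only [sub_zero, div_inv_eq_mul, mul_assoc, neg_mul, mul_comm |w|]

theorem split (f : ℕ → ℝ) {P : ℕ → ℕ} (hP : Monotone P) : ∀ m,
    ∑ n ∈ Ico (P 0) (P m), f n = ∑ i ∈ range m, ∑ n ∈ Ico (P i) (P (i + 1)), f n
  | 0 => by simp
  | m + 1 => by
    rw [sum_range_succ, ← split f hP m, sum_Ico_consecutive _ (hP m.zero_le) (hP m.le_succ)]

theorem sq2 {x y m : ℝ} (h : (x - y) ^ 2 ≤ m) : x ^ 2 ≤ 2 * y ^ 2 + 2 * m := by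
  nlinarith [sq_nonneg (x - 2 * y)]

theorem core (h1 : St_STEP) {C : ℝ} (hC : 0 ≤ C)
    (h2 : ∀ (a : ℕ) (T ρ y ς v : ℝ) (S : Finset ℕ) (g : ℝ → ℝ),
      64 ≤ a → 2 ≤ T → T ^ 4 ≤ 2 ^ a → 1 ≤ ρ → (ς = 1 ∨ ς = -1) →
      (∀ n ∈ S, 2 ^ a ≤ n ∧ y ≤ log n ∧ log n ≤ y + ρ) → BC g → (∀ u, 0 ≤ g u) →
      ∑ n ∈ S, r n * ∫ w, T * exp (-(T * |w|)) * g (v + ς * log n - w) ≤
        C / a * Wn ρ (v + ς * y) g)
    {s j : ℕ} (h : Par s j) (z : ℕ → Bool) {A : Set ℝ} (hA : MeasurableSet A) (b : Bool)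
    (S : Finset ℕ) {n0 n1 : ℕ} {ρ y v u1 : ℝ} (hρ : 1 ≤ ρ) (hu : |v - y - u1| ≤ ρ)
    (hS : ∀ n ∈ S, Y j ≤ n ∧ n < Y (j + 1) ∧ n0 ≤ n ∧ n ≤ n1 ∧ y ≤ log n ∧ log n ≤ y + ρ) :
    ∑ n ∈ S, (xx (sig j) n * cp b (g0 (TT s) (sig j) A (L z n) (v - log n))) ^ 2 ≤
      9 / 2 * C / 2 ^ j * Wn ρ u1 fun u => 2 * cp b (g1 (TT s) (sig j) A (L z n0) u) ^ 2 +
        2 * mx (fun l u => cp b (g1 (TT s) (sig j) A l u)) n0 (L z n1) u := by
  set F : List Bool → ℝ → ℝ := fun l u => cp b (g1 (TT s) (sig j) A l u) with hF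
  have hB : ∀ l, BC (F l) := fun l => g1_BC (TT_pos s) (sig_lt j) hA b l
  set G : ℝ → ℝ := fun u => 2 * F (L z n0) u ^ 2 + 2 * mx F n0 (L z n1) u with hG
  have gB : BC G := (((hB _).pow 2).cmul 2).add ((mx_BC hB n0 _).cmul 2)
  have g0' : ∀ u, 0 ≤ G u := fun u =>
    add_nonneg (mul_nonneg zero_le_two (sq_nonneg _)) (mul_nonneg zero_le_two (mx_nonneg _ _ _ _))
  have hT := TT_pos s
  have k1 := h2 (2 ^ j) (TT s) ρ y (-1) v S G (h.a64 h.m_le) (two_le_TT s) (h.T4 h.m_le) hρ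
    (Or.inr rfl) (fun n hn => ⟨(hS n hn).1, (hS n hn).2.2.2.2⟩) gB g0'
  have k2 : Wn ρ (v + -1 * y) G ≤ 3 * Wn ρ u1 G :=
    Wn_cmp (by linarith) le_rfl (by rwa [neg_one_mul, ← sub_eq_add_neg]) gB g0'
  have k3 : ∀ n ∈ S, (xx (sig j) n * cp b (g0 (TT s) (sig j) A (L z n) (v - log n))) ^ 2 ≤
      3 / 2 * (r n * ∫ w, TT s * exp (-(TT s * |w|)) * G (v + -1 * log n - w)) := fun n hn => by
    obtain ⟨-, a2, a3, a4, -⟩ := hS n hn
    have b1 := h1 (TT s) (1 / 2 - sig j) _ hT (by linarith [sig_lt j])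
      (Phi_int hT (sig_lt j) hA (L z n)) b (v - log n)
    have b2 : ∫ w, TT s * exp (-(TT s * |w|)) * F (L z n) (v - log n - w) ^ 2 ≤
        ∫ w, TT s * exp (-(TT s * |w|)) * G (v + -1 * log n - w) := by
      rw [neg_one_mul, ← sub_eq_add_neg]
      refine integral_mono_of_nonneg (Eventually.of_forall fun w =>
        mul_nonneg (mul_nonneg hT.le (exp_pos _).le) (sq_nonneg _)) (kint hT gB _) (Eventually.of_forall fun w => ?_)
      exact mul_le_mul_of_nonneg_left (sq2 (le_mx F z (v - log n - w) a3 a4))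
        (mul_nonneg hT.le (exp_pos _).le)
    rw [mul_pow, ← mul_assoc]
    exact mul_le_mul (xx_sq_le a2) (b1.trans b2) (sq_nonneg _)
      (mul_nonneg (by norm_num) (r_nonneg n))
  refine (sum_le_sum k3).trans ?_
  rw [← mul_sum]
  push_cast at k1
  have k4 := mul_le_mul_of_nonneg_left k2 (div_nonneg hC (pow_nonneg zero_le_two j))
  have k5 : ∀ x : ℝ, 3 / 2 * (C / 2 ^ j * (3 * x)) = 9 / 2 * C / 2 ^ j * x := fun x => by ring
  exact (mul_le_mul_of_nonneg_left (k1.trans k4) (by norm_num)).trans_eq (k5 _)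

end XUV

theorem st_UV (h1 : St_STEP) (h2 : St_SAMP) : St_UV := by
  obtain ⟨C, hC, h2⟩ := h2
  refine ⟨9 * C, by positivity, par.mono fun s hs j hj z A v hA v0 v1 => ?_⟩
  have h := hs j hj
  refine ⟨fun b => ?_, ?_⟩
  · have hL : (2 : ℝ) ^ (j + 1) ≤ Lam s j := pow_le_pow_right₀ one_le_two (by omega)
    have k := XUV.core h1 hC h2 h z hA b (Ico (Y j) (Y (j + 1))) (n0 := Y (mm s j))
      (n1 := Y (j + 1)) (ρ := Lam s j) (y := 0) (v := v) (u1 := 0)
      ((one_le_pow₀ one_le_two).trans hL) (by rwa [sub_zero, sub_zero, abs_of_nonneg v0])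
      fun n hn => by
        obtain ⟨a1, a2⟩ := mem_Ico.1 hn
        refine ⟨a1, a2, h.Ym.trans a1, a2.le, log_natCast_nonneg n, ?_⟩
        have a3 := (log_mem hn).2
        push_cast at a3
        have a4 : (2 : ℝ) ^ (j + 1) * log 2 ≤ 2 ^ (j + 1) :=
          mul_le_of_le_one_right (by positivity) (by linarith [log_two_lt_d9])
        linarith
    refine k.trans ?_
    have e := SA_nonneg s j A b (L z (Y (j + 1)))
    unfold SA at e ⊢
    rw [anc_L z h.Ym'] at e ⊢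
    gcongr
    linarith
  · have hρ := rho_pos s j
    set k := ⌊v / rho s j⌋₊ with hk
    have f1 : (k : ℝ) * rho s j ≤ v := (le_div_iff₀ hρ).1 (Nat.floor_le (by positivity))
    have f2 : v < (k + 1) * rho s j := (div_lt_iff₀ hρ).1 (Nat.lt_floor_add_one _)
    unfold UV Er
    rw [← h.PP_top, ← PP_zero s j, XUV.split _ (PP_mono s j), ← sum_add_distrib, mul_sum]
    refine sum_le_sum fun i hi => ?_
    have hi' : i + 1 ≤ 2 ^ s := mem_range.1 hi
    have k1 := XUV.core h1 hC h2 h z hA true (Ico (PP s j i) (PP s j (i + 1))) (n0 := PP s j i)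
      (n1 := PP s j (i + 1)) (ρ := rho s j) (y := (2 ^ s + i) * rho s j) (v := v)
      (u1 := uu s j k i) h.one_le_rho (by
        rw [uu, abs_le]
        constructor <;> linarith)
      fun n hn => by
        obtain ⟨a1, a2⟩ := mem_Ico.1 hn
        have a3 := log_mem hn
        rw [h.log_PP, h.log_PP] at a3
        push_cast at a3
        exact ⟨((PP_zero s j).ge.trans (PP_mono s j i.zero_le)).trans a1, a2.trans_le (h.PP_le hi'),
          a1, a2.le, a3.1, by linarith [a3.2]⟩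
    refine k1.trans ?_
    have hB : ∀ l, BC fun u => cp true (g1 (TT s) (sig j) A l u) := fun l =>
      g1_BC (TT_pos s) (sig_lt j) hA true l
    rw [Wn_add hρ _ (((hB _).pow 2).cmul 2) ((mx_BC hB _ _).cmul 2), Wn_cmul, Wn_cmul,
      anc_L z (PP_mono s j hi')]
    have k2 : Wn (rho s j) (uu s j k i)
        (fun u => cp true (g1 (TT s) (sig j) A (L z (PP s j i)) u) ^ 2) ≤
        QQ s j k i A (L z (PP s j i)) :=
      Wn_mono hρ _ ((hB _).pow 2) (g1_BC2 (TT_pos s) (sig_lt j) hA _) fun u => cp_sq _ _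
    have k3 := mul_le_mul_of_nonneg_left k2 (show 0 ≤ 9 * C / 2 ^ j by positivity)
    have k4 : ∀ x y : ℝ, 9 / 2 * C / 2 ^ j * (2 * x + 2 * y) =
      9 * C / 2 ^ j * x + 9 * C / 2 ^ j * y := fun x y => by ring
    rw [k4, mul_add]
    exact add_le_add k3 le_rfl

end Pool.Agent.Lib.RX
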