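import Pool.Agent.Lib.RX.Kit0

/-! Project rx29: the abstract variance bounds. -/

namespace Pool.Agent.Lib.RX

open Finset Real MeasureTheory Filter Topology Pool.Agent.Lib.RM67 Pool.Agent.Lib.RM67.T96

noncomputable section

namespace bVAR

theorem step (a b c d : ℂ) (y x : ℝ) (hy : 0 ≤ y) :
    (‖a + y * b + (sg true * x : ℝ) * (c + d)‖ ^ 2 +
      ‖a + y * b + (sg false * x : ℝ) * (c + d)‖ ^ 2) / 2 ≤
      (1 + y) * (‖a‖ ^ 2 + y * ‖b‖ ^ 2) + 2 * x ^ 2 * (‖c‖ ^ 2 + ‖d‖ ^ 2) := by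
  have e : (‖a + y * b + (sg true * x : ℝ) * (c + d)‖ ^ 2 +
      ‖a + y * b + (sg false * x : ℝ) * (c + d)‖ ^ 2) / 2 =
      ‖a + y * b‖ ^ 2 + x ^ 2 * ‖c + d‖ ^ 2 := by
    simp only [sg_true, sg_false, ← Complex.normSq_eq_norm_sq, Complex.normSq_apply,
      Complex.add_re, Complex.add_im, Complex.mul_re, Complex.mul_im, Complex.ofReal_re,
      Complex.ofReal_im]
    ring
  have h1 : ‖a + y * b‖ ≤ ‖a‖ + y * ‖b‖ := by
    refine (norm_add_le _ _).trans (le_of_eq ?_)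
    rw [norm_mul, Complex.norm_real, Real.norm_of_nonneg hy]
  have h2 : ‖c + d‖ ≤ ‖c‖ + ‖d‖ := norm_add_le _ _
  have h3 : ‖a + y * b‖ ^ 2 ≤ (1 + y) * (‖a‖ ^ 2 + y * ‖b‖ ^ 2) := by
    refine (pow_le_pow_left₀ (norm_nonneg _) h1 2).trans ?_
    nlinarith [mul_nonneg hy (sq_nonneg (‖a‖ - ‖b‖))]
  have h4 : ‖c + d‖ ^ 2 ≤ 2 * (‖c‖ ^ 2 + ‖d‖ ^ 2) := by
    refine (pow_le_pow_left₀ (norm_nonneg _) h2 2).trans ?_
    nlinarith [sq_nonneg (‖c‖ - ‖d‖)]
  rw [e]
  nlinarith [mul_le_mul_of_nonneg_left h4 (sq_nonneg x)]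

/-- The majorant of the second moments. -/
def H (y x : ℕ → ℝ) (n0 : ℕ) (β : ℝ → ℝ) : ℕ → ℝ → ℝ
  | 0 => β
  | k + 1 => fun v => (1 + y (n0 + k)) ^ 2 * H y x n0 β k v + 2 * x (n0 + k) ^ 2 *
      (H y x n0 β k (v - log (n0 + k : ℕ)) + H y x n0 β k (v + log (n0 + k : ℕ)))

theorem H_nonneg {y x : ℕ → ℝ} {n0 : ℕ} {β : ℝ → ℝ} (hβ : ∀ v, 0 ≤ β v) :
    ∀ k v, 0 ≤ H y x n0 β k v
  | 0, v => hβ v
  | k + 1, v => by
    have h1 := H_nonneg (y := y) (x := x) (n0 := n0) hβ k v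
    have h2 := H_nonneg (y := y) (x := x) (n0 := n0) hβ k (v - log (n0 + k : ℕ))
    have h3 := H_nonneg (y := y) (x := x) (n0 := n0) hβ k (v + log (n0 + k : ℕ))
    simp only [H]
    positivity

theorem H_mono {y x : ℕ → ℝ} {n0 K : ℕ} {β : ℝ → ℝ} (hβ : ∀ v, 0 ≤ β v)
    (hy : ∀ k, k < K → 0 ≤ y (n0 + k)) {k : ℕ} (v : ℝ) :
    ∀ m, k ≤ m → m ≤ K → H y x n0 β k v ≤ H y x n0 β m v := by
  intro m hm
  induction m, hm using Nat.le_induction with
  | base => exact fun _ => le_rfl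
  | succ m _ ih =>
    intro hK
    refine (ih (by omega)).trans ?_
    have h1 := H_nonneg (y := y) (x := x) (n0 := n0) hβ m v
    have h2 := H_nonneg (y := y) (x := x) (n0 := n0) hβ m (v - log (n0 + m : ℕ))
    have h3 := H_nonneg (y := y) (x := x) (n0 := n0) hβ m (v + log (n0 + m : ℕ))
    have h4 := hy m (by omega)
    have h5 : 0 ≤ 2 * x (n0 + m) ^ 2 * (H y x n0 β m (v - log (n0 + m : ℕ)) +
      H y x n0 β m (v + log (n0 + m : ℕ))) := by positivity
    have h6 : 0 ≤ (2 * y (n0 + m) + y (n0 + m) ^ 2) * H y x n0 β m v := by positivity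
    simp only [H]
    nlinarith

theorem sq_le_exp {y ρ : ℝ} (hy : 0 ≤ y) (h : y ≤ 2 * ρ) : (1 + y) ^ 2 ≤ exp (4 * ρ) := by
  have h1 : 1 + y ≤ exp (2 * ρ) := by linarith [add_one_le_exp (2 * ρ)]
  calc (1 + y) ^ 2 ≤ exp (2 * ρ) ^ 2 := pow_le_pow_left₀ (by linarith) h1 2
    _ = exp (4 * ρ) := by rw [← exp_nat_mul]; congr 1; push_cast; ring

theorem sq_le_exp' {y x ρ : ℝ} (hy : 0 ≤ y) (h : y ≤ 2 * ρ) (hx : x ^ 2 ≤ 4 * ρ) :
    (1 + y) ^ 2 + 4 * x ^ 2 ≤ exp (20 * ρ) := by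
  have h1 := sq_le_exp hy h
  have h2 : 1 + 4 * x ^ 2 ≤ exp (16 * ρ) := by linarith [add_one_le_exp (16 * ρ)]
  have h3 : 1 ≤ exp (4 * ρ) := one_le_exp (by linarith)
  have h4 : exp (20 * ρ) = exp (4 * ρ) * exp (16 * ρ) := by rw [← exp_add]; congr 1; ring
  have h5 := mul_le_mul_of_nonneg_left h2 (exp_pos (4 * ρ)).le
  have h6 := mul_le_mul_of_nonneg_right h3 (sq_nonneg x)
  rw [h4]
  nlinarith

theorem samp {y x : ℕ → ℝ} {n0 K : ℕ} {β : ℝ → ℝ} {E : ℝ} (hβ : ∀ v, 0 ≤ β v)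
    (hy : ∀ k, k < K → 0 ≤ y (n0 + k) ∧ y (n0 + k) ≤ 2 * r (n0 + k) ∧
      x (n0 + k) ^ 2 ≤ 4 * r (n0 + k))
    (hE : ∀ v, ∑ j ∈ range K, r (n0 + j) *
      (β (v + log (n0 + j : ℕ)) + β (v - log (n0 + j : ℕ))) ≤ E) :
    ∀ k, k ≤ K → ∀ v, ∑ j ∈ range K, r (n0 + j) *
      (H y x n0 β k (v + log (n0 + j : ℕ)) + H y x n0 β k (v - log (n0 + j : ℕ))) ≤
      exp (20 * ∑ j ∈ range k, r (n0 + j)) * E
  | 0, _, v => by simpa [H] using hE v
  | k + 1, hk, v => by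
    have E0 : 0 ≤ E := le_trans (sum_nonneg fun j _ =>
      mul_nonneg (r_nonneg _) (add_nonneg (hβ _) (hβ _))) (hE 0)
    obtain ⟨y0, y1, x1⟩ := hy k (by omega)
    have a0 := samp hβ hy hE k (by omega) v
    have a1 := samp hβ hy hE k (by omega) (v - log (n0 + k : ℕ))
    have a2 := samp hβ hy hE k (by omega) (v + log (n0 + k : ℕ))
    have e : ∑ j ∈ range K, r (n0 + j) * (H y x n0 β (k + 1) (v + log (n0 + j : ℕ)) +
        H y x n0 β (k + 1) (v - log (n0 + j : ℕ))) =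
        (1 + y (n0 + k)) ^ 2 * ∑ j ∈ range K, r (n0 + j) *
          (H y x n0 β k (v + log (n0 + j : ℕ)) + H y x n0 β k (v - log (n0 + j : ℕ))) +
        2 * x (n0 + k) ^ 2 * (∑ j ∈ range K, r (n0 + j) *
          (H y x n0 β k (v - log (n0 + k : ℕ) + log (n0 + j : ℕ)) +
            H y x n0 β k (v - log (n0 + k : ℕ) - log (n0 + j : ℕ))) +
          ∑ j ∈ range K, r (n0 + j) *
          (H y x n0 β k (v + log (n0 + k : ℕ) + log (n0 + j : ℕ)) +
            H y x n0 β k (v + log (n0 + k : ℕ) - log (n0 + j : ℕ)))) := by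
      rw [← sum_add_distrib, mul_sum, mul_sum, ← sum_add_distrib]
      refine sum_congr rfl fun j _ => ?_
      simp only [H]
      rw [add_sub_right_comm v (log (n0 + j : ℕ)), add_right_comm v (log (n0 + j : ℕ)),
        sub_right_comm v (log (n0 + j : ℕ)), sub_add_eq_add_sub v (log (n0 + j : ℕ))]
      ring
    rw [e, sum_range_succ, mul_add 20, exp_add]
    have b0 := mul_le_mul_of_nonneg_left a0 (sq_nonneg (1 + y (n0 + k)))
    have b1 := mul_le_mul_of_nonneg_left (add_le_add a1 a2)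
      (show 0 ≤ 2 * x (n0 + k) ^ 2 by positivity)
    have b2 := mul_le_mul_of_nonneg_right (sq_le_exp' y0 y1 x1)
      (show 0 ≤ exp (20 * ∑ j ∈ range k, r (n0 + j)) * E by positivity)
    nlinarith

end bVAR

open bVAR in
theorem st_VAR : St_VAR := by
  intro Z h τ τ1 τ2 y x B n0 K β E hτ hy hB hβ0 hβ hE
  have hy' : ∀ k, k < K → 0 ≤ y (n0 + k) ∧ y (n0 + k) ≤ 2 * r (n0 + k) ∧
      x (n0 + k) ^ 2 ≤ 4 * r (n0 + k) := fun k hk => hy _ (mem_Ico.2 ⟨by omega, by omega⟩)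
  have hy0 : ∀ k, k < K → 0 ≤ y (n0 + k) := fun k hk => (hy' k hk).1
  simp only [sum_Ico_eq_sum_range, add_tsub_cancel_left] at hE ⊢
  have S := samp (y := y) (x := x) hβ hy' hE K le_rfl
  have A : ∀ k, k ≤ K → ∀ z, av k (fun e => ‖B e z‖ ^ 2) ≤ H y x n0 β k (h z) := by
    intro k
    induction k with
    | zero => exact fun _ z => hβ0 z
    | succ k ih =>
      intro hk z
      have y0 := hy0 k (by omega)
      have a0 := ih (by omega) z
      have a1 := ih (by omega) (τ (n0 + k) z)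
      have a2 := ih (by omega) (τ1 (n0 + k) z)
      have a3 := ih (by omega) (τ2 (n0 + k) z)
      rw [(hτ _ _).1] at a1
      rw [(hτ _ _).2.1] at a2
      rw [(hτ _ _).2.2] at a3
      rw [av]
      refine (av_mono (G := fun e => (1 + y (n0 + k)) * (‖B e z‖ ^ 2 +
        y (n0 + k) * ‖B e (τ (n0 + k) z)‖ ^ 2) + 2 * x (n0 + k) ^ 2 *
          (‖B e (τ1 (n0 + k) z)‖ ^ 2 + ‖B e (τ2 (n0 + k) z)‖ ^ 2)) fun e he => ?_).trans ?_
      · simp only [hB, he]
        exact step _ _ _ _ _ _ y0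
      · simp only [av_add, av_mul, H]
        have b0 := mul_le_mul_of_nonneg_left (add_le_add a0 (mul_le_mul_of_nonneg_left a1 y0))
          (show 0 ≤ 1 + y (n0 + k) by linarith)
        have b1 := mul_le_mul_of_nonneg_left (add_le_add a2 a3)
          (show 0 ≤ 2 * x (n0 + k) ^ 2 by positivity)
        nlinarith
  have A' : ∀ k, k ≤ K → ∀ z, av k (fun e => ‖B e z‖ ^ 2) ≤ H y x n0 β K (h z) :=
    fun k hk z => (A k hk z).trans (H_mono hβ hy0 _ K hk le_rfl)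
  refine ⟨fun v z1 z2 hz => le_trans (sum_le_sum fun k hk => ?_) (S v), fun M M0 M1 z => ?_⟩
  · refine mul_le_mul_of_nonneg_left ?_ (r_nonneg _)
    have a1 := A' k (mem_range.1 hk).le (z1 (n0 + k))
    have a2 := A' k (mem_range.1 hk).le (z2 (n0 + k))
    rw [(hz _).1] at a1
    rw [(hz _).2] at a2
    rw [av_add]
    linarith
  have D : ∀ k, k ≤ K → ∀ z, av k (fun e => ‖B e z - M k z‖ ^ 2) ≤
      exp (4 * ∑ j ∈ range k, r (n0 + j)) * (8 * ∑ j ∈ range k, r (n0 + j) *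
        (H y x n0 β K (h z + log (n0 + j : ℕ)) + H y x n0 β K (h z - log (n0 + j : ℕ)))) := by
    intro k
    induction k with
    | zero => intro _ z; simp [av, M0]
    | succ k ih =>
      intro hk z
      obtain ⟨y0, y1, x1⟩ := hy' k (by omega)
      have a0 := ih (by omega) z
      have a1 := ih (by omega) (τ (n0 + k) z)
      have a2 := A' k (by omega) (τ1 (n0 + k) z)
      have a3 := A' k (by omega) (τ2 (n0 + k) z)
      rw [(hτ _ _).1] at a1
      rw [(hτ _ _).2.1] at a2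
      rw [(hτ _ _).2.2] at a3
      rw [av]
      refine (av_mono (G := fun e => (1 + y (n0 + k)) * (‖B e z - M k z‖ ^ 2 +
        y (n0 + k) * ‖B e (τ (n0 + k) z) - M k (τ (n0 + k) z)‖ ^ 2) + 2 * x (n0 + k) ^ 2 *
          (‖B e (τ1 (n0 + k) z)‖ ^ 2 + ‖B e (τ2 (n0 + k) z)‖ ^ 2)) fun e he => ?_).trans ?_
      · have q : ∀ b, B (b :: e) z - M (k + 1) z = (B e z - M k z) + y (n0 + k) *
            (B e (τ (n0 + k) z) - M k (τ (n0 + k) z)) + (sg b * x (n0 + k) : ℝ) *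
              (B e (τ1 (n0 + k) z) + B e (τ2 (n0 + k) z)) := fun b => by
          rw [hB, he, M1]; ring
        simp only [q]
        exact step _ _ _ _ _ _ y0
      · simp only [av_add, av_mul]
        rw [sum_range_succ, sum_range_succ, mul_add 4, exp_add]
        set P := 8 * ∑ j ∈ range k, r (n0 + j) * (H y x n0 β K (h z + log (n0 + j : ℕ)) +
          H y x n0 β K (h z - log (n0 + j : ℕ))) with hP
        set Q := H y x n0 β K (h z + log (n0 + k : ℕ)) + H y x n0 β K (h z - log (n0 + k : ℕ))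
          with hQ
        set X := exp (4 * ∑ j ∈ range k, r (n0 + j)) with hX
        have P0 : 0 ≤ P := mul_nonneg (by norm_num) (sum_nonneg fun j _ =>
          mul_nonneg (r_nonneg _) (add_nonneg (H_nonneg hβ _ _) (H_nonneg hβ _ _)))
        have Q0 : 0 ≤ Q := add_nonneg (H_nonneg hβ _ _) (H_nonneg hβ _ _)
        have X1 : 1 ≤ X := one_le_exp (mul_nonneg (by norm_num) (sum_nonneg fun j _ => r_nonneg _))
        have r0 := r_nonneg (n0 + k)
        have Y1 : 1 ≤ exp (4 * r (n0 + k)) := one_le_exp (by linarith)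
        have b0 := mul_le_mul_of_nonneg_left (add_le_add a0 (mul_le_mul_of_nonneg_left a1 y0))
          (show 0 ≤ 1 + y (n0 + k) by linarith)
        have b1 := mul_le_mul_of_nonneg_left (add_le_add a2 a3)
          (show 0 ≤ 2 * x (n0 + k) ^ 2 by positivity)
        have b2 := mul_le_mul_of_nonneg_right (sq_le_exp y0 y1) (show 0 ≤ X * P by positivity)
        have b3 := mul_le_mul_of_nonneg_right x1 Q0
        have b4 := mul_le_mul_of_nonneg_right (one_le_mul_of_one_le_of_one_le X1 Y1)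
          (show 0 ≤ 8 * (r (n0 + k) * Q) by positivity)
        have e : X * exp (4 * r (n0 + k)) * (8 * (∑ j ∈ range k, r (n0 + j) *
            (H y x n0 β K (h z + log (n0 + j : ℕ)) + H y x n0 β K (h z - log (n0 + j : ℕ))) +
            r (n0 + k) * Q)) = exp (4 * r (n0 + k)) * (X * P) +
            X * exp (4 * r (n0 + k)) * (8 * (r (n0 + k) * Q)) := by rw [hP]; ring
        rw [e]
        nlinarith
  refine (D K le_rfl z).trans ?_
  have e : exp (24 * ∑ j ∈ range K, r (n0 + j)) =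
      exp (4 * ∑ j ∈ range K, r (n0 + j)) * exp (20 * ∑ j ∈ range K, r (n0 + j)) := by
    rw [← exp_add]; congr 1; ring
  have b := mul_le_mul_of_nonneg_left (S (h z)) (exp_pos (4 * ∑ j ∈ range K, r (n0 + j))).le
  rw [e]
  nlinarith

end

end Pool.Agent.Lib.RX
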