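import Pool.Agent.Lib.RX.Kit1

/-! Project rx29: the window identity. -/

namespace Pool.Agent.Lib.RX

open Finset Real MeasureTheory Filter Topology Pool.Agent.Lib.RM67 Pool.Agent.Lib.RM67.T96

noncomputable section

namespace XWIN

theorem swap {G Φ : ℝ → ℂ} (hG : Integrable G) (hΦ : Integrable Φ) (c : ℝ) :
    ∫ u, G u * ∫ t, Φ t * ee (c * (t * u)) = ∫ t, Φ t * ∫ u, G u * ee (c * (t * u)) := by
  have i : Integrable (Function.uncurry fun u t : ℝ => G u * (Φ t * ee (c * (t * u))))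
      (volume.prod volume) := by
    have j := (hG.mul_prod hΦ).mul_bdd (c := 1) (g := fun p : ℝ × ℝ => ee (c * (p.2 * p.1)))
      (by fun_prop) (Eventually.of_forall fun p => (norm_ee _).le)
    exact j.congr (Eventually.of_forall fun p => mul_assoc _ _ _)
  have s := integral_integral_swap i
  simp only [integral_const_mul] at s
  simp only [s, mul_left_comm (G _), integral_const_mul]

theorem lap {ρ : ℝ} (hρ : 0 < ρ) (u0 s : ℝ) :
    ∫ u, ((exp (-|u - u0| / ρ) : ℝ) : ℂ) * ee (s * u) =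
      ee (s * u0) * (2 * ρ / (1 + ρ ^ 2 * s ^ 2) : ℝ) := by
  have hp : 0 < π * ρ := by positivity
  have h1 := (lap_int ((s * (π * ρ) : ℝ) * Complex.I) (by simp)).2
  have h2 := Measure.integral_comp_mul_left
    (fun x : ℝ => ((exp (-|x| / ρ) : ℝ) : ℂ) * ee (s * x)) (π * ρ)
  have h3 : ∀ v : ℝ, ((exp (-|π * ρ * v| / ρ) : ℝ) : ℂ) * ee (s * (π * ρ * v)) =
      Complex.exp ((s * (π * ρ) : ℝ) * Complex.I * v) * (exp (-π * |v|) : ℝ) := fun v => by
    rw [mul_comm, ee, abs_mul, abs_of_pos hp]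
    congr 2
    · push_cast; ring
    · congr 1
      field_simp
  simp only [h3, h1, abs_of_pos (inv_pos.2 hp), Complex.real_smul] at h2
  rw [← integral_add_right_eq_self _ u0]
  simp only [add_sub_cancel_right, mul_add, ee_add, ← mul_assoc, integral_mul_const]
  rw [mul_comm]
  congr 1
  have a := line_ne pi_pos (s * (π * ρ))
  have b := line_ne pi_pos (-(s * (π * ρ)))
  have c : ((π * ρ : ℝ) : ℂ) ≠ 0 := Complex.ofReal_ne_zero.2 hp.ne'
  have d : ((1 + ρ ^ 2 * s ^ 2 : ℝ) : ℂ) ≠ 0 := Complex.ofReal_ne_zero.2 (by positivity)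
  rw [Complex.ofReal_inv, eq_inv_mul_iff_mul_eq₀ c] at h2
  rw [← h2, Complex.ofReal_div]
  rw [Complex.ofReal_neg, neg_mul, ← sub_eq_add_neg] at b
  rw [eq_div_iff d, div_add_div _ _ a b, ← mul_div_assoc, div_mul_eq_mul_div,
    div_eq_iff (mul_ne_zero a b)]
  push_cast
  linear_combination (2 * ρ ^ 3 * s ^ 2 * π ^ 2 : ℂ) * Complex.I_sq

theorem conj_II (Φ : ℝ → ℂ) (u h : ℝ) : (starRingEnd ℂ) (II Φ (u - h)) =
    (2 * π : ℝ)⁻¹ * ∫ t, (starRingEnd ℂ) (Φ t) * ee (t * h) * ee (-1 * (t * u)) := by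
  rw [II, map_mul, Complex.conj_ofReal, ← integral_conj]
  congr 2
  funext t
  rw [map_mul, conj_ee, mul_assoc, ← ee_add]
  congr 2
  ring

end XWIN

open XWIN in
theorem st_WIN : St_WIN := by
  intro ρ Φ u0 h hρ hΦ
  have hχ : Integrable fun u => ((exp (-|u - u0| / ρ) : ℝ) : ℂ) := (chi_int hρ u0).ofReal
  have hc : Integrable fun t => (starRingEnd ℂ) (Φ t) :=
    (Complex.conjCLE : ℂ →L[ℝ] ℂ).integrable_comp hΦ
  have hG : Integrable fun u => ((exp (-|u - u0| / ρ) : ℝ) : ℂ) * (starRingEnd ℂ) (II Φ (u - h)) :=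
    hχ.mul_bdd (Complex.continuous_conj.comp
      ((II_cont hΦ).comp (continuous_sub_right h))).aestronglyMeasurable
      (Eventually.of_forall fun u => (RCLike.norm_conj _).le.trans (norm_II Φ _))
  have s1 := swap hG hΦ 1
  have s2 : ∀ t, ∫ u, ((exp (-|u - u0| / ρ) : ℝ) : ℂ) * (starRingEnd ℂ) (II Φ (u - h)) *
      ee (t * u) = (2 * π : ℝ)⁻¹ * ∫ t', (starRingEnd ℂ) (Φ t') * ee (t' * h) *
        ee ((t - t') * u0) * (2 * ρ / (1 + ρ ^ 2 * (t - t') ^ 2) : ℝ) := fun t => by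
    have k : Integrable fun u => ((exp (-|u - u0| / ρ) : ℝ) : ℂ) * ee (t * u) := by
      simpa only [mul_comm t] using ee_int hχ t
    have s := swap k (ee_int hc h) (-1)
    have e : ∀ t' u : ℝ, ((exp (-|u - u0| / ρ) : ℝ) : ℂ) * ee (t * u) * ee (-1 * (t' * u)) =
        ((exp (-|u - u0| / ρ) : ℝ) : ℂ) * ee ((t - t') * u) := fun t' u => by
      rw [mul_assoc, ← ee_add]
      congr 2
      ring
    simp only [e, lap hρ] at s
    simp only [mul_assoc _ (ee ((t - _) * u0))]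
    rw [← s, ← integral_const_mul]
    congr 1
    funext u
    rw [conj_II]
    ring
  simp only [one_mul, s2, mul_left_comm (Φ _), integral_const_mul] at s1
  rw [sq, mul_inv, Complex.ofReal_mul, mul_assoc, ← s1, Bw, ← integral_const_mul]
  congr 1
  funext u
  rw [II]
  ring

end

end Pool.Agent.Lib.RX
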