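import Pool.Agent.Lib.RX.Kit0

/-! Project rx29, row WINE: the energy bound and the inequality of Bessel. -/

namespace Pool.Agent.Lib.RX

open Finset Real MeasureTheory Filter Topology

noncomputable section

namespace XWINE

/-- The kernel. -/
def kk (ρ s : ℝ) : ℝ := 2 * ρ / (1 + ρ ^ 2 * s ^ 2)

theorem kk_eq (ρ : ℝ) : kk ρ = fun s => 2 * ρ * (fun y : ℝ => (1 + y ^ 2)⁻¹) (ρ * s) := by
  funext s
  simp only [kk, div_eq_mul_inv, mul_pow]

theorem kk_int {ρ : ℝ} (hρ : 0 < ρ) : Integrable (kk ρ) := by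
  rw [kk_eq]
  exact (integrable_inv_one_add_sq.comp_mul_left' hρ.ne').const_mul _

theorem kk_val {ρ : ℝ} (hρ : 0 < ρ) : ∫ s, kk ρ s = 2 * π := by
  rw [kk_eq, integral_const_mul, Measure.integral_comp_mul_left (fun y : ℝ => (1 + y ^ 2)⁻¹),
    integral_univ_inv_one_add_sq, abs_of_pos (inv_pos.2 hρ), smul_eq_mul]
  field_simp

theorem kk_nonneg {ρ : ℝ} (hρ : 0 < ρ) (s : ℝ) : 0 ≤ kk ρ s := by
  unfold kk
  positivity

theorem kk_le {ρ : ℝ} (hρ : 0 < ρ) (s : ℝ) : kk ρ s ≤ 2 * ρ :=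
  div_le_self (by positivity) (le_add_of_nonneg_right (by positivity))

theorem kk_cont (ρ : ℝ) : Continuous (kk ρ) :=
  continuous_const.div (by fun_prop) fun s => by positivity

theorem kk_symm (ρ a b : ℝ) : kk ρ (a - b) = kk ρ (b - a) := by
  unfold kk
  rw [← neg_sub, neg_sq]

theorem prod_int {ρ : ℝ} (hρ : 0 < ρ) {f : ℝ → ℝ} (hf : Integrable f) :
    Integrable (fun p : ℝ × ℝ => f p.1 * f p.2 * kk ρ (p.1 - p.2)) (volume.prod volume) :=
  (hf.mul_prod hf).mul_bdd (c := 2 * ρ)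
    ((kk_cont ρ).comp (continuous_fst.sub continuous_snd)).aestronglyMeasurable
    (Eventually.of_forall fun p => by
      rw [norm_eq_abs, abs_of_nonneg (kk_nonneg hρ _)]
      exact kk_le hρ _)

theorem base (h : St_WIN) {ρ : ℝ} (hρ : 0 < ρ) {Φ : ℝ → ℂ} (hΦ : Integrable Φ) (u0 : ℝ) :
    Wn ρ u0 (fun u => ‖II Φ u‖ ^ 2) ≤
      ((2 * π) ^ 2)⁻¹ * ∫ t, ∫ t', ‖Φ t‖ * ‖Φ t'‖ * kk ρ (t - t') := by
  have e : Bw ρ Φ u0 0 = (Wn ρ u0 (fun u => ‖II Φ u‖ ^ 2) : ℝ) := by
    rw [Bw, Wn, ← integral_complex_ofReal]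
    refine integral_congr_ae (Eventually.of_forall fun u => ?_)
    simp only [sub_zero, Complex.mul_conj, Complex.normSq_eq_norm_sq]
    push_cast
    rfl
  have h1 : Wn ρ u0 (fun u => ‖II Φ u‖ ^ 2) ≤ ‖Bw ρ Φ u0 0‖ := by
    rw [e, Complex.norm_real]
    exact le_abs_self _
  refine h1.trans ?_
  rw [h ρ Φ u0 0 hρ hΦ, norm_mul, Complex.norm_real, norm_eq_abs, abs_of_nonneg (by positivity)]
  refine mul_le_mul_of_nonneg_left ?_ (by positivity)
  refine norm_integral_le_of_norm_le (prod_int hρ hΦ.norm).integral_prod_left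
    (Eventually.of_forall fun t => ?_)
  simp only [mul_assoc ‖Φ t‖]
  rw [norm_mul, integral_const_mul]
  refine mul_le_mul_of_nonneg_left ((norm_integral_le_integral_norm _).trans (le_of_eq ?_))
    (norm_nonneg _)
  refine integral_congr_ae (Eventually.of_forall fun t' => ?_)
  simp only [norm_mul, ee, Complex.norm_exp_ofReal_mul_I, Complex.norm_conj, mul_one,
    Complex.norm_real]
  congr 1
  exact abs_of_nonneg (kk_nonneg hρ _)

theorem bessel {ρ : ℝ} (hρ : 0 < ρ) {f : ℝ → ℝ} (hf : Integrable f)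
    (h2 : Integrable fun t => f t ^ 2) :
    ∫ t, ∫ t', f t * f t' * kk ρ (t - t') ≤ 2 * π * ∫ t, f t ^ 2 := by
  have i1 : Integrable (fun p : ℝ × ℝ => f p.2 ^ 2 * kk ρ (p.1 - p.2)) (volume.prod volume) :=
    h2.convolution_integrand (ContinuousLinearMap.mul ℝ ℝ) (kk_int hρ)
  have i2 : Integrable (fun p : ℝ × ℝ => f p.1 ^ 2 * kk ρ (p.2 - p.1)) (volume.prod volume) :=
    i1.swap
  have v2 : ∫ p : ℝ × ℝ, f p.1 ^ 2 * kk ρ (p.2 - p.1) ∂(volume.prod volume) =
      2 * π * ∫ t, f t ^ 2 := by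
    rw [integral_prod _ i2, mul_comm, ← integral_mul_const]
    refine integral_congr_ae (Eventually.of_forall fun t => ?_)
    simp only
    rw [integral_const_mul, integral_sub_right_eq_self (kk ρ) t, kk_val hρ]
  have v1 : ∫ p : ℝ × ℝ, f p.2 ^ 2 * kk ρ (p.1 - p.2) ∂(volume.prod volume) =
      2 * π * ∫ t, f t ^ 2 := by
    rw [← v2]
    exact integral_prod_swap fun p : ℝ × ℝ => f p.1 ^ 2 * kk ρ (p.2 - p.1)
  have h3 := integral_mono ((prod_int hρ hf).const_mul 2) (i1.add i2) fun p => by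
    have := kk_nonneg hρ (p.1 - p.2)
    simp only [Pi.add_apply]
    rw [kk_symm ρ p.2 p.1]
    nlinarith [mul_nonneg (sq_nonneg (f p.1 - f p.2)) this]
  rw [integral_const_mul, integral_add' i1 i2, v1, v2, integral_prod _ (prod_int hρ hf)] at h3
  linarith

end XWINE

open XWINE in
theorem st_WINE (h : St_WIN) : St_WINE := fun ρ Φ u0 hρ hΦ => by
  have hb := base h hρ hΦ u0
  have hp : 3 < π := pi_gt_three
  constructor
  · have e : ∫ t, ∫ t', ‖Φ t‖ * ‖Φ t'‖ * kk ρ (t - t') = 2 * (ρ * En ρ fun t => ‖Φ t‖) := by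
      rw [En, ← mul_assoc, ← integral_const_mul]
      refine integral_congr_ae (Eventually.of_forall fun t => ?_)
      simp only
      rw [← mul_assoc, ← integral_const_mul]
      refine integral_congr_ae (Eventually.of_forall fun t' => ?_)
      simp only [kk]
      ring
    have h0 : 0 ≤ ρ * En ρ fun t => ‖Φ t‖ :=
      mul_nonneg hρ.le (integral_nonneg fun t => mul_nonneg (norm_nonneg _)
        (integral_nonneg fun t' => by positivity))
    rw [e, ← mul_assoc] at hb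
    refine hb.trans (mul_le_of_le_one_left h0 ?_)
    rw [inv_mul_le_iff₀ (by positivity)]
    nlinarith
  · intro h2
    refine hb.trans ((mul_le_mul_of_nonneg_left (bessel hρ hΦ.norm h2) (by positivity)).trans ?_)
    rw [← mul_assoc]
    refine mul_le_of_le_one_left (integral_nonneg fun t => by positivity) ?_
    rw [inv_mul_le_iff₀ (by positivity)]
    nlinarith

end

end Pool.Agent.Lib.RX
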