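import Pool.Agent.Lib.RX.Kit0

/-! Project rx29: the majorant of the bilinear window integral. -/

namespace Pool.Agent.Lib.RX

open Finset Real MeasureTheory Filter Topology Pool.Agent.Lib.RM67 Pool.Agent.Lib.RM67.T96

namespace WINX

theorem norm_ee (y : ℝ) : ‖ee y‖ = 1 := Complex.norm_exp_ofReal_mul_I y

theorem ee_cont : Continuous ee := by
  unfold ee
  fun_prop

theorem ker_int {ρ : ℝ} (hρ : 0 < ρ) : Integrable fun s : ℝ => 2 * ρ / (1 + ρ ^ 2 * s ^ 2) := by
  have h := (integrable_inv_one_add_sq.comp_mul_left' hρ.ne').const_mul (2 * ρ)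
  refine h.congr (Eventually.of_forall fun s => ?_)
  simp only [div_eq_mul_inv, mul_pow]

theorem ker_val {ρ : ℝ} (hρ : 0 < ρ) : ∫ s : ℝ, 2 * ρ / (1 + ρ ^ 2 * s ^ 2) = 2 * π := by
  have h := Measure.integral_comp_mul_left (fun x : ℝ => (1 + x ^ 2)⁻¹) ρ
  rw [integral_univ_inv_one_add_sq, abs_of_pos (inv_pos.2 hρ), smul_eq_mul] at h
  simp only [div_eq_mul_inv, ← mul_pow]
  rw [integral_const_mul, h]
  field_simp

theorem cs {k b : ℝ → ℝ} {E c : ℝ} (hc : 0 < c) (hk : Integrable k) (k0 : ∀ s, 0 ≤ k s)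
    (hv : ∫ s, k s = c) (hb : Measurable b) (hE : ∀ s, |b s| ≤ E) :
    (∫ s, k s * b s) ^ 2 ≤ c * ∫ s, k s * b s ^ 2 := by
  have i1 : Integrable fun s => k s * b s :=
    hk.mul_bdd hb.aestronglyMeasurable (Eventually.of_forall hE)
  have i2 : Integrable fun s => k s * b s ^ 2 := by
    have := i1.mul_bdd hb.aestronglyMeasurable (Eventually.of_forall hE)
    simpa only [mul_assoc, ← sq] using this
  set m := (∫ s, k s * b s) / c with hm
  have h1 : ∫ s, (2 * m * (k s * b s) - m ^ 2 * k s) ≤ ∫ s, k s * b s ^ 2 :=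
    integral_mono ((i1.const_mul _).sub (hk.const_mul _)) i2 fun s => by
      nlinarith [mul_nonneg (k0 s) (sq_nonneg (b s - m))]
  rw [integral_sub (i1.const_mul _) (hk.const_mul _), integral_const_mul, integral_const_mul,
    hv] at h1
  have h2 : ∫ s, k s * b s = m * c := by rw [hm, div_mul_cancel₀ _ hc.ne']
  rw [h2] at h1 ⊢
  nlinarith

end WINX

open WINX in
theorem st_WINX (h : St_WIN) : St_WINX := by
  intro ρ Φ D u0 hh hρ hm hi hD
  have k0 : ∀ s : ℝ, 0 ≤ 2 * ρ / (1 + ρ ^ 2 * s ^ 2) := fun s => by positivity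
  have k1 : ∀ s : ℝ, 2 * ρ / (1 + ρ ^ 2 * s ^ 2) ≤ 2 * ρ := fun s =>
    div_le_self (by positivity) (by nlinarith [mul_nonneg (sq_nonneg ρ) (sq_nonneg s)])
  have kc : Continuous fun s : ℝ => 2 * ρ / (1 + ρ ^ 2 * s ^ 2) :=
    continuous_const.div (by fun_prop) fun s => by positivity
  have hc : Measurable fun t => (starRingEnd ℂ) (Φ t) := Complex.continuous_conj.measurable.comp hm
  let G : ℝ × ℝ → ℂ := fun p => Φ p.2 * ((starRingEnd ℂ) (Φ p.1) * ee (p.1 * hh) *
    ee ((p.2 - p.1) * u0) * (2 * ρ / (1 + ρ ^ 2 * (p.2 - p.1) ^ 2) : ℝ))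
  have Gm : Measurable G :=
    (hm.comp measurable_snd).mul ((((hc.comp measurable_fst).mul
      (ee_cont.comp (by fun_prop)).measurable).mul (ee_cont.comp (by fun_prop)).measurable).mul
        (Complex.continuous_ofReal.comp (kc.comp (continuous_snd.sub continuous_fst))).measurable)
  have Gi : Integrable G (volume.prod volume) := by
    refine ((hi.norm.mul_prod hi.norm).const_mul (2 * ρ)).mono' Gm.aestronglyMeasurable
      (Eventually.of_forall fun p => ?_)
    simp only [G, norm_mul, norm_ee, Complex.norm_conj, Complex.norm_real, mul_one, norm_eq_abs]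
    rw [abs_of_nonneg (k0 _)]
    nlinarith [mul_le_mul_of_nonneg_left (k1 (p.2 - p.1))
      (mul_nonneg (norm_nonneg (Φ p.1)) (norm_nonneg (Φ p.2)))]
  have Hi : Integrable (fun p : ℝ × ℝ => G (p.1, p.1 + p.2)) (volume.prod volume) :=
    ((measurePreserving_prod_add volume volume).integrable_comp Gm.aestronglyMeasurable).2 Gi
  let b : ℝ → ℂ := fun s => ∫ t, Φ (t + s) * (starRingEnd ℂ) (Φ t) * ee (t * hh)
  have e1 : (∫ t, Φ t * ∫ t', (starRingEnd ℂ) (Φ t') * ee (t' * hh) * ee ((t - t') * u0) *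
      (2 * ρ / (1 + ρ ^ 2 * (t - t') ^ 2) : ℝ)) =
      ∫ s, ee (s * u0) * (2 * ρ / (1 + ρ ^ 2 * s ^ 2) : ℝ) * b s := by
    calc _ = ∫ t, ∫ t', G (t', t) := by simp only [G, integral_const_mul]
      _ = ∫ t', ∫ t, G (t', t) := (integral_integral_swap (f := fun t' t => G (t', t)) Gi).symm
      _ = ∫ t', ∫ s, G (t', t' + s) := integral_congr_ae (Eventually.of_forall fun t' =>
        (integral_add_left_eq_self (fun t => G (t', t)) t').symm)
      _ = ∫ s, ∫ t', G (t', t' + s) := integral_integral_swap (f := fun t' s => G (t', t' + s)) Hi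
      _ = _ := by
        refine integral_congr_ae (Eventually.of_forall fun s => ?_)
        simp only [b, ← integral_const_mul]
        refine integral_congr_ae (Eventually.of_forall fun t => ?_)
        simp only [G, add_sub_cancel_left]
        ring
  have bm : Measurable b := by
    refine (StronglyMeasurable.integral_prod_right
      (f := fun s t => Φ (t + s) * (starRingEnd ℂ) (Φ t) * ee (t * hh)) ?_).measurable
    exact (((hm.comp (measurable_snd.add measurable_fst)).mul (hc.comp measurable_snd)).mul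
      (ee_cont.comp (by fun_prop)).measurable).stronglyMeasurable
  have bb : ∀ s, |‖b s‖| ≤ ∫ t, D * ‖Φ t‖ := fun s => by
    rw [abs_norm]
    refine norm_integral_le_of_norm_le (hi.norm.const_mul D) (Eventually.of_forall fun t => ?_)
    simp only [norm_mul, norm_ee, Complex.norm_conj, mul_one]
    exact mul_le_mul_of_nonneg_right (hD _) (norm_nonneg _)
  have e2 : ‖∫ s, ee (s * u0) * (2 * ρ / (1 + ρ ^ 2 * s ^ 2) : ℝ) * b s‖ ≤
      ∫ s, 2 * ρ / (1 + ρ ^ 2 * s ^ 2) * ‖b s‖ := by
    refine (norm_integral_le_integral_norm _).trans (le_of_eq ?_)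
    refine integral_congr_ae (Eventually.of_forall fun s => ?_)
    simp only [norm_mul, norm_ee, Complex.norm_real, one_mul, norm_eq_abs]
    rw [abs_of_nonneg (k0 _)]
  have e3 := (pow_le_pow_left₀ (norm_nonneg _) e2 2).trans
    (cs two_pi_pos (ker_int hρ) k0 (ker_val hρ) bm.norm bb)
  rw [h ρ Φ u0 hh hρ hi, e1, norm_mul, mul_pow, Complex.norm_real, norm_eq_abs, sq_abs]
  refine (mul_le_mul_of_nonneg_left e3 (sq_nonneg _)).trans (le_of_eq ?_)
  rw [bx, ← mul_assoc]
  congr 1
  have := two_pi_pos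
  field_simp

end Pool.Agent.Lib.RX
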