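import Pool.Agent.Lib.RX.Kit0

/-! Project rx29: a sum of narrow windows is dominated by one wide window. -/

namespace Pool.Agent.Lib.RX

open Finset Real MeasureTheory

noncomputable section

namespace WS

/-- A bounded function whose increments dominate the exponential window. -/
def G (x : ℝ) : ℝ := 5 * x / (4 + |x|)

theorem G_abs (x : ℝ) : |G x| ≤ 5 := by
  have h : 0 < 4 + |x| := by positivity
  rw [G, abs_div, abs_mul, abs_of_pos h, div_le_iff₀ h, abs_of_pos (by norm_num : (0 : ℝ) < 5)]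
  linarith

theorem exp_le (x : ℝ) : exp (-|x| / 2) ≤ 16 / (4 + |x|) ^ 2 := by
  have h : 0 < 4 + |x| := by positivity
  have a : 1 + |x| / 4 ≤ exp (|x| / 4) := by linarith [add_one_le_exp (|x| / 4)]
  have b : (1 + |x| / 4) ^ 2 ≤ exp (|x| / 4) ^ 2 := pow_le_pow_left₀ (by positivity) a 2
  have c : exp (-|x| / 2) * exp (|x| / 4) ^ 2 = 1 := by
    rw [sq, ← exp_add, ← exp_add, show -|x| / 2 + (|x| / 4 + |x| / 4) = 0 by ring, exp_zero]
  have d := mul_le_mul_of_nonneg_left b (exp_pos (-|x| / 2)).le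
  rw [le_div_iff₀ (by positivity)]
  nlinarith

theorem G_step (x : ℝ) : exp (-|x| / 2) ≤ G (x + 1) - G x := by
  rcases le_total 0 x with h | h
  · refine (exp_le x).trans ?_
    rw [G, G, abs_of_nonneg h, abs_of_nonneg (by linarith : 0 ≤ x + 1),
      div_sub_div _ _ (by positivity) (by positivity), div_le_div_iff₀ (by positivity)
        (by positivity)]
    nlinarith [mul_nonneg h h]
  rcases le_total (x + 1) 0 with k | k
  · refine (exp_le x).trans ?_
    have p : 0 < 4 + -x := by linarith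
    have q : 0 < 4 + -(x + 1) := by linarith
    rw [G, G, abs_of_nonpos h, abs_of_nonpos k, div_sub_div _ _ q.ne' p.ne',
      div_le_div_iff₀ (by positivity) (by positivity)]
    nlinarith [mul_pos p q, mul_pos p p]
  · have e : exp (-|x| / 2) ≤ 1 := exp_le_one_iff.2 (by linarith [abs_nonneg x])
    have p : 0 < 4 + -x := by linarith
    have q : 0 < 4 + (x + 1) := by linarith
    have a : x + 1 ≤ 5 * (x + 1) / (4 + (x + 1)) := by
      rw [le_div_iff₀ q]; nlinarith
    have b : 5 * x / (4 + -x) ≤ x := by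
      rw [div_le_iff₀ p]; nlinarith
    rw [G, G, abs_of_nonpos h, abs_of_nonneg k]
    rw [abs_of_nonpos h] at e
    linarith

theorem sum_le (x : ℝ) (M : ℕ) : ∑ i ∈ range M, exp (-|x + i| / 2) ≤ 10 := by
  have h : ∀ M : ℕ, ∑ i ∈ range M, exp (-|x + i| / 2) ≤ G (x + M) - G x := by
    intro M
    induction M with
    | zero => simp
    | succ M ih =>
      have := G_step (x + M)
      rw [sum_range_succ, Nat.cast_succ, ← add_assoc]
      linarith
  linarith [h M, abs_le.1 (G_abs (x + M)), abs_le.1 (G_abs x)]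

theorem term {M i : ℕ} {ρ δ ρ' : ℝ} (hρ : 0 < ρ) (h1 : ρ ≤ δ) (h2 : 2 * M * δ ≤ ρ') (h3 : 0 < ρ')
    (hi : i < M) (y : ℝ) :
    exp (-|y + i * δ| / ρ) ≤ 2 * exp (-|y| / ρ') * exp (-|y / δ + i| / 2) := by
  have hδ : 0 < δ := hρ.trans_le h1
  have i1 : (i : ℝ) + 1 ≤ M := by exact_mod_cast hi
  have i0 : (0 : ℝ) ≤ i := Nat.cast_nonneg i
  have a : |y + i * δ| / δ ≤ |y + i * δ| / ρ := div_le_div_of_nonneg_left (abs_nonneg _) hρ h1
  have b : |y + i * δ| / ρ' ≤ |y + i * δ| / (2 * δ) :=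
    div_le_div_of_nonneg_left (abs_nonneg _) (by positivity) (by nlinarith)
  have c : |y / δ + i| = |y + i * δ| / δ := by
    rw [show y / δ + i = (y + i * δ) / δ by field_simp, abs_div, abs_of_pos hδ]
  have d : |y| ≤ |y + i * δ| + ρ' / 2 := by
    have := abs_sub (y + i * δ) (i * δ)
    rw [add_sub_cancel_right, abs_of_nonneg (by positivity : 0 ≤ i * δ)] at this
    nlinarith
  have d' : |y| / ρ' ≤ |y + i * δ| / ρ' + 1 / 2 := by
    refine (div_le_div_of_nonneg_right d h3.le).trans (le_of_eq ?_)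
    field_simp
  have e : |y + i * δ| / (2 * δ) = |y + i * δ| / δ / 2 := by field_simp
  have f : -|y + i * δ| / ρ ≤ 1 / 2 + -|y| / ρ' + -|y / δ + i| / 2 := by
    rw [c, neg_div, neg_div, neg_div]
    linarith
  have g : exp (1 / 2) ≤ 2 := by
    have s : exp (1 / 2) * exp (1 / 2) = exp 1 := by rw [← exp_add]; norm_num
    nlinarith [exp_one_lt_d9, exp_pos (1 / 2)]
  refine (exp_le_exp.2 f).trans ?_
  rw [exp_add, exp_add]
  gcongr

end WS

theorem st_WS : St_WS := by
  intro M ρ δ ρ' u0 f hρ h1 h2 h3 hf h0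
  unfold Wn
  rw [← integral_finsetSum _ fun i _ => hf.int hρ _, ← integral_const_mul]
  refine integral_mono (integrable_finsetSum _ fun i _ => hf.int hρ _)
    ((hf.int h3 u0).const_mul 20) fun u => ?_
  simp only [← sum_mul, ← mul_assoc]
  refine mul_le_mul_of_nonneg_right ?_ (h0 u)
  have a : ∀ i ∈ range M, exp (-|u - (u0 - i * δ)| / ρ) ≤
      2 * exp (-|u - u0| / ρ') * exp (-|(u - u0) / δ + i| / 2) := fun i hi => by
    rw [show u - (u0 - i * δ) = u - u0 + i * δ by ring]
    exact WS.term hρ h1 h2 h3 (mem_range.1 hi) _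
  refine (sum_le_sum a).trans ?_
  rw [← mul_sum]
  have := mul_le_mul_of_nonneg_left (WS.sum_le ((u - u0) / δ) M)
    (by positivity : 0 ≤ 2 * exp (-|u - u0| / ρ'))
  linarith

end

end Pool.Agent.Lib.RX
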