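import Pool.Agent.Lib.RX.Defs

/-! Project rx29: statements of the blocks. -/

namespace Pool.Agent.Lib.RX

open Finset Real MeasureTheory Filter Topology Pool.Agent.Lib.RM67 Pool.Agent.Lib.RM67.T96

/-- The unfolding lemmas are generated once. -/
theorem seed : True := by
  have := @Rl.eq_def
  have := @SS.eq_def
  have := @Ec.eq_def
  have := @anc.eq_def
  have := @mx.eq_def
  have := @hy.eq_def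
  trivial

/-- Moments of the running maximum. -/
def St_HYP : Prop := ∀ (x : ℕ → ℝ) (F : List Bool → ℝ → ℝ), Rec x F → ∀ (q : ℕ), 1 ≤ q →
  ∀ (l : List Bool) (k0 k1 K : ℕ), k0 ≤ k1 → k1 ≤ K → ∀ u,
    av k1 (fun e => mx F (l.length + k0) (e ++ l) u ^ q) ≤
      (16 * q * ∑ k ∈ Ico k0 k1, x (l.length + k) ^ 2 *
        hy x (4 * q) (fun u => F l u ^ 2) l.length K (u - log (l.length + k : ℕ))) ^ q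

/-- Minkowski's inequality for window integrals. -/
def St_MINK : Prop := ∀ (n q : ℕ) (F : List Bool → ℝ → ℝ) (h : ℝ → ℝ) (ρ u0 : ℝ), 1 ≤ q → 0 < ρ →
  (∀ l, BC (F l)) → (∀ l u, 0 ≤ F l u) → BC h → (∀ u, 0 ≤ h u) →
  (∀ u, av n (fun l => F l u ^ q) ≤ h u ^ q) →
  av n (fun l => Wn ρ u0 (F l) ^ q) ≤ Wn ρ u0 h ^ q

/-- Bounded overlap of windows. -/
def St_WS : Prop := ∀ (M : ℕ) (ρ δ ρ' u0 : ℝ) (f : ℝ → ℝ), 0 < ρ → ρ ≤ δ → 2 * M * δ ≤ ρ' →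
  0 < ρ' → BC f → (∀ u, 0 ≤ f u) → ∑ i ∈ range M, Wn ρ (u0 - i * δ) f ≤ 20 * Wn ρ' u0 f

/-- The abstract variance bounds. -/
def St_VAR : Prop := ∀ (Z : Type) (h : Z → ℝ) (τ τ1 τ2 : ℕ → Z → Z) (y x : ℕ → ℝ)
  (B : List Bool → Z → ℂ) (n0 K : ℕ) (β : ℝ → ℝ) (E : ℝ),
  (∀ n z, h (τ n z) = h z ∧ h (τ1 n z) = h z - log n ∧ h (τ2 n z) = h z + log n) →
  (∀ n ∈ Ico n0 (n0 + K), 0 ≤ y n ∧ y n ≤ 2 * r n ∧ x n ^ 2 ≤ 4 * r n) →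
  (∀ b e z, B (b :: e) z = B e z + y (n0 + e.length) * B e (τ (n0 + e.length) z) +
    (sg b * x (n0 + e.length) : ℝ) *
      (B e (τ1 (n0 + e.length) z) + B e (τ2 (n0 + e.length) z))) →
  (∀ z, ‖B [] z‖ ^ 2 ≤ β (h z)) → (∀ v, 0 ≤ β v) →
  (∀ v, ∑ n ∈ Ico n0 (n0 + K), r n * (β (v + log n) + β (v - log n)) ≤ E) →
  (∀ (v : ℝ) (z1 z2 : ℕ → Z), (∀ n, h (z1 n) = v - log n ∧ h (z2 n) = v + log n) →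
    ∑ k ∈ range K, r (n0 + k) * av k (fun e => ‖B e (z1 (n0 + k))‖ ^ 2 + ‖B e (z2 (n0 + k))‖ ^ 2) ≤
      exp (20 * ∑ n ∈ Ico n0 (n0 + K), r n) * E) ∧
  ∀ M : ℕ → Z → ℂ, (∀ z, M 0 z = B [] z) →
    (∀ k z, M (k + 1) z = M k z + y (n0 + k) * M k (τ (n0 + k) z)) →
    ∀ z, av K (fun e => ‖B e z - M K z‖ ^ 2) ≤ 8 * exp (24 * ∑ n ∈ Ico n0 (n0 + K), r n) * E

/-- The smoothing step. -/
def St_STEP : Prop := ∀ (T c : ℝ) (Φ : ℝ → ℂ), 0 < T → 0 ≤ c → Integrable Φ → ∀ b h,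
  cp b (II (fun t => aa T c t * Φ t) h) ^ 2 ≤ ∫ w, T * exp (-(T * |w|)) * cp b (II Φ (h - w)) ^ 2

/-- The Brun-Titchmarsh kernel bound. -/
def St_BTK : Prop := ∃ C : ℝ, 0 ≤ C ∧ ∀ (a : ℕ) (T : ℝ) (S : Finset ℕ), 64 ≤ a → 2 ≤ T →
  T ^ 4 ≤ 2 ^ a → (∀ n ∈ S, 2 ^ a ≤ n) → ∀ z : ℝ,
    ∑ n ∈ S, r n * (T * exp (-(T / 2 * |log n - z|))) ≤ C / a

/-- Sampling at the logarithms of the primes. -/
def St_SAMP : Prop := ∃ C : ℝ, 0 ≤ C ∧ ∀ (a : ℕ) (T ρ y ς v : ℝ) (S : Finset ℕ) (g : ℝ → ℝ),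
  64 ≤ a → 2 ≤ T → T ^ 4 ≤ 2 ^ a → 1 ≤ ρ → (ς = 1 ∨ ς = -1) →
  (∀ n ∈ S, 2 ^ a ≤ n ∧ y ≤ log n ∧ log n ≤ y + ρ) → BC g → (∀ u, 0 ≤ g u) →
  ∑ n ∈ S, r n * ∫ w, T * exp (-(T * |w|)) * g (v + ς * log n - w) ≤ C / a * Wn ρ (v + ς * y) g

/-- The window identity. -/
def St_WIN : Prop := ∀ (ρ : ℝ) (Φ : ℝ → ℂ) (u0 h : ℝ), 0 < ρ → Integrable Φ →
  Bw ρ Φ u0 h = (((2 * π) ^ 2)⁻¹ : ℝ) * ∫ t, Φ t * ∫ t', (starRingEnd ℂ) (Φ t') * ee (t' * h) *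
    ee ((t - t') * u0) * (2 * ρ / (1 + ρ ^ 2 * (t - t') ^ 2) : ℝ)

/-- The energy bound and Bessel's inequality. -/
def St_WINE : Prop := ∀ (ρ : ℝ) (Φ : ℝ → ℂ) (u0 : ℝ), 0 < ρ → Integrable Φ →
  Wn ρ u0 (fun u => ‖II Φ u‖ ^ 2) ≤ ρ * En ρ (fun t => ‖Φ t‖) ∧
  (Integrable (fun t => ‖Φ t‖ ^ 2) → Wn ρ u0 (fun u => ‖II Φ u‖ ^ 2) ≤ ∫ t, ‖Φ t‖ ^ 2)

/-- The majorant of the bilinear window integral. -/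
def St_WINX : Prop := ∀ (ρ : ℝ) (Φ : ℝ → ℂ) (D u0 h : ℝ), 0 < ρ → Measurable Φ → Integrable Φ →
  (∀ t, ‖Φ t‖ ≤ D) → ‖Bw ρ Φ u0 h‖ ^ 2 ≤ bx ρ Φ h

/-- Two comparisons of energies. -/
def St_EN : Prop :=
  (∀ (ρ ρ' : ℝ) (f g : ℝ → ℝ), 0 ≤ ρ' → ρ' ≤ ρ → Integrable f → Integrable g → (∀ t, 0 ≤ f t) →
    (∀ t, f t ≤ g t) → En ρ f ≤ En ρ' g) ∧
  ∀ (ρ : ℝ) (Φ : ℝ → ℂ) (D s : ℝ), Measurable Φ → Integrable Φ → (∀ t, ‖Φ t‖ ≤ D) →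
    En ρ (fun t => ‖Φ (t + s) * (starRingEnd ℂ) (Φ t)‖) ≤ En ρ fun t => ‖Φ t‖ ^ 2

/-- Sampling of a Fourier integral. -/
def St_SE : Prop := ∃ C : ℝ, 0 ≤ C ∧ ∀ (a : ℕ) (T ρ v : ℝ) (S : Finset ℕ) (f : ℝ → ℂ),
  64 ≤ a → 2 ≤ T → T ^ 4 ≤ 2 ^ a → 1 ≤ ρ → (∀ n ∈ S, 2 ^ a ≤ n ∧ log n ≤ ρ) → Integrable f →
  (∀ t, T < |t| → f t = 0) →
  ∑ n ∈ S, r n * (‖∫ t, f t * ee (t * (v + log n))‖ ^ 2 + ‖∫ t, f t * ee (t * (v - log n))‖ ^ 2) ≤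
    C * ρ / a * En ρ fun t => ‖f t‖

/-- Sampling of the majorant. -/
def St_BX : Prop := ∃ C : ℝ, 0 ≤ C ∧ ∀ (a : ℕ) (T ρ ρ' D v : ℝ) (S : Finset ℕ) (Φ : ℝ → ℂ),
  64 ≤ a → 2 ≤ T → T ^ 4 ≤ 2 ^ a → 0 < ρ → 1 ≤ ρ' → (∀ n ∈ S, 2 ^ a ≤ n ∧ log n ≤ ρ') →
  Measurable Φ → Integrable Φ → (∀ t, ‖Φ t‖ ≤ D) → (∀ t, T < |t| → Φ t = 0) →
  ∑ n ∈ S, r n * (bx ρ Φ (v + log n) + bx ρ Φ (v - log n)) ≤
    C * ρ' / a * En ρ' fun t => ‖Φ t‖ ^ 2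

/-- The inversion formula for the cut-off. -/
def St_BASE : Prop := ∀ T c v : ℝ, 0 < T → 0 < c →
  (Kf T v : ℂ) = (exp (c * v) : ℝ) * II (fun t => aa T c t * ph T c t) v

/-- The smoothed sum as an inverse Fourier integral on any line. -/
def St_SSE : Prop := ∀ (T σ : ℝ) (l : List Bool) (v : ℝ), 0 < T → σ < 1 / 2 →
  SS T l v = exp ((1 / 2 - σ) * v) * (g0 T σ Set.univ l v).re

/-- The smoothed sum is an average of the sharp sums. -/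
def St_LINK : Prop := ∀ (T : ℝ) (l : List Bool) (v y δ τ M : ℝ), 0 < T → 0 ≤ δ →
  (∀ w, 0 ≤ w → w ≤ δ → |Psi l ⌊exp (v - w)⌋₊ - y| ≤ τ) →
  (∀ x : ℕ, (x : ℝ) ≤ exp v → |Psi l x - y| ≤ M) → |SS T l v - y| ≤ τ + 2 * exp (-(T * δ)) * M

/-- A Gaussian integral. -/
def St_GAUSS : Prop := (∀ (k : ℕ) (τ : ℝ), 0 < τ →
    Integrable fun μ : ℝ => |μ| ^ k * exp (-(τ * μ ^ 2 / 2))) ∧
  ∀ τ ρ : ℝ, 0 < τ → ∫ μ : ℝ, μ * sin (μ * ρ) * exp (-(τ * μ ^ 2 / 2)) =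
    √(2 * π) * ρ / (τ * √τ) * exp (-(ρ ^ 2 / (2 * τ)))

/-- The ballot bound with exponent three halves. -/
def St_BAL32 : Prop := ∃ C : ℝ, 0 ≤ C ∧ ∀ (n0 n1 : ℕ) (P : List Bool → Prop) (t a h s η : ℝ),
  n0 ≤ n1 → 0 ≤ a → 1 ≤ h → (∀ l, l.length ≤ n1 → P l → WW l t ≤ a) → 0 < s →
  s ≤ ∑ m ∈ Ico n0 n1, (bb m t ^ 2 - bb m t ^ 4) → ∑ m ∈ Ico n0 n1, |bb m t| ^ 3 ≤ η →
  av n1 (fun l => ind (Al P l) * R l t * ind (a + 3 - WW l t ≤ h)) ≤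
    C * h ^ 3 * ((a + 3) / (s * √s) + η)

/-- The ballot bound with exponent one half, from any node. -/
def St_BALH : Prop := ∀ (P : List Bool → Prop) (t a h s : ℝ) (l0 : List Bool) (k : ℕ),
  (∀ l, l.length ≤ l0.length + k → P l → WW l t ≤ a) → 16 ≤ s →
  s ≤ ∑ m ∈ Ico l0.length (l0.length + k), (bb m t ^ 2 - bb m t ^ 4) → a + 2 - WW l0 t ≤ h →
  av k (fun e => ind (Al P (e ++ l0)) * R (e ++ l0) t) ≤ ind (Al P l0) * R l0 t * (4 * h / √s)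

/-- Estimates for the compensator. -/
def St_ARG : Prop := ∃ C : ℝ, 0 ≤ C ∧
  (∀ i k t, 1 ≤ i → k * log 2 - C - ∑ m ∈ Ico i (i + k), |DD m t| ≤
    ∑ n ∈ Ico (Y i) (Y (i + k)), bb n t ^ 2 / 2) ∧
  (∀ i t, AA (Y i) t ≤ i * log 2 + C + Ph i t) ∧
  (∀ l t, log (R l t) ≤ WW l t + AA l.length t + C) ∧
  (∀ (a b : ℕ) t, 1 ≤ a → ∑ n ∈ Ico a b, |bb n t| ^ 3 ≤ C / √a) ∧ ∀ k t, |DD k t| ≤ 8

/-- The bad frequencies have small measure. -/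
def St_GOOD : Prop := ∃ C : ℝ, 0 ≤ C ∧ ∀ s, 1 ≤ s → ∫ t in (gd s)ᶜ, dens t ≤ C / 2 ^ (32 * s)

/-- Heights at good frequencies. -/
def St_HH : Prop := ∀ Λ : ℝ, 1 ≤ Λ → ∀ᶠ s : ℕ in atTop, ∀ t ∈ gd s,
  (0 ≤ ab Λ (NE s) t ∧ ab Λ (NE s) t + 3 ≤ (s : ℝ) ^ 2 ∧ ab Λ (NE s) t ≤ ab Λ (N0 s) t + 13) ∧
  (∀ i ≤ NE s, ∀ l : List Bool, l.length = Y i → t ∈ hi s i l →
    ab Λ (NE s) t + 3 - WW l t ≤ (s : ℝ) ^ 2) ∧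
  (∀ i, N0 s ≤ i → i + KK s ≤ NE s → (2 : ℝ) ^ (2 * s) / 9 ≤
    ∑ m ∈ Ico (Y i) (Y (i + KK s)), (bb m t ^ 2 - bb m t ^ 4)) ∧
  (∀ i, N0 s ≤ i → i ≤ NE s → (2 : ℝ) ^ (16 * s) / 16 ≤
    ∑ m ∈ Ico (2 ^ (128 * s)) (Y i), (bb m t ^ 2 - bb m t ^ 4)) ∧
  ∀ m, 3 * N0 s ≤ 2 * m → m ≤ NE s → (2 : ℝ) ^ (16 * s) / 4 ≤
    ∑ n ∈ Ico (Y (N0 s)) (Y m), bb n t ^ 2 / 2

/-- The mean of the exceptional mass. -/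
def St_MX : Prop := ∀ Λ : ℝ, 1 ≤ Λ → ∀ᶠ s : ℕ in atTop, ∀ i ∈ Icc (N0 s) (NE s),
  av (Y i) (fun l => GG Λ l * Mx s i l) ≤ (s : ℝ) ^ 9 / 2 ^ (24 * s)

/-- The barrier holds almost surely. -/
def St_BAR : Prop := AE fun z => ∃ Λ : ℕ, 1 ≤ Λ ∧ ∀ n, Pb Λ (L z n)

/-- The derivative martingale is bounded. -/
def St_DER : Prop := ∀ Λ : ℝ, 1 ≤ Λ → AE fun z => ∃ D : ℕ, ∀ n, Dm Λ (L z n) ≤ D

/-- The shifted product is rarely much larger than the unshifted one. -/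
def St_CMP : Prop := ∃ C : ℝ, 0 ≤ C ∧ ∀ᶠ s : ℕ in atTop, ∀ j ∈ JJ s, ∀ t,
  av (Y (mm s j)) (fun l => ‖Ec (sig j) l t‖ ^ 2 * ind (t ∉ cm s j l)) ≤
    C * 2 ^ mm s j / 2 ^ (32 * s)

/-- Masses of sets with a large local mass. -/
def St_LOW : Prop := ∀ (s i : ℕ) (l : List Bool),
  ms (lo0 s i l \ hi s i l) l ≤ 2 * NN l / 2 ^ (32 * s) ∧ ms (gd s ∩ lo0 s i l) l ≤ 2 * Mx s i l ∧
  ∫ t in gd s \ lo0 s i l, R l t * mu i l t * dens t ≤ 2 * Mx s i l / 2 ^ (12 * s)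

/-- The number of windows with a large local mass. -/
def St_CNT : Prop := ∀ (s i : ℕ) (l : List Bool) (a : ℕ) (S : Finset ℤ), a < i →
  (∀ k ∈ S, ∃ t ∈ Set.Ico ((k : ℝ) / 2 ^ a) ((k + 1 : ℝ) / 2 ^ a), t ∈ lo0 s i l) →
  (S.card : ℝ) ≤ 60 * 2 ^ (12 * s) * Mx s i l

/-- The exponential inequality at the test points. -/
def St_EXP : Prop := ∀ (c : ℕ → ℕ → List Bool → ℝ) (n0 n1 : ℕ → ℕ), AE fun z => ∀ᶠ κ in atTop,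
  ∀ i ∈ Ico (2 ^ (600 * Nat.log 2 κ)) (2 ^ (600 * Nat.log 2 κ + 1)),
    PE (c κ i) (n0 κ) (n1 κ) (603 * (Nat.log 2 κ + 1)) z

/-- Events 1 and 4. -/
def St_E14 : Prop := (∀ Λ : ℝ, 1 ≤ Λ → AE fun z => ∀ᶠ s in atTop, P1 Λ s z) ∧
  AE fun z => ∀ᶠ s in atTop, P4 s z

/-- One jump of the old mass. -/
def St_OLD : Prop := ∀ Λ : ℝ, 1 ≤ Λ → ∀ᶠ s : ℕ in atTop, ∀ i, N0 s ≤ i → i + KK s ≤ NE s →
  av (Y (i + KK s)) (fun l => GG Λ l * ms (gd s ∩ lo s i l) l) ≤ (s : ℝ) ^ 12 / 2 ^ (25 * s)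

/-- Event 2. -/
def St_E2 : Prop := ∀ Λ : ℝ, 1 ≤ Λ → AE fun z => ∀ᶠ s in atTop, P2 Λ s z

/-- The quadratic variation on one block. -/
def St_KV : Prop := ∃ C : ℝ, 0 ≤ C ∧ ∀ᶠ s : ℕ in atTop, ∀ i ∈ Icc (N0 s) (NE s),
  ∀ (l0 : List Bool) (γ : ℝ) (w : ℝ → ℝ) (F : List Bool → ℝ → ℝ), l0.length = Y i → |γ| ≤ 2 →
  Measurable w → (∀ l, Measurable (F l)) →
  (∀ b l t, l0.length ≤ l.length → F (b :: l) t = F l t * (1 + sg b * γ * bb l.length t)) →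
  (∀ t, |w t * F l0 t| ≤ (gd s \ lo0 s i l0).indicator (fun t => R l0 t * dens t) t) →
  ∑ k ∈ range (Y (i + 1) - Y i), av k (fun e =>
    (∫ t, w t * F (e ++ l0) t * (γ * bb (Y i + k) t)) ^ 2) ≤ C * Mx s i l0 / 2 ^ (12 * s)

/-- The amplified product stays below the product. -/
def St_TILT : Prop := ∀ Λ : ℝ, 1 ≤ Λ → ∀ᶠ s : ℕ in atTop, ∀ (l : List Bool) t,
  Y (N0 s) ≤ l.length → l.length ≤ Y (NE s) → Pb Λ l →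
  0 ≤ Rl (1 + la s) (Y (N0 s)) l t ∧
  exp (-(la s * (ab Λ (NE s) t + 1 - WW (anc (Y (N0 s)) l) t))) * Rl (1 + la s) (Y (N0 s)) l t ≤
    R l t * exp (-(la s ^ 2 * ∑ n ∈ Ico (Y (N0 s)) l.length, bb n t ^ 2 / 2))

/-- Event 3. -/
def St_E3 : Prop := ∀ Λ : ℝ, 1 ≤ Λ → AE fun z => ∀ᶠ s in atTop, P3 Λ s z

/-- The mean of the maximal window integral. -/
def St_SA : Prop := ∀ᶠ s : ℕ in atTop, ∀ j ∈ JJ s, ∀ (l0 : List Bool) (A : Set ℝ) (b : Bool),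
  l0.length = Y (mm s j) → MeasurableSet A →
  av (Y (j + 1) - Y (mm s j)) (fun e => SA s j A b (e ++ l0)) ≤ (s : ℝ) ^ 20 * nP s j A l0

/-- Event 5. -/
def St_E5 : Prop := AE fun z => ∀ᶠ s in atTop, P5 s z

/-- Event 6. -/
def St_E6 : Prop := ∀ Λ : ℝ, 1 ≤ Λ → AE fun z => ∀ᶠ s in atTop, P6 Λ s z

/-- Event 7. -/
def St_E7 : Prop := AE fun z => ∀ᶠ s in atTop, P7 s z

/-- The conditional variance of one frozen window integral. -/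
def St_FRO : Prop := ∀ᶠ s : ℕ in atTop, ∀ j ∈ JJ s, ∀ (l0 : List Bool) (k i : ℕ),
  l0.length = Y (mm s j) → i ≤ 2 ^ s →
  av (PP s j i - Y (mm s j)) (fun e =>
    (QQ s j k i (sG s j l0) (e ++ l0) - MM s j k i (sG s j l0) l0) ^ 2) ≤
    (s : ℝ) ^ 60 * (2 ^ j) ^ 2 * Mx s (mm s j) l0 / 2 ^ (12 * s)

/-- Event 8. -/
def St_E8 : Prop := ∀ Λ : ℝ, 1 ≤ Λ → AE fun z => ∀ᶠ s in atTop, P8 Λ s z

/-- The conditional moment of the freezing error. -/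
def St_ERR : Prop := ∀ᶠ s : ℕ in atTop, ∀ j ∈ JJ s, ∀ (l0 : List Bool) (A : Set ℝ) (k : ℕ),
  l0.length = Y (mm s j) → MeasurableSet A →
  av (Y (j + 1) - Y (mm s j)) (fun e => Er s j k A (e ++ l0) ^ 18) ≤
    ((s : ℝ) ^ 300 / 2 ^ s * nP s j A l0) ^ 18

/-- Event 9. -/
def St_E9 : Prop := AE fun z => ∀ᶠ s in atTop, P9 s z

/-- The mass of the main class. -/
def St_DM : Prop := ∀ Λ : ℝ, 1 ≤ Λ → ∀ᶠ s : ℕ in atTop, ∀ (z : ℕ → Bool) (D : ℝ),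
  (∀ n, Pb Λ (L z n)) → (∀ n, Dm Λ (L z n) ≤ D) → P2 Λ s z → P3 Λ s z → PM (28 * D + 3) s z

/-- Sampling bounds for the predictable variation. -/
def St_UV : Prop := ∃ C : ℝ, 0 ≤ C ∧ ∀ᶠ s : ℕ in atTop, ∀ j ∈ JJ s, ∀ (z : ℕ → Bool) (A : Set ℝ)
  (v : ℝ), MeasurableSet A → 0 ≤ v → v ≤ Lam s j →
  (∀ b, UV s j A b z v ≤ C / 2 ^ j * SA s j A b (L z (Y (j + 1)))) ∧
  UV s j A true z v ≤ C / 2 ^ j * (∑ i ∈ range (2 ^ s),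
    QQ s j ⌊v / rho s j⌋₊ i A (L z (PP s j i)) + Er s j ⌊v / rho s j⌋₊ A (L z (Y (j + 1))))

/-- The sum of the conditional means. -/
def St_MS : Prop := ∃ C : ℝ, 0 ≤ C ∧ ∀ᶠ s : ℕ in atTop, ∀ j ∈ JJ s, ∀ (l0 : List Bool) (A : Set ℝ)
  (k : ℕ), MeasurableSet A →
  ∑ i ∈ range (2 ^ s), MM s j k i A l0 ≤ C * 2 ^ (j - mm s j) * nP s j A l0

/-- The variance of the main and the negligible class. -/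
def St_DG : Prop := ∃ C : ℝ, 0 ≤ C ∧ ∀ᶠ s : ℕ in atTop, ∀ (Λ M : ℝ) (z : ℕ → Bool), 1 ≤ M →
  (∀ n, Pb Λ (L z n)) → PM M s z → P5 s z → P8 Λ s z → P9 s z →
  PV (C * M) s (fun j => (sB s j (zm s j z))ᶜ) z

/-- From the grid to all points. -/
def St_LIP : Prop := ∀ᶠ s : ℕ in atTop, ∀ j ∈ JJ s, ∀ (z : ℕ → Bool) (v v' : ℝ), P4 s z →
  ((act s j (zm s j z)).card : ℝ) ≤ 60 * 2 ^ (7 * s) → |v - v'| ≤ 2 ^ (j - 4 * KK s) →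
  ‖IN s j (sB s j (zm s j z)) z v‖ ≤
    1 + ∑ k ∈ act s j (zm s j z), ‖IN s j (sBk s j k (zm s j z)) z v'‖

/-- The narrow class. -/
def St_DB : Prop := ∃ C : ℝ, 0 ≤ C ∧ ∀ᶠ s : ℕ in atTop, ∀ (Λ : ℝ) (z : ℕ → Bool),
  (∀ n, Pb Λ (L z n)) → P1 Λ s z → P4 s z → P6 Λ s z → P7 s z → PB C s z

/-- The initial value. -/
def St_INI : Prop := ∀ᶠ s : ℕ in atTop, ∀ (z : ℕ → Bool) (n : ℕ) (v : ℝ), P4 s z → 2 * N0 s ≤ n →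
  n < NE s → 2 ^ n * log 2 ≤ v → |SS (TT s) (L z (Y (n - J0 s))) v| ≤ exp (v / 2)

/-- The smoothed sum at one point. -/
def St_DF : Prop := ∀ C1 : ℝ, 0 ≤ C1 → ∃ C : ℝ, 0 ≤ C ∧ ∀ᶠ s : ℕ in atTop,
  ∀ (M : ℝ) (z : ℕ → Bool) (n : ℕ) (v : ℝ), 1 ≤ M → P4 s z →
  PV M s (fun j => (sB s j (zm s j z))ᶜ) z → PB C1 s z → 2 * N0 s ≤ n → n < NE s →
  2 ^ n * log 2 ≤ v → v ≤ 2 ^ (n + 1) * log 2 →
  PE (cf s v) (Y (n - J0 s)) (Y (n + 1)) (603 * (n + 1)) z →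
  |SS (TT s) (L z (Y (n + 1))) v| ≤ C * M * 2 ^ (4 * s) * exp (v / 2)

/-- All deterministic consequences hold almost surely. -/
def St_ALL : Prop := ∃ C1 : ℝ, 0 ≤ C1 ∧ AE fun z => ∃ M : ℝ, 1 ≤ M ∧ ∀ᶠ s in atTop,
  P4 s z ∧ PV M s (fun j => (sB s j (zm s j z))ᶜ) z ∧ PB C1 s z

/-- The bound on dyadic ranges. -/
def St_CORE : Prop := AE fun z => ∃ C : ℝ, ∀ᶠ κ in atTop, ∀ x, 2 ^ κ ≤ x → x < 2 ^ (κ + 1) →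
  |Psi (L z (2 ^ 2 ^ (Nat.log 2 κ + 1))) x| ≤ C * (√(2 ^ κ) * √(√(Nat.log 2 κ)))

end Pool.Agent.Lib.RX
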