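import Pool.Agent.Lib.RM67.Fin

/-! Project rx29: definitions. -/

namespace Pool.Agent.Lib.RX

open Finset Real MeasureTheory Filter Topology Pool.Agent.Lib.RM67 Pool.Agent.Lib.RM67.T96

noncomputable section

/-- A property of almost every sequence of fair bits. -/
def AE (P : (ℕ → Bool) → Prop) : Prop :=
  ∀ (Ω : Type) [MeasurableSpace Ω] (μ : Measure Ω) [IsProbabilityMeasure μ] (Z : Ω → ℕ → Bool),
    Fair μ Z → ∀ᵐ ω ∂μ, P (Z ω)

/-- The doubly exponential times. -/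
def Y (k : ℕ) : ℕ := 2 ^ 2 ^ k

/-- The ancestor at time `n`. -/
def anc (n : ℕ) : List Bool → List Bool
  | [] => []
  | b :: l => if l.length < n then b :: l else anc n l

/-- Bounded and continuous. -/
def BC (f : ℝ → ℝ) : Prop := Continuous f ∧ ∃ C, ∀ u, |f u| ≤ C

/-- The integral against a two-sided exponential window. -/
def Wn (ρ u0 : ℝ) (f : ℝ → ℝ) : ℝ := ∫ u, exp (-|u - u0| / ρ) * f u

/-- The recursion in the logarithmic variable. -/
def Rec (x : ℕ → ℝ) (F : List Bool → ℝ → ℝ) : Prop :=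
  ∀ b l u, F (b :: l) u = F l u + sg b * x l.length * F l (u - log l.length)

/-- The running maximum, from time `n` on, of the squared increment. -/
def mx (F : List Bool → ℝ → ℝ) (n : ℕ) : List Bool → ℝ → ℝ
  | [], _ => 0
  | b :: l, u =>
    if l.length < n then 0 else max (mx F n l u) ((F (b :: l) u - F (anc n l) u) ^ 2)

/-- The deterministic evolution started from `f` at time `n`. -/
def hy (x : ℕ → ℝ) (ρ : ℝ) (f : ℝ → ℝ) (n : ℕ) : ℕ → ℝ → ℝ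
  | 0, u => f u
  | k + 1, u => hy x ρ f n k u + ρ * x (n + k) ^ 2 * hy x ρ f n k (u - log (n + k : ℕ))

/-- The unit character. -/
def ee (y : ℝ) : ℂ := Complex.exp (y * Complex.I)

/-- Real or imaginary part. -/
def cp (b : Bool) (z : ℂ) : ℝ := if b then z.re else z.im

/-- The inverse Fourier integral. -/
def II (Φ : ℝ → ℂ) (u : ℝ) : ℂ := (2 * π : ℝ)⁻¹ * ∫ t, Φ t * ee (t * u)

/-- The sampling multiplier. -/
def aa (T c t : ℝ) : ℂ := T / (T + c + t * Complex.I)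

/-- The smoothed Perron kernel. -/
def ph (T c t : ℝ) : ℂ := 2 * T / ((2 * T + c + t * Complex.I) * (c + t * Complex.I))

/-- The coefficient of a prime on the shifted line. -/
def xx (σ : ℝ) (n : ℕ) : ℝ := √(r n) * exp (σ * log n)

/-- The Euler product on the shifted line. -/
def Ec (σ : ℝ) : List Bool → ℝ → ℂ
  | [], _ => 1
  | b :: l, t => Ec σ l t * (1 + (sg b * xx σ l.length : ℝ) * ee (-(t * log l.length)))

/-- The part of the spectrum in a set. -/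
def Phi (T σ : ℝ) (A : Set ℝ) (l : List Bool) : ℝ → ℂ :=
  A.indicator fun t => ph T (1 / 2 - σ) t * Ec σ l t

/-- Its inverse transform. -/
def g1 (T σ : ℝ) (A : Set ℝ) (l : List Bool) : ℝ → ℂ := II (Phi T σ A l)

/-- The same after one more smoothing. -/
def g0 (T σ : ℝ) (A : Set ℝ) (l : List Bool) : ℝ → ℂ :=
  II fun t => aa T (1 / 2 - σ) t * Phi T σ A l t

/-- The energy at scale `1 / ρ`. -/
def En (ρ : ℝ) (f : ℝ → ℝ) : ℝ := ∫ t, f t * ∫ t', f t' / (1 + ρ ^ 2 * (t - t') ^ 2)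

/-- The bilinear window integral. -/
def Bw (ρ : ℝ) (Φ : ℝ → ℂ) (u0 h : ℝ) : ℂ :=
  ∫ u, (exp (-|u - u0| / ρ) : ℝ) * (II Φ u * (starRingEnd ℂ) (II Φ (u - h)))

/-- Its majorant. -/
def bx (ρ : ℝ) (Φ : ℝ → ℂ) (h : ℝ) : ℝ := ((2 * π) ^ 3)⁻¹ *
  ∫ s, 2 * ρ / (1 + ρ ^ 2 * s ^ 2) * ‖∫ t, Φ (t + s) * (starRingEnd ℂ) (Φ t) * ee (t * h)‖ ^ 2

/-- The smooth cut-off. -/
def Kf (T v : ℝ) : ℝ := if 0 ≤ v then (1 - exp (-(T * v))) ^ 2 else 0

/-- The smoothed sum. -/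
def SS (T : ℝ) : List Bool → ℝ → ℝ
  | [], v => Kf T v
  | b :: l, v => SS T l v + sg b * if l.length.Prime then SS T l (v - log l.length) else 0

/-- The barrier at one node. -/
def Pb (Λ : ℝ) (l : List Bool) : Prop :=
  ∀ k, l.length ≤ Y k → ∀ t, R l t ≤ Λ * (k + 1) * 2 ^ k * (1 + t ^ 2)

/-- The barrier held so far. -/
def GG (Λ : ℝ) (l : List Bool) : ℝ := ind (Al (Pb Λ) l)

/-- A bound for the sum of cubes. -/
def c3 : ℝ := Classical.choose cub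

/-- The barrier for the walk. -/
def ab (Λ : ℝ) (k : ℕ) (t : ℝ) : ℝ :=
  log (Λ * (k + 1)) + log (1 + t ^ 2) + Ph k t + (34 + 18 * c3)

/-- The derivative martingale. -/
def Dm (Λ : ℝ) (l : List Bool) : ℝ := GG Λ l *
  ∫ t, R l t * (ab Λ (Nat.clog 2 (Nat.clog 2 l.length)) t + 2 - WW l t) * dens t

/-- The mass of a set. -/
def ms (A : Set ℝ) (l : List Bool) : ℝ := ∫ t in A, R l t * dens t

/-- The local mass at scale `2 ^ (-i)`. -/
def mu (i : ℕ) (l : List Bool) (t : ℝ) : ℝ :=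
  ∫ t', R l t' / (1 + (2 ^ i) ^ 2 * (t - t') ^ 2) * dens t'

/-- First time index of stage `s`. -/
def N0 (s : ℕ) : ℕ := 2 ^ (16 * s)

/-- Last time index of stage `s`. -/
def NE (s : ℕ) : ℕ := 2 ^ (16 * s + 17)

/-- The number of blocks below a target. -/
def J0 (s : ℕ) : ℕ := 16 * s + 30

/-- The blocks of stage `s`. -/
def JJ (s : ℕ) : Finset ℕ := Ico (2 * N0 s - J0 s) (NE s)

/-- The time index at which block `j` is split. -/
def mm (s j : ℕ) : ℕ := j - (Nat.log 2 s + 10)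

/-- The memory length. -/
def KK (s : ℕ) : ℕ := 2 ^ (2 * s)

/-- The smoothing parameter. -/
def TT (s : ℕ) : ℝ := 2 ^ (610 * NE s)

/-- The shift of block `j`. -/
def sig (j : ℕ) : ℝ := 1 / (8 * 2 ^ j)

/-- The range of the logarithmic variable for block `j`. -/
def Lam (s j : ℕ) : ℝ := 2 ^ (j + J0 s + 1)

/-- The good frequencies. -/
def gd (s : ℕ) : Set ℝ :=
  {t | |t| ≤ 2 ^ (32 * s) ∧ ∑ k ∈ Ico (64 * s) (NE s), |DD k t| ≤ 1}

/-- The frequencies with a large product. -/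
def hi (s i : ℕ) (l : List Bool) : Set ℝ := {t | (2 : ℝ) ^ i / 2 ^ (44 * s) ≤ R l t}

/-- The frequencies with a large local mass. -/
def lo0 (s i : ℕ) (l : List Bool) : Set ℝ := {t | 1 / (2 : ℝ) ^ (12 * s) < mu i l t}

/-- The same, read at time index `i`. -/
def lo (s i : ℕ) (l : List Bool) : Set ℝ := lo0 s i (anc (Y i) l)

/-- The exceptional mass. -/
def Mx (s i : ℕ) (l : List Bool) : ℝ :=
  ms (gd s ∩ hi s i l) l + ms (gd s)ᶜ l + NN l / 2 ^ (32 * s)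

/-- The shifted product is comparable with the unshifted one. -/
def cm (s j : ℕ) (l : List Bool) : Set ℝ :=
  {t | ‖Ec (sig j) l t‖ ^ 2 ≤ 2 * Pr (Y (mm s j)) * R l t}

/-- Recently large local mass. -/
def rl (s j : ℕ) (l : List Bool) : Set ℝ :=
  {t | ∃ i ∈ Ioc (mm s j - KK s) (mm s j), t ∈ lo s i l}

/-- The negligible class. -/
def sO (s j : ℕ) (l : List Bool) : Set ℝ := (gd s ∩ cm s j l)ᶜ

/-- The narrow class. -/
def sB (s j : ℕ) (l : List Bool) : Set ℝ := gd s ∩ cm s j l ∩ rl s j l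

/-- The main class. -/
def sG (s j : ℕ) (l : List Bool) : Set ℝ := (gd s ∩ cm s j l) \ rl s j l

/-- One window of the narrow class. -/
def sBk (s j : ℕ) (k : ℤ) (l : List Bool) : Set ℝ :=
  sB s j l ∩ Set.Ico ((k : ℝ) / 2 ^ (mm s j - KK s)) ((k + 1 : ℝ) / 2 ^ (mm s j - KK s))

/-- The indices of all windows. -/
def KS (s j : ℕ) : Finset ℤ :=
  Icc (-(2 ^ (32 * s + (mm s j - KK s)) : ℤ)) (2 ^ (32 * s + (mm s j - KK s)))

open Classical in
/-- The indices of the nonempty windows. -/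
def act (s j : ℕ) (l : List Bool) : Finset ℤ := (KS s j).filter fun k => (sBk s j k l).Nonempty

/-- The product with amplified factors from time `n` on. -/
def Rl (γ : ℝ) (n : ℕ) : List Bool → ℝ → ℝ
  | [], _ => 1
  | b :: l, t => Rl γ n l t * (1 + sg b * (if n ≤ l.length then γ else 1) * bb l.length t)

/-- The tilt of stage `s`. -/
def la (s : ℕ) : ℝ := 2 / 2 ^ (8 * s)

/-- The ballot martingale, integrated over a set. -/
def Qm (Λ : ℝ) (s : ℕ) (A : Set ℝ) (l : List Bool) : ℝ := ∫ t in A, (R l t -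
  exp (-(la s * (ab Λ (NE s) t + 1 - WW (anc (Y (N0 s)) l) t))) * Rl (1 + la s) (Y (N0 s)) l t) *
    dens t

/-- Never a large local mass so far. -/
def kap (s i : ℕ) (l : List Bool) : Set ℝ := gd s \ {t | ∃ i' ∈ Icc (N0 s) i, t ∈ lo s i' l}

/-- The maximal window integral of one class on block `j`. -/
def SA (s j : ℕ) (A : Set ℝ) (b : Bool) (l : List Bool) : ℝ := Wn (Lam s j) 0 fun u =>
  2 * cp b (g1 (TT s) (sig j) A (anc (Y (mm s j)) l) u) ^ 2 +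
    2 * mx (fun l u => cp b (g1 (TT s) (sig j) A l u)) (Y (mm s j)) l u

/-- The end points of the pieces of block `j`. -/
def PP (s j i : ℕ) : ℕ := 2 ^ (2 ^ j + i * 2 ^ (j - s))

/-- The logarithmic length of a piece. -/
def rho (s j : ℕ) : ℝ := 2 ^ (j - s) * log 2

/-- The centres of the windows. -/
def uu (s j k i : ℕ) : ℝ := ((k : ℝ) - 2 ^ s - i) * rho s j

/-- The frozen window integral. -/
def QQ (s j k i : ℕ) (A : Set ℝ) (l : List Bool) : ℝ :=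
  Wn (rho s j) (uu s j k i) fun u => ‖g1 (TT s) (sig j) A l u‖ ^ 2

/-- Its conditional mean. -/
def MM (s j k i : ℕ) (A : Set ℝ) (l : List Bool) : ℝ :=
  hy (xx (sig j)) 1
    (fun u0 => Wn (rho s j) u0 fun u => ‖g1 (TT s) (sig j) A l u‖ ^ 2)
    (Y (mm s j)) (PP s j i - Y (mm s j)) (uu s j k i)

/-- The error of freezing. -/
def Er (s j k : ℕ) (A : Set ℝ) (l : List Bool) : ℝ := ∑ i ∈ range (2 ^ s),
  Wn (rho s j) (uu s j k i)
    (mx (fun l u => (g1 (TT s) (sig j) A l u).re) (PP s j i) (anc (PP s j (i + 1)) l))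

/-- The squared norm of a class at the splitting time. -/
def nP (s j : ℕ) (A : Set ℝ) (l : List Bool) : ℝ :=
  ∫ t, ‖Phi (TT s) (sig j) A l t‖ ^ 2

/-- The predictable variation of a class on block `j`. -/
def UV (s j : ℕ) (A : Set ℝ) (b : Bool) (z : ℕ → Bool) (v : ℝ) : ℝ :=
  ∑ n ∈ Ico (Y j) (Y (j + 1)), (xx (sig j) n * cp b (g0 (TT s) (sig j) A (L z n) (v - log n))) ^ 2

/-- The increment of a class on block `j`. -/
def IN (s j : ℕ) (A : Set ℝ) (z : ℕ → Bool) (v : ℝ) : ℂ :=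
  g0 (TT s) (sig j) A (L z (Y (j + 1))) v - g0 (TT s) (sig j) A (L z (Y j)) v

/-- Event 1. -/
def P1 (Λ : ℝ) (s : ℕ) (z : ℕ → Bool) : Prop := ∀ i ∈ Icc (N0 s) (NE s),
  GG Λ (L z (Y i)) * Mx s i (L z (Y i)) ≤ 1 / 2 ^ (7 * s)

/-- Event 2. -/
def P2 (Λ : ℝ) (s : ℕ) (z : ℕ → Bool) : Prop := ∀ m ≤ NE s, GG Λ (L z (Y m)) *
  ∑ i ∈ Icc (N0 s) (m - KK s), ms (gd s ∩ lo s i (L z (Y m))) (L z (Y m)) ≤ 1 / 2 ^ (8 * s)

/-- Event 3. -/
def P3 (Λ : ℝ) (s : ℕ) (z : ℕ → Bool) : Prop := ∀ m ≤ NE s, Al (Pb Λ) (L z (Y m)) →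
  ∑ i ∈ Ico (N0 s) m, (Qm Λ s (kap s i (L z (Y i))) (L z (Y (i + 1))) -
    Qm Λ s (kap s i (L z (Y i))) (L z (Y i))) ≤ 1 / 2 ^ (8 * s)

/-- Event 4. -/
def P4 (s : ℕ) (z : ℕ → Bool) : Prop := ∀ j ∈ JJ s, ∀ i ≤ 1,
  ∫ t, ‖Ec (sig j) (L z (Y (j + i))) t‖ ^ 2 * dens t ≤ 2 ^ j * 2 ^ (48 * s)

/-- The node at which block `j` is split. -/
def zm (s j : ℕ) (z : ℕ → Bool) : List Bool := L z (Y (mm s j))

/-- Event 5. -/
def P5 (s : ℕ) (z : ℕ → Bool) : Prop := ∀ j ∈ JJ s,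
  SA s j (sO s j (zm s j z)) true (L z (Y (j + 1))) ≤ 2 ^ j / 2 ^ (8 * s)

/-- Event 6. -/
def P6 (Λ : ℝ) (s : ℕ) (z : ℕ → Bool) : Prop := ∀ j ∈ JJ s, GG Λ (zm s j z) *
  ∑ k ∈ KS s j, (SA s j (sBk s j k (zm s j z)) true (L z (Y (j + 1))) +
    SA s j (sBk s j k (zm s j z)) false (L z (Y (j + 1)))) ≤ 2 ^ j / 2 ^ (5 * s)

/-- Event 7. -/
def P7 (s : ℕ) (z : ℕ → Bool) : Prop := ∀ j ∈ JJ s,
  ((act s j (zm s j z)).card : ℝ) ≤ 60 * 2 ^ (7 * s) → ∀ k ∈ act s j (zm s j z),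
    ∀ g ∈ range (2 ^ (5 * KK s)), ∀ b,
      2 ^ (7 * s) * |cp b (IN s j (sBk s j k (zm s j z)) z (g * 2 ^ (j - 4 * KK s)))| ≤
        6 * KK s + (2 ^ (7 * s)) ^ 2 / 2 *
          UV s j (sBk s j k (zm s j z)) b z (g * 2 ^ (j - 4 * KK s))

/-- Event 8. -/
def P8 (Λ : ℝ) (s : ℕ) (z : ℕ → Bool) : Prop := ∀ j ∈ JJ s, ∀ k ∈ range (2 ^ (s + J0 s + 3)),
  GG Λ (zm s j z) * ∑ i ∈ range (2 ^ s),
    (QQ s j k i (sG s j (zm s j z)) (L z (PP s j i)) - MM s j k i (sG s j (zm s j z)) (zm s j z)) ≤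
    2 ^ j / 2 ^ (8 * s) * exp (k * rho s j * sig j)

/-- Event 9. -/
def P9 (s : ℕ) (z : ℕ → Bool) : Prop := ∀ j ∈ JJ s, ∀ k ∈ range (2 ^ (s + J0 s + 3)),
  Er s j k (sG s j (zm s j z)) (L z (Y (j + 1))) ≤
    exp (k * rho s j * sig j) * (nP s j (sG s j (zm s j z)) (zm s j z) + 1)

/-- The mass of the main class is small. -/
def PM (M : ℝ) (s : ℕ) (z : ℕ → Bool) : Prop := ∀ j ∈ JJ s,
  ms (sG s j (zm s j z)) (zm s j z) ≤ M / 2 ^ (8 * s)

/-- The variance bound for a family of classes. -/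
def PV (C : ℝ) (s : ℕ) (A : ℕ → Set ℝ) (z : ℕ → Bool) : Prop := ∀ j ∈ JJ s, ∀ v, 0 ≤ v →
  v ≤ Lam s j → UV s j (A j) true z v ≤ C / 2 ^ (8 * s) * exp (sig j * v)

/-- The bound for the narrow class. -/
def PB (C : ℝ) (s : ℕ) (z : ℕ → Bool) : Prop := ∀ j ∈ JJ s, ∀ v, 0 ≤ v → v ≤ Lam s j →
  |(IN s j (sB s j (zm s j z)) z v).re| ≤ C * 2 ^ (2 * s)

/-- The coefficient of the main martingale for a node in block `j`. -/
def cfj (s j : ℕ) (v : ℝ) (l : List Bool) : ℝ :=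
  2 ^ (12 * s) * exp (-(sig j * v)) * (xx (sig j) l.length *
    (g0 (TT s) (sig j) (sB s j (anc (Y (mm s j)) l))ᶜ l (v - log l.length)).re)

/-- The coefficient of the main martingale. -/
def cf (s : ℕ) (v : ℝ) (l : List Bool) : ℝ := cfj s (Nat.log 2 (Nat.log 2 l.length)) v l

/-- The exponential inequality for one martingale. -/
def PE (c : List Bool → ℝ) (n0 n1 : ℕ) (y : ℝ) (z : ℕ → Bool) : Prop :=
  |∑ m ∈ Ico n0 n1, sg (z m) * c (L z m)| ≤ y + (∑ m ∈ Ico n0 n1, c (L z m) ^ 2) / 2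

end

end Pool.Agent.Lib.RX
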