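import Pool.Agent.Lib.RX.B_ARG
import Pool.Agent.Lib.RX.B_BAL32
import Pool.Agent.Lib.RX.B_BALH
import Pool.Agent.Lib.RX.B_BAR
import Pool.Agent.Lib.RX.B_BASE
import Pool.Agent.Lib.RX.B_BTK
import Pool.Agent.Lib.RX.B_BX
import Pool.Agent.Lib.RX.B_CMP
import Pool.Agent.Lib.RX.B_CNT
import Pool.Agent.Lib.RX.B_CORE
import Pool.Agent.Lib.RX.B_DB
import Pool.Agent.Lib.RX.B_DER
import Pool.Agent.Lib.RX.B_DF
import Pool.Agent.Lib.RX.B_DG
import Pool.Agent.Lib.RX.B_DM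
import Pool.Agent.Lib.RX.B_E14
import Pool.Agent.Lib.RX.B_E2
import Pool.Agent.Lib.RX.B_E3
import Pool.Agent.Lib.RX.B_E5
import Pool.Agent.Lib.RX.B_E6
import Pool.Agent.Lib.RX.B_E7
import Pool.Agent.Lib.RX.B_E8
import Pool.Agent.Lib.RX.B_E9
import Pool.Agent.Lib.RX.B_EN
import Pool.Agent.Lib.RX.B_ERR
import Pool.Agent.Lib.RX.B_EXP
import Pool.Agent.Lib.RX.B_FRO
import Pool.Agent.Lib.RX.B_GAUSS
import Pool.Agent.Lib.RX.B_GOOD
import Pool.Agent.Lib.RX.B_HH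
import Pool.Agent.Lib.RX.B_HYP
import Pool.Agent.Lib.RX.B_INI
import Pool.Agent.Lib.RX.B_KV
import Pool.Agent.Lib.RX.B_LINK
import Pool.Agent.Lib.RX.B_LIP
import Pool.Agent.Lib.RX.B_LOW
import Pool.Agent.Lib.RX.B_MINK
import Pool.Agent.Lib.RX.B_MS
import Pool.Agent.Lib.RX.B_MX
import Pool.Agent.Lib.RX.B_OLD
import Pool.Agent.Lib.RX.B_SA
import Pool.Agent.Lib.RX.B_SAMP
import Pool.Agent.Lib.RX.B_SE
import Pool.Agent.Lib.RX.B_SSE
import Pool.Agent.Lib.RX.B_STEP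
import Pool.Agent.Lib.RX.B_TILT
import Pool.Agent.Lib.RX.B_UV
import Pool.Agent.Lib.RX.B_VAR
import Pool.Agent.Lib.RX.B_WIN
import Pool.Agent.Lib.RX.B_WINE
import Pool.Agent.Lib.RX.B_WINX
import Pool.Agent.Lib.RX.B_WS

/-! Project rx29: all blocks together. -/

namespace Pool.Agent.Lib.RX

theorem core : St_CORE := by
  have win := st_WIN
  have wine := st_WINE win
  have samp := st_SAMP st_BTK
  have se := st_SE st_STEP samp wine st_EN
  have hh := st_HH st_ARG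
  have mx := st_MX (st_BAL32 st_GAUSS) st_ARG st_GOOD hh
  have tilt := st_TILT st_ARG
  have sa := st_SA st_HYP wine
  have uv := st_UV st_STEP samp
  have sse := st_SSE st_BASE
  exact st_CORE (st_ALL st_BAR st_DER (st_E14 mx) (st_E2 (st_OLD st_BALH st_LOW hh mx))
    (st_E3 (st_KV st_VAR se st_EN st_LOW) tilt mx) (st_E5 sa st_CMP st_GOOD) (st_E6 sa st_LOW mx)
    st_E7 (st_E8 (st_FRO st_VAR (st_WINX win) (st_BX se st_EN) st_EN st_LOW) mx)
    (st_E9 (st_ERR st_HYP st_MINK st_WS wine)) (st_DM tilt hh) (st_DG uv (st_MS st_WS wine))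
    (st_DB st_CNT uv st_LIP)) (st_DF sse (st_INI sse)) st_EXP st_LINK

end Pool.Agent.Lib.RX
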