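import Pool.Agent.Lib.RX.Blue

/-! Project rx29: basic lemmas on the finite model and on window integrals. -/

namespace Pool.Agent.Lib.RX

open Finset Real MeasureTheory Filter Topology Pool.Agent.Lib.RM67 Pool.Agent.Lib.RM67.T96

noncomputable section

theorem AE.mono {P Q : (ℕ → Bool) → Prop} (h : AE P) (k : ∀ z, P z → Q z) : AE Q :=
  fun Ω _ μ _ Z hZ => (h Ω μ Z hZ).mono fun _ => k _

theorem AE.and {P Q : (ℕ → Bool) → Prop} (h : AE P) (k : AE Q) : AE fun z => P z ∧ Q z :=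
  fun Ω _ μ _ Z hZ => (h Ω μ Z hZ).and (k Ω μ Z hZ)

theorem AE.all {P : ℕ → (ℕ → Bool) → Prop} (h : ∀ i, AE (P i)) : AE fun z => ∀ i, P i z :=
  fun Ω _ μ _ Z hZ => ae_all_iff.2 fun i => h i Ω μ Z hZ

theorem AE.of_forall {P : (ℕ → Bool) → Prop} (h : ∀ z, P z) : AE P :=
  fun _ _ _ _ _ _ => Eventually.of_forall fun _ => h _

/-- Borel-Cantelli for the stages. -/
theorem ae_of {S : ℕ → Finset ℕ} {n : ℕ → ℕ → ℕ} {B : ℕ → ℕ → List Bool → Prop} (a : ℕ)
    (h : ∀ᶠ s : ℕ in atTop, ∑ j ∈ S s, pr (n s j) (B s j) ≤ (s : ℝ) ^ a / 2 ^ s) :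
    AE fun z => ∀ᶠ s in atTop, ∀ j ∈ S s, ¬ B s j (L z (n s j)) := fun _ _ _ _ _ hZ =>
  hZ.bc S n B (c := fun s => (s : ℝ) ^ a / 2 ^ s) (by
    simpa [div_eq_mul_inv] using summable_pow_mul_geometric_of_norm_lt_one a
      (r := (2 : ℝ)⁻¹) (by norm_num)) h

/-- From a tail bound that is uniform in the horizon to an almost sure bound. -/
theorem ae_ex {P : ℕ → List Bool → Prop} {C : ℝ}
    (h : ∀ H y : ℕ, 1 ≤ y → pr H (fun l => ¬ Al (P y) l) ≤ C / y) :
    AE fun z => ∃ y, 1 ≤ y ∧ ∀ n, P y (L z n) := by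
  intro Ω _ μ _ Z hZ
  have k : ∀ y : ℕ, 1 ≤ y → μ.real {ω | ¬ ∃ y, 1 ≤ y ∧ ∀ n, P y (L (Z ω) n)} ≤ C / y := by
    intro y hy
    have m : Monotone fun H => {ω | ¬ Al (P y) (L (Z ω) H)} := fun a b hab ω hω hb =>
      hω (al_L.2 fun m hm => al_L.1 hb m (hm.trans hab))
    have e : μ (⋃ H, {ω | ¬ Al (P y) (L (Z ω) H)}) ≤ ENNReal.ofReal (C / y) := by
      rw [m.measure_iUnion]
      refine iSup_le fun H => ?_
      rw [← ofReal_measureReal]
      exact ENNReal.ofReal_le_ofReal ((hZ H fun l => ¬ Al (P y) l).trans (h H y hy))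
    have c0 : 0 ≤ C / y := le_trans measureReal_nonneg ((hZ 0 fun l => ¬ Al (P y) l).trans (h 0 y hy))
    refine ENNReal.toReal_le_of_le_ofReal c0 ((measure_mono fun ω hω => ?_).trans e)
    by_contra hn
    simp only [Set.mem_iUnion, Set.mem_ofPred_eq, not_exists, not_not] at hn
    exact hω ⟨y, hy, fun n => (hn n).self⟩
  have z : μ.real {ω | ¬ ∃ y, 1 ≤ y ∧ ∀ n, P y (L (Z ω) n)} ≤ 0 :=
    ge_of_tendsto (tendsto_const_div_atTop_nhds_zero_nat C)
      ((eventually_ge_atTop 1).mono k)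
  rw [ae_iff, ← measureReal_eq_zero_iff]
  exact le_antisymm z measureReal_nonneg

theorem ev_poly (C : ℝ) (a : ℕ) : ∀ᶠ s : ℕ in atTop, C * (s : ℝ) ^ a ≤ 2 ^ s := by
  have h := tendsto_pow_const_div_const_pow_of_one_lt a (r := 2) one_lt_two
  filter_upwards [(h.const_mul C).eventually_le_const (show C * 0 < 1 by simp)] with s hs
  rwa [← mul_div_assoc, div_le_one (by positivity)] at hs

theorem ev_const (C : ℝ) : ∀ᶠ s : ℕ in atTop, C ≤ s :=
  tendsto_natCast_atTop_atTop.eventually_ge_atTop C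

theorem av_nonneg {n : ℕ} {F : List Bool → ℝ} (h : ∀ l, l.length = n → 0 ≤ F l) : 0 ≤ av n F :=
  (av_const n 0).ge.trans (av_mono h)

theorem av_congr {n : ℕ} {F G : List Bool → ℝ} (h : ∀ l, l.length = n → F l = G l) :
    av n F = av n G :=
  le_antisymm (av_mono fun l hl => (h l hl).le) (av_mono fun l hl => (h l hl).ge)

theorem pr_mono {n : ℕ} {A B : List Bool → Prop} (h : ∀ l, l.length = n → A l → B l) :
    pr n A ≤ pr n B :=
  pr_le fun l hl => ⟨ind_nonneg _, fun a => (ind_pos (h l hl a)).ge⟩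

theorem pr_union {ι : Type} (n : ℕ) (S : Finset ι) (B : ι → List Bool → Prop) :
    pr n (fun l => ∃ k ∈ S, B k l) ≤ ∑ k ∈ S, pr n (B k) := by
  unfold pr
  rw [← av_sum]
  exact pr_le fun l _ => ⟨sum_nonneg fun _ _ => ind_nonneg _, fun ⟨k, hk, hb⟩ =>
    (ind_pos hb).ge.trans (single_le_sum (f := fun k => ind (B k l)) (fun _ _ => ind_nonneg _) hk)⟩

/-- Markov's inequality with a bound for the mean. -/
theorem markov' {n : ℕ} {F : List Bool → ℝ} {c m : ℝ} (hc : 0 < c) (h : ∀ l, 0 ≤ F l)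
    (hm : av n F ≤ m) : pr n (fun l => ¬ F l ≤ c) ≤ m / c :=
  (pr_mono fun _ _ a => not_le.1 a).trans
    ((markov hc h).trans (div_le_div_of_nonneg_right hm hc.le))

theorem av_supj (n : ℕ) (U J : List Bool → ℝ) : ∀ k, (∀ l, n ≤ l.length → l.length < n + k →
    (U (true :: l) + U (false :: l)) / 2 ≤ U l + J l) →
    av (n + k) U ≤ av n U + ∑ m ∈ Ico n (n + k), av m J
  | 0, _ => by simp
  | k + 1, h => by
    have h1 := av_supj n U J k fun l a b => h l a (by omega)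
    have h2 : av (n + k + 1) U ≤ av (n + k) U + av (n + k) J := by
      rw [← av_add]
      exact av_mono fun l hl => h l (by omega) (by omega)
    rw [← add_assoc, sum_Ico_succ_top (by omega)]
    linarith

/-- The weak maximal inequality with jumps. -/
theorem doobj (n k : ℕ) (Z J : List Bool → ℝ) {c : ℝ} (hc : 0 < c) (h0 : ∀ l, 0 ≤ Z l)
    (hJ : ∀ l, 0 ≤ J l) (h : ∀ l, n ≤ l.length → l.length < n + k →
      (Z (true :: l) + Z (false :: l)) / 2 ≤ Z l + J l) :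
    pr (n + k) (fun l => ¬ Al (fun t => n ≤ t.length → Z t ≤ c) l) ≤
      (av n Z + ∑ m ∈ Ico n (n + k), av m J) / c := by
  classical
  set P : List Bool → Prop := fun t => n ≤ t.length → Z t ≤ c with hP
  set U : List Bool → ℝ := fun l => if Al P l then Z l / c else 1 with hU
  have k1 : ∀ l, (Al P l ∨ ¬ P l) → U l ≤ Z l / c := by
    intro l hl
    simp only [hU]
    split_ifs with ha
    · exact le_rfl
    · have := hl.resolve_left ha
      simp only [hP, not_forall, not_le] at this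
      exact (one_le_div hc).2 this.2.le
  have k2 : ∀ b l, Al P l → U (b :: l) ≤ Z (b :: l) / c := fun b l ha =>
    k1 _ ((em (P (b :: l))).imp_left fun hp => ⟨ha, hp⟩)
  rw [add_div, sum_div, ← av_div]
  simp only [← av_div]
  refine (pr_le (F := U) fun l _ => ⟨?_, fun hb => by simp [hU, hb]⟩).trans
    ((av_supj n U (fun l => J l / c) k fun l h1 h2 => ?_).trans
      (add_le_add_left (av_mono fun l hl => ?_) _))
  · simp only [hU]
    split_ifs
    · exact div_nonneg (h0 l) hc.le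
    · norm_num
  · by_cases ha : Al P l
    · have e : U l = Z l / c := by simp [hU, ha]
      have := div_le_div_of_nonneg_right (h l h1 h2) hc.le
      have a := k2 true l ha
      have b := k2 false l ha
      rw [e, ← add_div]
      refine le_trans ?_ this
      rw [div_right_comm (Z (true :: l) + _), add_div (Z (true :: l))]
      linarith
    · have := div_nonneg (hJ l) hc.le
      simp [hU, Al, ha, this]
  · cases l with
    | nil => exact k1 _ (em _)
    | cons b l => exact k2 b l (al_of fun t ht hn => by simp at hl; omega)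

theorem anc_of_le {n : ℕ} : ∀ {l : List Bool}, l.length ≤ n → anc n l = l
  | [], _ => rfl
  | _ :: _, h => if_pos h

theorem anc_cons {n : ℕ} {l : List Bool} (b : Bool) (h : n ≤ l.length) :
    anc n (b :: l) = anc n l := if_neg (not_lt.2 h)

theorem anc_app (k : ℕ) (l : List Bool) : ∀ e, anc (l.length + k) (e ++ l) = anc k e ++ l
  | [] => anc_of_le (by simp)
  | b :: e => by
    rw [List.cons_append, anc, anc, anc_app k l e, List.length_append]
    split_ifs <;> first | rfl | omega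

theorem anc_zero : ∀ l, anc 0 l = []
  | [] => rfl
  | _ :: l => by simp [anc, anc_zero l]

theorem anc_append {n : ℕ} {l : List Bool} (h : l.length = n) (e : List Bool) :
    anc n (e ++ l) = l := by
  simpa [anc_zero, h] using anc_app 0 l e

theorem anc_len {n : ℕ} : ∀ {l : List Bool}, n ≤ l.length → (anc n l).length = n
  | [], h => by simp at h; simp [anc, h]
  | b :: l, h => by
    rw [anc]
    split_ifs with h1
    · simp at h ⊢; omega
    · exact anc_len (not_lt.1 h1)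

theorem anc_anc {n m : ℕ} (h : n ≤ m) : ∀ l, anc n (anc m l) = anc n l
  | [] => rfl
  | b :: l => by
    by_cases h1 : l.length < m
    · rw [show anc m (b :: l) = b :: l from if_pos h1]
    · rw [anc_cons b (not_lt.1 h1), anc_cons b (h.trans (not_lt.1 h1)), anc_anc h l]

theorem anc_append_le {n : ℕ} {l : List Bool} (h : n ≤ l.length) (e : List Bool) :
    anc n (e ++ l) = anc n l := by
  rw [← anc_anc h, anc_append rfl]

theorem anc_L (z : ℕ → Bool) {n k : ℕ} (h : n ≤ k) : anc n (L z k) = L z n := by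
  induction k, h using Nat.le_induction with
  | base => exact anc_of_le (by simp)
  | succ k h ih => rw [L, anc_cons _ (by simpa), ih]

theorem av_anc {n k : ℕ} (h : n ≤ k) (F : List Bool → ℝ) :
    av k (fun l => F (anc n l)) = av n F := by
  obtain ⟨d, rfl⟩ := Nat.exists_eq_add_of_le h
  rw [av_tower]
  exact av_congr fun l hl => by simp only [anc_append hl, av_const]

/-- The tower property between two times. -/
theorem av_split {n k : ℕ} (h : n ≤ k) (F : List Bool → ℝ) :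
    av k F = av n fun l => av (k - n) fun e => F (e ++ l) := by
  rw [← av_tower, Nat.add_sub_cancel' h]

theorem Al_app {P : List Bool → Prop} {l : List Bool} : ∀ {e}, Al P (e ++ l) → Al P l
  | [], h => h
  | _ :: _, h => Al_app h.1

theorem GG_nonneg (Λ : ℝ) (l : List Bool) : 0 ≤ GG Λ l := ind_nonneg _

theorem GG_le (Λ : ℝ) (l : List Bool) : GG Λ l ≤ 1 := ind_le _

theorem GG_cases (Λ : ℝ) (l : List Bool) : GG Λ l = 0 ∨ GG Λ l = 1 ∧ Pb Λ l := by
  by_cases h : Al (Pb Λ) l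
  exacts [Or.inr ⟨ind_pos h, h.self⟩, Or.inl (ind_neg h)]

theorem GG_app (Λ : ℝ) (e l : List Bool) : GG Λ (e ++ l) ≤ GG Λ l := by
  by_cases h : Al (Pb Λ) (e ++ l)
  · exact (GG_le _ _).trans (ind_pos (Al_app h)).ge
  · exact (ind_neg h).le.trans (GG_nonneg _ _)

theorem GG_L {Λ : ℝ} {z : ℕ → Bool} (h : ∀ n, Pb Λ (L z n)) (n : ℕ) : GG Λ (L z n) = 1 :=
  ind_pos (al_L.2 fun m _ => h m)

theorem c3_spec : 0 ≤ c3 ∧ ∀ n t, ∑ m ∈ range n, |bb m t| ^ 3 ≤ c3 := Classical.choose_spec cub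

theorem Pb.bar {Λ : ℝ} (hΛ : 0 < Λ) {l : List Bool} (h : Pb Λ l) (J : ℕ) :
    bar J (Λ * (J + 1)) l := fun k hk hl t => (h k hl t).trans (by
  have : (k : ℝ) ≤ J := by exact_mod_cast hk
  gcongr)

theorem W_ab {Λ : ℝ} (hΛ : 0 < Λ) {l : List Bool} (h : Pb Λ l) {k : ℕ} (hl : l.length ≤ Y k)
    (t : ℝ) : WW l t ≤ ab Λ k t :=
  W_le (by positivity) c3_spec.2 (h.bar hΛ k) t k le_rfl hl

theorem R_step (l : List Bool) (t : ℝ) : (R (true :: l) t + R (false :: l) t) / 2 = R l t := by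
  simp only [R, sg_true, sg_false]; ring

theorem av_R_app (l : List Bool) (t : ℝ) : ∀ k, av k (fun e => R (e ++ l) t) = R l t
  | 0 => rfl
  | k + 1 => by
    rw [av]
    simp only [List.cons_append, R_step]
    exact av_R_app l t k

theorem BC.const (c : ℝ) : BC fun _ => c := ⟨continuous_const, |c|, fun _ => le_rfl⟩

theorem BC.add {f g : ℝ → ℝ} (hf : BC f) (hg : BC g) : BC fun u => f u + g u := by
  obtain ⟨a, C, hC⟩ := hf
  obtain ⟨b, D, hD⟩ := hg
  exact ⟨a.add b, C + D, fun u => (abs_add_le _ _).trans (add_le_add (hC u) (hD u))⟩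

theorem BC.mul {f g : ℝ → ℝ} (hf : BC f) (hg : BC g) : BC fun u => f u * g u := by
  obtain ⟨a, C, hC⟩ := hf
  obtain ⟨b, D, hD⟩ := hg
  exact ⟨a.mul b, C * D, fun u => by
    rw [abs_mul]; exact mul_le_mul (hC u) (hD u) (abs_nonneg _) ((abs_nonneg _).trans (hC u))⟩

theorem BC.cmul {f : ℝ → ℝ} (hf : BC f) (c : ℝ) : BC fun u => c * f u := (BC.const c).mul hf

theorem BC.sub {f g : ℝ → ℝ} (hf : BC f) (hg : BC g) : BC fun u => f u - g u := by
  simpa [sub_eq_add_neg] using hf.add (hg.cmul (-1))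

theorem BC.pow {f : ℝ → ℝ} (hf : BC f) : ∀ n : ℕ, BC fun u => f u ^ n
  | 0 => by simpa using BC.const 1
  | n + 1 => by simpa [pow_succ] using (hf.pow n).mul hf

theorem BC.max {f g : ℝ → ℝ} (hf : BC f) (hg : BC g) : BC fun u => max (f u) (g u) := by
  obtain ⟨a, C, hC⟩ := hf
  obtain ⟨b, D, hD⟩ := hg
  exact ⟨a.max b, Max.max C D, fun u => (abs_max_le_max_abs_abs).trans (max_le_max (hC u) (hD u))⟩

theorem BC.shift {f : ℝ → ℝ} (hf : BC f) (a : ℝ) : BC fun u => f (u - a) := by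
  obtain ⟨h, C, hC⟩ := hf
  exact ⟨h.comp (continuous_sub_right a), C, fun u => hC _⟩

theorem BC.sum {ι : Type} (S : Finset ι) {f : ι → ℝ → ℝ} (h : ∀ i ∈ S, BC (f i)) :
    BC fun u => ∑ i ∈ S, f i u := by
  classical
  induction S using Finset.induction_on with
  | empty => simpa using BC.const 0
  | insert i S hi ih =>
    simpa [sum_insert hi] using (h i (mem_insert_self _ _)).add
      (ih fun j hj => h j (mem_insert_of_mem hj))

theorem chi_int {ρ : ℝ} (hρ : 0 < ρ) (u0 : ℝ) : Integrable fun u => exp (-|u - u0| / ρ) := by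
  have h := ((lap_int 0 rfl).1.norm.comp_mul_left' (R := (π * ρ)⁻¹) (by positivity)).comp_sub_right u0
  refine h.congr (Eventually.of_forall fun u => ?_)
  simp only [zero_mul, Complex.exp_zero, one_mul, Complex.norm_real, norm_eq_abs, abs_exp, abs_mul]
  rw [abs_of_pos (by positivity : 0 < (π * ρ)⁻¹)]
  congr 1
  field_simp

theorem BC.int {f : ℝ → ℝ} (hf : BC f) {ρ : ℝ} (hρ : 0 < ρ) (u0 : ℝ) :
    Integrable fun u => exp (-|u - u0| / ρ) * f u := by
  obtain ⟨h, C, hC⟩ := hf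
  exact (chi_int hρ u0).mul_bdd h.aestronglyMeasurable (Eventually.of_forall hC)

theorem Wn_nonneg (ρ u0 : ℝ) {f : ℝ → ℝ} (h : ∀ u, 0 ≤ f u) : 0 ≤ Wn ρ u0 f :=
  integral_nonneg fun u => mul_nonneg (exp_pos _).le (h u)

theorem Wn_mono {ρ : ℝ} (hρ : 0 < ρ) (u0 : ℝ) {f g : ℝ → ℝ} (hf : BC f) (hg : BC g)
    (h : ∀ u, f u ≤ g u) : Wn ρ u0 f ≤ Wn ρ u0 g :=
  integral_mono (hf.int hρ u0) (hg.int hρ u0) fun u =>
    mul_le_mul_of_nonneg_left (h u) (exp_pos _).le

theorem Wn_add {ρ : ℝ} (hρ : 0 < ρ) (u0 : ℝ) {f g : ℝ → ℝ} (hf : BC f) (hg : BC g) :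
    Wn ρ u0 (fun u => f u + g u) = Wn ρ u0 f + Wn ρ u0 g := by
  simp only [Wn, mul_add]
  exact integral_add (hf.int hρ u0) (hg.int hρ u0)

theorem Wn_cmul (ρ u0 c : ℝ) (f : ℝ → ℝ) : Wn ρ u0 (fun u => c * f u) = c * Wn ρ u0 f := by
  simp only [Wn, mul_left_comm _ c, integral_const_mul]

theorem Wn_sum {ι : Type} {ρ : ℝ} (hρ : 0 < ρ) (u0 : ℝ) (S : Finset ι) {f : ι → ℝ → ℝ}
    (h : ∀ i ∈ S, BC (f i)) : Wn ρ u0 (fun u => ∑ i ∈ S, f i u) = ∑ i ∈ S, Wn ρ u0 (f i) := by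
  simp only [Wn, mul_sum]
  exact integral_finsetSum S fun i hi => (h i hi).int hρ u0

theorem Wn_shift (ρ u0 a : ℝ) (f : ℝ → ℝ) : Wn ρ u0 (fun u => f (u - a)) = Wn ρ (u0 - a) f := by
  unfold Wn
  rw [← integral_sub_right_eq_self (fun u => exp (-|u - (u0 - a)| / ρ) * f u) a]
  simp only [sub_sub_sub_cancel_right]

/-- Moving and widening a window. -/
theorem Wn_cmp {ρ ρ' u0 u1 : ℝ} (hρ : 0 < ρ) (h1 : ρ ≤ ρ') (h2 : |u0 - u1| ≤ ρ') {f : ℝ → ℝ}
    (hf : BC f) (h : ∀ u, 0 ≤ f u) : Wn ρ u0 f ≤ 3 * Wn ρ' u1 f := by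
  have h0 : 0 < ρ' := hρ.trans_le h1
  unfold Wn
  rw [← integral_const_mul]
  refine integral_mono (hf.int hρ u0) ((hf.int h0 u1).const_mul 3) fun u => ?_
  simp only [← mul_assoc]
  refine mul_le_mul_of_nonneg_right ?_ (h u)
  have a : -|u - u0| / ρ ≤ 1 + -|u - u1| / ρ' := by
    have b : |u - u0| / ρ' ≤ |u - u0| / ρ := div_le_div_of_nonneg_left (abs_nonneg _) hρ h1
    have c : |u - u1| / ρ' ≤ (|u - u0| + ρ') / ρ' :=
      div_le_div_of_nonneg_right ((abs_sub_le u u0 u1).trans (by linarith)) h0.le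
    rw [add_div, div_self h0.ne'] at c
    rw [neg_div, neg_div]
    linarith
  refine (exp_le_exp.2 a).trans ?_
  rw [exp_add]
  exact mul_le_mul_of_nonneg_right (by linarith [exp_one_lt_d9]) (exp_pos _).le

theorem av_Wn {ρ : ℝ} (hρ : 0 < ρ) (u0 : ℝ) (n : ℕ) {F : List Bool → ℝ → ℝ} (h : ∀ l, BC (F l)) :
    av n (fun l => Wn ρ u0 (F l)) = Wn ρ u0 fun u => av n fun l => F l u := by
  unfold Wn
  rw [(av_int _ fun l => (h l).int hρ u0).2]
  simp only [av_mul]

theorem av_BC : ∀ (n : ℕ) {F : List Bool → ℝ → ℝ}, (∀ l, BC (F l)) →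
    BC fun u => av n fun l => F l u
  | 0, _, h => h []
  | n + 1, F, h => av_BC n (F := fun l u => (F (true :: l) u + F (false :: l) u) / 2) fun l => by
    simpa [div_eq_inv_mul] using ((h _).add (h _)).cmul 2⁻¹

theorem mx_nonneg (F : List Bool → ℝ → ℝ) (n : ℕ) (u : ℝ) : ∀ l, 0 ≤ mx F n l u
  | [] => le_rfl
  | b :: l => by
    rw [mx]
    split_ifs
    exacts [le_rfl, le_max_of_le_left (mx_nonneg F n u l)]

theorem mx_BC {F : List Bool → ℝ → ℝ} (h : ∀ l, BC (F l)) (n : ℕ) : ∀ l, BC (mx F n l)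
  | [] => BC.const 0
  | b :: l => by
    by_cases h1 : l.length < n
    · simpa [show mx F n (b :: l) = fun _ => 0 from funext fun _ => if_pos h1] using BC.const 0
    · rw [show mx F n (b :: l) = fun u => max (mx F n l u) ((F (b :: l) u - F (anc n l) u) ^ 2) from
        funext fun _ => if_neg h1]
      exact (mx_BC h n l).max (((h _).sub (h _)).pow 2)

theorem le_mx (F : List Bool → ℝ → ℝ) (z : ℕ → Bool) (u : ℝ) {n a k : ℕ} (h : n ≤ a) (hk : a ≤ k) :
    (F (L z a) u - F (L z n) u) ^ 2 ≤ mx F n (L z k) u := by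
  induction k, hk using Nat.le_induction with
  | base =>
    rcases h.eq_or_lt with rfl | h1
    · simpa using mx_nonneg F n u _
    · obtain ⟨a, rfl⟩ : ∃ a', a = a' + 1 := ⟨a - 1, by omega⟩
      rw [L, mx, if_neg (by simp; omega), anc_L z (by omega)]
      exact le_max_right _ _
  | succ k hk ih =>
    rw [L, mx, if_neg (by simp; omega)]
    exact le_max_of_le_left ih

theorem hy_nonneg (x : ℕ → ℝ) {ρ : ℝ} (hρ : 0 ≤ ρ) {f : ℝ → ℝ} (h : ∀ u, 0 ≤ f u) (n : ℕ) :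
    ∀ k u, 0 ≤ hy x ρ f n k u
  | 0, u => h u
  | k + 1, u => add_nonneg (hy_nonneg x hρ h n k u)
      (mul_nonneg (by positivity) (hy_nonneg x hρ h n k _))

theorem hy_mono (x : ℕ → ℝ) {ρ : ℝ} (hρ : 0 ≤ ρ) {f : ℝ → ℝ} (h : ∀ u, 0 ≤ f u) (n : ℕ) (u : ℝ) :
    Monotone fun k => hy x ρ f n k u :=
  monotone_nat_of_le_succ fun k =>
    le_add_of_nonneg_right (mul_nonneg (by positivity) (hy_nonneg x hρ h n k _))

theorem hy_BC (x : ℕ → ℝ) (ρ : ℝ) {f : ℝ → ℝ} (h : BC f) (n : ℕ) : ∀ k, BC (hy x ρ f n k)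
  | 0 => h
  | k + 1 => (hy_BC x ρ h n k).add (((hy_BC x ρ h n k).shift _).cmul _)

/-- A translation invariant bound grows at most by the product. -/
theorem hy_sum {ι : Type} (S : Finset ι) (c : ι → ℝ) (x : ℕ → ℝ) {ρ B : ℝ} (hρ : 0 ≤ ρ)
    {f : ℝ → ℝ} (n : ℕ) (h : ∀ a, ∑ i ∈ S, f (c i - a) ≤ B) (hB : 0 ≤ B) : ∀ k a,
    ∑ i ∈ S, hy x ρ f n k (c i - a) ≤ exp (ρ * ∑ m ∈ Ico n (n + k), x m ^ 2) * B
  | 0, a => by simpa [hy] using h a
  | k + 1, a => by
    have h1 := hy_sum S c x hρ n h hB k a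
    have h2 := hy_sum S c x hρ n h hB k (a + log (n + k : ℕ))
    have h3 : 0 ≤ ρ * x (n + k) ^ 2 := by positivity
    simp only [hy, sum_add_distrib, ← mul_sum, sub_sub]
    rw [← add_assoc, sum_Ico_succ_top (by omega), mul_add, exp_add]
    have h4 := mul_le_mul_of_nonneg_left h2 h3
    have h5 := mul_le_mul_of_nonneg_left (add_one_le_exp (ρ * x (n + k) ^ 2))
      (mul_nonneg (exp_pos (ρ * ∑ m ∈ Ico n (n + k), x m ^ 2)).le hB)
    linarith

theorem Wn_hy (x : ℕ → ℝ) {ρ ρ' B : ℝ} (hρ : 0 ≤ ρ) (hρ' : 0 < ρ') {f : ℝ → ℝ} (hf : BC f)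
    (n : ℕ) (h : ∀ u0, Wn ρ' u0 f ≤ B) (hB : 0 ≤ B) (k : ℕ) (u0 : ℝ) :
    Wn ρ' u0 (hy x ρ f n k) ≤ exp (ρ * ∑ m ∈ Ico n (n + k), x m ^ 2) * B := by
  have e : ∀ k u0, Wn ρ' u0 (hy x ρ f n k) = hy x ρ (fun u0 => Wn ρ' u0 f) n k u0 := by
    intro k
    induction k with
    | zero => exact fun _ => rfl
    | succ k ih =>
      intro u0
      have := hy_BC x ρ hf n k
      rw [hy, ← ih, ← ih, ← Wn_shift, ← Wn_cmul, ← Wn_add hρ' u0 this ((this.shift _).cmul _)]
      rfl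
  simpa [e] using hy_sum {0} (fun _ : ℕ => u0) x hρ (f := fun u0 => Wn ρ' u0 f) n
    (fun a => by simpa using h _) hB k 0

end

end Pool.Agent.Lib.RX
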