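import Pool.Agent.Lib.RX.Kit0

/-! Project rx29: basic lemmas on the Fourier side. -/

namespace Pool.Agent.Lib.RX

open Finset Real MeasureTheory Filter Topology Pool.Agent.Lib.RM67 Pool.Agent.Lib.RM67.T96

noncomputable section

@[simp] theorem norm_ee (y : ℝ) : ‖ee y‖ = 1 := Complex.norm_exp_ofReal_mul_I y

@[simp] theorem ee_zero : ee 0 = 1 := by simp [ee]

theorem ee_add (a b : ℝ) : ee (a + b) = ee a * ee b := by
  simp only [ee, ← Complex.exp_add]; push_cast; ring_nf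

theorem conj_ee (a : ℝ) : (starRingEnd ℂ) (ee a) = ee (-a) := by
  simp [ee, ← Complex.exp_conj]

theorem ee_re (a : ℝ) : (ee a).re = cos a := Complex.exp_ofReal_mul_I_re a

theorem ee_im (a : ℝ) : (ee a).im = sin a := Complex.exp_ofReal_mul_I_im a

@[fun_prop] theorem ee_cont : Continuous ee := by unfold ee; fun_prop

theorem cp_add (b : Bool) (x y : ℂ) : cp b (x + y) = cp b x + cp b y := by cases b <;> simp [cp]

theorem cp_sub (b : Bool) (x y : ℂ) : cp b (x - y) = cp b x - cp b y := by cases b <;> simp [cp]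

theorem cp_mul (b : Bool) (c : ℝ) (x : ℂ) : cp b (c * x) = c * cp b x := by cases b <;> simp [cp]

@[simp] theorem cp_true (x : ℂ) : cp true x = x.re := rfl

@[simp] theorem cp_false (x : ℂ) : cp false x = x.im := rfl

theorem abs_cp (b : Bool) (x : ℂ) : |cp b x| ≤ ‖x‖ := by
  cases b
  exacts [Complex.abs_im_le_norm x, Complex.abs_re_le_norm x]

theorem cp_sq (b : Bool) (x : ℂ) : cp b x ^ 2 ≤ ‖x‖ ^ 2 := by
  rw [← sq_abs]; exact pow_le_pow_left₀ (abs_nonneg _) (abs_cp b x) 2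

theorem cp_cont (b : Bool) : Continuous (cp b) := by
  cases b
  exacts [Complex.continuous_im, Complex.continuous_re]

theorem ee_int {Φ : ℝ → ℂ} (h : Integrable Φ) (u : ℝ) : Integrable fun t => Φ t * ee (t * u) :=
  h.mul_bdd (c := 1) (by fun_prop) (Eventually.of_forall fun t => (norm_ee _).le)

theorem II_add {Φ Ψ : ℝ → ℂ} (h : Integrable Φ) (k : Integrable Ψ) (u : ℝ) :
    II (fun t => Φ t + Ψ t) u = II Φ u + II Ψ u := by
  simp only [II, add_mul, integral_add (ee_int h u) (ee_int k u), mul_add]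

theorem II_sub {Φ Ψ : ℝ → ℂ} (h : Integrable Φ) (k : Integrable Ψ) (u : ℝ) :
    II (fun t => Φ t - Ψ t) u = II Φ u - II Ψ u := by
  simp only [II, sub_mul, integral_sub (ee_int h u) (ee_int k u), mul_sub]

theorem II_cmul (c : ℂ) (Φ : ℝ → ℂ) (u : ℝ) : II (fun t => c * Φ t) u = c * II Φ u := by
  simp only [II, mul_assoc, integral_const_mul]
  ring

theorem II_sum {ι : Type} (S : Finset ι) {Φ : ι → ℝ → ℂ} (h : ∀ i ∈ S, Integrable (Φ i)) (u : ℝ) :
    II (fun t => ∑ i ∈ S, Φ i t) u = ∑ i ∈ S, II (Φ i) u := by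
  simp only [II, sum_mul, ← mul_sum]
  rw [integral_finsetSum S fun i hi => ee_int (h i hi) u]

theorem II_shift (Φ : ℝ → ℂ) (a u : ℝ) : II (fun t => Φ t * ee (-(t * a))) u = II Φ (u - a) := by
  simp only [II, mul_assoc, ← ee_add, mul_sub, neg_add_eq_sub]

theorem norm_II (Φ : ℝ → ℂ) (u : ℝ) : ‖II Φ u‖ ≤ (2 * π)⁻¹ * ∫ t, ‖Φ t‖ := by
  rw [II, norm_mul, Complex.norm_real, norm_of_nonneg (by positivity)]
  refine mul_le_mul_of_nonneg_left ((norm_integral_le_integral_norm _).trans ?_) (by positivity)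
  simp

theorem II_cont {Φ : ℝ → ℂ} (h : Integrable Φ) : Continuous (II Φ) :=
  continuous_const.mul (continuous_of_dominated (bound := fun t => ‖Φ t‖)
    (fun u => (ee_int h u).aestronglyMeasurable)
    (fun u => Eventually.of_forall fun t => by simp) h.norm
    (Eventually.of_forall fun t => by fun_prop))

theorem II_BC {Φ : ℝ → ℂ} (h : Integrable Φ) (b : Bool) : BC fun u => cp b (II Φ u) :=
  ⟨(cp_cont b).comp (II_cont h), _, fun u => (abs_cp _ _).trans (norm_II Φ u)⟩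

theorem II_BCn {Φ : ℝ → ℂ} (h : Integrable Φ) : BC fun u => ‖II Φ u‖ :=
  ⟨(II_cont h).norm, _, fun u => (abs_norm _).le.trans (norm_II Φ u)⟩

theorem norm_sq_line (a t : ℝ) : ‖(a : ℂ) + t * Complex.I‖ ^ 2 = a ^ 2 + t ^ 2 := by
  rw [Complex.sq_norm, Complex.normSq_add_mul_I]

theorem line_ne {a : ℝ} (ha : 0 < a) (t : ℝ) : (a : ℂ) + t * Complex.I ≠ 0 := fun h => by
  simpa [ha.ne'] using congrArg Complex.re h

theorem aa_sq (T c t : ℝ) : ‖aa T c t‖ ^ 2 = T ^ 2 * RM67.ker (T + c) t := by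
  rw [aa, norm_div, div_pow, ← Complex.ofReal_add, norm_sq_line, Complex.norm_real, norm_eq_abs,
    sq_abs, RM67.ker, div_eq_mul_inv]

theorem norm_aa {T c : ℝ} (hT : 0 < T) (hc : 0 ≤ c) (t : ℝ) : ‖aa T c t‖ ≤ 1 := by
  rw [← sq_le_one_iff₀ (norm_nonneg _), aa_sq, RM67.ker, ← div_eq_mul_inv, div_le_one (by positivity)]
  nlinarith [sq_nonneg t]

theorem aa_cont {T c : ℝ} (hT : 0 < T) (hc : 0 ≤ c) : Continuous (aa T c) := by
  unfold aa
  refine continuous_const.div (by fun_prop) fun t => ?_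
  rw [← Complex.ofReal_add]; exact line_ne (by positivity) t

theorem aa_int {T c : ℝ} (hT : 0 < T) (hc : 0 ≤ c) {Φ : ℝ → ℂ} (h : Integrable Φ) :
    Integrable fun t => aa T c t * Φ t :=
  h.bdd_mul (aa_cont hT hc).aestronglyMeasurable (Eventually.of_forall (norm_aa hT hc))

theorem ph_eq (T c t : ℝ) : ph T c t = aa (2 * T) c t / (c + t * Complex.I) := by
  rw [ph, aa, div_div]; push_cast; rfl

theorem ph_cont {T c : ℝ} (hT : 0 < T) (hc : 0 < c) : Continuous (ph T c) := by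
  rw [funext (ph_eq T c)]
  exact (aa_cont (by positivity) hc.le).div (by fun_prop) (line_ne hc)

theorem ph_sq' (T c t : ℝ) : ‖ph T c t‖ ^ 2 = ‖aa (2 * T) c t‖ ^ 2 * RM67.ker c t := by
  rw [ph_eq, norm_div, div_pow, norm_sq_line, RM67.ker, div_eq_mul_inv]

theorem ph_sq {T c : ℝ} (hT : 0 < T) (hc : 1 / 4 ≤ c) (t : ℝ) :
    ‖ph T c t‖ ^ 2 ≤ 8 * π * dens t := by
  have h1 : ‖aa (2 * T) c t‖ ^ 2 ≤ 1 :=
    (sq_le_one_iff₀ (norm_nonneg _)).2 (norm_aa (by positivity) (by linarith) t)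
  have h2 : RM67.ker c t ≤ 4 * RM67.ker (1 / 2) t := by
    rw [RM67.ker, RM67.ker, ← div_eq_mul_inv, inv_eq_one_div, div_le_div_iff₀ (by positivity) (by positivity)]
    nlinarith [sq_nonneg t]
  have h3 : 0 ≤ RM67.ker c t := by unfold RM67.ker; positivity
  rw [ph_sq', RM67.dens, show 8 * π * ((2 * π)⁻¹ * RM67.ker (1 / 2) t) = 4 * RM67.ker (1 / 2) t by field_simp; ring]
  nlinarith

theorem ph_int {T c : ℝ} (hT : 0 < T) (hc : 0 < c) : Integrable (ph T c) := by
  refine (((ker_int (T := 2 * T + c) (by positivity)).const_mul ((2 * T) ^ 2)).add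
    (ker_int hc)).mono' (ph_cont hT hc).aestronglyMeasurable (Eventually.of_forall fun t => ?_)
  have h1 := ph_sq' T c t
  have h3 : 0 ≤ RM67.ker c t := by unfold RM67.ker; positivity
  simp only [Pi.add_apply, ← aa_sq]
  refine abs_le_of_sq_le_sq' ?_ (by positivity) |>.2
  nlinarith [mul_nonneg (sq_nonneg ‖aa (2 * T) c t‖) h3, sq_nonneg (‖aa (2 * T) c t‖ ^ 2),
    sq_nonneg (RM67.ker c t)]

theorem dens_le_one (t : ℝ) : dens t ≤ 2 / π := by
  have : RM67.ker (1 / 2) t ≤ 4 := by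
    rw [RM67.ker, inv_le_comm₀ (by positivity) (by norm_num)]; nlinarith [sq_nonneg t]
  calc dens t ≤ (2 * π)⁻¹ * 4 := mul_le_mul_of_nonneg_left this (by positivity)
    _ = _ := by field_simp; norm_num

theorem dens_cont : Continuous dens := by
  unfold RM67.dens RM67.ker
  exact continuous_const.mul (Continuous.inv₀ (by fun_prop) fun t => by positivity)

theorem xx_nonneg (σ : ℝ) (n : ℕ) : 0 ≤ xx σ n := by unfold xx; positivity

theorem xx_sq (σ : ℝ) (n : ℕ) : xx σ n ^ 2 = r n * exp (2 * (σ * log n)) := by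
  rw [xx, mul_pow, sq_sqrt (r_nonneg n), ← exp_nat_mul]; norm_num

theorem Ec_cont (σ : ℝ) : ∀ l, Continuous (Ec σ l)
  | [] => continuous_const
  | b :: l => by
    have := Ec_cont σ l
    show Continuous fun t => Ec σ l t * (1 + (sg b * xx σ l.length : ℝ) * ee (-(t * log l.length)))
    fun_prop

theorem fac_sq (x y : ℝ) : ‖1 + (x : ℂ) * ee (-y)‖ ^ 2 = 1 + x ^ 2 + 2 * x * cos y := by
  rw [Complex.sq_norm, Complex.normSq_apply]
  simp only [Complex.add_re, Complex.one_re, Complex.re_ofReal_mul, Complex.add_im, Complex.one_im,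
    Complex.im_ofReal_mul, ee_re, ee_im, cos_neg, sin_neg]
  linear_combination x ^ 2 * sin_sq_add_cos_sq y

theorem Ec_sq (σ : ℝ) (b : Bool) (l : List Bool) (t : ℝ) : ‖Ec σ (b :: l) t‖ ^ 2 = ‖Ec σ l t‖ ^ 2 *
    (1 + xx σ l.length ^ 2 + 2 * (sg b * xx σ l.length) * cos (t * log l.length)) := by
  rw [Ec, norm_mul, mul_pow, fac_sq]
  cases b <;> simp

theorem Ec_bd (σ : ℝ) : ∀ l, ∃ C, ∀ t, ‖Ec σ l t‖ ≤ C
  | [] => ⟨1, fun t => by simp [Ec]⟩
  | b :: l => by
    obtain ⟨C, hC⟩ := Ec_bd σ l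
    refine ⟨C * (1 + |sg b * xx σ l.length|), fun t => ?_⟩
    rw [Ec, norm_mul]
    refine mul_le_mul (hC t) ((norm_add_le _ _).trans ?_) (norm_nonneg _)
      ((norm_nonneg _).trans (hC t))
    rw [norm_one, norm_mul, norm_ee, mul_one, Complex.norm_real, norm_eq_abs]

theorem Ec_int (σ : ℝ) (l : List Bool) : Integrable fun t => ‖Ec σ l t‖ ^ 2 * dens t := by
  obtain ⟨C, hC⟩ := Ec_bd σ l
  exact bd_int ((Ec_cont σ l).norm.pow 2) (C := C ^ 2) fun t => by
    rw [abs_of_nonneg (sq_nonneg _)]; exact pow_le_pow_left₀ (norm_nonneg _) (hC t) 2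

theorem av_Ec (σ t : ℝ) : ∀ n, av n (fun l => ‖Ec σ l t‖ ^ 2) ≤ exp (∑ m ∈ range n, xx σ m ^ 2)
  | 0 => by simp [av, Ec]
  | n + 1 => by
    rw [av, sum_range_succ, exp_add, mul_comm]
    refine (av_mono (G := fun l => exp (xx σ n ^ 2) * ‖Ec σ l t‖ ^ 2) fun l hl => ?_).trans ?_
    · have := mul_le_mul_of_nonneg_right (add_one_le_exp (xx σ n ^ 2)) (sq_nonneg ‖Ec σ l t‖)
      simp only [Ec_sq, hl, sg_true, sg_false]
      linarith
    · rw [av_mul]
      exact mul_le_mul_of_nonneg_left (av_Ec σ t n) (exp_pos _).le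

section

variable {T σ : ℝ} {A : Set ℝ}

theorem Phi_meas (hT : 0 < T) (hσ : σ < 1 / 2) (hA : MeasurableSet A) (l : List Bool) :
    Measurable (Phi T σ A l) :=
  ((ph_cont hT (by linarith)).mul (Ec_cont σ l)).measurable.indicator hA

theorem Phi_int (hT : 0 < T) (hσ : σ < 1 / 2) (hA : MeasurableSet A) (l : List Bool) :
    Integrable (Phi T σ A l) := by
  obtain ⟨C, hC⟩ := Ec_bd σ l
  exact ((ph_int hT (by linarith)).mul_bdd (Ec_cont σ l).aestronglyMeasurable
    (Eventually.of_forall hC)).indicator hA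

theorem Phi_sq (hT : 0 < T) (hσ : σ ≤ 1 / 4) (A : Set ℝ) (l : List Bool) (t : ℝ) :
    ‖Phi T σ A l t‖ ^ 2 ≤ 8 * π * A.indicator (fun t => ‖Ec σ l t‖ ^ 2 * dens t) t := by
  by_cases h : t ∈ A
  · rw [Phi, Set.indicator_of_mem h, Set.indicator_of_mem h, norm_mul, mul_pow]
    have := mul_le_mul_of_nonneg_right (ph_sq hT (show 1 / 4 ≤ 1 / 2 - σ by linarith) t)
      (sq_nonneg ‖Ec σ l t‖)
    linarith
  · simp [Phi, h]

theorem Phi_bd (hT : 0 < T) (hσ : σ ≤ 1 / 4) (A : Set ℝ) (l : List Bool) :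
    ∃ D, ∀ t, ‖Phi T σ A l t‖ ≤ D := by
  obtain ⟨C, hC⟩ := Ec_bd σ l
  refine ⟨4 * C, fun t => ?_⟩
  have h1 : ‖ph T (1 / 2 - σ) t‖ ≤ 4 := by
    refine abs_le_of_sq_le_sq' ((ph_sq hT (by linarith) t).trans ?_) (by norm_num) |>.2
    calc _ ≤ 8 * π * (2 / π) := by gcongr; exact dens_le_one t
      _ = _ := by field_simp; norm_num
  refine (norm_indicator_le_norm_self _ _).trans ?_
  rw [norm_mul]
  exact mul_le_mul h1 (hC t) (norm_nonneg _) (by norm_num)

theorem Phi_int2 (hT : 0 < T) (hσ : σ ≤ 1 / 4) (hA : MeasurableSet A) (l : List Bool) :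
    Integrable fun t => ‖Phi T σ A l t‖ ^ 2 :=
  (((Ec_int σ l).indicator hA).const_mul (8 * π)).mono'
    ((Phi_meas hT (by linarith) hA l).norm.pow_const 2).aestronglyMeasurable
    (Eventually.of_forall fun t => by
      rw [norm_of_nonneg (sq_nonneg _)]; exact Phi_sq hT hσ A l t)

theorem Phi_norm2 (hT : 0 < T) (hσ : σ ≤ 1 / 4) (hA : MeasurableSet A) (l : List Bool) :
    ∫ t, ‖Phi T σ A l t‖ ^ 2 ≤ 8 * π * ∫ t in A, ‖Ec σ l t‖ ^ 2 * dens t := by
  rw [← integral_indicator hA, ← integral_const_mul]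
  exact integral_mono (Phi_int2 hT hσ hA l) (((Ec_int σ l).indicator hA).const_mul _)
    (Phi_sq hT hσ A l)

theorem Phi_cons (T σ : ℝ) (A : Set ℝ) (b : Bool) (l : List Bool) (t : ℝ) :
    Phi T σ A (b :: l) t = Phi T σ A l t +
      (sg b * xx σ l.length : ℝ) * (Phi T σ A l t * ee (-(t * log l.length))) := by
  by_cases h : t ∈ A
  · simp only [Phi, Set.indicator_of_mem h, Ec]; ring
  · simp [Phi, h]

theorem g1_cons (hT : 0 < T) (hσ : σ < 1 / 2) (hA : MeasurableSet A) (b : Bool) (l : List Bool)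
    (u : ℝ) : g1 T σ A (b :: l) u =
      g1 T σ A l u + (sg b * xx σ l.length : ℝ) * g1 T σ A l (u - log l.length) := by
  have h := Phi_int hT hσ hA l
  rw [g1, funext (Phi_cons T σ A b l), II_add h (Integrable.const_mul (by
    simpa only [mul_neg] using ee_int h (-log l.length)) _), II_cmul, II_shift, g1]

theorem g0_cons (hT : 0 < T) (hσ : σ < 1 / 2) (hA : MeasurableSet A) (b : Bool) (l : List Bool)
    (u : ℝ) : g0 T σ A (b :: l) u =
      g0 T σ A l u + (sg b * xx σ l.length : ℝ) * g0 T σ A l (u - log l.length) := by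
  have h := aa_int hT (show 0 ≤ 1 / 2 - σ by linarith) (Phi_int hT hσ hA l)
  rw [g0, g0, ← II_shift, ← II_cmul, ← II_add h (Integrable.const_mul (by
    simpa only [mul_neg] using ee_int h (-log l.length)) _)]
  congr 1
  funext t
  rw [Phi_cons]; ring

theorem g1_rec (hT : 0 < T) (hσ : σ < 1 / 2) (hA : MeasurableSet A) (b : Bool) :
    Rec (xx σ) fun l u => cp b (g1 T σ A l u) := fun b' l u => by
  simp only [g1_cons hT hσ hA, cp_add, cp_mul]

theorem g0_rec (hT : 0 < T) (hσ : σ < 1 / 2) (hA : MeasurableSet A) (b : Bool) :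
    Rec (xx σ) fun l u => cp b (g0 T σ A l u) := fun b' l u => by
  simp only [g0_cons hT hσ hA, cp_add, cp_mul]

theorem g1_BC (hT : 0 < T) (hσ : σ < 1 / 2) (hA : MeasurableSet A) (b : Bool) (l : List Bool) :
    BC fun u => cp b (g1 T σ A l u) := II_BC (Phi_int hT hσ hA l) b

theorem g1_BC2 (hT : 0 < T) (hσ : σ < 1 / 2) (hA : MeasurableSet A) (l : List Bool) :
    BC fun u => ‖g1 T σ A l u‖ ^ 2 := (II_BCn (Phi_int hT hσ hA l)).pow 2

theorem g0_union (hT : 0 < T) (hσ : σ < 1 / 2) (hA : MeasurableSet A) {B : Set ℝ}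
    (hB : MeasurableSet B) (h : Disjoint A B) (l : List Bool) (u : ℝ) :
    g0 T σ (A ∪ B) l u = g0 T σ A l u + g0 T σ B l u := by
  have c : 0 ≤ 1 / 2 - σ := by linarith
  rw [g0, g0, g0, ← II_add (aa_int hT c (Phi_int hT hσ hA l)) (aa_int hT c (Phi_int hT hσ hB l))]
  simp only [Phi, Set.indicator_union_of_disjoint h, mul_add]

theorem g0_univ (hT : 0 < T) (hσ : σ < 1 / 2) (hA : MeasurableSet A) (l : List Bool) (u : ℝ) :
    g0 T σ Set.univ l u = g0 T σ A l u + g0 T σ Aᶜ l u := by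
  rw [← g0_union hT hσ hA hA.compl disjoint_compl_right, Set.union_compl_self]

end

/-- Telescoping along a path. -/
theorem Rec.tele {x : ℕ → ℝ} {F : List Bool → ℝ → ℝ} (h : Rec x F) (z : ℕ → Bool) (v : ℝ)
    {a b : ℕ} (hab : a ≤ b) : F (L z b) v - F (L z a) v =
      ∑ n ∈ Ico a b, sg (z n) * (x n * F (L z n) (v - log n)) := by
  induction b, hab using Nat.le_induction with
  | base => simp
  | succ b hb ih => rw [sum_Ico_succ_top hb, ← ih, L, h, L_len]; ring

end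

end Pool.Agent.Lib.RX
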