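import Pool.Agent.Lib.RX.Kit1

/-! Project rx29: parameters, measurability, masses. -/

namespace Pool.Agent.Lib.RX

open Finset Real MeasureTheory Filter Topology Pool.Agent.Lib.RM67 Pool.Agent.Lib.RM67.T96

noncomputable section

theorem Y_mono : Monotone Y := fun _ _ h =>
  Nat.pow_le_pow_right two_pos (Nat.pow_le_pow_right two_pos h)

theorem Y_lt {a b : ℕ} (h : a < b) : Y a < Y b :=
  Nat.pow_lt_pow_right one_lt_two (Nat.pow_lt_pow_right one_lt_two h)

theorem Y_pos (k : ℕ) : 0 < Y k := Nat.pos_of_ne_zero (by simp [Y])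

theorem log_Y (k : ℕ) : log (Y k) = 2 ^ k * log 2 := by simp [Y]

theorem lg_Y {j n : ℕ} (h : n ∈ Ico (Y j) (Y (j + 1))) : Nat.log 2 (Nat.log 2 n) = j := by
  obtain ⟨h1, h2⟩ := mem_Ico.1 h
  have h0 : n ≠ 0 := by have := Y_pos j; omega
  exact Nat.log_eq_of_pow_le_of_lt_pow (Nat.le_log_of_pow_le one_lt_two h1)
    (Nat.log_lt_of_lt_pow h0 h2)

theorem clog_Y (k : ℕ) : Nat.clog 2 (Nat.clog 2 (Y k)) = k := by
  simp [Y, Nat.clog_pow]

theorem log_mem {a b n : ℕ} (h : n ∈ Ico (2 ^ a) (2 ^ b)) :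
    a * log 2 ≤ log n ∧ log n ≤ b * log 2 := by
  obtain ⟨h1, h2⟩ := mem_Ico.1 h
  have h3 : (2 : ℝ) ^ a ≤ n := by exact_mod_cast h1
  have h4 : (n : ℝ) ≤ 2 ^ b := by exact_mod_cast h2.le
  rw [← log_pow, ← log_pow]
  exact ⟨log_le_log (by positivity) h3, log_le_log (lt_of_lt_of_le (by positivity) h3) h4⟩

theorem sig_pos (j : ℕ) : 0 < sig j := by unfold sig; positivity

theorem sig_le (j : ℕ) : sig j ≤ 1 / 4 :=
  one_div_le_one_div_of_le (by norm_num) (by linarith [one_le_pow₀ (n := j) (one_le_two (α := ℝ))])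

theorem sig_lt (j : ℕ) : sig j < 1 / 2 := by linarith [sig_le j]

theorem TT_pos (s : ℕ) : 0 < TT s := by unfold TT; positivity

theorem two_le_TT (s : ℕ) : 2 ≤ TT s :=
  le_self_pow₀ one_le_two (by simp [NE])

theorem Lam_pos (s j : ℕ) : 0 < Lam s j := by unfold Lam; positivity

theorem rho_pos (s j : ℕ) : 0 < rho s j := mul_pos (by positivity) (log_pos one_lt_two)

theorem cast_N0 (s : ℕ) : (N0 s : ℝ) = 2 ^ (16 * s) := by simp [N0]

theorem cast_NE (s : ℕ) : (NE s : ℝ) = 2 ^ 17 * 2 ^ (16 * s) := by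
  rw [NE, pow_add, mul_comm]; push_cast; norm_num

theorem cast_KK (s : ℕ) : (KK s : ℝ) = 2 ^ (2 * s) := by simp [KK]

theorem N0_pos (s : ℕ) : 1 ≤ N0 s := Nat.one_le_two_pow

theorem KK_pos (s : ℕ) : 1 ≤ KK s := Nat.one_le_two_pow

theorem NE_eq (s : ℕ) : NE s = 2 ^ 17 * N0 s := by rw [NE, N0, pow_add, mul_comm]

theorem card_JJ (s : ℕ) : ((JJ s).card : ℝ) ≤ 2 ^ 17 * 2 ^ (16 * s) := by
  rw [← cast_NE, JJ, Nat.card_Ico]; exact_mod_cast Nat.sub_le _ _

theorem card_Icc (s : ℕ) : ((Icc (N0 s) (NE s)).card : ℝ) ≤ 2 ^ 17 * 2 ^ (16 * s) := by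
  rw [← cast_NE, Nat.card_Icc]
  have := N0_pos s
  exact_mod_cast (by omega : NE s + 1 - N0 s ≤ NE s)

theorem sl_le {j n : ℕ} (h : n < Y (j + 1)) : 0 ≤ sig j * log n ∧ sig j * log n ≤ 7 / 40 := by
  refine ⟨mul_nonneg (sig_pos j).le (log_natCast_nonneg n), ?_⟩
  have h1 : log n ≤ log (Y (j + 1)) := by
    rcases n.eq_zero_or_pos with rfl | h0
    · simpa using log_natCast_nonneg _
    · exact log_le_log (by exact_mod_cast h0) (by exact_mod_cast h.le)
  rw [log_Y] at h1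
  calc _ ≤ sig j * (2 ^ (j + 1) * log 2) := mul_le_mul_of_nonneg_left h1 (sig_pos j).le
    _ = log 2 / 4 := by unfold sig; field_simp; ring
    _ ≤ _ := by linarith [log_two_lt_d9]

theorem xx_sq_le' {j n : ℕ} (h : n < Y (j + 1)) :
    xx (sig j) n ^ 2 ≤ r n * (1 + 27 / 10 * (sig j * log n)) := by
  obtain ⟨h1, h2⟩ := sl_le h
  have h3 := (abs_le.1 (Real.abs_exp_sub_one_sub_id_le (x := 2 * (sig j * log n))
    (by rw [abs_of_nonneg (by linarith)]; linarith))).2
  rw [xx_sq]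
  exact mul_le_mul_of_nonneg_left (by nlinarith) (r_nonneg n)

theorem xx_sq_le {j n : ℕ} (h : n < Y (j + 1)) : xx (sig j) n ^ 2 ≤ 3 / 2 * r n := by
  nlinarith [xx_sq_le' h, (sl_le h).2, r_nonneg n]

theorem sum_xx {j : ℕ} (S : Finset ℕ) (h : ∀ n ∈ S, n < Y (j + 1)) :
    ∑ n ∈ S, xx (sig j) n ^ 2 ≤ ∑ n ∈ S, r n + 2 := by
  have h1 : ∑ n ∈ S, r n * log n ≤ (2 ^ (j + 1) : ℕ) + 2 :=
    (sum_le_sum_of_subset_of_nonneg (fun n hn => mem_range.2 (h n hn)) fun n _ _ =>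
      mul_nonneg (r_nonneg n) (log_natCast_nonneg n)).trans (srl_le _)
  have h2 : (1 : ℝ) ≤ 2 ^ j := one_le_pow₀ one_le_two
  calc _ ≤ ∑ n ∈ S, (r n + 27 / 10 * sig j * (r n * log n)) :=
        sum_le_sum fun n hn => (xx_sq_le' (h n hn)).trans_eq (by ring)
    _ ≤ ∑ n ∈ S, r n + 27 / 10 * sig j * ((2 ^ (j + 1) : ℕ) + 2) := by
        rw [sum_add_distrib, ← mul_sum]
        have := sig_pos j
        gcongr
    _ ≤ _ := by
        refine add_le_add_right ?_ _
        rw [sig, mul_one_div, div_mul_eq_mul_div, div_le_iff₀ (by positivity)]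
        push_cast
        rw [pow_succ]
        linarith

theorem exp_xx_all {j n : ℕ} (h : n ≤ Y (j + 1)) :
    exp (∑ m ∈ range n, xx (sig j) m ^ 2) ≤ 2 * exp 20 * 2 ^ j := by
  have h1 := sum_xx (j := j) (range n) fun m hm => (mem_range.1 hm).trans_le h
  have h2 : ∑ m ∈ range n, r m ≤ log (2 ^ (j + 1) : ℕ) + 18 :=
    (sum_le_sum_of_subset_of_nonneg (range_mono h) fun n _ _ => r_nonneg n).trans
      (sr_le (Nat.le_self_pow (by omega) 2))
  calc _ ≤ exp (log (2 ^ (j + 1) : ℕ) + 20) := exp_le_exp.2 (by linarith)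
    _ = _ := by rw [exp_add, exp_log (by positivity)]; push_cast; ring

theorem sr_blk {a b : ℕ} (ha : 5 ≤ a) (h : a ≤ b) :
    exp (∑ n ∈ Ico (Y a) (Y b), r n) ≤ 3 * 2 ^ (b - a) := by
  have h0 : 32 ≤ 2 ^ a := Nat.pow_le_pow_right (n := 2) two_pos ha
  have h1 := sr_Ico (a := 2 ^ a) (b := 2 ^ b) (by omega) (Nat.pow_le_pow_right two_pos h)
  have h2 : (32 : ℝ) / (2 ^ a : ℕ) ≤ 1 := (div_le_one (by positivity)).2 (by exact_mod_cast h0)
  calc _ ≤ exp (log ((2 ^ b : ℕ) / (2 ^ a : ℕ)) + 1) := exp_le_exp.2 (h1.trans (by linarith))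
    _ = exp 1 * 2 ^ (b - a) := by
        rw [exp_add, exp_log (by positivity), pow_sub₀ _ two_ne_zero h]; push_cast; ring
    _ ≤ _ := by gcongr; linarith [exp_one_lt_d9]

/-- The facts about the parameters of a block. -/
structure Par (s j : ℕ) : Prop where
  s_ge : 6144 ≤ s
  lt_NE : j < NE s
  N_le : N0 s + KK s ≤ mm s j
  N3 : 3 * N0 s ≤ 2 * mm s j
  m_add : mm s j + (Nat.log 2 s + 10) = j
  lo2 : 512 * s < 2 ^ (j - mm s j)
  hi2 : 2 ^ (j - mm s j) ≤ 1024 * s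
  big : 2440 * NE s ≤ 2 ^ mm s j
  KJ : 64 * s + J0 s ≤ KK s
  K4 : 4 * KK s ≤ N0 s

theorem ev_par0 : ∀ᶠ s : ℕ in atTop, 6144 ≤ s ∧ 64 * s + J0 s ≤ KK s ∧ 4 * KK s ≤ N0 s ∧
    2440 * NE s ≤ 2 ^ N0 s := by
  filter_upwards [eventually_ge_atTop 6144] with s hs
  have h1 : s < 2 ^ s := Nat.lt_two_pow_self
  have h2 : KK s = 2 ^ s * 2 ^ s := by rw [KK, two_mul, pow_add]
  have h3 : 64 * s + J0 s ≤ KK s := by rw [h2, J0]; nlinarith
  have h4 : 4 * KK s ≤ N0 s := by
    rw [KK, N0, show 4 * 2 ^ (2 * s) = 2 ^ (2 * s + 2) by ring]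
    exact Nat.pow_le_pow_right two_pos (by omega)
  refine ⟨hs, h3, h4, ?_⟩
  calc 2440 * NE s ≤ 2 ^ 12 * NE s := Nat.mul_le_mul_right _ (by norm_num)
    _ = 2 ^ (16 * s + 29) := by rw [NE]; ring
    _ ≤ _ := Nat.pow_le_pow_right two_pos (by unfold J0 at h3; omega)

theorem par : ∀ᶠ s : ℕ in atTop, ∀ j ∈ JJ s, Par s j := by
  filter_upwards [ev_par0] with s ⟨h1, h2, h3, h4⟩ j hj
  obtain ⟨a, b⟩ := mem_Ico.1 hj
  have c : Nat.log 2 s ≤ s := Nat.log_le_self 2 s
  have e : j - mm s j = Nat.log 2 s + 10 := by unfold mm; omega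
  have f1 := Nat.lt_pow_succ_log_self one_lt_two s
  have f2 := Nat.pow_log_le_self 2 (show s ≠ 0 by omega)
  refine ⟨h1, b, by unfold mm; omega, by unfold mm; omega, by unfold mm; omega, ?_, ?_,
    h4.trans (Nat.pow_le_pow_right two_pos (by unfold mm; omega)), h2, h3⟩
  · rw [e, pow_add]; rw [Nat.succ_eq_add_one, pow_succ] at f1; omega
  · rw [e, pow_add]; omega

namespace Par

variable {s j : ℕ} (h : Par s j)
include h

theorem m_le : mm s j ≤ j := by have := h.m_add; omega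

theorem s_le : 64 * s ≤ mm s j := by have := h.N_le; have := h.KJ; omega

theorem K4j : 4 * KK s ≤ j := by have := h.N_le; have := h.K4; have := h.m_le; omega

theorem Ym : Y (mm s j) ≤ Y j := Y_mono h.m_le

theorem Ym' : Y (mm s j) ≤ Y (j + 1) := Y_mono (h.m_le.trans (Nat.le_succ j))

theorem m_mem : mm s j ∈ Icc (N0 s) (NE s) := by
  have := h.N_le; have := h.lt_NE; have := h.m_le
  exact mem_Icc.2 (by omega)

theorem i_mem {i : ℕ} (hi : i ∈ Ioc (mm s j - KK s) (mm s j)) : i ∈ Icc (N0 s) (NE s) := by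
  have := h.N_le; have := h.lt_NE; have := h.m_le; have := mem_Ioc.1 hi
  exact mem_Icc.2 (by omega)

theorem a64 {a : ℕ} (ha : mm s j ≤ a) : 64 ≤ 2 ^ a := by
  have := h.s_le; have := h.s_ge; have := Nat.lt_two_pow_self (n := a); omega

theorem T4 {a : ℕ} (ha : mm s j ≤ a) : TT s ^ 4 ≤ 2 ^ 2 ^ a := by
  rw [TT, ← pow_mul]
  have := h.big
  have := Nat.pow_le_pow_right (n := 2) two_pos ha
  exact pow_le_pow_right₀ one_le_two (by omega)

theorem T4' {a : ℕ} (ha : mm s j ≤ a) : ((2 : ℝ) ^ (32 * s)) ^ 4 ≤ 2 ^ 2 ^ a := by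
  rw [← pow_mul]
  have := h.big; have := NE_eq s; have := h.K4; have := h.KJ
  have := Nat.pow_le_pow_right (n := 2) two_pos ha
  exact pow_le_pow_right₀ one_le_two (by omega)

theorem exp_r' : exp (∑ n ∈ Ico (Y (mm s j)) (Y (j + 1)), r n) ≤ 6 * 2 ^ (j - mm s j) := by
  have := h.s_le; have := h.s_ge; have := h.m_le
  refine (sr_blk (by omega) (by omega)).trans_eq ?_
  rw [Nat.succ_sub h.m_le, pow_succ]; ring

theorem exp_r : exp (∑ n ∈ Ico (Y (mm s j)) (Y (j + 1)), r n) ≤ (s : ℝ) ^ 2 := by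
  have h1 : (2 : ℝ) ^ (j - mm s j) ≤ 1024 * s := by exact_mod_cast h.hi2
  have h2 : (6144 : ℝ) ≤ s := by exact_mod_cast h.s_ge
  nlinarith [h.exp_r']

theorem exp_xx' : exp (∑ n ∈ Ico (Y (mm s j)) (Y (j + 1)), xx (sig j) n ^ 2) ≤
    54 * 2 ^ (j - mm s j) := by
  refine (exp_le_exp.2 (sum_xx _ fun n hn => (mem_Ico.1 hn).2)).trans ?_
  have : exp 2 ≤ 9 := by
    rw [show (2 : ℝ) = 1 + 1 by norm_num, exp_add]; nlinarith [exp_one_lt_d9, exp_pos 1]
  rw [exp_add]
  nlinarith [h.exp_r', exp_pos (∑ n ∈ Ico (Y (mm s j)) (Y (j + 1)), r n)]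

theorem exp_xx : exp (∑ n ∈ Ico (Y (mm s j)) (Y (j + 1)), xx (sig j) n ^ 2) ≤ (s : ℝ) ^ 3 := by
  have h1 : (2 : ℝ) ^ (j - mm s j) ≤ 1024 * s := by exact_mod_cast h.hi2
  have h2 : (6144 : ℝ) ≤ s := by exact_mod_cast h.s_ge
  nlinarith [h.exp_xx', mul_le_mul h2 h2 (by norm_num) (by positivity)]

theorem s_lt : s < j := by have := h.s_le; have := h.m_le; have := h.s_ge; omega

theorem two_pow : 2 ^ j = 2 ^ s * 2 ^ (j - s) := by
  rw [← pow_add, Nat.add_sub_cancel' h.s_lt.le]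

theorem PP_top : PP s j (2 ^ s) = Y (j + 1) := by
  rw [PP, ← h.two_pow, Y, pow_succ 2 j, mul_two]

theorem log_PP (i : ℕ) : ((2 ^ j + i * 2 ^ (j - s) : ℕ) : ℝ) * log 2 = (2 ^ s + i) * rho s j := by
  rw [h.two_pow, rho]; push_cast; ring

theorem one_le_rho : 1 ≤ rho s j := by
  have h1 : (2 : ℝ) ^ 1 ≤ 2 ^ (j - s) := pow_le_pow_right₀ one_le_two (by have := h.s_lt; omega)
  unfold rho
  nlinarith [log_two_gt_d9]

theorem rho_sig : rho s j * sig j = log 2 / (8 * 2 ^ s) := by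
  have : (2 : ℝ) ^ j = 2 ^ s * 2 ^ (j - s) := by exact_mod_cast h.two_pow
  rw [rho, sig, this]; field_simp

end Par

theorem PP_zero (s j : ℕ) : PP s j 0 = Y j := by simp [PP, Y]

theorem PP_mono (s j : ℕ) : Monotone (PP s j) := fun _ _ h =>
  Nat.pow_le_pow_right two_pos (Nat.add_le_add_left (Nat.mul_le_mul_right _ h) _)

theorem Par.PP_ge {s j : ℕ} (h : Par s j) (i : ℕ) : Y (mm s j) ≤ PP s j i :=
  h.Ym.trans ((PP_zero s j).ge.trans (PP_mono s j (Nat.zero_le i)))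

theorem Par.PP_le {s j : ℕ} (h : Par s j) {i : ℕ} (hi : i ≤ 2 ^ s) : PP s j i ≤ Y (j + 1) :=
  (PP_mono s j hi).trans h.PP_top.le

theorem Par.piece {s j : ℕ} (h : Par s j) {i : ℕ} (hi : i < 2 ^ s) :
    ∑ n ∈ Ico (PP s j i) (PP s j (i + 1)), xx (sig j) n ^ 2 ≤ 3 / 2 ^ s := by
  have h0 := h.a64 h.m_le
  have h1 := sr_Ico (a := 2 ^ j + i * 2 ^ (j - s)) (b := 2 ^ j + (i + 1) * 2 ^ (j - s))
    (by omega) (by rw [add_mul]; omega)
  have e : (2 : ℝ) ^ j = 2 ^ s * 2 ^ (j - s) := by exact_mod_cast h.two_pow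
  have h5 : (2 : ℝ) ^ 5 ≤ 2 ^ (j - s) := pow_le_pow_right₀ one_le_two (by
    have := h.s_le; have := h.m_le; have := h.s_ge; omega)
  have p : (0 : ℝ) < 2 ^ s := by positivity
  have i0 : (0 : ℝ) ≤ i * 2 ^ (j - s) := by positivity
  have h2 := log_le_sub_one_of_pos (x := ((2 ^ j + (i + 1) * 2 ^ (j - s) : ℕ) : ℝ) /
    (2 ^ j + i * 2 ^ (j - s) : ℕ)) (by positivity)
  have h3 : ((2 ^ j + (i + 1) * 2 ^ (j - s) : ℕ) : ℝ) / (2 ^ j + i * 2 ^ (j - s) : ℕ) - 1 ≤
      1 / 2 ^ s := by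
    rw [div_sub_one (by positivity), div_le_div_iff₀ (by positivity) p]; push_cast; nlinarith
  have h4 : (32 : ℝ) / (2 ^ j + i * 2 ^ (j - s) : ℕ) ≤ 1 / 2 ^ s := by
    rw [div_le_div_iff₀ (by positivity) p]; push_cast; nlinarith
  calc _ ≤ ∑ n ∈ Ico (PP s j i) (PP s j (i + 1)), 3 / 2 * r n :=
        sum_le_sum fun n hn => xx_sq_le ((mem_Ico.1 hn).2.trans_le (h.PP_le hi))
    _ ≤ 3 / 2 * (1 / 2 ^ s + 1 / 2 ^ s) := by
        rw [← mul_sum]; unfold PP; linarith
    _ = _ := by ring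

/-- The geometric sum over the net. -/
theorem Par.geom {s j : ℕ} (h : Par s j) (M : ℕ) :
    ∑ k ∈ range M, exp (-(2 * (k * rho s j * sig j))) ≤ 7 * 2 ^ s := by
  set y := 2 * (rho s j * sig j) with hy
  have p : (1 : ℝ) ≤ 2 ^ s := one_le_pow₀ one_le_two
  have y0 : 1 / (6 * 2 ^ s) ≤ y := by
    rw [hy, h.rho_sig, ← mul_div_assoc, div_le_div_iff₀ (by positivity) (by positivity)]
    nlinarith [log_two_gt_d9]
  have y1 : 0 < y := lt_of_lt_of_le (by positivity) y0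
  have q1 : exp (-y) < 1 := exp_lt_one_iff.2 (by linarith)
  have q2 : exp (-y) * (y + 1) ≤ 1 := by
    rw [exp_neg, inv_mul_le_iff₀ (exp_pos y), mul_one]; exact add_one_le_exp y
  calc _ = ∑ k ∈ range M, exp (-y) ^ k := sum_congr rfl fun k _ => by
        rw [← exp_nat_mul, hy]; congr 1; ring
    _ ≤ (1 - exp (-y))⁻¹ := by
        rw [← tsum_geometric_of_lt_one (exp_pos _).le q1]
        exact (summable_geometric_of_lt_one (exp_pos _).le q1).sum_le_tsum _ fun _ _ => by positivity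
    _ ≤ _ := by
        rw [inv_le_iff_one_le_mul₀ (by linarith)]
        rw [div_le_iff₀ (by positivity)] at y0
        nlinarith [exp_pos (-y), mul_pos y1 (exp_pos (-y))]

theorem mu_int (i : ℕ) (l : List Bool) (t : ℝ) :
    Integrable fun t' => R l t' / (1 + (2 ^ i) ^ 2 * (t - t') ^ 2) * dens t' :=
  bd_int ((R_cont l).div (by fun_prop) fun _ => by positivity) (C := 2 ^ l.length) fun t' => by
    have := R_pos t' l
    rw [abs_of_pos (by positivity)]
    exact (div_le_self this.le (le_add_of_nonneg_right (by positivity))).trans (R_le t' l)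

theorem mu_cont (i : ℕ) (l : List Bool) : Continuous (mu i l) :=
  continuous_of_dominated (bound := fun t => R l t * dens t)
    (fun t => (mu_int i l t).aestronglyMeasurable)
    (fun t => Eventually.of_forall fun t' => by
      have := R_pos t' l
      have := dens_pos t'
      rw [norm_of_nonneg (by positivity)]
      gcongr
      exact div_le_self (by positivity) (le_add_of_nonneg_right (by positivity))) (R_int l)
    (Eventually.of_forall fun t' =>
      (continuous_const.div (by fun_prop) fun _ => by positivity).mul continuous_const)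

theorem mu_nonneg (i : ℕ) (l : List Bool) (t : ℝ) : 0 ≤ mu i l t :=
  integral_nonneg fun t' => by have := R_pos t' l; have := dens_pos t'; positivity

theorem DD_cont (k : ℕ) : Continuous (DD k) := by unfold DD; fun_prop

theorem Ph_cont (k : ℕ) : Continuous (Ph k) := by
  have := DD_cont
  unfold Ph; fun_prop

theorem WW_cont : ∀ l, Continuous (WW l)
  | [] => continuous_const
  | _ :: l => ((WW_cont l).add ((continuous_const.mul (bb_cont _)).sub ((bb_cont _).pow 2)) :)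

theorem ab_cont (Λ : ℝ) (k : ℕ) : Continuous (ab Λ k) :=
  ((continuous_const.add (Continuous.log (by fun_prop) fun _ => by positivity)).add
    (Ph_cont k)).add continuous_const

theorem Rl_cont (γ : ℝ) (n : ℕ) : ∀ l, Continuous (Rl γ n l)
  | [] => continuous_const
  | _ :: l => ((Rl_cont γ n l).mul (continuous_const.add (continuous_const.mul (bb_cont _))) :)

theorem gd_meas (s : ℕ) : MeasurableSet (gd s) := by
  have := DD_cont
  exact ((isClosed_le continuous_abs continuous_const).inter (isClosed_le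
    (f := fun t => ∑ k ∈ Ico (64 * s) (NE s), |DD k t|) (by fun_prop) continuous_const)).measurableSet

theorem hi_meas (s i : ℕ) (l : List Bool) : MeasurableSet (hi s i l) :=
  (isClosed_le continuous_const (R_cont l)).measurableSet

theorem lo0_meas (s i : ℕ) (l : List Bool) : MeasurableSet (lo0 s i l) :=
  (isOpen_lt continuous_const (mu_cont i l)).measurableSet

theorem lo_meas (s i : ℕ) (l : List Bool) : MeasurableSet (lo s i l) := lo0_meas _ _ _

theorem los_meas (s : ℕ) (S : Finset ℕ) (l : List Bool) :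
    MeasurableSet {t | ∃ i ∈ S, t ∈ lo s i l} := by
  rw [show {t | ∃ i ∈ S, t ∈ lo s i l} = ⋃ i ∈ S, lo s i l by ext; simp]
  exact S.measurableSet_biUnion fun i _ => lo_meas s i l

theorem cm_meas (s j : ℕ) (l : List Bool) : MeasurableSet (cm s j l) :=
  (isClosed_le ((Ec_cont _ l).norm.pow 2) (continuous_const.mul (R_cont l))).measurableSet

theorem sO_meas (s j : ℕ) (l : List Bool) : MeasurableSet (sO s j l) :=
  ((gd_meas s).inter (cm_meas s j l)).compl

theorem sB_meas (s j : ℕ) (l : List Bool) : MeasurableSet (sB s j l) :=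
  ((gd_meas s).inter (cm_meas s j l)).inter (los_meas _ _ _)

theorem sG_meas (s j : ℕ) (l : List Bool) : MeasurableSet (sG s j l) :=
  ((gd_meas s).inter (cm_meas s j l)).diff (los_meas _ _ _)

theorem sBk_meas (s j : ℕ) (k : ℤ) (l : List Bool) : MeasurableSet (sBk s j k l) :=
  (sB_meas s j l).inter measurableSet_Ico

theorem kap_meas (s i : ℕ) (l : List Bool) : MeasurableSet (kap s i l) :=
  (gd_meas s).diff (los_meas _ _ _)

theorem lo_self {s i : ℕ} {l : List Bool} (h : l.length = Y i) : lo s i l = lo0 s i l := by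
  rw [lo, anc_of_le h.le]

theorem lo_L (s : ℕ) (z : ℕ → Bool) {i n : ℕ} (h : Y i ≤ n) :
    lo s i (L z n) = lo0 s i (L z (Y i)) := by rw [lo, anc_L z h]

theorem ms_nonneg (A : Set ℝ) (l : List Bool) : 0 ≤ ms A l :=
  integral_nonneg fun t => (mul_pos (R_pos t l) (dens_pos t)).le

theorem ms_mono {A B : Set ℝ} (h : A ⊆ B) (l : List Bool) : ms A l ≤ ms B l :=
  setIntegral_mono_set (R_int l).integrableOn
    (Eventually.of_forall fun t => (mul_pos (R_pos t l) (dens_pos t)).le) h.eventuallyLE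

theorem ms_le_NN (A : Set ℝ) (l : List Bool) : ms A l ≤ NN l := by
  simpa [ms, NN] using ms_mono (Set.subset_univ A) l

theorem ms_union (A : Set ℝ) {B : Set ℝ} (hB : MeasurableSet B) (l : List Bool) :
    ms (A ∪ B) l ≤ ms A l + ms B l := by
  have h := ms_mono (Set.sdiff_subset (s := A) (t := B)) l
  unfold ms at h ⊢
  rw [← Set.sdiff_union_self, setIntegral_union Set.disjoint_sdiff_left hB (R_int l).integrableOn
    (R_int l).integrableOn]
  linarith

theorem ms_los (s : ℕ) (S : Finset ℕ) (l l' : List Bool) :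
    ms (gd s ∩ {t | ∃ i ∈ S, t ∈ lo s i l}) l' ≤ ∑ i ∈ S, ms (gd s ∩ lo s i l) l' := by
  induction S using Finset.induction_on with
  | empty => simp [ms]
  | insert i S hi ih =>
    rw [sum_insert hi]
    refine le_trans (ms_mono (fun t ht => ?_) l') ((ms_union (gd s ∩ lo s i l)
      ((gd_meas s).inter (los_meas s S l)) l').trans (add_le_add_right ih _))
    obtain ⟨h1, k, hk, h2⟩ := ht
    rcases mem_insert.1 hk with rfl | hk
    exacts [Or.inl ⟨h1, h2⟩, Or.inr ⟨h1, k, hk, h2⟩]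

theorem av_ms (A : Set ℝ) (hA : MeasurableSet A) (l : List Bool) (k : ℕ) :
    av k (fun e => ms A (e ++ l)) = ms A l := by
  simp only [ms, ← integral_indicator hA]
  rw [(av_int _ fun e => (R_int (e ++ l)).indicator hA).2]
  congr 1
  funext t
  by_cases h : t ∈ A
  · simp only [Set.indicator_of_mem h, mul_comm _ (dens t), av_mul, av_R_app]
  · simp only [Set.indicator_of_notMem h, av_const]

theorem av_GG_ms (Λ : ℝ) (A : Set ℝ) (hA : MeasurableSet A) (l : List Bool) (k : ℕ) :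
    av k (fun e => GG Λ (e ++ l) * ms A (e ++ l)) ≤ GG Λ l * ms A l := by
  rw [← av_ms A hA l k, ← av_mul]
  exact av_mono fun e _ => mul_le_mul_of_nonneg_right (GG_app Λ e l) (ms_nonneg _ _)

theorem av_NN (n : ℕ) : av n NN ≤ 1 := (av_sup0 n NN fun l _ => (NN_step l).le).trans NN_nil.le

theorem Mx_nonneg (s i : ℕ) (l : List Bool) : 0 ≤ Mx s i l :=
  add_nonneg (add_nonneg (ms_nonneg _ _) (ms_nonneg _ _)) (div_nonneg (NN_nonneg l) (by positivity))

theorem nP_nonneg (s j : ℕ) (A : Set ℝ) (l : List Bool) : 0 ≤ nP s j A l :=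
  integral_nonneg fun _ => sq_nonneg _

theorem SA_nonneg (s j : ℕ) (A : Set ℝ) (b : Bool) (l : List Bool) : 0 ≤ SA s j A b l :=
  Wn_nonneg _ _ fun u => add_nonneg (by positivity) (mul_nonneg zero_le_two (mx_nonneg _ _ _ _))

theorem Er_nonneg (s j k : ℕ) (A : Set ℝ) (l : List Bool) : 0 ≤ Er s j k A l :=
  sum_nonneg fun _ _ => Wn_nonneg _ _ fun _ => mx_nonneg _ _ _ _

/-- Pointwise bound inside the comparison set. -/
theorem Par.Phi_cm {s j : ℕ} (h : Par s j) {A : Set ℝ} {l : List Bool} (hA : A ⊆ cm s j l) (t : ℝ) :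
    ‖Phi (TT s) (sig j) A l t‖ ^ 2 ≤
      16 * π * exp 18 * 2 ^ mm s j * A.indicator (fun t => R l t * dens t) t := by
  refine (Phi_sq (TT_pos s) (sig_le j) A l t).trans ?_
  by_cases ht : t ∈ A
  · have h1 : ‖Ec (sig j) l t‖ ^ 2 ≤ 2 * Pr (Y (mm s j)) * R l t := hA ht
    have h2 : Pr (Y (mm s j)) ≤ exp 18 * (2 ^ mm s j : ℕ) :=
      Pr_le (by have := h.a64 le_rfl; omega)
    have := R_pos t l
    have := dens_pos t
    rw [Set.indicator_of_mem ht, Set.indicator_of_mem ht]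
    push_cast at h2
    calc _ ≤ 8 * π * (2 * (exp 18 * 2 ^ mm s j) * R l t * dens t) := by
          gcongr; exact h1.trans (by gcongr)
      _ = _ := by ring
  · simp [ht]

theorem Par.nP_le {s j : ℕ} (h : Par s j) {A : Set ℝ} {l : List Bool} (hm : MeasurableSet A)
    (hA : A ⊆ cm s j l) : nP s j A l ≤ 16 * π * exp 18 * 2 ^ mm s j * ms A l := by
  rw [ms, ← integral_indicator hm, ← integral_const_mul]
  exact integral_mono (Phi_int2 (TT_pos s) (sig_le j) hm l)
    (((R_int l).indicator hm).const_mul _) (h.Phi_cm hA)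

end

end Pool.Agent.Lib.RX
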